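import Pool.Agent.Helper686_FJ.Lin2
import Pool.Agent.Y430.SS.Lf
import Pool.Agent.Y529.FJ.Ext

/-!
# `GL₂(ℤ)` lies in the class
-/

set_option autoImplicit false

namespace Pool.Agent.Helper686_FJ

namespace GLP

open Pool.Agent.Y110.FJ Pool.Agent.R684.FP Pool.Agent.H694.TR
open Pool.Agent.R941.FJ (C_equiv C_le)
open Pool.Agent.Y430.SS (of_directed of_finite)

variable {C : ∀ (G : Type) [Group G], Prop}

theorem val_congr {R : Type} [Ring R] {A B : G2 R} (h : A = B) (i j : Fin 2) :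
    A.1 i j = B.1 i j := by
  rw [h]

/-- upper unitriangular matrices -/
def uz (k : ℤ) : G2 ℤ where
  val := !![1, k; 0, 1]
  inv := !![1, -k; 0, 1]
  val_inv := by
    rw [Matrix.mul_fin_two, Matrix.one_fin_two]
    simp
  inv_val := by
    rw [Matrix.mul_fin_two, Matrix.one_fin_two]
    simp

/-- lower unitriangular matrices -/
def lz (k : ℤ) : G2 ℤ where
  val := !![1, 0; k, 1]
  inv := !![1, 0; -k, 1]
  val_inv := by
    rw [Matrix.mul_fin_two, Matrix.one_fin_two]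
    simp
  inv_val := by
    rw [Matrix.mul_fin_two, Matrix.one_fin_two]
    simp

/-- diagonal matrices -/
def dz (a b : ℤˣ) : G2 ℤ where
  val := !![(a : ℤ), 0; 0, (b : ℤ)]
  inv := !![(a : ℤ), 0; 0, (b : ℤ)]
  val_inv := by
    rw [Matrix.mul_fin_two, Matrix.one_fin_two]
    simp
  inv_val := by
    rw [Matrix.mul_fin_two, Matrix.one_fin_two]
    simp

theorem uz_mul (k l : ℤ) : uz k * uz l = uz (k + l) := by
  apply Units.ext
  change !![1, k; 0, 1] * !![1, l; 0, 1] = !![1, k + l; 0, 1]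
  rw [Matrix.mul_fin_two]
  simp [add_comm]

theorem lz_mul (k l : ℤ) : lz k * lz l = lz (k + l) := by
  apply Units.ext
  change !![1, 0; k, 1] * !![1, 0; l, 1] = !![1, 0; k + l, 1]
  rw [Matrix.mul_fin_two]
  simp [add_comm]

theorem uz_inv (k : ℤ) : (uz k)⁻¹ = uz (-k) := Units.ext rfl

theorem lz_inv (k : ℤ) : (lz k)⁻¹ = lz (-k) := Units.ext rfl

theorem dz_inv (a b : ℤˣ) : (dz a b)⁻¹ = dz a b := Units.ext rfl

theorem dz_mul (a b c d : ℤˣ) : dz a b * dz c d = dz (a * c) (b * d) := by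
  apply Units.ext
  change !![(a : ℤ), 0; 0, (b : ℤ)] * !![(c : ℤ), 0; 0, (d : ℤ)] =
    !![((a * c : ℤˣ) : ℤ), 0; 0, ((b * d : ℤˣ) : ℤ)]
  rw [Matrix.mul_fin_two]
  simp

theorem uz_zero : uz 0 = 1 := by
  apply Units.ext
  change !![(1 : ℤ), 0; 0, 1] = 1
  rw [Matrix.one_fin_two]

theorem lz_zero : lz 0 = 1 := by
  apply Units.ext
  change !![(1 : ℤ), 0; 0, 1] = 1
  rw [Matrix.one_fin_two]

theorem dz_one : dz 1 1 = 1 := by
  apply Units.ext
  change !![((1 : ℤˣ) : ℤ), 0; 0, ((1 : ℤˣ) : ℤ)] = 1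
  rw [Matrix.one_fin_two]
  simp

/-- the two unipotent groups -/
def UZ : Fin 2 → Subgroup (G2 ℤ)
  | 0 =>
    { carrier := {A | ∃ k, A = uz (2 * k)}
      one_mem' := ⟨0, by rw [mul_zero, uz_zero]⟩
      mul_mem' := by
        rintro _ _ ⟨k, rfl⟩ ⟨l, rfl⟩
        exact ⟨k + l, by rw [uz_mul, mul_add]⟩
      inv_mem' := by
        rintro _ ⟨k, rfl⟩
        exact ⟨-k, by rw [uz_inv, mul_neg]⟩ }
  | 1 =>
    { carrier := {A | ∃ k, A = lz (2 * k)}
      one_mem' := ⟨0, by rw [mul_zero, lz_zero]⟩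
      mul_mem' := by
        rintro _ _ ⟨k, rfl⟩ ⟨l, rfl⟩
        exact ⟨k + l, by rw [lz_mul, mul_add]⟩
      inv_mem' := by
        rintro _ ⟨k, rfl⟩
        exact ⟨-k, by rw [lz_inv, mul_neg]⟩ }

/-- the diagonal matrices -/
def DZ : Subgroup (G2 ℤ) where
  carrier := {A | ∃ a b, A = dz a b}
  one_mem' := ⟨1, 1, dz_one.symm⟩
  mul_mem' := by
    rintro _ _ ⟨a, b, rfl⟩ ⟨c, d, rfl⟩
    exact ⟨a * c, b * d, dz_mul a b c d⟩
  inv_mem' := by
    rintro _ ⟨a, b, rfl⟩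
    exact ⟨a, b, dz_inv a b⟩

instance actZ : MulAction (G2 ℤ) (Fin 2 → ℤ) where
  smul A a := A.1.mulVec a
  one_smul a := Matrix.one_mulVec a
  mul_smul A B a := (Matrix.mulVec_mulVec a A.1 B.1).symm

/-- ping-pong sets -/
def PZ : Fin 2 → Set (Fin 2 → ℤ)
  | 0 => {v | |v 1| < |v 0|}
  | 1 => {v | |v 0| < |v 1|}

theorem grow {x y k : ℤ} (h : |x| < |y|) (hk : k ≠ 0) : |y| < |x + 2 * k * y| := by
  have h1 : 1 ≤ |k| := Int.one_le_abs hk
  have h2 : |2 * k * y| = 2 * |k| * |y| := by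
    rw [abs_mul, abs_mul]
    norm_num
  have h3 : |2 * k * y| ≤ |x + 2 * k * y| + |x| := by
    have := abs_sub (x + 2 * k * y) x
    have e : x + 2 * k * y - x = 2 * k * y := by ring
    rwa [e] at this
  have h4 : 0 ≤ |y| := abs_nonneg y
  nlinarith

theorem free_injZ : Function.Injective
    (Monoid.CoprodI.lift fun i : Fin 2 => (UZ i).subtype) := by
  refine Monoid.CoprodI.lift_injective_of_ping_pong _ (Or.inr ⟨0, ?_⟩)
    PZ ?_ ?_ ?_
  · let f : Fin 3 → UZ 0 := fun i => ⟨uz (2 * (i : ℤ)), (i : ℤ), rfl⟩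
    have hf : Function.Injective f := by
      intro i j hij
      have h1 : uz (2 * (i : ℤ)) = uz (2 * (j : ℤ)) := congrArg Subtype.val hij
      have h2 := val_congr h1 0 1
      have h3 : (2 : ℤ) * (i : ℤ) = 2 * (j : ℤ) := by simpa [uz] using h2
      apply Fin.ext
      omega
    have := Cardinal.mk_le_of_injective hf
    simpa using this
  · intro i
    fin_cases i
    · exact ⟨![1, 0], by simp [PZ]⟩
    · exact ⟨![0, 1], by simp [PZ]⟩
  · intro i j hij
    change Disjoint (PZ i) (PZ j)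
    rw [Set.disjoint_left]
    intro v h1 h2
    fin_cases i <;> fin_cases j
    · exact hij rfl
    · exact lt_asymm (show |v 1| < |v 0| from h1) h2
    · exact lt_asymm (show |v 0| < |v 1| from h1) h2
    · exact hij rfl
  · intro i j hij u hu
    rintro _ ⟨v, hv, rfl⟩
    change ((u : G2 ℤ).1).mulVec v ∈ PZ i
    obtain ⟨u, hu1⟩ := u
    fin_cases i <;> fin_cases j
    · exact absurd rfl hij
    · obtain ⟨k, rfl⟩ := hu1
      have hk : k ≠ 0 := by
        rintro rfl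
        apply hu
        apply Subtype.ext
        change uz (2 * 0) = 1
        rw [mul_zero, uz_zero]
      have hv' : |v 0| < |v 1| := hv
      change |(!![(1 : ℤ), 2 * k; 0, 1].mulVec v) 1| < |(!![(1 : ℤ), 2 * k; 0, 1].mulVec v) 0|
      simp only [Matrix.mulVec, dotProduct, Fin.sum_univ_two, Matrix.of_apply, Matrix.cons_val_zero,
        Matrix.cons_val_one, zero_mul, one_mul, zero_add]
      exact grow hv' hk
    · obtain ⟨k, rfl⟩ := hu1
      have hk : k ≠ 0 := by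
        rintro rfl
        apply hu
        apply Subtype.ext
        change lz (2 * 0) = 1
        rw [mul_zero, lz_zero]
      have hv' : |v 1| < |v 0| := hv
      change |(!![(1 : ℤ), 0; 2 * k, 1].mulVec v) 0| < |(!![(1 : ℤ), 0; 2 * k, 1].mulVec v) 1|
      simp only [Matrix.mulVec, dotProduct, Fin.sum_univ_two, Matrix.of_apply, Matrix.cons_val_zero,
        Matrix.cons_val_one, zero_mul, one_mul, add_zero]
      rw [add_comm]
      exact grow hv' hk
    · exact absurd rfl hij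

/-- the Sanov subgroup -/
def NZ : Subgroup (G2 ℤ) := ⨆ i, UZ i

theorem uz_mem (k : ℤ) : uz (2 * k) ∈ NZ := (le_iSup UZ 0 : UZ 0 ≤ NZ) ⟨k, rfl⟩

theorem lz_mem (k : ℤ) : lz (2 * k) ∈ NZ := (le_iSup UZ 1 : UZ 1 ≤ NZ) ⟨k, rfl⟩

/-- a congruence subgroup which contains the Sanov subgroup -/
def BZ : Subgroup (G2 ℤ) where
  carrier := {A | A.1.det = 1 ∧ (4 : ℤ) ∣ A.1 0 0 - 1 ∧ (2 : ℤ) ∣ A.1 0 1 ∧ (2 : ℤ) ∣ A.1 1 0 ∧
    (4 : ℤ) ∣ A.1 1 1 - 1}
  one_mem' := by simp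
  mul_mem' := by
    rintro A B ⟨h1, ⟨a, ha⟩, ⟨b, hb⟩, ⟨c, hc⟩, ⟨d, hd⟩⟩ ⟨h1', ⟨a', ha'⟩, ⟨b', hb'⟩, ⟨c', hc'⟩, ⟨d', hd'⟩⟩
    have e : ∀ i j, (A * B).1 i j = A.1 i 0 * B.1 0 j + A.1 i 1 * B.1 1 j := by
      intro i j
      change (A.1 * B.1) i j = _
      rw [Matrix.mul_apply, Fin.sum_univ_two]
    refine ⟨?_, ?_, ?_, ?_, ?_⟩
    · change (A.1 * B.1).det = 1
      rw [Matrix.det_mul, h1, h1', one_mul]
    · rw [e]
      rw [sub_eq_iff_eq_add] at ha ha'
      rw [ha, ha', hb, hc']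
      exact ⟨4 * a * a' + a + a' + b * c', by ring⟩
    · rw [e]
      rw [sub_eq_iff_eq_add] at ha hd'
      rw [ha, hb', hb, hd']
      exact ⟨(4 * a + 1) * b' + b * (4 * d' + 1), by ring⟩
    · rw [e]
      rw [sub_eq_iff_eq_add] at ha' hd
      rw [ha', hc, hd, hc']
      exact ⟨c * (4 * a' + 1) + (4 * d + 1) * c', by ring⟩
    · rw [e]
      rw [sub_eq_iff_eq_add] at hd hd'
      rw [hd, hd', hc, hb']
      exact ⟨4 * d * d' + d + d' + b' * c, by ring⟩
  inv_mem' := by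
    rintro A ⟨h1, h2, h3, h4, h5⟩
    have hinv : A⁻¹.1 = A.1.adjugate := by
      have h6 : A.1 * A.1.adjugate = 1 := by rw [Matrix.mul_adjugate, h1, one_smul]
      calc A⁻¹.1 = A⁻¹.1 * (A.1 * A.1.adjugate) := by rw [h6, mul_one]
        _ = A.1.adjugate := by rw [← mul_assoc, Units.inv_mul, one_mul]
    rw [Matrix.adjugate_fin_two] at hinv
    have e00 : A⁻¹.1 0 0 = A.1 1 1 := by rw [hinv]; simp
    have e01 : A⁻¹.1 0 1 = -A.1 0 1 := by rw [hinv]; simp
    have e10 : A⁻¹.1 1 0 = -A.1 1 0 := by rw [hinv]; simp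
    have e11 : A⁻¹.1 1 1 = A.1 0 0 := by rw [hinv]; simp
    refine ⟨?_, ?_, ?_, ?_, ?_⟩
    · rw [hinv, ← Matrix.adjugate_fin_two, Matrix.det_adjugate, h1]
      simp
    · rw [e00]; exact h5
    · rw [e01]; exact (dvd_neg).2 h3
    · rw [e10]; exact (dvd_neg).2 h4
    · rw [e11]; exact h2

theorem NZ_le : NZ ≤ BZ := by
  refine iSup_le fun i => ?_
  fin_cases i
  · rintro _ ⟨k, rfl⟩
    refine ⟨?_, ?_, ?_, ?_, ?_⟩
    · change (!![(1 : ℤ), 2 * k; 0, 1]).det = 1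
      rw [Matrix.det_fin_two]
      simp
    all_goals simp [uz]
  · rintro _ ⟨k, rfl⟩
    refine ⟨?_, ?_, ?_, ?_, ?_⟩
    · change (!![(1 : ℤ), 0; 2 * k, 1]).det = 1
      rw [Matrix.det_fin_two]
      simp
    all_goals simp [lz]

/-- the principal congruence subgroup of level two in `GL₂(ℤ)` -/
def KZ : Subgroup (G2 ℤ) := (G2map (Int.castRingHom (ZMod 2))).ker

theorem mem_KZ {A : G2 ℤ} (h : A ∈ KZ) : ((2 : ℤ) ∣ A.1 0 1 ∧ (2 : ℤ) ∣ A.1 1 0) ∧
    (¬ (2 : ℤ) ∣ A.1 0 0 ∧ ¬ (2 : ℤ) ∣ A.1 1 1) := by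
  have e : ∀ i j, ((A.1 i j : ℤ) : ZMod 2) = (1 : Matrix (Fin 2) (Fin 2) (ZMod 2)) i j := by
    intro i j
    exact val_congr (show G2map (Int.castRingHom (ZMod 2)) A = 1 from h) i j
  have h01 := e 0 1
  have h10 := e 1 0
  have h00 := e 0 0
  have h11 := e 1 1
  rw [Matrix.one_apply_ne (by decide)] at h01 h10
  rw [Matrix.one_apply_eq] at h00 h11
  refine ⟨⟨(ZMod.intCast_zmod_eq_zero_iff_dvd _ 2).1 h01,
    (ZMod.intCast_zmod_eq_zero_iff_dvd _ 2).1 h10⟩, ?_, ?_⟩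
  · intro h
    rw [(ZMod.intCast_zmod_eq_zero_iff_dvd _ 2).2 h] at h00
    exact zero_ne_one h00
  · intro h
    rw [(ZMod.intCast_zmod_eq_zero_iff_dvd _ 2).2 h] at h11
    exact zero_ne_one h11

theorem uz_mul_entry (k : ℤ) (A : G2 ℤ) (j : Fin 2) :
    (uz k * A).1 0 j = A.1 0 j + k * A.1 1 j ∧ (uz k * A).1 1 j = A.1 1 j := by
  have e : ∀ i, (uz k * A).1 i j = (uz k).1 i 0 * A.1 0 j + (uz k).1 i 1 * A.1 1 j := by
    intro i
    change ((uz k).1 * A.1) i j = _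
    rw [Matrix.mul_apply, Fin.sum_univ_two]
  rw [e, e]
  simp [uz]

theorem lz_mul_entry (k : ℤ) (A : G2 ℤ) (j : Fin 2) :
    (lz k * A).1 0 j = A.1 0 j ∧ (lz k * A).1 1 j = k * A.1 0 j + A.1 1 j := by
  have e : ∀ i, (lz k * A).1 i j = (lz k).1 i 0 * A.1 0 j + (lz k).1 i 1 * A.1 1 j := by
    intro i
    change ((lz k).1 * A.1) i j = _
    rw [Matrix.mul_apply, Fin.sum_univ_two]
  rw [e, e]
  simp [lz]

theorem det_unit (A : G2 ℤ) : A.1.det = 1 ∨ A.1.det = -1 := by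
  have h : IsUnit A.1.det := (Matrix.isUnit_iff_isUnit_det _).1 A.isUnit
  exact Int.isUnit_iff.1 h

theorem sub_step {a c : ℤ} (h : |c| < |a|) (hc : c ≠ 0) : ∃ k : ℤ, |a + 2 * k * c| < |a| := by
  have hc' : 0 < |c| := abs_pos.2 hc
  rcases lt_or_ge 0 a with ha | ha
  · rw [abs_of_pos ha] at h ⊢
    rcases lt_or_ge 0 c with h0 | h0
    · rw [abs_of_pos h0] at h
      exact ⟨-1, abs_lt.2 ⟨by linarith, by linarith⟩⟩
    · rw [abs_of_nonpos h0] at h hc'
      exact ⟨1, abs_lt.2 ⟨by linarith, by linarith⟩⟩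
  · rw [abs_of_nonpos ha] at h ⊢
    rcases lt_or_ge 0 c with h0 | h0
    · rw [abs_of_pos h0] at h
      exact ⟨1, abs_lt.2 ⟨by linarith, by linarith⟩⟩
    · rw [abs_of_nonpos h0] at h hc'
      exact ⟨-1, abs_lt.2 ⟨by linarith, by linarith⟩⟩

theorem KZ_le : KZ ≤ NZ ⊔ DZ := by
  have hU : ∀ k, uz (2 * k) ∈ NZ ⊔ DZ := fun k => (le_sup_left : NZ ≤ NZ ⊔ DZ) (uz_mem k)
  have hL : ∀ k, lz (2 * k) ∈ NZ ⊔ DZ := fun k => (le_sup_left : NZ ≤ NZ ⊔ DZ) (lz_mem k)
  have key : ∀ (n : ℕ) (A : G2 ℤ), (A.1 0 0).natAbs + (A.1 1 0).natAbs ≤ n →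
      (2 : ℤ) ∣ A.1 0 1 → (2 : ℤ) ∣ A.1 1 0 → ¬ (2 : ℤ) ∣ A.1 0 0 → ¬ (2 : ℤ) ∣ A.1 1 1 →
      A ∈ NZ ⊔ DZ := by
    intro n
    induction n with
    | zero =>
      intro A h0 _ _ h3 _
      exfalso
      apply h3
      have : A.1 0 0 = 0 := by omega
      rw [this]
      exact dvd_zero _
    | succ n ih =>
      intro A h0 h1 h2 h3 h4
      have hne : (A.1 0 0).natAbs ≠ (A.1 1 0).natAbs := by
        intro h
        omega
      by_cases hc : A.1 1 0 = 0
      · -- triangular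
        have hdet := det_unit A
        rw [Matrix.det_fin_two, hc, mul_zero, sub_zero] at hdet
        obtain ⟨k, hk⟩ := h1
        have h5 : IsUnit (A.1 0 0 * A.1 1 1) := Int.isUnit_iff.2 hdet
        obtain ⟨a, ha⟩ := isUnit_of_mul_isUnit_left h5
        obtain ⟨d, hd⟩ := isUnit_of_mul_isUnit_right h5
        have h6 : A = dz a d * uz (2 * ((a : ℤ) * k)) := by
          have haa : (a : ℤ) * (a : ℤ) = 1 := by
            rw [← Units.val_mul, Int.units_mul_self, Units.val_one]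
          apply Units.ext
          change A.1 = !![(a : ℤ), 0; 0, (d : ℤ)] * !![1, 2 * ((a : ℤ) * k); 0, 1]
          rw [Matrix.mul_fin_two, Matrix.eta_fin_two A.1, ← ha, ← hd, hc, hk]
          have : (a : ℤ) * (2 * ((a : ℤ) * k)) = 2 * k := by linear_combination 2 * k * haa
          simp [this]
        rw [h6]
        exact (NZ ⊔ DZ).mul_mem ((le_sup_right : DZ ≤ NZ ⊔ DZ) ⟨a, d, rfl⟩) (hU _)
      · rcases lt_or_gt_of_ne hne with h | h
        · -- reduce the lower entry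
          have hlt : |A.1 0 0| < |A.1 1 0| := by
            rw [Int.abs_eq_natAbs, Int.abs_eq_natAbs]
            exact_mod_cast h
          have ha0 : A.1 0 0 ≠ 0 := by
            intro h
            rw [h] at h3
            exact h3 (dvd_zero _)
          obtain ⟨k, hk⟩ := sub_step hlt ha0
          obtain ⟨e1, e2⟩ := lz_mul_entry (2 * k) A 0
          obtain ⟨e3, e4⟩ := lz_mul_entry (2 * k) A 1
          have h5 : lz (2 * k) * A ∈ NZ ⊔ DZ := by
            apply ih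
            · rw [e1, e2]
              rw [Int.abs_eq_natAbs, Int.abs_eq_natAbs] at hk
              rw [add_comm (2 * k * A.1 0 0)]
              omega
            · rw [e3]; exact h1
            · rw [e2]
              exact dvd_add (Dvd.intro _ (by ring : 2 * (k * A.1 0 0) = 2 * k * A.1 0 0)) h2
            · rw [e1]; exact h3
            · rw [e4]
              intro h
              apply h4
              have h7 : (2 : ℤ) ∣ 2 * k * A.1 0 1 := ⟨k * A.1 0 1, by ring⟩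
              exact (dvd_add_right h7).1 h
          have h6 : A = lz (2 * -k) * (lz (2 * k) * A) := by
            rw [← mul_assoc, lz_mul, mul_neg, neg_add_cancel, lz_zero, one_mul]
          rw [h6]
          exact (NZ ⊔ DZ).mul_mem (hL _) h5
        · have hlt : |A.1 1 0| < |A.1 0 0| := by
            rw [Int.abs_eq_natAbs, Int.abs_eq_natAbs]
            exact_mod_cast h
          obtain ⟨k, hk⟩ := sub_step hlt hc
          obtain ⟨e1, e2⟩ := uz_mul_entry (2 * k) A 0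
          obtain ⟨e3, e4⟩ := uz_mul_entry (2 * k) A 1
          have h5 : uz (2 * k) * A ∈ NZ ⊔ DZ := by
            apply ih
            · rw [e1, e2]
              rw [Int.abs_eq_natAbs, Int.abs_eq_natAbs] at hk
              omega
            · rw [e3]
              exact dvd_add h1 ⟨k * A.1 1 1, by ring⟩
            · rw [e2]; exact h2
            · rw [e1]
              intro h
              apply h3
              have h7 : (2 : ℤ) ∣ 2 * k * A.1 1 0 := ⟨k * A.1 1 0, by ring⟩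
              exact (dvd_add_left h7).1 h
            · rw [e4]; exact h4
          have h6 : A = uz (2 * -k) * (uz (2 * k) * A) := by
            rw [← mul_assoc, uz_mul, mul_neg, neg_add_cancel, uz_zero, one_mul]
          rw [h6]
          exact (NZ ⊔ DZ).mul_mem (hU _) h5
  intro A hA
  obtain ⟨⟨h1, h2⟩, h3, h4⟩ := mem_KZ hA
  exact key _ A le_rfl h1 h2 h3 h4

theorem dz_conj_uz (a d : ℤˣ) (k : ℤ) : dz a d * uz k * (dz a d)⁻¹ = uz ((a : ℤ) * k * (d : ℤ)) := by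
  have haa : (a : ℤ) * (a : ℤ) = 1 := by
    rw [← Units.val_mul, Int.units_mul_self, Units.val_one]
  have hdd : (d : ℤ) * (d : ℤ) = 1 := by
    rw [← Units.val_mul, Int.units_mul_self, Units.val_one]
  apply Units.ext
  change !![(a : ℤ), 0; 0, (d : ℤ)] * !![1, k; 0, 1] * !![(a : ℤ), 0; 0, (d : ℤ)] =
    !![1, (a : ℤ) * k * (d : ℤ); 0, 1]
  rw [Matrix.mul_fin_two, Matrix.mul_fin_two]
  simp [haa, hdd]

theorem dz_conj_lz (a d : ℤˣ) (k : ℤ) : dz a d * lz k * (dz a d)⁻¹ = lz ((d : ℤ) * k * (a : ℤ)) := by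
  have haa : (a : ℤ) * (a : ℤ) = 1 := by
    rw [← Units.val_mul, Int.units_mul_self, Units.val_one]
  have hdd : (d : ℤ) * (d : ℤ) = 1 := by
    rw [← Units.val_mul, Int.units_mul_self, Units.val_one]
  apply Units.ext
  change !![(a : ℤ), 0; 0, (d : ℤ)] * !![1, 0; k, 1] * !![(a : ℤ), 0; 0, (d : ℤ)] =
    !![1, 0; (d : ℤ) * k * (a : ℤ), 1]
  rw [Matrix.mul_fin_two, Matrix.mul_fin_two]
  simp [haa, hdd]

theorem hpermZ1 (γ : G2 ℤ) (hγ : γ ∈ DZ) (i : Fin 2) (x : G2 ℤ) (hx : x ∈ UZ i) :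
    γ * x * γ⁻¹ ∈ UZ i := by
  obtain ⟨a, d, rfl⟩ := hγ
  fin_cases i
  · obtain ⟨k, rfl⟩ := hx
    exact ⟨(a : ℤ) * k * (d : ℤ), by rw [dz_conj_uz]; ring_nf⟩
  · obtain ⟨k, rfl⟩ := hx
    exact ⟨(d : ℤ) * k * (a : ℤ), by rw [dz_conj_lz]; ring_nf⟩

/-- **`GL₂(ℤ)` lies in the class.** -/
theorem g2_int (hC : ClosedE C) (hF : FbC C) (hS : Sol C) : C (G2 ℤ) := by
  have h1 : C ↥(NZ ⊔ DZ) := by
    refine lemL hC hF hS DZ NZ UZ rfl free_injZ ?_ ?_ ?_ ?_
    · intro i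
      fin_cases i
      · rintro _ ⟨k, rfl⟩ _ ⟨l, rfl⟩
        rw [uz_mul, uz_mul, add_comm]
      · rintro _ ⟨k, rfl⟩ _ ⟨l, rfl⟩
        rw [lz_mul, lz_mul, add_comm]
    · intro γ hγ i
      refine ⟨i, fun x => ⟨hpermZ1 γ hγ i x, fun h => ?_⟩⟩
      have h2 := hpermZ1 γ⁻¹ (DZ.inv_mem hγ) i _ h
      have e : γ⁻¹ * (γ * x * γ⁻¹) * γ⁻¹⁻¹ = x := by group
      rwa [e] at h2
    · rintro _ ⟨a, d, rfl⟩ h
      obtain ⟨_, h2, _, _, h3⟩ := NZ_le h
      have ha : (4 : ℤ) ∣ (a : ℤ) - 1 := h2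
      have hd : (4 : ℤ) ∣ (d : ℤ) - 1 := h3
      have ha' : a = 1 := by
        rcases Int.units_eq_one_or a with rfl | rfl
        · rfl
        · norm_num at ha
      have hd' : d = 1 := by
        rcases Int.units_eq_one_or d with rfl | rfl
        · rfl
        · norm_num at hd
      rw [ha', hd', dz_one]
    · apply of_finite hC.base
      have : Finite (ℤˣ × ℤˣ) := inferInstance
      refine Finite.of_surjective (fun p : ℤˣ × ℤˣ => (⟨dz p.1 p.2, p.1, p.2, rfl⟩ : DZ)) ?_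
      rintro ⟨_, a, d, rfl⟩
      exact ⟨(a, d), rfl⟩
  have h2 : C KZ := C_le hC.base KZ_le h1
  have hfin : KZ.FiniteIndex := by
    have : Finite (G2 (ZMod 2)) := by
      have : Finite (Matrix (Fin 2) (Fin 2) (ZMod 2)) := inferInstance
      exact Finite.of_injective (fun A : G2 (ZMod 2) => A.1) Units.val_injective
    exact Subgroup.finiteIndex_ker _
  exact hC.base.finiteIndex _ KZ hfin h2

end GLP

end Pool.Agent.Helper686_FJ
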