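import Mathlib

/-!
# The polynomial ring over a division ring embeds into a division ring
-/

set_option autoImplicit false

namespace Pool.Agent.Helper686_FJ

namespace GLP

open Polynomial nonZeroDivisors

variable {D : Type} [DivisionRing D]

/-- division with remainder on the other side -/
theorem left_div (s : D[X]) (hs : s ≠ 0) :
    ∀ (n : ℕ) (r : D[X]), r.natDegree ≤ n → ∃ q t : D[X], r = q * s + t ∧ (t = 0 ∨ t.natDegree < s.natDegree) := by
  intro n
  induction n with
  | zero =>
    intro r hr
    by_cases h0 : s.natDegree = 0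
    · have e1 := eq_C_of_natDegree_eq_zero h0
      have e2 := eq_C_of_natDegree_eq_zero (Nat.le_zero.1 hr)
      have hc : s.coeff 0 ≠ 0 := by
        intro h
        apply hs
        rw [e1, h, C_0]
      refine ⟨C (r.coeff 0 * (s.coeff 0)⁻¹), 0, ?_, Or.inl rfl⟩
      rw [add_zero, e1, e2, ← C_mul, coeff_C_zero, coeff_C_zero, mul_assoc, inv_mul_cancel₀ hc,
        mul_one]
    · exact ⟨0, r, by rw [zero_mul, zero_add], Or.inr (by omega)⟩
  | succ n ih =>
    intro r hr
    by_cases hlt : r.natDegree < s.natDegree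
    · exact ⟨0, r, by rw [zero_mul, zero_add], Or.inr hlt⟩
    by_cases hr0 : r = 0
    · exact ⟨0, 0, by rw [zero_mul, zero_add]; exact hr0, Or.inl rfl⟩
    push Not at hlt
    have hls : s.leadingCoeff ≠ 0 := leadingCoeff_ne_zero.2 hs
    set u : D[X] := C (r.leadingCoeff * s.leadingCoeff⁻¹) * X ^ (r.natDegree - s.natDegree) with hu
    by_cases h1 : r.natDegree ≤ n
    · exact ih r h1
    have hn : r.natDegree = n + 1 := by omega
    have hlt2 : (r - u * s).natDegree ≤ n := by
      rw [natDegree_le_iff_coeff_eq_zero]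
      intro N hN
      have hcoeff : (u * s).coeff N = (r.leadingCoeff * s.leadingCoeff⁻¹) *
          s.coeff (N - (r.natDegree - s.natDegree)) := by
        rw [hu, mul_assoc, coeff_C_mul, X_pow_mul, coeff_mul_X_pow', if_pos]
        · omega
      rw [coeff_sub, hcoeff]
      rcases Nat.lt_or_ge (n + 1) N with h2 | h2
      · rw [coeff_eq_zero_of_natDegree_lt (by omega : r.natDegree < N),
          coeff_eq_zero_of_natDegree_lt (p := s) (by omega), mul_zero, sub_zero]
      · have hN' : N = r.natDegree := by omega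
        rw [hN', Nat.sub_sub_self hlt]
        change r.leadingCoeff - r.leadingCoeff * s.leadingCoeff⁻¹ * s.leadingCoeff = 0
        rw [mul_assoc, inv_mul_cancel₀ hls, mul_one, sub_self]
    obtain ⟨q, t, h3, h4⟩ := ih _ hlt2
    refine ⟨u + q, t, ?_, h4⟩
    rw [add_mul, add_assoc, ← h3]
    abel

theorem ore (n : ℕ) : ∀ (r s : D[X]), s ≠ 0 → s.natDegree ≤ n → ∃ r' s' : D[X], s' ≠ 0 ∧ s' * r = r' * s := by
  induction n with
  | zero =>
    intro r s hs hn
    obtain ⟨q, t, h1, h2⟩ := left_div s hs r.natDegree r le_rfl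
    rcases h2 with h2 | h2
    · exact ⟨q, 1, one_ne_zero, by rw [one_mul, h1, h2, add_zero]⟩
    · omega
  | succ n ih =>
    intro r s hs hn
    obtain ⟨q, t, h1, h2⟩ := left_div s hs r.natDegree r le_rfl
    by_cases ht : t = 0
    · exact ⟨q, 1, one_ne_zero, by rw [one_mul, h1, ht, add_zero]⟩
    have h3 : t.natDegree < s.natDegree := h2.resolve_left ht
    obtain ⟨b, a, ha, hab⟩ := ih s t ht (by omega)
    refine ⟨b * q + a, b, ?_, ?_⟩
    · rintro rfl
      rw [zero_mul] at hab
      rcases mul_eq_zero.1 hab with h | h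
      · exact ha h
      · exact hs h
    · rw [h1, mul_add, add_mul, hab, mul_assoc]

/-- **A ring which embeds into a division ring has a polynomial ring with the same property.** -/
theorem embeds_poly {R : Type} [Ring R] (j : R →+* D) (hj : Function.Injective j) :
    ∃ (E : Type) (_ : DivisionRing E) (f : R[X] →+* E), Function.Injective f := by
  obtain ⟨hO⟩ : Nonempty (OreLocalization.OreSet (D[X])⁰) := by
    rw [OreLocalization.nonempty_oreSet_iff_of_noZeroDivisors]
    intro r s
    obtain ⟨r', s', h1, h2⟩ := ore _ r s.1 (nonZeroDivisors.coe_ne_zero s) le_rfl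
    exact ⟨r', ⟨s', mem_nonZeroDivisors_of_ne_zero h1⟩, h2⟩
  refine ⟨OreLocalization (D[X])⁰ D[X], inferInstance,
    (OreLocalization.numeratorRingHom).comp (mapRingHom j), ?_⟩
  have h1 : Function.Injective (OreLocalization.numeratorHom (S := (D[X])⁰) (R := D[X])) :=
    OreLocalization.numeratorHom_inj inf_le_left
  have h2 : Function.Injective (mapRingHom j) := by
    rw [coe_mapRingHom]
    exact map_injective j hj
  exact h1.comp h2

end GLP

end Pool.Agent.Helper686_FJ
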