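import Pool.Agent.Helper686_FJ.Lin3
import Pool.Agent.Helper686_FJ.Ore
import Pool.Agent.Y430.SS.Lf
import Pool.Agent.Y529.FJ.Ext

/-!
# `GL₂` of polynomial rings in several variables
-/

set_option autoImplicit false

namespace Pool.Agent.Helper686_FJ

namespace GLP

open Pool.Agent.Y110.FJ Pool.Agent.R684.FP Pool.Agent.H694.TR
open Pool.Agent.R941.FJ (C_equiv C_le)
open Pool.Agent.Y430.SS (of_directed of_finite)

variable {C : ∀ (G : Type) [Group G], Prop}

theorem g2_inj (hC : ClosedE C) {R S : Type} [Ring R] [Ring S] (f : R →+* S)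
    (hf : Function.Injective f) (h : C (G2 S)) : C (G2 R) :=
  hC.base.of_injective _ _ (G2map f) (G2map_inj f hf) h

/-- directed unions of rings -/
theorem g2_directed (hC : ClosedE C) {R : Type} [Ring R] (I : Type) [Preorder I] [Nonempty I]
    (hI : ∀ i j : I, ∃ k, i ≤ k ∧ j ≤ k) (S : I → Subring R) (hS : Monotone S)
    (hg : ∀ r, ∃ i, r ∈ S i) (hc : ∀ i, C (G2 (S i))) : C (G2 R) := by
  refine of_directed hC.base (G2 R) I hI (fun i => (G2map (S i).subtype).range) ?_ ?_ ?_
  · rintro i j hij _ ⟨A, rfl⟩
    exact ⟨G2map (Subring.inclusion (hS hij)) A, rfl⟩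
  · intro A
    have hdir : ∀ s : Finset R, ∃ i, ∀ r ∈ s, r ∈ S i := by
      intro s
      classical
      induction s using Finset.induction_on with
      | empty => exact ⟨Classical.arbitrary I, by simp⟩
      | insert r s _ ih =>
        obtain ⟨i, hi⟩ := ih
        obtain ⟨j, hj⟩ := hg r
        obtain ⟨k, hik, hjk⟩ := hI i j
        refine ⟨k, fun x hx => ?_⟩
        rw [Finset.mem_insert] at hx
        rcases hx with rfl | hx
        · exact hS hjk hj
        · exact hS hik (hi x hx)
    classical
    obtain ⟨i, hi⟩ := hdir (Finset.univ.image (fun p : Fin 2 × Fin 2 => A.1 p.1 p.2) ∪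
      Finset.univ.image (fun p : Fin 2 × Fin 2 => A⁻¹.1 p.1 p.2))
    have h1 : ∀ a b, A.1 a b ∈ S i := fun a b => hi _ (Finset.mem_union_left _
      (Finset.mem_image.2 ⟨(a, b), Finset.mem_univ _, rfl⟩))
    have h2 : ∀ a b, A⁻¹.1 a b ∈ S i := fun a b => hi _ (Finset.mem_union_right _
      (Finset.mem_image.2 ⟨(a, b), Finset.mem_univ _, rfl⟩))
    have hinj : Function.Injective ((S i).subtype.mapMatrix (m := Fin 2)) := by
      intro P Q h
      ext a b
      exact congrFun (congrFun h a) b
    let P : Matrix (Fin 2) (Fin 2) (S i) := fun a b => ⟨A.1 a b, h1 a b⟩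
    let Q : Matrix (Fin 2) (Fin 2) (S i) := fun a b => ⟨A⁻¹.1 a b, h2 a b⟩
    have hP : (S i).subtype.mapMatrix P = A.1 := rfl
    have hQ : (S i).subtype.mapMatrix Q = A⁻¹.1 := rfl
    refine ⟨i, ⟨⟨P, Q, hinj ?_, hinj ?_⟩, ?_⟩⟩
    · rw [map_mul, hP, hQ, map_one, Units.mul_inv]
    · rw [map_mul, hP, hQ, map_one, Units.inv_mul]
    · apply Units.ext
      exact hP
  · intro i
    refine C_equiv hC.base (MonoidHom.ofInjective (G2map_inj _ ?_)).symm (hc i)
    exact Subtype.val_injective

/-- rings that embed into a division ring -/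
def Emb (R : Type) [Ring R] : Prop :=
  ∃ (D : Type) (_ : DivisionRing D) (j : R →+* D), Function.Injective j

theorem Emb.of_inj {R S : Type} [Ring R] [Ring S] (f : R →+* S) (hf : Function.Injective f)
    (h : Emb S) : Emb R := by
  obtain ⟨D, hD, j, hj⟩ := h
  exact ⟨D, hD, j.comp f, hj.comp hf⟩

theorem Emb.poly {R : Type} [Ring R] (h : Emb R) : Emb (Polynomial R) := by
  obtain ⟨D, hD, j, hj⟩ := h
  exact embeds_poly j hj

theorem Emb.poly_iff (hC : ClosedE C) (hF : FbC C) (hS : Sol C) {R : Type} [Ring R] (h : Emb R) :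
    C (G2 (Polynomial R)) ↔ C (G2 R) := by
  obtain ⟨D, hD, j, hj⟩ := h
  exact GLP.poly_iff hC hF hS j hj

/-- the polynomial ring over `R` in the commuting variables `σ` -/
abbrev MP (σ R : Type) [Ring R] : Type := AddMonoidAlgebra R (σ →₀ ℕ)

/-- one more variable -/
noncomputable def addE (n : ℕ) : (Fin (n + 1) →₀ ℕ) ≃+ ℕ × (Fin n →₀ ℕ) where
  toFun f := (f 0, f.comapDomain Fin.succ (Fin.succ_injective n).injOn)
  invFun p := Finsupp.cons p.1 p.2
  left_inv f := by
    ext i
    refine Fin.cases ?_ (fun j => ?_) i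
    · simp
    · simp
  right_inv p := by
    refine Prod.ext ?_ ?_
    · simp
    · ext i
      simp
  map_add' f g := by
    refine Prod.ext ?_ ?_
    · simp
    · ext i
      simp

/-- one more variable -/
theorem succ_inj (R : Type) [Ring R] (n : ℕ) :
    ∃ f : MP (Fin (n + 1)) R →+* Polynomial (MP (Fin n) R), Function.Injective f := by
  let e1 : MP (Fin (n + 1)) R ≃+* AddMonoidAlgebra R (ℕ × (Fin n →₀ ℕ)) :=
    AddMonoidAlgebra.mapDomainRingEquiv R (addE n)
  let e2 : AddMonoidAlgebra R (ℕ × (Fin n →₀ ℕ)) ≃+* AddMonoidAlgebra (MP (Fin n) R) ℕ :=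
    AddMonoidAlgebra.curryRingEquiv
  let e3 : AddMonoidAlgebra (MP (Fin n) R) ℕ ≃+* Polynomial (MP (Fin n) R) :=
    (Polynomial.toFinsuppIso (MP (Fin n) R)).symm
  exact ⟨(e3.toRingHom.comp e2.toRingHom).comp e1.toRingHom,
    (e3.injective.comp e2.injective).comp e1.injective⟩

/-- polynomial rings in finitely many variables -/
theorem fin_all (hC : ClosedE C) (hF : FbC C) (hS : Sol C) (n : ℕ) (R : Type) [Ring R]
    (hR : Emb R) (h : C (G2 R)) : Emb (MP (Fin n) R) ∧ C (G2 (MP (Fin n) R)) := by
  induction n with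
  | zero =>
    have e : MP (Fin 0) R ≃+* R := AddMonoidAlgebra.uniqueRingEquiv (Fin 0 →₀ ℕ)
    exact ⟨hR.of_inj e.toRingHom e.injective, g2_inj hC e.toRingHom e.injective h⟩
  | succ n ih =>
    obtain ⟨h1, h2⟩ := ih
    obtain ⟨f, hf⟩ := succ_inj R n
    exact ⟨h1.poly.of_inj f hf, g2_inj hC f hf ((h1.poly_iff hC hF hS).2 h2)⟩

/-- renaming of the variables -/
noncomputable def ren {σ τ : Type} (R : Type) [Ring R] (f : σ → τ) : MP σ R →+* MP τ R :=
  AddMonoidAlgebra.mapDomainRingHom R (Finsupp.mapDomain.addMonoidHom (M := ℕ) f)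

theorem ren_single {σ τ R : Type} [Ring R] (f : σ → τ) (m : σ →₀ ℕ) (r : R) :
    ren R f (AddMonoidAlgebra.single m r) = AddMonoidAlgebra.single (m.mapDomain f) r :=
  AddMonoidAlgebra.mapDomain_single

theorem ren_inj {σ τ R : Type} [Ring R] (f : σ → τ) (hf : Function.Injective f) :
    Function.Injective (ren R f) :=
  AddMonoidAlgebra.mapDomain_injective (Finsupp.mapDomain_injective hf)

theorem ren_ren {σ τ ρ R : Type} [Ring R] (f : σ → τ) (g : τ → ρ) (x : MP σ R) :
    ren R g (ren R f x) = ren R (g ∘ f) x := by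
  induction x using AddMonoidAlgebra.induction_linear with
  | zero => simp
  | add a b ha hb => rw [map_add, map_add, map_add, ha, hb]
  | single m r => rw [ren_single, ren_single, ren_single, Finsupp.mapDomain_comp]

/-- **Polynomial rings in arbitrarily many commuting variables over a ring that embeds into a
division ring.** -/
theorem g2_mp_iff (hC : ClosedE C) (hF : FbC C) (hS : Sol C) (σ R : Type) [Ring R]
    (hR : Emb R) : C (G2 (MP σ R)) ↔ C (G2 R) := by
  constructor
  · intro h
    refine g2_inj hC (AddMonoidAlgebra.singleZeroRingHom : R →+* MP σ R) ?_ h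
    intro a b hab
    have := congrArg (fun x : MP σ R => x.coeff 0) hab
    simpa using this
  · intro h
    classical
    refine g2_directed hC (Finset σ) (fun i j => ⟨i ∪ j, Finset.subset_union_left,
      Finset.subset_union_right⟩)
      (fun s => (ren R (Subtype.val : s → σ)).range) ?_ ?_ ?_
    · rintro s t hst _ ⟨f, rfl⟩
      refine ⟨ren R (Set.inclusion hst) f, ?_⟩
      rw [ren_ren]
      rfl
    · intro f
      have hmono : ∀ s t : Finset σ, s ⊆ t → ∀ x, x ∈ (ren R (Subtype.val : s → σ)).range →
          x ∈ (ren R (Subtype.val : t → σ)).range := by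
        rintro s t hst _ ⟨f, rfl⟩
        refine ⟨ren R (Set.inclusion hst) f, ?_⟩
        rw [ren_ren]
        rfl
      induction f using AddMonoidAlgebra.induction_linear with
      | zero => exact ⟨∅, Subring.zero_mem _⟩
      | add a b ha hb =>
        obtain ⟨s, hs⟩ := ha
        obtain ⟨t, ht⟩ := hb
        exact ⟨s ∪ t, Subring.add_mem _ (hmono _ _ Finset.subset_union_left _ hs)
          (hmono _ _ Finset.subset_union_right _ ht)⟩
      | single m r =>
        refine ⟨m.support, AddMonoidAlgebra.single (m.comapDomain Subtype.val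
          Subtype.val_injective.injOn) r, ?_⟩
        rw [ren_single]
        congr 1
        refine Finsupp.mapDomain_comapDomain _ Subtype.val_injective m ?_
        intro x hx
        exact ⟨⟨x, hx⟩, rfl⟩
    · intro s
      have h1 := (fin_all hC hF hS s.card R hR h).2
      have h2 : C (G2 (MP s R)) := g2_inj hC (ren R s.equivFin) (ren_inj _ s.equivFin.injective) h1
      have hφ := ren_inj (R := R) (Subtype.val : s → σ) Subtype.val_injective
      let e2 : MP s R ≃+* (ren R (Subtype.val : s → σ)).range := RingEquiv.ofLeftInverse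
        (Function.leftInverse_invFun hφ)
      exact g2_inj hC e2.symm.toRingHom e2.symm.injective h2

/-- commutative polynomial rings -/
theorem g2_mv_iff (hC : ClosedE C) (hF : FbC C) (hS : Sol C) (σ R : Type) [CommRing R]
    [IsDomain R] : C (G2 (MvPolynomial σ R)) ↔ C (G2 R) :=
  g2_mp_iff hC hF hS σ R ⟨FractionRing R, inferInstance, algebraMap R (FractionRing R),
    IsFractionRing.injective _ _⟩

/-- rings in which all finitely generated subrings are finite -/
theorem g2_lf (hC : ClosedE C) (R : Type) [Ring R]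
    (h : ∀ s : Finset R, (Subring.closure (s : Set R) : Set R).Finite) : C (G2 R) := by
  classical
  refine g2_directed hC (Finset R) (fun i j => ⟨i ∪ j, Finset.subset_union_left,
    Finset.subset_union_right⟩) (fun s => Subring.closure (s : Set R)) ?_ ?_ ?_
  · intro s t hst
    exact Subring.closure_mono (by exact_mod_cast hst)
  · intro r
    exact ⟨{r}, Subring.subset_closure (by simp)⟩
  · intro s
    have : Finite (Subring.closure (s : Set R)) := (h s).to_subtype
    refine of_finite hC.base _ ?_
    have : Finite (Matrix (Fin 2) (Fin 2) (Subring.closure (s : Set R))) := inferInstance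
    exact Finite.of_injective (fun A : G2 (Subring.closure (s : Set R)) => A.1) Units.val_injective

end GLP

end Pool.Agent.Helper686_FJ
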