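import Mathlib

/-!
# The first syllable of an element of a free product
-/

set_option autoImplicit false

namespace Pool.Agent.Helper686_FJ.AF

open Monoid Monoid.CoprodI

variable {ι : Type} [DecidableEq ι] {M : ι → Type} [∀ i, Group (M i)] [∀ i, DecidableEq (M i)]

/-- the first syllable of `w` if it is in the factor `i`, and `1` otherwise -/
def hd (i : ι) (w : CoprodI M) : M i := (Word.equivPair i (w • (Word.empty : Word M))).head

theorem hd_mul (i : ι) (m : M i) (w : CoprodI M) : hd i (of m * w) = m * hd i w := by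
  unfold hd
  rw [mul_smul, Word.equivPair_smul_same]

theorem hd_one (i : ι) : hd i (1 : CoprodI M) = 1 := by
  unfold hd
  rw [one_smul, Word.equivPair_eq_of_fstIdx_ne]
  simp [Word.fstIdx, Word.empty]

theorem hd_of (i : ι) (m : M i) : hd i (of m : CoprodI M) = m := by
  have h := hd_mul i m (1 : CoprodI M)
  rwa [mul_one, hd_one, mul_one] at h

theorem prod_smul_empty (w : Word M) : w.prod • (Word.empty : Word M) = w :=
  Word.equiv.right_inv w

theorem ne_smul {i j : ι} (w : NeWord M i j) : w.prod • (Word.empty : Word M) = w.toWord :=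
  prod_smul_empty w.toWord

theorem hd_ne {i j k : ι} (w : NeWord M i j) (h : i ≠ k) : hd k w.prod = 1 := by
  unfold hd
  rw [ne_smul, Word.equivPair_eq_of_fstIdx_ne]
  simp only [Word.fstIdx, NeWord.toWord]
  rw [NeWord.toList_head?]
  simpa using h

theorem head_ne {i j : ι} (w : NeWord M i j) : w.head ≠ 1 := by
  have h := w.toWord.ne_one ⟨i, w.head⟩ (List.mem_of_mem_head? (by
    show _ ∈ w.toList.head?
    rw [NeWord.toList_head?]
    rfl))
  exact h

theorem hd_eq {i j : ι} (w : NeWord M i j) : hd i w.prod = w.head := by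
  unfold hd
  rw [ne_smul, Word.equivPair_head]
  have hh := NeWord.toList_head? w
  have hne : w.toWord.toList ≠ [] := NeWord.toList_ne_nil w
  have h1 : w.toWord.toList.head hne = ⟨i, w.head⟩ := by
    have h2 := List.head?_eq_some_head hne
    have h3 : w.toWord.toList.head? = some ⟨i, w.head⟩ := hh
    rw [h3] at h2
    exact (Option.some.inj h2).symm
  split_ifs with h
  · obtain ⟨h', h⟩ := h
    have : ∀ (s : Σ i, M i) (hs : s.1 = i), s = ⟨i, w.head⟩ → hs ▸ s.2 = w.head := by
      rintro _ hs rfl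
      rfl
    exact this _ h h1
  · exfalso
    apply h
    refine ⟨hne, ?_⟩
    rw [h1]

/-- reduced words for the elements different from `1` -/
theorem exists_nw {w : CoprodI M} (h : w ≠ 1) : ∃ (i j : ι) (v : NeWord M i j), v.prod = w := by
  have h1 : w • (Word.empty : Word M) ≠ Word.empty := by
    intro h2
    apply h
    have h3 := congrArg Word.prod h2
    rw [Word.prod_smul, Word.prod_empty, mul_one] at h3
    exact h3
  obtain ⟨i, j, v, hv⟩ := NeWord.of_word _ h1
  refine ⟨i, j, v, ?_⟩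
  unfold NeWord.prod
  rw [hv, Word.prod_smul, Word.prod_empty, mul_one]

theorem hd_inv_mul {i j : ι} (hij : j ≠ i) {a b : CoprodI M} (ha : hd i a = 1) (hb : hd i b ≠ 1) :
    hd j (a⁻¹ * b) = hd j a⁻¹ := by
  have hb1 : b ≠ 1 := by
    rintro rfl
    exact hb (hd_one i)
  obtain ⟨r, s, v, rfl⟩ := exists_nw hb1
  have hr : r = i := by
    by_contra h
    exact hb (hd_ne v h)
  subst hr
  by_cases ha1 : a = 1
  · subst ha1
    rw [inv_one, one_mul, hd_one, hd_ne v hij.symm]
  · obtain ⟨p, q, u, rfl⟩ := exists_nw ha1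
    have hp : p ≠ r := by
      rintro rfl
      rw [hd_eq] at ha
      exact head_ne u ha
    rw [← NeWord.inv_prod, ← NeWord.append_prod (hne := hp)]
    by_cases hq : q = j
    · subst hq
      rw [hd_eq, hd_eq, NeWord.append_head]
    · rw [hd_ne _ hq, hd_ne _ hq]

/-- the main property of the first syllables -/
theorem hd_key {i j : ι} (hij : j ≠ i) {a b : CoprodI M} (h : hd i a ≠ hd i b) :
    hd j (a⁻¹ * b) = hd j a⁻¹ := by
  obtain ⟨s, hs⟩ : ∃ s, s = hd i a := ⟨_, rfl⟩
  obtain ⟨a', ha'⟩ : ∃ a', a' = of s⁻¹ * a := ⟨_, rfl⟩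
  have h1 : hd i a' = 1 := by
    rw [ha', hd_mul, hs, inv_mul_cancel]
  have h2 : hd i (of s⁻¹ * b) ≠ 1 := by
    rw [hd_mul]
    intro h3
    apply h
    rw [← hs, eq_comm]
    exact (inv_mul_eq_one.mp h3).symm
  have h3 := hd_inv_mul hij h1 h2
  have e : a'⁻¹ * (of s⁻¹ * b) = a⁻¹ * b := by
    rw [ha']
    group
  rw [e] at h3
  rw [h3]
  by_cases hs1 : s = 1
  · rw [ha', hs1]
    simp
  · have h4 : hd i (of s⁻¹ : CoprodI M) ≠ 1 := by
      rw [hd_of]
      simpa using hs1
    have h5 := hd_inv_mul hij h1 h4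
    rw [← h5, ha', mul_inv_rev, mul_assoc, inv_mul_cancel, mul_one]

theorem len_pos {i j : ι} (w : NeWord M i j) : 1 ≤ w.toList.length :=
  List.length_pos_of_ne_nil w.toList_ne_nil

/-- the factors are malnormal -/
theorem mal_aux {i j k : ι} (t : NeWord M j k) (hj : j ≠ i) (g g' : M i) (hg : g ≠ 1)
    (h : t.prod⁻¹ * of g * t.prod = of g') : False := by
  have hg' : g' ≠ 1 := by
    rintro rfl
    apply hg
    apply of_injective (M := M) i
    rw [map_one] at h ⊢
    have h2 : (of g : CoprodI M) = t.prod * (t.prod⁻¹ * of g * t.prod) * t.prod⁻¹ := by group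
    rw [h2, h]
    group
  have h1 : (NeWord.append (NeWord.append t.inv hj (NeWord.singleton g hg)) hj.symm t).prod =
      (NeWord.singleton g' hg').prod := by
    rw [NeWord.append_prod, NeWord.append_prod, NeWord.inv_prod, NeWord.prod_singleton,
      NeWord.prod_singleton, h]
  have h2 := congrArg (fun x => (x • (Word.empty : Word M)).toList.length) h1
  simp only [ne_smul] at h2
  have h3 := len_pos t
  have h4 := len_pos t.inv
  simp only [NeWord.toWord, NeWord.toList, List.length_append, List.length_cons,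
    List.length_nil] at h2
  omega

theorem mal {i : ι} (w : CoprodI M) (g g' : M i) (hg : g ≠ 1) (h : w * of g * w⁻¹ = of g') :
    ∃ x : M i, w = of x := by
  obtain ⟨s, hs⟩ : ∃ s, s = hd i w⁻¹ := ⟨_, rfl⟩
  obtain ⟨t, ht⟩ : ∃ t, t = of s⁻¹ * w⁻¹ := ⟨_, rfl⟩
  have h1 : hd i t = 1 := by
    rw [ht, hd_mul, hs, inv_mul_cancel]
  have hw : w = t⁻¹ * of s⁻¹ := by
    rw [ht]
    simp
  by_cases ht1 : t = 1
  · exact ⟨s⁻¹, by rw [hw, ht1]; simp⟩
  · exfalso
    obtain ⟨p, q, u, rfl⟩ := exists_nw ht1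
    have hp : p ≠ i := by
      rintro rfl
      rw [hd_eq] at h1
      exact head_ne u h1
    refine mal_aux u hp (s⁻¹ * g * s) g' ?_ ?_
    · intro h3
      apply hg
      have h4 : g = s * (s⁻¹ * g * s) * s⁻¹ := by group
      rw [h4, h3]
      group
    · rw [← h, hw]
      simp [mul_assoc]

end Pool.Agent.Helper686_FJ.AF
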