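import Pool.Agent.R684.FP.Main
import Pool.Agent.H694.TR.Main

/-!
# Groups generated by a free product of abelian groups and a group which permutes the factors
-/

set_option autoImplicit false

namespace Pool.Agent.Helper686_FJ

open Pool.Agent.Y110.FJ Pool.Agent.R684.FP Pool.Agent.H694.TR
open Pool.Agent.R941.FJ (C_equiv C_le)

variable {C : ∀ (G : Type) [Group G], Prop}

section solv

/-- an abelian subgroup together with an element which normalizes it generates a solvable group -/
theorem solv_sup_zpowers {G : Type} [Group G] (A : Subgroup G)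
    (hA : ∀ x ∈ A, ∀ y ∈ A, x * y = y * x) (g : G) (hg : ∀ x, x ∈ A ↔ g * x * g⁻¹ ∈ A) :
    Group.IsSolvable ↥(A ⊔ Subgroup.zpowers g) := by
  let H : Subgroup G := A ⊔ Subgroup.zpowers g
  have hn : H ≤ Subgroup.normalizer (A : Set G) := by
    refine sup_le Subgroup.le_normalizer ?_
    rw [Subgroup.zpowers_le]
    exact fun x => hg x
  let B : Subgroup H := A.subgroupOf H
  have hB : B.Normal := by
    constructor
    intro b hb h
    rw [Subgroup.mem_subgroupOf] at hb ⊢
    exact (hn h.2 b).1 hb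
  have hsB : Group.IsSolvable B := Group.isSolvable_of_comm fun x y => by
    apply Subtype.ext
    apply Subtype.ext
    exact hA _ x.2 _ y.2
  let gg : H := ⟨g, (le_sup_right : Subgroup.zpowers g ≤ H) (Subgroup.mem_zpowers g)⟩
  let Z : Subgroup (H ⧸ B) := Subgroup.zpowers (QuotientGroup.mk' B gg)
  have hmem : ∀ x : H, QuotientGroup.mk' B x ∈ Z := by
    intro x
    have h0 : (A.subgroupOf H) ⊔ (Subgroup.zpowers g).subgroupOf H = ⊤ := by
      rw [← Subgroup.subgroupOf_sup le_sup_left le_sup_right]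
      exact Subgroup.subgroupOf_self _
    have h1 : x ∈ (A.subgroupOf H) ⊔ (Subgroup.zpowers g).subgroupOf H := by
      rw [h0]; trivial
    have h2 : (A.subgroupOf H) ⊔ (Subgroup.zpowers g).subgroupOf H ≤ Z.comap (QuotientGroup.mk' B) := by
      refine sup_le ?_ ?_
      · intro y hy
        rw [Subgroup.mem_comap]
        have : QuotientGroup.mk' B y = 1 := (QuotientGroup.eq_one_iff y).mpr hy
        rw [this]
        exact Z.one_mem
      · rintro ⟨y, hy⟩ hy2
        obtain ⟨k, rfl⟩ := Subgroup.mem_zpowers_iff.mp (Subgroup.mem_subgroupOf.mp hy2)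
        rw [Subgroup.mem_comap]
        refine Subgroup.mem_zpowers_iff.mpr ⟨k, ?_⟩
        rw [← map_zpow]
        rfl
    exact h2 h1
  let q : H →* Z := (QuotientGroup.mk' B).codRestrict Z hmem
  have hsZ : Group.IsSolvable Z := Group.isSolvable_of_comm (by
    rintro ⟨_, a, rfl⟩ ⟨_, b, rfl⟩
    exact Subtype.ext (zpow_mul_comm _ a b))
  refine Group.isSolvable_of_ker_le_range B.subtype q ?_
  intro x hx
  have h2 : QuotientGroup.mk' B x = 1 := congrArg Subtype.val hx
  exact ⟨⟨x, (QuotientGroup.eq_one_iff _).mp h2⟩, rfl⟩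

end solv

/-- **Free products of abelian groups extended by a group which permutes the factors.** -/
theorem lemL (hC : ClosedE C) (hF : FbC C) (hS : Sol C) {𝒜 I : Type} [Group 𝒜]
    (Γ N : Subgroup 𝒜) (A : I → Subgroup 𝒜) (hsup : ⨆ i, A i = N)
    (hinj : Function.Injective (Monoid.CoprodI.lift fun i => (A i).subtype))
    (hab : ∀ i, ∀ x ∈ A i, ∀ y ∈ A i, x * y = y * x)
    (hperm : ∀ γ ∈ Γ, ∀ i, ∃ j, ∀ x, x ∈ A i ↔ γ * x * γ⁻¹ ∈ A j)
    (hdis : ∀ γ ∈ Γ, γ ∈ N → γ = 1) (hΓ : C Γ) : C ↥(N ⊔ Γ) := by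
  have hAN : ∀ i, A i ≤ N := fun i => hsup ▸ le_iSup A i
  -- conjugation by the elements of `Γ` preserves `N`
  have hΓN : ∀ γ ∈ Γ, ∀ x ∈ N, γ * x * γ⁻¹ ∈ N := by
    intro γ hγ
    have : N ≤ N.comap (MulAut.conj γ).toMonoidHom := by
      conv_lhs => rw [← hsup]
      refine iSup_le fun i x hx => ?_
      obtain ⟨j, hj⟩ := hperm γ hγ i
      exact hAN j ((hj x).1 hx)
    exact fun x hx => this hx
  let G : Subgroup 𝒜 := N ⊔ Γ
  have hNG : N ≤ G := le_sup_left
  have hGn : G ≤ Subgroup.normalizer (N : Set 𝒜) := by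
    refine sup_le Subgroup.le_normalizer ?_
    intro γ hγ x
    constructor
    · exact hΓN γ hγ x
    · intro h
      have := hΓN γ⁻¹ (Γ.inv_mem hγ) _ h
      have e : γ⁻¹ * (γ * x * γ⁻¹) * γ⁻¹⁻¹ = x := by group
      rwa [e] at this
  let N' : Subgroup G := N.subgroupOf G
  have hN' : N'.Normal := by
    constructor
    intro b hb h
    rw [Subgroup.mem_subgroupOf] at hb ⊢
    exact (hGn h.2 b).1 hb
  let A' : I → Subgroup G := fun i => (A i).subgroupOf G
  have hgen : N' ⊔ Γ.subgroupOf G = ⊤ := by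
    rw [← Subgroup.subgroupOf_sup hNG le_sup_right]
    exact Subgroup.subgroupOf_self _
  have hdec : ∀ g : G, ∃ n ∈ N', ∃ γ ∈ Γ.subgroupOf G, n * γ = g := by
    intro g
    have : g ∈ N' ⊔ Γ.subgroupOf G := by rw [hgen]; trivial
    exact Pool.Agent.R941.FJ.mem_sup_normal.1 this
  -- the quotient
  have hQ : C (G ⧸ N') := by
    let f : Γ →* G ⧸ N' := (QuotientGroup.mk' N').comp (Subgroup.inclusion (le_sup_right : Γ ≤ G))
    have hf1 : Function.Injective f := by
      rw [injective_iff_map_eq_one]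
      rintro ⟨γ, hγ⟩ h
      have h1 := (QuotientGroup.eq_one_iff _).mp h
      rw [Subgroup.mem_subgroupOf] at h1
      exact Subtype.ext (hdis γ hγ h1)
    have hf2 : Function.Surjective f := by
      intro q
      obtain ⟨g, rfl⟩ := QuotientGroup.mk'_surjective N' q
      obtain ⟨n, hn, γ, hγ, rfl⟩ := hdec g
      refine ⟨⟨γ, hγ⟩, ?_⟩
      rw [map_mul]
      have : QuotientGroup.mk' N' n = 1 := (QuotientGroup.eq_one_iff n).mpr hn
      rw [this, one_mul]
      rfl
    exact C_equiv hC.base (MulEquiv.ofBijective f ⟨hf1, hf2⟩).symm hΓ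
  refine main_all hC hF (N := N') hQ A' Set.univ ⟨?_, ?_⟩ (fun i hi => absurd (Set.mem_univ i) hi)
    ?_ ?_
  · -- generation
    apply Subgroup.map_injective G.subtype_injective
    rw [Subgroup.map_iSup]
    rw [Subgroup.map_subgroupOf_eq_of_le hNG]
    have : ∀ i, (A' i).map G.subtype = A i := fun i =>
      Subgroup.map_subgroupOf_eq_of_le ((hAN i).trans hNG)
    simp_rw [this]
    exact hsup
  · -- freeness
    have hle : ∀ i, A i ≤ G := fun i => (hAN i).trans hNG
    let e : ∀ i, A' i →* A i := fun i => (Subgroup.subgroupOfEquivOfLe (hle i)).toMonoidHom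
    let e' : ∀ i, A i →* A' i := fun i => (Subgroup.subgroupOfEquivOfLe (hle i)).symm.toMonoidHom
    let θ : Monoid.CoprodI (fun i => A' i) →* Monoid.CoprodI (fun i => A i) :=
      Monoid.CoprodI.lift fun i => (Monoid.CoprodI.of (M := fun i => A i) (i := i)).comp (e i)
    let θ' : Monoid.CoprodI (fun i => A i) →* Monoid.CoprodI (fun i => A' i) :=
      Monoid.CoprodI.lift fun i => (Monoid.CoprodI.of (M := fun i => A' i) (i := i)).comp (e' i)
    have h1 : θ'.comp θ = MonoidHom.id _ := by
      apply Monoid.CoprodI.ext_hom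
      intro i
      ext x : 1
      change θ' (θ (Monoid.CoprodI.of x)) = _
      rw [Monoid.CoprodI.lift_of]
      change θ' (Monoid.CoprodI.of (M := fun i => A i) (i := i) (e i x)) = _
      rw [Monoid.CoprodI.lift_of]
      change Monoid.CoprodI.of (M := fun i => A' i) (i := i) (e' i (e i x)) = _
      have : e' i (e i x) = x := (Subgroup.subgroupOfEquivOfLe (hle i)).symm_apply_apply x
      rw [this]
      rfl
    have h2 : Function.Injective θ := by
      intro a b hab
      have := congrArg θ' hab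
      have h3 := DFunLike.congr_fun h1 a
      have h4 := DFunLike.congr_fun h1 b
      rw [MonoidHom.comp_apply] at h3 h4
      rw [h3, h4] at this
      exact this
    have h3 : G.subtype.comp (Monoid.CoprodI.lift fun i => (A' i).subtype) =
        (Monoid.CoprodI.lift fun i => (A i).subtype).comp θ := by
      apply Monoid.CoprodI.ext_hom
      intro i
      ext x : 1
      change G.subtype (Monoid.CoprodI.lift (fun i => (A' i).subtype) (Monoid.CoprodI.of x)) =
        Monoid.CoprodI.lift (fun i => (A i).subtype) (θ (Monoid.CoprodI.of x))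
      rw [Monoid.CoprodI.lift_of, Monoid.CoprodI.lift_of]
      change _ = Monoid.CoprodI.lift (fun i => (A i).subtype)
        (Monoid.CoprodI.of (M := fun i => A i) (i := i) (e i x))
      rw [Monoid.CoprodI.lift_of]
      rfl
    intro a b hab
    apply h2
    apply hinj
    have h4 := DFunLike.congr_fun h3 a
    have h5 := DFunLike.congr_fun h3 b
    rw [MonoidHom.comp_apply, MonoidHom.comp_apply] at h4 h5
    rw [← h4, ← h5, hab]
  · -- the factors are permuted
    intro i _ g
    obtain ⟨n, hn, γ, hγ, rfl⟩ := hdec g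
    obtain ⟨j, hj⟩ := hperm γ hγ i
    refine ⟨j, Set.mem_univ j, n⁻¹, N'.inv_mem hn, fun x => ?_⟩
    have e : n⁻¹ * (n * γ * x * (n * γ)⁻¹) * n⁻¹⁻¹ = γ * x * γ⁻¹ := by group
    rw [e]
    exact hj x
  · intro i _ g hg
    refine hS _ (solv_sup_zpowers (A' i) ?_ g hg)
    intro x hx y hy
    exact Subtype.ext (hab i x hx y hy)

end Pool.Agent.Helper686_FJ
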