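import Pool.Agent.Helper686_FJ.Base

/-!
# Free products of abelian groups extended by solvable groups
-/

set_option autoImplicit false

namespace Pool.Agent.Helper686_FJ

open Pool.Agent.Y110.FJ Pool.Agent.R684.FP Pool.Agent.H694.TR
open Pool.Agent.R941.FJ (C_equiv C_le)

variable {C : ∀ (G : Type) [Group G], Prop}

/-- groups whose commutators lie in an abelian subgroup -/
theorem solv_meta {G : Type} [Group G] (A T : Subgroup G) (hT : ∀ x ∈ T, ∀ y ∈ T, x * y = y * x)
    (hc : ∀ x ∈ A, ∀ y ∈ A, x * y * x⁻¹ * y⁻¹ ∈ T) : Group.IsSolvable A := by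
  let T' : Subgroup A := T.subgroupOf A
  have hn : T'.Normal := by
    constructor
    intro n hn g
    rw [Subgroup.mem_subgroupOf] at hn ⊢
    have h1 := T.mul_mem (hc g g.2 n n.2) hn
    rwa [inv_mul_cancel_right] at h1
  have hQ : Group.IsSolvable (A ⧸ T') := Group.isSolvable_of_comm (by
    intro a b
    obtain ⟨x, rfl⟩ := QuotientGroup.mk_surjective a
    obtain ⟨y, rfl⟩ := QuotientGroup.mk_surjective b
    rw [← QuotientGroup.mk_mul, ← QuotientGroup.mk_mul, QuotientGroup.eq, Subgroup.mem_subgroupOf]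
    have h1 := hc (y : G)⁻¹ (A.inv_mem y.2) (x : G)⁻¹ (A.inv_mem x.2)
    have h2 : (((x * y)⁻¹ * (y * x) : A) : G) = (y : G)⁻¹ * (x : G)⁻¹ * (y : G)⁻¹⁻¹ * (x : G)⁻¹⁻¹ := by
      simp [mul_assoc]
    rw [h2]
    exact h1)
  have hT' : Group.IsSolvable T' := Group.isSolvable_of_comm (by
    intro x y
    apply Subtype.ext
    apply Subtype.ext
    exact hT _ (Subgroup.mem_subgroupOf.1 x.2) _ (Subgroup.mem_subgroupOf.1 y.2))
  refine Group.isSolvable_of_ker_le_range T'.subtype (QuotientGroup.mk' T') ?_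
  rw [QuotientGroup.ker_mk', Subgroup.range_subtype]

/-- extensions of solvable groups -/
theorem solv_sup {G : Type} [Group G] (A B : Subgroup G) (hA : Group.IsSolvable A)
    (hB : Group.IsSolvable B) (hn : ∀ b ∈ B, ∀ a ∈ A, b * a * b⁻¹ ∈ A) :
    Group.IsSolvable ↥(A ⊔ B) := by
  let H : Subgroup G := A ⊔ B
  have hN : H ≤ Subgroup.normalizer (A : Set G) := by
    refine sup_le Subgroup.le_normalizer ?_
    intro b hb x
    constructor
    · exact hn b hb x
    · intro h
      have := hn b⁻¹ (B.inv_mem hb) _ h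
      have e : b⁻¹ * (b * x * b⁻¹) * b⁻¹⁻¹ = x := by group
      rwa [e] at this
  let A' : Subgroup H := A.subgroupOf H
  have hA' : A'.Normal := by
    constructor
    intro b hb h
    rw [Subgroup.mem_subgroupOf] at hb ⊢
    exact (hN h.2 b).1 hb
  have hgen : A' ⊔ B.subgroupOf H = ⊤ := by
    rw [← Subgroup.subgroupOf_sup le_sup_left le_sup_right]
    exact Subgroup.subgroupOf_self _
  have hQ : Group.IsSolvable (H ⧸ A') := by
    let f : B →* H ⧸ A' := (QuotientGroup.mk' A').comp (Subgroup.inclusion (le_sup_right : B ≤ H))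
    have hf2 : Function.Surjective f := by
      intro q
      obtain ⟨g, rfl⟩ := QuotientGroup.mk'_surjective A' q
      have h1 : g ∈ A' ⊔ B.subgroupOf H := by rw [hgen]; trivial
      obtain ⟨n, hn, γ, hγ, rfl⟩ := Pool.Agent.R941.FJ.mem_sup_normal.1 h1
      refine ⟨⟨γ, hγ⟩, ?_⟩
      rw [map_mul]
      have : QuotientGroup.mk' A' n = 1 := (QuotientGroup.eq_one_iff n).mpr hn
      rw [this, one_mul]
      rfl
    exact Group.isSolvable_of_surjective hf2
  refine Group.isSolvable_of_ker_le_range (Subgroup.inclusion (le_sup_left : A ≤ H))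
    (QuotientGroup.mk' A') ?_
  rw [QuotientGroup.ker_mk']
  intro x hx
  exact ⟨⟨x, hx⟩, rfl⟩

/-- **Free products of abelian groups extended by a solvable group which permutes the factors.** -/
theorem lemS (hC : ClosedE C) (hF : FbC C) (hS : Sol C) {𝒜 I : Type} [Group 𝒜]
    (Γ N : Subgroup 𝒜) (A : I → Subgroup 𝒜) (hsup : ⨆ i, A i = N)
    (hinj : Function.Injective (Monoid.CoprodI.lift fun i => (A i).subtype))
    (hab : ∀ i, ∀ x ∈ A i, ∀ y ∈ A i, x * y = y * x)
    (hperm : ∀ γ ∈ Γ, ∀ i, ∃ j, ∀ x, x ∈ A i ↔ γ * x * γ⁻¹ ∈ A j)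
    (hΓ : Group.IsSolvable Γ) : C ↥(N ⊔ Γ) := by
  have hAN : ∀ i, A i ≤ N := fun i => hsup ▸ le_iSup A i
  -- conjugation by the elements of `Γ` preserves `N`
  have hΓN : ∀ γ ∈ Γ, ∀ x ∈ N, γ * x * γ⁻¹ ∈ N := by
    intro γ hγ
    have : N ≤ N.comap (MulAut.conj γ).toMonoidHom := by
      conv_lhs => rw [← hsup]
      refine iSup_le fun i x hx => ?_
      obtain ⟨j, hj⟩ := hperm γ hγ i
      exact hAN j ((hj x).1 hx)
    exact fun x hx => this hx
  let G : Subgroup 𝒜 := N ⊔ Γ
  have hNG : N ≤ G := le_sup_left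
  have hGn : G ≤ Subgroup.normalizer (N : Set 𝒜) := by
    refine sup_le Subgroup.le_normalizer ?_
    intro γ hγ x
    constructor
    · exact hΓN γ hγ x
    · intro h
      have := hΓN γ⁻¹ (Γ.inv_mem hγ) _ h
      have e : γ⁻¹ * (γ * x * γ⁻¹) * γ⁻¹⁻¹ = x := by group
      rwa [e] at this
  let N' : Subgroup G := N.subgroupOf G
  have hN' : N'.Normal := by
    constructor
    intro b hb h
    rw [Subgroup.mem_subgroupOf] at hb ⊢
    exact (hGn h.2 b).1 hb
  let A' : I → Subgroup G := fun i => (A i).subgroupOf G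
  have hgen : N' ⊔ Γ.subgroupOf G = ⊤ := by
    rw [← Subgroup.subgroupOf_sup hNG le_sup_right]
    exact Subgroup.subgroupOf_self _
  have hdec : ∀ g : G, ∃ n ∈ N', ∃ γ ∈ Γ.subgroupOf G, n * γ = g := by
    intro g
    have : g ∈ N' ⊔ Γ.subgroupOf G := by rw [hgen]; trivial
    exact Pool.Agent.R941.FJ.mem_sup_normal.1 this
  -- the quotient
  have hQ : C (G ⧸ N') := by
    let f : Γ →* G ⧸ N' := (QuotientGroup.mk' N').comp (Subgroup.inclusion (le_sup_right : Γ ≤ G))
    have hf2 : Function.Surjective f := by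
      intro q
      obtain ⟨g, rfl⟩ := QuotientGroup.mk'_surjective N' q
      obtain ⟨n, hn, γ, hγ, rfl⟩ := hdec g
      refine ⟨⟨γ, hγ⟩, ?_⟩
      rw [map_mul]
      have : QuotientGroup.mk' N' n = 1 := (QuotientGroup.eq_one_iff n).mpr hn
      rw [this, one_mul]
      rfl
    exact hS _ (Group.isSolvable_of_surjective hf2)
  refine main_all hC hF (N := N') hQ A' Set.univ ⟨?_, ?_⟩ (fun i hi => absurd (Set.mem_univ i) hi)
    ?_ ?_
  · -- generation
    apply Subgroup.map_injective G.subtype_injective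
    rw [Subgroup.map_iSup]
    rw [Subgroup.map_subgroupOf_eq_of_le hNG]
    have : ∀ i, (A' i).map G.subtype = A i := fun i =>
      Subgroup.map_subgroupOf_eq_of_le ((hAN i).trans hNG)
    simp_rw [this]
    exact hsup
  · -- freeness
    have hle : ∀ i, A i ≤ G := fun i => (hAN i).trans hNG
    let e : ∀ i, A' i →* A i := fun i => (Subgroup.subgroupOfEquivOfLe (hle i)).toMonoidHom
    let e' : ∀ i, A i →* A' i := fun i => (Subgroup.subgroupOfEquivOfLe (hle i)).symm.toMonoidHom
    let θ : Monoid.CoprodI (fun i => A' i) →* Monoid.CoprodI (fun i => A i) :=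
      Monoid.CoprodI.lift fun i => (Monoid.CoprodI.of (M := fun i => A i) (i := i)).comp (e i)
    let θ' : Monoid.CoprodI (fun i => A i) →* Monoid.CoprodI (fun i => A' i) :=
      Monoid.CoprodI.lift fun i => (Monoid.CoprodI.of (M := fun i => A' i) (i := i)).comp (e' i)
    have h1 : θ'.comp θ = MonoidHom.id _ := by
      apply Monoid.CoprodI.ext_hom
      intro i
      ext x : 1
      change θ' (θ (Monoid.CoprodI.of x)) = _
      rw [Monoid.CoprodI.lift_of]
      change θ' (Monoid.CoprodI.of (M := fun i => A i) (i := i) (e i x)) = _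
      rw [Monoid.CoprodI.lift_of]
      change Monoid.CoprodI.of (M := fun i => A' i) (i := i) (e' i (e i x)) = _
      have : e' i (e i x) = x := (Subgroup.subgroupOfEquivOfLe (hle i)).symm_apply_apply x
      rw [this]
      rfl
    have h2 : Function.Injective θ := by
      intro a b hab
      have := congrArg θ' hab
      have h3 := DFunLike.congr_fun h1 a
      have h4 := DFunLike.congr_fun h1 b
      rw [MonoidHom.comp_apply] at h3 h4
      rw [h3, h4] at this
      exact this
    have h3 : G.subtype.comp (Monoid.CoprodI.lift fun i => (A' i).subtype) =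
        (Monoid.CoprodI.lift fun i => (A i).subtype).comp θ := by
      apply Monoid.CoprodI.ext_hom
      intro i
      ext x : 1
      change G.subtype (Monoid.CoprodI.lift (fun i => (A' i).subtype) (Monoid.CoprodI.of x)) =
        Monoid.CoprodI.lift (fun i => (A i).subtype) (θ (Monoid.CoprodI.of x))
      rw [Monoid.CoprodI.lift_of, Monoid.CoprodI.lift_of]
      change _ = Monoid.CoprodI.lift (fun i => (A i).subtype)
        (Monoid.CoprodI.of (M := fun i => A i) (i := i) (e i x))
      rw [Monoid.CoprodI.lift_of]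
      rfl
    intro a b hab
    apply h2
    apply hinj
    have h4 := DFunLike.congr_fun h3 a
    have h5 := DFunLike.congr_fun h3 b
    rw [MonoidHom.comp_apply, MonoidHom.comp_apply] at h4 h5
    rw [← h4, ← h5, hab]
  · -- the factors are permuted
    intro i _ g
    obtain ⟨n, hn, γ, hγ, rfl⟩ := hdec g
    obtain ⟨j, hj⟩ := hperm γ hγ i
    refine ⟨j, Set.mem_univ j, n⁻¹, N'.inv_mem hn, fun x => ?_⟩
    have e : n⁻¹ * (n * γ * x * (n * γ)⁻¹) * n⁻¹⁻¹ = γ * x * γ⁻¹ := by group
    rw [e]
    exact hj x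
  · intro i _ g hg
    refine hS _ (solv_sup_zpowers (A' i) ?_ g hg)
    intro x hx y hy
    exact Subtype.ext (hab i x hx y hy)

end Pool.Agent.Helper686_FJ
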