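import Mathlib

/-!
# The tree of `GL₂` of a field with a discrete valuation
-/

set_option autoImplicit false

namespace Pool.Agent.Helper686_FJ.Cur

section Acyclic

variable {V : Type} {T : SimpleGraph V}

/-- A graph with levels such that each vertex has at most one neighbour of lower level has no
cycles. -/
theorem acyclic_of_level (l : V → ℤ) (h1 : ∀ a b, T.Adj a b → l b = l a + 1 ∨ l b = l a - 1)
    (h2 : ∀ a b c, T.Adj a b → T.Adj a c → l b = l a - 1 → l c = l a - 1 → b = c) :
    T.IsAcyclic := by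
  classical
  intro v c hc
  obtain ⟨u, hu, hmax⟩ := Finset.exists_max_image c.support.toFinset l
    ⟨v, by simp⟩
  have hu' : u ∈ c.support := by simpa using hu
  have hc' : (c.rotate u hu').IsCycle := (SimpleGraph.Walk.isCycle_rotate hu').2 hc
  have hnil : ¬ (c.rotate u hu').Nil := hc'.not_nil
  have hle : ∀ x ∈ (c.rotate u hu').support, l x ≤ l u := by
    intro x hx
    rw [SimpleGraph.Walk.mem_support_rotate_iff] at hx
    exact hmax x (by simpa using hx)
  have a1 := (c.rotate u hu').adj_snd hnil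
  have a2 := ((c.rotate u hu').adj_penultimate hnil).symm
  have s1 : (c.rotate u hu').snd ∈ (c.rotate u hu').support :=
    SimpleGraph.Walk.getVert_mem_support _ _
  have s2 : (c.rotate u hu').penultimate ∈ (c.rotate u hu').support :=
    SimpleGraph.Walk.getVert_mem_support _ _
  have l1 := hle _ s1
  have l2 := hle _ s2
  refine hc'.snd_ne_penultimate (h2 u _ _ a1 a2 ?_ ?_)
  · rcases h1 _ _ a1 with h | h
    · omega
    · exact h
  · rcases h1 _ _ a2 with h | h
    · omega
    · exact h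

end Acyclic

/-- a discrete valuation on a field, as a function on the non-zero elements -/
structure DV (F : Type) [Field F] where
  w : F → ℤ
  mul : ∀ a b, a ≠ 0 → b ≠ 0 → w (a * b) = w a + w b
  add : ∀ a b, a ≠ 0 → b ≠ 0 → a + b ≠ 0 → min (w a) (w b) ≤ w (a + b)
  pi : F
  pi_ne : pi ≠ 0
  pi_w : w pi = 1

variable {F : Type} [Field F] (V : DV F)

theorem w_one : V.w 1 = 0 := by
  have := V.mul 1 1 one_ne_zero one_ne_zero
  rw [mul_one] at this
  omega

theorem w_neg {a : F} (ha : a ≠ 0) : V.w (-a) = V.w a := by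
  have h1 := V.mul (-1) (-1) (neg_ne_zero.2 one_ne_zero) (neg_ne_zero.2 one_ne_zero)
  rw [neg_mul_neg, mul_one, w_one] at h1
  have h2 := V.mul (-1) a (neg_ne_zero.2 one_ne_zero) ha
  rw [neg_one_mul] at h2
  omega

theorem w_inv {a : F} (ha : a ≠ 0) : V.w a⁻¹ = - V.w a := by
  have h1 := V.mul a a⁻¹ ha (inv_ne_zero ha)
  rw [mul_inv_cancel₀ ha, w_one] at h1
  omega

theorem w_zpow (n : ℤ) : V.w (V.pi ^ n) = n := by
  induction n with
  | zero => rw [zpow_zero, w_one]
  | succ n ih => rw [zpow_add_one₀ V.pi_ne, V.mul _ _ (zpow_ne_zero _ V.pi_ne) V.pi_ne, ih, V.pi_w]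
  | pred n ih =>
    rw [zpow_sub_one₀ V.pi_ne, V.mul _ _ (zpow_ne_zero _ V.pi_ne) (inv_ne_zero V.pi_ne), ih,
      w_inv V V.pi_ne, V.pi_w]
    ring

/-- `a` has valuation at least `n` -/
def ge (n : ℤ) (a : F) : Prop := a = 0 ∨ n ≤ V.w a

variable {V}

theorem ge_zero (n : ℤ) : ge V n 0 := Or.inl rfl

theorem ge_self (a : F) : ge V (V.w a) a := Or.inr le_rfl

theorem ge_mono {m n : ℤ} {a : F} (h : m ≤ n) (ha : ge V n a) : ge V m a :=
  ha.imp id fun h' => h.trans h'

theorem ge_add {n : ℤ} {a b : F} (ha : ge V n a) (hb : ge V n b) : ge V n (a + b) := by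
  rcases ha with rfl | ha
  · rwa [zero_add]
  · rcases hb with rfl | hb
    · rw [add_zero]
      exact Or.inr ha
    · by_cases h0 : a = 0
      · rw [h0, zero_add]
        exact Or.inr hb
      · by_cases h1 : b = 0
        · rw [h1, add_zero]
          exact Or.inr ha
        · by_cases h2 : a + b = 0
          · exact Or.inl h2
          · exact Or.inr ((le_min ha hb).trans (V.add a b h0 h1 h2))

theorem ge_mul {m n : ℤ} {a b : F} (ha : ge V m a) (hb : ge V n b) : ge V (m + n) (a * b) := by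
  by_cases h0 : a = 0
  · exact Or.inl (by rw [h0, zero_mul])
  · by_cases h1 : b = 0
    · exact Or.inl (by rw [h1, mul_zero])
    · have h2 := ha.resolve_left h0
      have h3 := hb.resolve_left h1
      exact Or.inr (by rw [V.mul a b h0 h1]; omega)

theorem ge_neg {n : ℤ} {a : F} (ha : ge V n a) : ge V n (-a) := by
  by_cases h0 : a = 0
  · exact Or.inl (by rw [h0, neg_zero])
  · exact Or.inr (by rw [w_neg V h0]; exact ha.resolve_left h0)

theorem ge_sub {n : ℤ} {a b : F} (ha : ge V n a) (hb : ge V n b) : ge V n (a - b) := by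
  rw [sub_eq_add_neg]
  exact ge_add ha (ge_neg hb)

/-- cancellation of a factor with known valuation -/
theorem ge_cancel {m n : ℤ} {a b : F} (ha : a ≠ 0) (hm : V.w a = m) (h : ge V (m + n) (a * b)) :
    ge V n b := by
  by_cases h1 : b = 0
  · exact Or.inl h1
  · have h2 := h.resolve_left (mul_ne_zero ha h1)
    rw [V.mul a b ha h1] at h2
    exact Or.inr (by omega)

theorem ge_one : ge V 0 (1 : F) := Or.inr (by rw [w_one])

variable (V)

/-- the group -/
abbrev GF (F : Type) [Field F] : Type := (Matrix (Fin 2) (Fin 2) F)ˣ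

theorem det_ne (g : GF F) : g.1.det ≠ 0 := by
  have h := congrArg Matrix.det g.mul_inv
  rw [Matrix.det_mul, Matrix.det_one] at h
  exact left_ne_zero_of_mul_eq_one h

theorem det_eq (g : GF F) : g.1.det = g.1 0 0 * g.1 1 1 - g.1 0 1 * g.1 1 0 := Matrix.det_fin_two _

theorem inv_entries (g : GF F) : (g⁻¹).1 = (g.1.det)⁻¹ • !![g.1 1 1, -g.1 0 1; -g.1 1 0, g.1 0 0] := by
  rw [Matrix.coe_units_inv, Matrix.inv_def, Ring.inverse_eq_inv', Matrix.adjugate_fin_two]

/-- the elements which are integral with unit determinant, up to a scalar -/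
def KK : Subgroup (GF F) where
  carrier := {g | ∃ n : ℤ, (∀ i j, ge V n (g.1 i j)) ∧ V.w g.1.det = 2 * n}
  one_mem' := by
    refine ⟨0, fun i j => ?_, ?_⟩
    · rw [Units.val_one, Matrix.one_apply]
      split_ifs
      · exact ge_one
      · exact ge_zero 0
    · rw [Units.val_one, Matrix.det_one, w_one]
      rfl
  mul_mem' := by
    rintro g h ⟨m, h1, h2⟩ ⟨n, h3, h4⟩
    refine ⟨m + n, fun i j => ?_, ?_⟩
    · rw [Units.val_mul, Matrix.mul_apply, Fin.sum_univ_two]
      exact ge_add (ge_mul (h1 _ _) (h3 _ _)) (ge_mul (h1 _ _) (h3 _ _))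
    · rw [Units.val_mul, Matrix.det_mul, V.mul _ _ (det_ne g) (det_ne h), h2, h4]
      ring
  inv_mem' := by
    rintro g ⟨n, h1, h2⟩
    have hd : ge V (-(2 * n)) (g.1.det)⁻¹ := Or.inr (by rw [w_inv V (det_ne g), h2])
    have e : -n = -(2 * n) + n := by ring
    refine ⟨-n, fun i j => ?_, ?_⟩
    · rw [inv_entries, Matrix.smul_apply, smul_eq_mul, e]
      refine ge_mul hd ?_
      fin_cases i <;> fin_cases j
      · exact h1 1 1
      · exact ge_neg (h1 0 1)
      · exact ge_neg (h1 1 0)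
      · exact h1 0 0
    · have h3 : (g⁻¹).1.det = (g.1.det)⁻¹ := by
        apply eq_inv_of_mul_eq_one_left
        rw [← Matrix.det_mul, g.inv_mul, Matrix.det_one]
      rw [h3, w_inv V (det_ne g), h2]
      ring

open Classical in
/-- the minimum of the valuations -/
noncomputable def mn (c d : F) : ℤ :=
  if c = 0 then V.w d else if d = 0 then V.w c else min (V.w c) (V.w d)

theorem mn_left (c d : F) : ge V (mn V c d) c := by
  classical
  unfold mn
  split_ifs with h1 h2
  · exact Or.inl h1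
  · exact ge_self c
  · exact Or.inr (min_le_left _ _)

theorem mn_right (c d : F) : ge V (mn V c d) d := by
  classical
  unfold mn
  split_ifs with h1 h2
  · exact ge_self d
  · exact Or.inl h2
  · exact Or.inr (min_le_right _ _)

theorem le_mn {c d : F} (h : c ≠ 0 ∨ d ≠ 0) {n : ℤ} (hc : ge V n c) (hd : ge V n d) :
    n ≤ mn V c d := by
  classical
  unfold mn
  split_ifs with h1 h2
  · exact hd.resolve_left (h.resolve_left (fun h' => h' h1))
  · exact hc.resolve_left h1
  · exact le_min (hc.resolve_left h1) (hd.resolve_left h2)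

/-- if `d` is not minimal, then `c` is -/
theorem mn_eq {c d : F} (h : c ≠ 0 ∨ d ≠ 0) (hd : ge V (mn V c d + 1) d) :
    c ≠ 0 ∧ V.w c = mn V c d := by
  have h1 : ¬ ge V (mn V c d + 1) c := by
    intro h2
    have := le_mn V h h2 hd
    omega
  have h3 : c ≠ 0 := fun h0 => h1 (Or.inl h0)
  refine ⟨h3, ?_⟩
  have h4 := (mn_left V c d).resolve_left h3
  by_contra h5
  exact h1 (Or.inr (by omega))

theorem row_ne (g : GF F) : g.1 1 0 ≠ 0 ∨ g.1 1 1 ≠ 0 := by
  by_contra h
  push Not at h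
  apply det_ne g
  rw [det_eq, h.1, h.2]
  ring

/-- the level -/
noncomputable def lv (g : GF F) : ℤ := V.w g.1.det - 2 * mn V (g.1 1 0) (g.1 1 1)

theorem mn_mul_le (g k : GF F) (n : ℤ) (hk : ∀ i j, ge V n (k.1 i j)) :
    mn V (g.1 1 0) (g.1 1 1) + n ≤ mn V ((g * k).1 1 0) ((g * k).1 1 1) := by
  refine le_mn V (row_ne _) ?_ ?_
  · rw [Units.val_mul, Matrix.mul_apply, Fin.sum_univ_two]
    exact ge_add (ge_mul (mn_left V _ _) (hk _ _)) (ge_mul (mn_right V _ _) (hk _ _))
  · rw [Units.val_mul, Matrix.mul_apply, Fin.sum_univ_two]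
    exact ge_add (ge_mul (mn_left V _ _) (hk _ _)) (ge_mul (mn_right V _ _) (hk _ _))

theorem mn_mul (g k : GF F) (n : ℤ) (hk : ∀ i j, ge V n (k.1 i j)) (hd : V.w k.1.det = 2 * n) :
    mn V ((g * k).1 1 0) ((g * k).1 1 1) = mn V (g.1 1 0) (g.1 1 1) + n := by
  apply le_antisymm ?_ (mn_mul_le V g k n hk)
  obtain ⟨n', h1, h2⟩ := (KK V).inv_mem (show k ∈ KK V from ⟨n, hk, hd⟩)
  have h3 := mn_mul_le V (g * k) k⁻¹ n' h1
  rw [mul_inv_cancel_right] at h3
  have h4 : V.w (k⁻¹).1.det = - (2 * n) := by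
    have h5 : (k⁻¹).1.det = (k.1.det)⁻¹ := by
      apply eq_inv_of_mul_eq_one_left
      rw [← Matrix.det_mul, k.inv_mul, Matrix.det_one]
    rw [h5, w_inv V (det_ne k), hd]
  rw [h4] at h2
  omega

theorem lv_mul (g k : GF F) (hk : k ∈ KK V) : lv V (g * k) = lv V g := by
  obtain ⟨n, h1, h2⟩ := hk
  unfold lv
  rw [mn_mul V g k n h1 h2, Units.val_mul, Matrix.det_mul, V.mul _ _ (det_ne g) (det_ne k), h2]
  ring

end Pool.Agent.Helper686_FJ.Cur
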