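import Pool.Agent.Helper686_FJ.Cur1
import Pool.Agent.H694.TR.Red

/-!
# The tree of `GL₂` of a field with a discrete valuation: it is a tree
-/

set_option autoImplicit false

namespace Pool.Agent.Helper686_FJ.Cur

open Pool.Agent.H694.TR

variable {F : Type} [Field F] (V : DV F)

/-- the diagonal matrix with entries `π ^ n` and `1` -/
noncomputable def dl (n : ℤ) : GF F where
  val := !![V.pi ^ n, 0; 0, 1]
  inv := !![V.pi ^ (-n), 0; 0, 1]
  val_inv := by
    have h := mul_inv_cancel₀ (zpow_ne_zero n V.pi_ne)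
    ext i j
    fin_cases i <;> fin_cases j <;>
      simp [Matrix.mul_apply, Fin.sum_univ_two, zpow_neg, h]
  inv_val := by
    have h := inv_mul_cancel₀ (zpow_ne_zero n V.pi_ne)
    ext i j
    fin_cases i <;> fin_cases j <;>
      simp [Matrix.mul_apply, Fin.sum_univ_two, zpow_neg, h]

theorem dl_val (n : ℤ) : (dl V n).1 = !![V.pi ^ n, 0; 0, 1] := rfl

theorem dl_add (m n : ℤ) : dl V m * dl V n = dl V (m + n) := by
  apply Units.ext
  ext i j
  fin_cases i <;> fin_cases j <;>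
    simp [dl_val, Matrix.mul_apply, Fin.sum_univ_two, zpow_add₀ V.pi_ne]

theorem dl_inv (n : ℤ) : (dl V n)⁻¹ = dl V (-n) := by
  apply inv_eq_of_mul_eq_one_left
  rw [dl_add, neg_add_cancel]
  apply Units.ext
  ext i j
  fin_cases i <;> fin_cases j <;> simp [dl_val]

theorem dl_zero : dl V 0 = 1 := by
  apply Units.ext
  ext i j
  fin_cases i <;> fin_cases j <;> simp [dl_val]

theorem dl_det (n : ℤ) : V.w (dl V n).1.det = n := by
  rw [dl_val, Matrix.det_fin_two_of, mul_one, mul_zero, sub_zero, w_zpow]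

/-- the matrix which interchanges the coordinates -/
def sw (F : Type) [Field F] : GF F where
  val := !![0, 1; 1, 0]
  inv := !![0, 1; 1, 0]
  val_inv := by
    ext i j
    fin_cases i <;> fin_cases j <;> simp [Matrix.mul_apply, Fin.sum_univ_two]
  inv_val := by
    ext i j
    fin_cases i <;> fin_cases j <;> simp [Matrix.mul_apply, Fin.sum_univ_two]

theorem sw_val : (sw F).1 = !![0, 1; 1, 0] := rfl

theorem sw_mem : sw F ∈ KK V := by
  refine ⟨0, fun i j => ?_, ?_⟩
  · rw [sw_val]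
    fin_cases i <;> fin_cases j
    · exact ge_zero 0
    · exact ge_one
    · exact ge_one
    · exact ge_zero 0
  · rw [sw_val, Matrix.det_fin_two_of, zero_mul, mul_one, zero_sub, w_neg V one_ne_zero, w_one]
    rfl

/-- unipotent matrices -/
def un (a : F) : GF F where
  val := !![1, a; 0, 1]
  inv := !![1, -a; 0, 1]
  val_inv := by
    ext i j
    fin_cases i <;> fin_cases j <;> simp [Matrix.mul_apply, Fin.sum_univ_two]
  inv_val := by
    ext i j
    fin_cases i <;> fin_cases j <;> simp [Matrix.mul_apply, Fin.sum_univ_two]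

theorem un_val (a : F) : (un a).1 = !![1, a; 0, 1] := rfl

theorem un_inv (a : F) : (un a)⁻¹ = un (-a) := by
  apply inv_eq_of_mul_eq_one_left
  apply Units.ext
  ext i j
  fin_cases i <;> fin_cases j <;> simp [un_val, Matrix.mul_apply, Fin.sum_univ_two]

theorem dl_mul (m : ℤ) (g : GF F) : (dl V m * g).1 =
    !![V.pi ^ m * g.1 0 0, V.pi ^ m * g.1 0 1; g.1 1 0, g.1 1 1] := by
  ext i j
  rw [Units.val_mul, Matrix.mul_apply, Fin.sum_univ_two, dl_val]
  fin_cases i <;> fin_cases j <;> simp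

theorem mul_dl (m : ℤ) (g : GF F) : (g * dl V m).1 =
    !![g.1 0 0 * V.pi ^ m, g.1 0 1; g.1 1 0 * V.pi ^ m, g.1 1 1] := by
  ext i j
  rw [Units.val_mul, Matrix.mul_apply, Fin.sum_univ_two, dl_val]
  fin_cases i <;> fin_cases j <;> simp

theorem un_mul (a : F) (g : GF F) : (un a * g).1 =
    !![g.1 0 0 + a * g.1 1 0, g.1 0 1 + a * g.1 1 1; g.1 1 0, g.1 1 1] := by
  ext i j
  rw [Units.val_mul, Matrix.mul_apply, Fin.sum_univ_two, un_val]
  fin_cases i <;> fin_cases j <;> simp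

theorem mul_sw (g : GF F) : (g * sw F).1 = !![g.1 0 1, g.1 0 0; g.1 1 1, g.1 1 0] := by
  ext i j
  rw [Units.val_mul, Matrix.mul_apply, Fin.sum_univ_two, sw_val]
  fin_cases i <;> fin_cases j <;> simp

/-- the vertices -/
abbrev VT : Type := GF F ⧸ KK V

/-- the tree -/
def TT : SimpleGraph (VT V) where
  Adj x y := ∃ g : GF F, x = (g : VT V) ∧ y = ((g * dl V 1 : GF F) : VT V)
  symm := ⟨by
    rintro x y ⟨g, rfl, rfl⟩
    refine ⟨g * dl V 1 * sw F, ?_, ?_⟩
    · rw [QuotientGroup.eq]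
      have : (g * dl V 1)⁻¹ * (g * dl V 1 * sw F) = sw F := by group
      rw [this]
      exact sw_mem V
    · rw [QuotientGroup.eq]
      have h1 : g⁻¹ * (g * dl V 1 * sw F * dl V 1) = dl V 1 * sw F * dl V 1 := by group
      rw [h1]
      have h2 : (dl V 1 * sw F * dl V 1).1 = !![0, V.pi; V.pi, 0] := by
        ext i j
        fin_cases i <;> fin_cases j <;>
          simp [dl_val, sw_val, Matrix.mul_apply, Fin.sum_univ_two]
      refine ⟨1, fun i j => ?_, ?_⟩
      · rw [h2]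
        have h3 : ge V 1 V.pi := Or.inr (by rw [V.pi_w])
        fin_cases i <;> fin_cases j
        · exact ge_zero 1
        · exact h3
        · exact h3
        · exact ge_zero 1
      · rw [h2, Matrix.det_fin_two_of, zero_mul, zero_sub, w_neg V (mul_ne_zero V.pi_ne V.pi_ne),
          V.mul _ _ V.pi_ne V.pi_ne, V.pi_w]
        rfl⟩
  loopless := ⟨by
    rintro x ⟨g, rfl, h⟩
    rw [QuotientGroup.eq, inv_mul_cancel_left] at h
    obtain ⟨n, _, h2⟩ := h
    rw [dl_det] at h2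
    omega⟩

/-- the level of a vertex -/
noncomputable def lq : VT V → ℤ :=
  Quotient.lift (lv V) (by
    intro a b hab
    have h1 : a⁻¹ * b ∈ KK V := QuotientGroup.leftRel_apply.1 hab
    have h2 := lv_mul V a _ h1
    rw [mul_inv_cancel_left] at h2
    exact h2.symm)

theorem lq_mk (g : GF F) : lq V (g : VT V) = lv V g := rfl

/-- the bottom row of `g δ` -/
theorem row_dl (g : GF F) (n : ℤ) : (g * dl V n).1 1 0 = g.1 1 0 * V.pi ^ n ∧
    (g * dl V n).1 1 1 = g.1 1 1 := by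
  rw [mul_dl]
  exact ⟨rfl, rfl⟩

theorem lv_dl (g : GF F) : (lv V (g * dl V 1) = lv V g + 1) ∨ (lv V (g * dl V 1) = lv V g - 1 ∧
    ge V (mn V (g.1 1 0) (g.1 1 1) + 1) (g.1 1 1)) := by
  have hr := row_dl V g 1
  have h1 : mn V (g.1 1 0) (g.1 1 1) ≤ mn V ((g * dl V 1).1 1 0) ((g * dl V 1).1 1 1) := by
    refine le_mn V (row_ne _) ?_ ?_
    · rw [hr.1, zpow_one]
      have h2 := ge_mul (mn_left V (g.1 1 0) (g.1 1 1)) (show ge V 0 V.pi from Or.inr (by
        rw [V.pi_w]; norm_num))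
      rwa [add_zero] at h2
    · rw [hr.2]
      exact mn_right V _ _
  have h2 : mn V ((g * dl V 1).1 1 0) ((g * dl V 1).1 1 1) - 1 ≤ mn V (g.1 1 0) (g.1 1 1) := by
    refine le_mn V (row_ne _) ?_ ?_
    · have h3 := mn_left V ((g * dl V 1).1 1 0) ((g * dl V 1).1 1 1)
      refine ge_cancel (a := V.pi) (m := 1) V.pi_ne V.pi_w ?_
      rw [mul_comm V.pi]
      have h4 := hr.1
      rw [zpow_one] at h4
      rw [← h4]
      exact ge_mono (by omega) h3
    · have h3 := mn_right V ((g * dl V 1).1 1 0) ((g * dl V 1).1 1 1)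
      have h4 : g.1 1 1 = (g * dl V 1).1 1 1 := hr.2.symm
      have h5 : ge V (mn V ((g * dl V 1).1 1 0) ((g * dl V 1).1 1 1)) (g.1 1 1) := by
        rw [h4]
        exact h3
      exact ge_mono (by omega) h5
  have h3 : V.w (g * dl V 1).1.det = V.w g.1.det + 1 := by
    rw [Units.val_mul, Matrix.det_mul, V.mul _ _ (det_ne g) (det_ne _), dl_det]
  unfold lv
  rw [h3]
  have h4 : mn V ((g * dl V 1).1 1 0) ((g * dl V 1).1 1 1) = mn V (g.1 1 0) (g.1 1 1) ∨
      mn V ((g * dl V 1).1 1 0) ((g * dl V 1).1 1 1) = mn V (g.1 1 0) (g.1 1 1) + 1 := by omega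
  rcases h4 with h4 | h4
  · left
    rw [h4]
    ring
  · right
    refine ⟨by rw [h4]; ring, ?_⟩
    have h5 := mn_right V ((g * dl V 1).1 1 0) ((g * dl V 1).1 1 1)
    rw [h4] at h5
    have h6 : g.1 1 1 = (g * dl V 1).1 1 1 := hr.2.symm
    exact h6 ▸ h5

theorem lq_adj {x y : VT V} (h : (TT V).Adj x y) : lq V y = lq V x + 1 ∨ lq V y = lq V x - 1 := by
  obtain ⟨g, rfl, rfl⟩ := h
  rw [lq_mk, lq_mk]
  rcases lv_dl V g with h | h
  · exact Or.inl h
  · exact Or.inr h.1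

theorem parent_unique {x y z : VT V} (h1 : (TT V).Adj x y) (h2 : (TT V).Adj x z)
    (h3 : lq V y = lq V x - 1) (h4 : lq V z = lq V x - 1) : y = z := by
  obtain ⟨g, rfl, rfl⟩ := h1
  obtain ⟨h, hgh, rfl⟩ := h2
  rw [lq_mk, lq_mk] at h3
  rw [hgh, lq_mk, lq_mk] at h4
  have h5 := (lv_dl V g).resolve_left (by omega)
  have h6 := (lv_dl V h).resolve_left (by omega)
  have hk : h⁻¹ * g ∈ KK V := by
    have := QuotientGroup.eq.1 hgh
    have h7 := (KK V).inv_mem this
    have h8 : (g⁻¹ * h)⁻¹ = h⁻¹ * g := by group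
    rwa [h8] at h7
  obtain ⟨k, hk'⟩ : ∃ k, k = h⁻¹ * g := ⟨_, rfl⟩
  rw [← hk'] at hk
  have hg : g = h * k := by rw [hk']; group
  obtain ⟨n, hk1, hk2⟩ := hk
  have hm := mn_mul V h k n hk1 hk2
  rw [← hg] at hm
  -- the entry `(0, 1)` of `k`
  have hc := mn_eq V (row_ne h) h6.2
  have h01 : ge V (n + 1) (k.1 0 1) := by
    refine ge_cancel (a := h.1 1 0) (m := mn V (h.1 1 0) (h.1 1 1)) hc.1 hc.2 ?_
    have h7 : g.1 1 1 = h.1 1 0 * k.1 0 1 + h.1 1 1 * k.1 1 1 := by
      rw [hg, Units.val_mul, Matrix.mul_apply, Fin.sum_univ_two]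
    have h8 : h.1 1 0 * k.1 0 1 = g.1 1 1 - h.1 1 1 * k.1 1 1 := by
      rw [h7]
      ring
    rw [h8]
    refine ge_sub ?_ ?_
    · have h9 := h5.2
      rw [hm] at h9
      exact ge_mono (by omega) h9
    · exact ge_mono (by omega) (ge_mul h6.2 (hk1 1 1))
  rw [QuotientGroup.eq]
  have e : (g * dl V 1)⁻¹ * (h * dl V 1) = ((dl V 1)⁻¹ * k * dl V 1)⁻¹ := by
    rw [hg]
    group
  rw [e]
  refine (KK V).inv_mem ⟨n, fun i j => ?_, ?_⟩
  · rw [dl_inv]
    have h7 : (dl V (-1) * k * dl V 1).1 = !![k.1 0 0, V.pi⁻¹ * k.1 0 1; k.1 1 0 * V.pi, k.1 1 1] := by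
      rw [mul_dl, dl_mul]
      ext i j
      fin_cases i <;> fin_cases j <;> simp [mul_right_comm, V.pi_ne]
    rw [h7]
    fin_cases i <;> fin_cases j
    · exact hk1 0 0
    · have h8 : ge V (-1) V.pi⁻¹ := Or.inr (by rw [w_inv V V.pi_ne, V.pi_w])
      exact ge_mono (by omega) (ge_mul h8 h01)
    · have h8 : ge V 1 V.pi := Or.inr (by rw [V.pi_w])
      exact ge_mono (by omega) (ge_mul (hk1 1 0) h8)
    · exact hk1 1 1
  · rw [dl_inv, Units.val_mul, Matrix.det_mul, Units.val_mul, Matrix.det_mul,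
      V.mul _ _ (mul_ne_zero (det_ne _) (det_ne _)) (det_ne _), V.mul _ _ (det_ne _) (det_ne _),
      dl_det, dl_det, hk2]
    ring

theorem TT_acyclic : (TT V).IsAcyclic :=
  acyclic_of_level (lq V) (fun _ _ h => lq_adj V h) fun _ _ _ h1 h2 h3 h4 =>
    parent_unique V h1 h2 h3 h4

/-- adjacent vertices on the apartments -/
theorem adj_un (a : F) (n : ℤ) : (TT V).Adj ((un a * dl V n : GF F) : VT V)
    ((un a * dl V (n + 1) : GF F) : VT V) := by
  refine ⟨un a * dl V n, rfl, ?_⟩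
  rw [mul_assoc, dl_add]

theorem reach_un (a : F) (n m : ℤ) : (TT V).Reachable ((un a * dl V n : GF F) : VT V)
    ((un a * dl V m : GF F) : VT V) := by
  have h1 : ∀ k : ℕ, ∀ n : ℤ, (TT V).Reachable ((un a * dl V n : GF F) : VT V)
      ((un a * dl V (n + k) : GF F) : VT V) := by
    intro k
    induction k with
    | zero =>
      intro n
      rw [Nat.cast_zero, add_zero]
    | succ k ih =>
      intro n
      refine (ih n).trans ?_
      have h2 := (adj_un V a (n + k)).reachable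
      have e : n + ((k + 1 : ℕ) : ℤ) = n + k + 1 := by push_cast; ring
      rw [e]
      exact h2
  rcases le_total n m with h | h
  · have h2 := h1 (m - n).toNat n
    have e : n + ((m - n).toNat : ℤ) = m := by omega
    rwa [e] at h2
  · have h2 := h1 (n - m).toNat m
    have e : m + ((n - m).toNat : ℤ) = n := by omega
    rw [e] at h2
    exact h2.symm

/-- upper triangular representatives -/
theorem iwasawa' (g : GF F) (hd : g.1 1 1 ≠ 0) (hc : ge V (V.w (g.1 1 1)) (g.1 1 0)) :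
    ∃ (a : F) (n : ℤ), (g : VT V) = ((un a * dl V n : GF F) : VT V) := by
  refine ⟨g.1 0 1 / g.1 1 1, V.w g.1.det - 2 * V.w (g.1 1 1), ?_⟩
  symm
  rw [QuotientGroup.eq]
  obtain ⟨n, hn⟩ : ∃ n : ℤ, n = V.w g.1.det - 2 * V.w (g.1 1 1) := ⟨_, rfl⟩
  rw [← hn]
  have e : (un (g.1 0 1 / g.1 1 1) * dl V n)⁻¹ * g = dl V (-n) * (un (-(g.1 0 1 / g.1 1 1)) * g) := by
    rw [← un_inv, ← dl_inv]
    group
  have h2 : (dl V (-n) * (un (-(g.1 0 1 / g.1 1 1)) * g)).1 =
      !![V.pi ^ (-n) * (g.1.det / g.1 1 1), 0; g.1 1 0, g.1 1 1] := by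
    rw [det_eq, dl_mul, un_mul]
    have e1 : g.1 0 0 + -(g.1 0 1 / g.1 1 1) * g.1 1 0 =
        (g.1 0 0 * g.1 1 1 - g.1 0 1 * g.1 1 0) / g.1 1 1 := by
      field_simp
      ring
    have e2 : g.1 0 1 + -(g.1 0 1 / g.1 1 1) * g.1 1 1 = 0 := by
      field_simp
      ring
    ext i j
    fin_cases i <;> fin_cases j
    · change V.pi ^ (-n) * (g.1 0 0 + -(g.1 0 1 / g.1 1 1) * g.1 1 0) = _
      rw [e1]
      rfl
    · change V.pi ^ (-n) * (g.1 0 1 + -(g.1 0 1 / g.1 1 1) * g.1 1 1) = 0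
      rw [e2, mul_zero]
    · rfl
    · rfl
  rw [e]
  refine ⟨V.w (g.1 1 1), fun i j => ?_, ?_⟩
  · rw [h2]
    fin_cases i <;> fin_cases j
    · refine Or.inr ?_
      change _ ≤ V.w (V.pi ^ (-n) * (g.1.det / g.1 1 1))
      rw [V.mul _ _ (zpow_ne_zero _ V.pi_ne) (div_ne_zero (det_ne g) hd), w_zpow, div_eq_mul_inv,
        V.mul _ _ (det_ne g) (inv_ne_zero hd), w_inv V hd]
      omega
    · exact ge_zero _
    · exact hc
    · exact ge_self _
  · rw [h2, Matrix.det_fin_two_of, zero_mul, sub_zero,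
      V.mul _ _ (mul_ne_zero (zpow_ne_zero _ V.pi_ne) (div_ne_zero (det_ne g) hd)) hd,
      V.mul _ _ (zpow_ne_zero _ V.pi_ne) (div_ne_zero (det_ne g) hd), w_zpow, div_eq_mul_inv,
      V.mul _ _ (det_ne g) (inv_ne_zero hd), w_inv V hd]
    omega

theorem iwasawa (g : GF F) : ∃ (a : F) (n : ℤ), (g : VT V) = ((un a * dl V n : GF F) : VT V) := by
  by_cases h : g.1 1 1 ≠ 0 ∧ ge V (V.w (g.1 1 1)) (g.1 1 0)
  · exact iwasawa' V g h.1 h.2
  · have h1 : (g * sw F).1 1 1 = g.1 1 0 := by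
      rw [mul_sw]
      rfl
    have h2 : (g * sw F).1 1 0 = g.1 1 1 := by
      rw [mul_sw]
      rfl
    have h3 : g.1 1 0 ≠ 0 := by
      intro h0
      rcases row_ne g with h4 | h4
      · exact h4 h0
      · exact h ⟨h4, Or.inl h0⟩
    have h4 : ge V (V.w (g.1 1 0)) (g.1 1 1) := by
      by_cases h5 : g.1 1 1 = 0
      · exact Or.inl h5
      · right
        by_contra h6
        exact h ⟨h5, Or.inr (by omega)⟩
    obtain ⟨a, n, h5⟩ := iwasawa' V (g * sw F) (by rw [h1]; exact h3) (by rw [h1, h2]; exact h4)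
    refine ⟨a, n, ?_⟩
    rw [← h5, QuotientGroup.eq, inv_mul_cancel_left]
    exact sw_mem V

theorem un_dl_eq (a : F) (n : ℤ) (h : ge V n a) : ((un a * dl V n : GF F) : VT V) =
    ((un 0 * dl V n : GF F) : VT V) := by
  symm
  rw [QuotientGroup.eq]
  have e : (un 0 * dl V n)⁻¹ * (un a * dl V n) = dl V (-n) * (un a * dl V n) := by
    have h0 : un (0 : F) = 1 := by
      apply Units.ext
      ext i j
      fin_cases i <;> fin_cases j <;> simp [un_val]
    rw [h0, one_mul, dl_inv]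
  have h2 : (dl V (-n) * (un a * dl V n)).1 = !![1, V.pi ^ (-n) * a; 0, 1] := by
    have h3 : V.pi ^ (-n) * V.pi ^ n = 1 := by
      rw [← zpow_add₀ V.pi_ne, neg_add_cancel, zpow_zero]
    rw [dl_mul, un_mul, dl_val]
    ext i j
    fin_cases i <;> fin_cases j
    · simpa using h3
    · simp
    · simp
    · simp
  rw [e]
  refine ⟨0, fun i j => ?_, ?_⟩
  · rw [h2]
    fin_cases i <;> fin_cases j
    · exact ge_one
    · have h3 : ge V (-n) (V.pi ^ (-n)) := Or.inr (by rw [w_zpow])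
      exact ge_mono (by omega) (ge_mul h3 h)
    · exact ge_zero 0
    · exact ge_one
  · rw [h2, Matrix.det_fin_two_of, mul_zero, sub_zero, mul_one, w_one]
    rfl

theorem TT_tree : (TT V).IsTree := by
  have h0 : ∀ x : VT V, (TT V).Reachable x ((un 0 * dl V 0 : GF F) : VT V) := by
    intro x
    obtain ⟨g, rfl⟩ := QuotientGroup.mk_surjective x
    obtain ⟨a, n, h1⟩ := iwasawa V g
    rw [h1]
    have h2 := reach_un V a n (V.w a)
    rw [un_dl_eq V a (V.w a) (ge_self a)] at h2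
    exact h2.trans (reach_un V 0 _ _)
  refine ⟨⟨fun x y => (h0 x).trans (h0 y).symm⟩, TT_acyclic V⟩

end Pool.Agent.Helper686_FJ.Cur
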