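import Pool.Agent.Helper686_FJ.Cur2
import Pool.Agent.H694.TR.Main

/-!
# `GL₂` of a domain with a degree function
-/

set_option autoImplicit false

namespace Pool.Agent.Helper686_FJ.Cur

open Pool.Agent.H694.TR Pool.Agent.Y110.FJ Pool.Agent.R684.FP

/-- a degree function: `deg (a b) = deg a + deg b` for non-zero `a`, `b`, and
`deg (a + b) ≤ max (deg a) (deg b)` -/
structure IsDeg {A : Type} [CommRing A] (d : A → ℕ) : Prop where
  mul : ∀ a b, a ≠ 0 → b ≠ 0 → d (a * b) = d a + d b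
  add : ∀ a b, d (a + b) ≤ max (d a) (d b)

section Deg

variable {A : Type} [CommRing A] [IsDomain A] {d : A → ℕ} (hd : IsDeg d)

include hd

theorem d_one : d 1 = 0 := by
  have := hd.mul 1 1 one_ne_zero one_ne_zero
  rw [mul_one] at this
  omega

theorem d_neg_one : d (-1) = 0 := by
  have := hd.mul (-1) (-1) (neg_ne_zero.2 one_ne_zero) (neg_ne_zero.2 one_ne_zero)
  rw [neg_mul_neg, mul_one, d_one hd] at this
  omega

theorem d_zero : d 0 = 0 := by
  have h := hd.add 1 (-1)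
  rw [add_neg_cancel, d_one hd, d_neg_one hd] at h
  omega

theorem d_neg (a : A) : d (-a) = d a := by
  by_cases h : a = 0
  · rw [h, neg_zero]
  · have := hd.mul (-1) a (neg_ne_zero.2 one_ne_zero) h
    rw [neg_one_mul, d_neg_one hd] at this
    omega

theorem d_unit {a b : A} (h : a * b = 1) : d a = 0 := by
  have h1 := hd.mul a b (left_ne_zero_of_mul_eq_one h) (right_ne_zero_of_mul_eq_one h)
  rw [h, d_one hd] at h1
  omega

theorem d_sub_zero {a b : A} (ha : d a = 0) (hb : d b = 0) : d (a - b) = 0 := by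
  have h := hd.add a (-b)
  rw [d_neg hd, ha, hb, ← sub_eq_add_neg] at h
  omega

end Deg

/-- commuting unipotent matrices -/
theorem comm_of_trace {A : Type} [CommRing A] [IsDomain A] (x y : Matrix (Fin 2) (Fin 2) A)
    (tx : x.trace = 2) (ty : y.trace = 2) (txy : (x * y).trace = 2) (dx : x.det = 1)
    (dy : y.det = 1) : x * y = y * x := by
  rw [Matrix.trace_fin_two] at tx ty txy
  rw [Matrix.det_fin_two] at dx dy
  rw [Matrix.mul_apply, Matrix.mul_apply, Fin.sum_univ_two, Fin.sum_univ_two] at txy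
  have e1 : x 1 1 = 2 - x 0 0 := by linear_combination tx
  have e2 : y 1 1 = 2 - y 0 0 := by linear_combination ty
  rw [e1] at dx txy
  rw [e2] at dy txy
  obtain ⟨p, hp⟩ : ∃ p, x 0 0 = 1 + p := ⟨x 0 0 - 1, by ring⟩
  obtain ⟨u, hu⟩ : ∃ u, y 0 0 = 1 + u := ⟨y 0 0 - 1, by ring⟩
  obtain ⟨q, hq⟩ : ∃ q, x 0 1 = q := ⟨_, rfl⟩
  obtain ⟨r, hr⟩ : ∃ r, x 1 0 = r := ⟨_, rfl⟩
  obtain ⟨v, hv⟩ : ∃ v, y 0 1 = v := ⟨_, rfl⟩
  obtain ⟨s, hs⟩ : ∃ s, y 1 0 = s := ⟨_, rfl⟩
  rw [hp] at dx txy e1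
  rw [hu] at dy txy e2
  rw [hq] at dx txy
  rw [hr] at dx txy
  rw [hv] at dy txy
  rw [hs] at dy txy
  have h1 : p ^ 2 + q * r = 0 := by linear_combination -dx
  have h2 : u ^ 2 + v * s = 0 := by linear_combination -dy
  have h3 : 2 * p * u + q * s + r * v = 0 := by linear_combination txy
  have k1 : q * s - v * r = 0 := by
    have : (q * s - v * r) ^ 2 = 0 := by
      linear_combination (q * s + v * r - 2 * p * u) * h3 + 4 * u ^ 2 * h1 - 4 * q * r * h2
    exact pow_eq_zero_iff (two_ne_zero) |>.1 this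
  have k2 : p * v - q * u = 0 := by
    have : (p * v - q * u) ^ 2 = 0 := by
      linear_combination (v ^ 2) * h1 + (q ^ 2) * h2 - (q * v) * h3
    exact pow_eq_zero_iff (two_ne_zero) |>.1 this
  have k3 : r * u - p * s = 0 := by
    have : (r * u - p * s) ^ 2 = 0 := by
      linear_combination (s ^ 2) * h1 + (r ^ 2) * h2 - (r * s) * h3
    exact pow_eq_zero_iff (two_ne_zero) |>.1 this
  ext i j
  rw [Matrix.mul_apply, Matrix.mul_apply, Fin.sum_univ_two, Fin.sum_univ_two]
  fin_cases i <;> fin_cases j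
  · change x 0 0 * y 0 0 + x 0 1 * y 1 0 = y 0 0 * x 0 0 + y 0 1 * x 1 0
    rw [hp, hu, hq, hr, hv, hs]
    linear_combination k1
  · change x 0 0 * y 0 1 + x 0 1 * y 1 1 = y 0 0 * x 0 1 + y 0 1 * x 1 1
    rw [e1, e2, hp, hu, hq, hv]
    linear_combination 2 * k2
  · change x 1 0 * y 0 0 + x 1 1 * y 1 0 = y 1 0 * x 0 0 + y 1 1 * x 1 0
    rw [e1, e2, hp, hu, hr, hs]
    linear_combination 2 * k3
  · change x 1 0 * y 0 1 + x 1 1 * y 1 1 = y 1 0 * x 0 1 + y 1 1 * x 1 1
    rw [e1, e2, hq, hr, hv, hs]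
    linear_combination -k1

section Act

variable {A F : Type} [CommRing A] [Field F] (V : DV F) (j : A →+* F)

/-- the embedding of `GL₂(A)` in `GL₂(F)` -/
def em : (Matrix (Fin 2) (Fin 2) A)ˣ →* GF F := Units.map (j.mapMatrix).toMonoidHom

theorem em_val (γ : (Matrix (Fin 2) (Fin 2) A)ˣ) : (em j γ).1 = γ.1.map j := rfl

/-- the action of `GL₂(A)` on the vertices -/
@[instance_reducible] def actA : MulAction (Matrix (Fin 2) (Fin 2) A)ˣ (VT V) :=
  MulAction.compHom (VT V) (em j)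

theorem em_det (γ : (Matrix (Fin 2) (Fin 2) A)ˣ) : (em j γ).1.det = j γ.1.det := by
  rw [em_val, ← RingHom.mapMatrix_apply, RingHom.map_det]

theorem em_trace (γ : (Matrix (Fin 2) (Fin 2) A)ˣ) : (em j γ).1.trace = j γ.1.trace := by
  rw [em_val, Matrix.trace_fin_two, Matrix.trace_fin_two, map_add]
  rfl

theorem treeAct (hu : ∀ a : A, IsUnit a → V.w (j a) = 0) :
    letI := actA V j
    TreeAct (Matrix (Fin 2) (Fin 2) A)ˣ (VT V) (TT V) := by
  letI := actA V j
  have hsm : ∀ (γ : (Matrix (Fin 2) (Fin 2) A)ˣ) (g : GF F),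
      γ • (g : VT V) = ((em j γ * g : GF F) : VT V) := fun γ g => rfl
  refine ⟨TT_tree V, ?_, ?_⟩
  · rintro γ u v ⟨g, rfl, rfl⟩
    rw [hsm, hsm, ← mul_assoc]
    exact ⟨em j γ * g, rfl, rfl⟩
  · rintro γ u v ⟨g, rfl, rfl⟩ ⟨h1, _⟩
    rw [hsm, QuotientGroup.eq] at h1
    obtain ⟨n, _, h2⟩ := h1
    have h3 : ((em j γ * g)⁻¹ * (g * dl V 1)).1.det * (em j γ).1.det = (dl V 1).1.det := by
      rw [← Matrix.det_mul, ← Units.val_mul]
      have e : (em j γ * g)⁻¹ * (g * dl V 1) * em j γ =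
          g⁻¹ * ((em j γ)⁻¹ * (g * dl V 1 * em j γ)) := by group
      have h4 : (g⁻¹ * ((em j γ)⁻¹ * (g * dl V 1 * em j γ))).1.det = (dl V 1).1.det := by
        have i1 : (g⁻¹).1.det * g.1.det = 1 := by
          rw [← Matrix.det_mul, g.inv_mul, Matrix.det_one]
        have i2 : ((em j γ)⁻¹).1.det * (em j γ).1.det = 1 := by
          rw [← Matrix.det_mul, (em j γ).inv_mul, Matrix.det_one]
        simp only [Units.val_mul, Matrix.det_mul]
        linear_combination ((em j γ)⁻¹).1.det * (dl V 1).1.det * (em j γ).1.det * i1 +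
          (dl V 1).1.det * i2
      rw [e, h4]
    have h5 := congrArg V.w h3
    rw [V.mul _ _ (det_ne _) (det_ne _), h2, em_det, dl_det,
      hu _ ((Matrix.isUnit_iff_isUnit_det _).1 γ.isUnit)] at h5
    omega

/-- the elements of the stabilizers have integral trace -/
theorem stab_trace (hu : ∀ a : A, IsUnit a → V.w (j a) = 0) (γ : (Matrix (Fin 2) (Fin 2) A)ˣ)
    (x : VT V) (h : letI := actA V j; γ • x = x) : ge V 0 (j γ.1.trace) := by
  letI := actA V j
  obtain ⟨g, rfl⟩ := QuotientGroup.mk_surjective x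
  have h1 : ((em j γ * g : GF F) : VT V) = (g : VT V) := h
  rw [QuotientGroup.eq] at h1
  have h2 := (KK V).inv_mem h1
  have e : ((em j γ * g)⁻¹ * g)⁻¹ = g⁻¹ * em j γ * g := by group
  rw [e] at h2
  obtain ⟨n, h3, h4⟩ := h2
  have h5 : (g⁻¹ * em j γ * g).1.det = (em j γ).1.det := by
    have i1 : (g⁻¹).1.det * g.1.det = 1 := by
      rw [← Matrix.det_mul, g.inv_mul, Matrix.det_one]
    simp only [Units.val_mul, Matrix.det_mul]
    linear_combination (em j γ).1.det * i1
  rw [h5, em_det, hu _ ((Matrix.isUnit_iff_isUnit_det _).1 γ.isUnit)] at h4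
  have hn : n = 0 := by omega
  rw [hn] at h3
  have h6 : (g⁻¹ * em j γ * g).1.trace = (em j γ).1.trace := by
    rw [Units.val_mul, Matrix.trace_mul_comm, ← Units.val_mul]
    have : g * (g⁻¹ * em j γ) = em j γ := by group
    rw [this]
  rw [← em_trace, ← h6, Matrix.trace_fin_two]
  exact ge_add (h3 0 0) (h3 1 1)

end Act

variable {C : ∀ (G : Type) [Group G], Prop}

/-- the map `GL₂(A) → GL₂(B)` -/
def glm {A B : Type} [Ring A] [Ring B] (ε : A →+* B) :
    (Matrix (Fin 2) (Fin 2) A)ˣ →* (Matrix (Fin 2) (Fin 2) B)ˣ :=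
  Units.map (ε.mapMatrix (m := Fin 2)).toMonoidHom

theorem glm_val {A B : Type} [Ring A] [Ring B] (ε : A →+* B) (γ : (Matrix (Fin 2) (Fin 2) A)ˣ) :
    (glm ε γ).1 = γ.1.map ε := rfl

/-- the theorem, with a valuation -/
theorem curve_aux (hC : ClosedE C) (hF : FbC C) (hS : Sol C) {A F B : Type} [CommRing A]
    [IsDomain A] [Field F] [CommRing B] (V : DV F) (j : A →+* F) {d : A → ℕ} (hd : IsDeg d)
    (hj : ∀ a, ge V 0 (j a) → d a = 0) (hu : ∀ a : A, IsUnit a → V.w (j a) = 0)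
    (ε : A →+* B) (hε : ∀ a, d a = 0 → ε a = 0 → a = 0)
    (H : Subgroup (Matrix (Fin 2) (Fin 2) B)ˣ) (hB : C H) : C (H.comap (glm ε)) := by
  letI := actA V j
  have hA := treeAct V j hu
  refine act_tree hC hF hS (hA.sub (H.comap (glm ε))) ((glm ε).subgroupComap H) hB ?_
  have key : ∀ (v : VT V) (x : (Matrix (Fin 2) (Fin 2) A)ˣ), x • v = v →
      glm ε x = 1 → x.1.trace = 2 ∧ x.1.det = 1 := by
    intro v x hx hε1
    have h0 : x.1.map ε = 1 := congrArg Units.val hε1
    have h1 : ∀ i j, ε (x.1 i j) = (1 : Matrix (Fin 2) (Fin 2) B) i j := by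
      intro i j
      rw [← h0]
      rfl
    constructor
    · have h2 : d x.1.trace = 0 := hj _ (stab_trace V j hu x v hx)
      have h3 : d (2 : A) = 0 := by
        have := hd.add 1 1
        rw [d_one hd] at this
        have e : (1 : A) + 1 = 2 := by norm_num
        rw [e] at this
        omega
      have h4 : ε (x.1.trace - 2) = 0 := by
        rw [map_sub, Matrix.trace_fin_two, map_add, h1, h1, Matrix.one_apply_eq, Matrix.one_apply_eq,
          map_ofNat]
        norm_num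
      exact sub_eq_zero.1 (hε _ (d_sub_zero hd h2 h3) h4)
    · have h2 : d x.1.det = 0 := by
        have h5 : x.1.det * (x⁻¹).1.det = 1 := by
          rw [← Matrix.det_mul, x.mul_inv, Matrix.det_one]
        exact d_unit hd h5
      have h4 : ε (x.1.det - 1) = 0 := by
        rw [map_sub, map_one, RingHom.map_det, RingHom.mapMatrix_apply, h0, Matrix.det_one, sub_self]
      exact sub_eq_zero.1 (hε _ (d_sub_zero hd h2 (d_one hd)) h4)
  intro v x y hx hy h1 h2
  have hx' : (x : (Matrix (Fin 2) (Fin 2) A)ˣ) • v = v := hx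
  have hy' : (y : (Matrix (Fin 2) (Fin 2) A)ˣ) • v = v := hy
  have h1' : glm ε x = 1 := congrArg Subtype.val h1
  have h2' : glm ε y = 1 := congrArg Subtype.val h2
  obtain ⟨tx, dx⟩ := key v x hx' h1'
  obtain ⟨ty, dy⟩ := key v y hy' h2'
  obtain ⟨txy, _⟩ := key v (x * y) (by rw [mul_smul, hy', hx']) (by rw [map_mul, h1', h2', one_mul])
  apply Subtype.ext
  apply Units.ext
  exact comm_of_trace x.1.1 y.1.1 tx ty txy dx dy

end Pool.Agent.Helper686_FJ.Cur
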