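import Pool.Agent.Helper686_FJ.Cur3

/-!
# The valuation defined by a degree function, and the theorem
-/

set_option autoImplicit false

namespace Pool.Agent.Helper686_FJ.Cur

open Pool.Agent.H694.TR Pool.Agent.Y110.FJ Pool.Agent.R684.FP

section W0

variable {A : Type} [CommRing A] [IsDomain A] {d : A → ℕ} (hd : IsDeg d)

/-- the valuation on the field of fractions -/
noncomputable def w0 (d : A → ℕ) (u : FractionRing A) : ℤ :=
  (d (IsLocalization.sec (nonZeroDivisors A) u).2 : ℤ) -
    d (IsLocalization.sec (nonZeroDivisors A) u).1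

include hd

theorem w0_div (a b : A) (ha : a ≠ 0) (hb : b ≠ 0) :
    w0 d (algebraMap A (FractionRing A) a / algebraMap A (FractionRing A) b) = (d b : ℤ) - d a := by
  unfold w0
  generalize hu : algebraMap A (FractionRing A) a / algebraMap A (FractionRing A) b = u
  have h1 := IsLocalization.sec_spec (nonZeroDivisors A) u
  generalize IsLocalization.sec (nonZeroDivisors A) u = s at h1
  obtain ⟨a', b', hb'⟩ := s
  have hb'0 : b' ≠ 0 := nonZeroDivisors.ne_zero hb'
  have hinj : Function.Injective (algebraMap A (FractionRing A)) :=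
    IsFractionRing.injective A (FractionRing A)
  have hb0 : algebraMap A (FractionRing A) b ≠ 0 := by
    intro h
    exact hb (hinj (by rw [h, map_zero]))
  have h2 : a * b' = a' * b := by
    apply hinj
    rw [map_mul, map_mul]
    change u * algebraMap A (FractionRing A) b' = algebraMap A (FractionRing A) a' at h1
    rw [← h1, ← hu]
    field_simp
  have ha'0 : a' ≠ 0 := by
    rintro rfl
    rw [zero_mul] at h2
    exact (mul_ne_zero ha hb'0) h2
  have h3 := congrArg d h2
  rw [hd.mul _ _ ha hb'0, hd.mul _ _ ha'0 hb] at h3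
  change (d b' : ℤ) - d a' = (d b : ℤ) - d a
  omega

theorem ex_div (u : FractionRing A) (hu : u ≠ 0) : ∃ a b : A, a ≠ 0 ∧ b ≠ 0 ∧
    u = algebraMap A (FractionRing A) a / algebraMap A (FractionRing A) b := by
  obtain ⟨a, b, hb, rfl⟩ := IsFractionRing.div_surjective (A := A) u
  refine ⟨a, b, ?_, nonZeroDivisors.ne_zero hb, rfl⟩
  rintro rfl
  rw [map_zero, zero_div] at hu
  exact hu rfl

theorem w0_mul (u v : FractionRing A) (hu : u ≠ 0) (hv : v ≠ 0) :
    w0 d (u * v) = w0 d u + w0 d v := by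
  obtain ⟨a, b, ha, hb, rfl⟩ := ex_div hd u hu
  obtain ⟨a', b', ha', hb', rfl⟩ := ex_div hd v hv
  rw [div_mul_div_comm, ← map_mul, ← map_mul, w0_div hd _ _ (mul_ne_zero ha ha') (mul_ne_zero hb hb'),
    w0_div hd _ _ ha hb, w0_div hd _ _ ha' hb', hd.mul _ _ ha ha', hd.mul _ _ hb hb']
  push_cast
  ring

theorem w0_add (u v : FractionRing A) (hu : u ≠ 0) (hv : v ≠ 0) (huv : u + v ≠ 0) :
    min (w0 d u) (w0 d v) ≤ w0 d (u + v) := by
  obtain ⟨a, b, ha, hb, rfl⟩ := ex_div hd u hu
  obtain ⟨a', b', ha', hb', rfl⟩ := ex_div hd v hv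
  have hinj : Function.Injective (algebraMap A (FractionRing A)) :=
    IsFractionRing.injective A (FractionRing A)
  have h1 : algebraMap A (FractionRing A) b ≠ 0 := fun h => hb (hinj (by rw [h, map_zero]))
  have h2 : algebraMap A (FractionRing A) b' ≠ 0 := fun h => hb' (hinj (by rw [h, map_zero]))
  rw [div_add_div _ _ h1 h2, ← map_mul, ← map_mul, ← map_mul, ← map_add] at huv ⊢
  have h3 : a * b' + b * a' ≠ 0 := by
    intro h
    rw [h, map_zero, zero_div] at huv
    exact huv rfl
  rw [w0_div hd _ _ h3 (mul_ne_zero hb hb'), w0_div hd _ _ ha hb, w0_div hd _ _ ha' hb',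
    hd.mul _ _ hb hb']
  have h4 := hd.add (a * b') (b * a')
  rw [hd.mul _ _ ha hb', hd.mul _ _ hb ha'] at h4
  push_cast
  omega

theorem w0_alg (a : A) (ha : a ≠ 0) : w0 d (algebraMap A (FractionRing A) a) = - (d a : ℤ) := by
  have h := w0_div hd a 1 ha one_ne_zero
  rw [map_one, div_one, d_one hd] at h
  rw [h]
  simp

/-- the normalized valuation -/
theorem ex_DV (h : ∃ a, a ≠ 0 ∧ d a ≠ 0) : ∃ (V : DV (FractionRing A)) (g : ℤ), 0 < g ∧
    (∀ u : FractionRing A, u ≠ 0 → w0 d u = g * V.w u) := by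
  let S : AddSubgroup ℤ :=
    { carrier := {n | ∃ u : FractionRing A, u ≠ 0 ∧ w0 d u = n}
      zero_mem' := by
        refine ⟨algebraMap A (FractionRing A) 1, by simp, ?_⟩
        rw [w0_alg hd 1 one_ne_zero, d_one hd]
        rfl
      add_mem' := by
        rintro _ _ ⟨u, hu, rfl⟩ ⟨v, hv, rfl⟩
        exact ⟨u * v, mul_ne_zero hu hv, w0_mul hd u v hu hv⟩
      neg_mem' := by
        rintro _ ⟨u, hu, rfl⟩
        refine ⟨u⁻¹, inv_ne_zero hu, ?_⟩
        have h1 := w0_mul hd u u⁻¹ hu (inv_ne_zero hu)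
        have h2 := w0_alg hd 1 one_ne_zero
        rw [mul_inv_cancel₀ hu] at h1
        rw [map_one, d_one hd] at h2
        simp at h2
        omega }
  obtain ⟨g₀, hg₀⟩ := Int.subgroup_cyclic S
  obtain ⟨g, hg⟩ : ∃ g : ℤ, g = |g₀| := ⟨_, rfl⟩
  have hS : ∀ n ∈ S, g ∣ n := by
    intro n hn
    rw [hg₀, AddSubgroup.mem_closure_singleton] at hn
    obtain ⟨k, hk⟩ := hn
    rw [hg, abs_dvd, ← hk]
    exact Dvd.intro_left k rfl
  have hgS : g ∈ S := by
    have h1 : g₀ ∈ S := by
      rw [hg₀]
      exact AddSubgroup.subset_closure rfl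
    rw [hg]
    rcases abs_choice g₀ with h2 | h2
    · rw [h2]
      exact h1
    · rw [h2]
      exact S.neg_mem h1
  have hg0 : 0 < g := by
    obtain ⟨a, ha, ha2⟩ := h
    have h1 : -(d a : ℤ) ∈ S := by
      refine ⟨algebraMap A (FractionRing A) a, ?_, w0_alg hd a ha⟩
      intro h0
      exact ha (IsFractionRing.injective A (FractionRing A) (by rw [h0, map_zero]))
    have h2 := hS _ h1
    rcases (abs_nonneg g₀).lt_or_eq with h3 | h3
    · rw [hg]
      exact h3
    · exfalso
      rw [← h3] at hg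
      rw [hg] at h2
      have h4 := Int.zero_dvd.1 h2
      omega
  obtain ⟨pi, hpi, hpi2⟩ := hgS
  have hdv : ∀ u : FractionRing A, u ≠ 0 → w0 d u = g * (w0 d u / g) := fun u hu =>
    (Int.mul_ediv_cancel' (hS _ ⟨u, hu, rfl⟩)).symm
  refine ⟨{ w := fun u => w0 d u / g, mul := ?_, add := ?_, pi := pi, pi_ne := hpi, pi_w := ?_ },
    g, hg0, hdv⟩
  · intro u v hu hv
    rw [w0_mul hd u v hu hv]
    exact Int.add_ediv_of_dvd_left (hS _ ⟨u, hu, rfl⟩)
  · intro u v hu hv huv
    have h1 := w0_add hd u v hu hv huv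
    rcases min_le_iff.1 h1 with h2 | h2
    · exact (min_le_left _ _).trans (Int.ediv_le_ediv hg0 h2)
    · exact (min_le_right _ _).trans (Int.ediv_le_ediv hg0 h2)
  · rw [hpi2]
    exact Int.ediv_self hg0.ne'

end W0

variable {C : ∀ (G : Type) [Group G], Prop}

/-- **`GL₂` of a domain with a degree function.** -/
theorem curve (hC : ClosedE C) (hF : FbC C) (hS : Sol C) {A B : Type} [CommRing A] [IsDomain A]
    [CommRing B] {d : A → ℕ} (hd : IsDeg d) (ε : A →+* B) (hε : ∀ a, d a = 0 → ε a = 0 → a = 0)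
    (H : Subgroup (Matrix (Fin 2) (Fin 2) B)ˣ) (hB : C H) : C (H.comap (glm ε)) := by
  by_cases h : ∃ a, a ≠ 0 ∧ d a ≠ 0
  · obtain ⟨V, g, hg, hV⟩ := ex_DV hd h
    have hinj : Function.Injective (algebraMap A (FractionRing A)) :=
      IsFractionRing.injective A (FractionRing A)
    have key : ∀ a : A, a ≠ 0 → -(d a : ℤ) = g * V.w (algebraMap A (FractionRing A) a) := by
      intro a ha
      rw [← w0_alg hd a ha]
      exact hV _ (fun h0 => ha (hinj (by rw [h0, map_zero])))
    refine curve_aux hC hF hS V (algebraMap A (FractionRing A)) hd ?_ ?_ ε hε H hB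
    · intro a ha
      by_cases h0 : a = 0
      · rw [h0]
        exact d_zero hd
      · have h1 := ha.resolve_left (fun h' => h0 (hinj (by rw [h', map_zero])))
        have h2 := key a h0
        have h3 : 0 ≤ g * V.w (algebraMap A (FractionRing A) a) := mul_nonneg hg.le h1
        omega
    · intro a ha
      obtain ⟨b, hb⟩ := ha.exists_right_inv
      have h1 := key a ha.ne_zero
      rw [d_unit hd hb] at h1
      rcases mul_eq_zero.1 h1.symm with h2 | h2
      · omega
      · exact h2
  · push Not at h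
    have hi : Function.Injective ε := by
      rw [injective_iff_map_eq_zero]
      intro a ha
      by_contra h0
      exact h0 (hε a (h a h0) ha)
    refine hC.base.of_injective _ _ ((glm ε).subgroupComap H) ?_ hB
    intro M N hMN
    have h1 : glm ε M = glm ε N := congrArg Subtype.val hMN
    apply Subtype.ext
    apply Units.ext
    ext i j
    apply hi
    have h2 := congrArg Units.val h1
    exact congrFun (congrFun h2 i) j

/-- the case of the whole group -/
theorem curve_top (hC : ClosedE C) (hF : FbC C) (hS : Sol C) {A B : Type} [CommRing A]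
    [IsDomain A] [CommRing B] {d : A → ℕ} (hd : IsDeg d) (ε : A →+* B)
    (hε : ∀ a, d a = 0 → ε a = 0 → a = 0) (hB : C (Matrix (Fin 2) (Fin 2) B)ˣ) :
    C (Matrix (Fin 2) (Fin 2) A)ˣ := by
  have h := curve hC hF hS hd ε hε ⊤
    (hC.base.of_injective _ _ (⊤ : Subgroup (Matrix (Fin 2) (Fin 2) B)ˣ).subtype
      (Subgroup.subtype_injective _) hB)
  rw [Subgroup.comap_top] at h
  exact Pool.Agent.R941.FJ.C_equiv hC.base Subgroup.topEquiv.symm h

end Pool.Agent.Helper686_FJ.Cur
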