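import Pool.Agent.Helper686_FJ.Cur4
import Pool.Agent.Helper686_FJ.Mv
import Pool.Agent.Helper686_FJ.GLZ
import Mathlib.Algebra.QuadraticAlgebra.Basic

/-!
# The coordinate rings `R[x, y] / (y² = f(x) + h(x) y)` with `deg f` odd
-/

set_option autoImplicit false

namespace Pool.Agent.Helper686_FJ.Cur

open Pool.Agent.H694.TR Pool.Agent.Y110.FJ Pool.Agent.R684.FP Polynomial

section Hyp

variable {R : Type} [CommRing R] [IsDomain R] {f h : R[X]} (hf : Odd f.natDegree)
  (hh : 2 * h.natDegree < f.natDegree)

include hf hh in
theorem nat_norm (z : QuadraticAlgebra R[X] f h) :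
    2 * z.re.natDegree ≤ (QuadraticAlgebra.norm z).natDegree ∧
    (z.im ≠ 0 → f.natDegree + 2 * z.im.natDegree ≤ (QuadraticAlgebra.norm z).natDegree ∧
      (QuadraticAlgebra.norm z).natDegree =
        max (2 * z.re.natDegree) (f.natDegree + 2 * z.im.natDegree)) ∧
    (z.im = 0 → (QuadraticAlgebra.norm z).natDegree = 2 * z.re.natDegree) ∧
    (z ≠ 0 → QuadraticAlgebra.norm z ≠ 0) := by
  rw [QuadraticAlgebra.norm_def]
  obtain ⟨r, hr⟩ : ∃ r, r = z.re := ⟨_, rfl⟩
  obtain ⟨i, hi⟩ : ∃ i, i = z.im := ⟨_, rfl⟩
  have hz : z ≠ 0 → r ≠ 0 ∨ i ≠ 0 := by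
    intro hz
    by_contra h0
    push Not at h0
    apply hz
    ext1
    · rw [← hr]
      exact h0.1
    · rw [← hi]
      exact h0.2
  rw [← hr, ← hi]
  have hf0 : f ≠ 0 := by
    rintro rfl
    rw [natDegree_zero] at hf
    exact absurd hf (by decide)
  by_cases h0 : i = 0
  · have e : r * r + h * r * i - f * i * i = r ^ 2 := by
      rw [h0]
      ring
    rw [e, natDegree_pow]
    refine ⟨le_rfl, fun h1 => absurd h0 h1, fun _ => rfl, fun h1 => ?_⟩
    exact pow_ne_zero 2 ((hz h1).resolve_right (fun h2 => h2 h0))
  · have d1 : (f * i * i).natDegree = f.natDegree + 2 * i.natDegree := by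
      rw [natDegree_mul (mul_ne_zero hf0 h0) h0, natDegree_mul hf0 h0]
      ring
    have d2 : (r * r).natDegree = 2 * r.natDegree := by
      rw [← pow_two, natDegree_pow]
    have d3 : (h * r * i).natDegree ≤ h.natDegree + r.natDegree + i.natDegree :=
      natDegree_mul_le.trans (Nat.add_le_add_right natDegree_mul_le _)
    have hpar : 2 * r.natDegree ≠ f.natDegree + 2 * i.natDegree := by
      obtain ⟨k, hk⟩ := hf
      omega
    have key : (r * r + h * r * i - f * i * i).natDegree =
        max (2 * r.natDegree) (f.natDegree + 2 * i.natDegree) := by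
      rcases lt_or_gt_of_ne hpar with h1 | h1
      · have s1 : (r * r + h * r * i).natDegree < (f * i * i).natDegree := by
          refine lt_of_le_of_lt (natDegree_add_le _ _) ?_
          rw [d1, d2]
          refine max_lt h1 (lt_of_le_of_lt d3 ?_)
          omega
        rw [natDegree_sub_eq_right_of_natDegree_lt s1, d1]
        omega
      · have s1 : (h * r * i).natDegree < (r * r).natDegree := by
          rw [d2]
          refine lt_of_le_of_lt d3 ?_
          omega
        have s2 : (r * r + h * r * i).natDegree = 2 * r.natDegree := by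
          rw [natDegree_add_eq_left_of_natDegree_lt s1, d2]
        have s3 : (f * i * i).natDegree < (r * r + h * r * i).natDegree := by
          rw [s2, d1]
          exact h1
        rw [natDegree_sub_eq_left_of_natDegree_lt s3, s2]
        omega
    refine ⟨by rw [key]; exact le_max_left _ _, fun _ => ⟨by rw [key]; exact le_max_right _ _, key⟩,
      fun h1 => absurd h1 h0, fun _ h1 => ?_⟩
    rw [h1, natDegree_zero] at key
    have hf1 : 0 < f.natDegree := hf.pos
    omega

include hf hh in
theorem hyp_domain : IsDomain (QuadraticAlgebra R[X] f h) := by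
  have : NoZeroDivisors (QuadraticAlgebra R[X] f h) := by
    constructor
    intro z w hzw
    by_contra h0
    push Not at h0
    have h1 := (nat_norm hf hh z).2.2.2 h0.1
    have h2 := (nat_norm hf hh w).2.2.2 h0.2
    have h3 := congrArg QuadraticAlgebra.norm hzw
    rw [map_mul, QuadraticAlgebra.norm_zero] at h3
    exact (mul_ne_zero h1 h2) h3
  exact NoZeroDivisors.to_isDomain _

include hf hh in
theorem hyp_deg : IsDeg (fun z : QuadraticAlgebra R[X] f h => (QuadraticAlgebra.norm z).natDegree) := by
  constructor
  · intro z w hz hw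
    change (QuadraticAlgebra.norm (z * w)).natDegree = _
    rw [map_mul, natDegree_mul ((nat_norm hf hh z).2.2.2 hz) ((nat_norm hf hh w).2.2.2 hw)]
  · intro z w
    change (QuadraticAlgebra.norm (z + w)).natDegree ≤
      max (QuadraticAlgebra.norm z).natDegree (QuadraticAlgebra.norm w).natDegree
    obtain ⟨z1, z2, _, _⟩ := nat_norm hf hh z
    obtain ⟨w1, w2, _, _⟩ := nat_norm hf hh w
    obtain ⟨_, s2, s3, _⟩ := nat_norm hf hh (z + w)
    have hre : (z + w).re.natDegree ≤ max z.re.natDegree w.re.natDegree := by
      rw [QuadraticAlgebra.re_add]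
      exact natDegree_add_le _ _
    by_cases h0 : (z + w).im = 0
    · rw [s3 h0]
      omega
    · rw [(s2 h0).2]
      have him : (z + w).im = z.im + w.im := QuadraticAlgebra.im_add z w
      have h1 : f.natDegree + 2 * (z + w).im.natDegree ≤
          max (QuadraticAlgebra.norm z).natDegree (QuadraticAlgebra.norm w).natDegree := by
        by_cases hz : z.im = 0
        · by_cases hw : w.im = 0
          · rw [him, hz, hw, add_zero] at h0
            exact absurd rfl h0
          · have h2 := (w2 hw).1
            rw [him, hz, zero_add]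
            omega
        · by_cases hw : w.im = 0
          · have h2 := (z2 hz).1
            rw [him, hw, add_zero]
            omega
          · have h2 := (z2 hz).1
            have h3 := (w2 hw).1
            have h4 : (z + w).im.natDegree ≤ max z.im.natDegree w.im.natDegree := by
              rw [him]
              exact natDegree_add_le _ _
            omega
      omega

variable (a b : R) (hab : b * b = f.eval a + h.eval a * b)

/-- the value at the point `(a, b)` -/
noncomputable def evp : QuadraticAlgebra R[X] f h →+* R where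
  toFun z := z.re.eval a + z.im.eval a * b
  map_one' := by
    rw [QuadraticAlgebra.re_one, QuadraticAlgebra.im_one, eval_one, eval_zero, zero_mul, add_zero]
  map_mul' z w := by
    simp only [QuadraticAlgebra.re_mul, QuadraticAlgebra.im_mul, eval_add, eval_mul]
    linear_combination (-(z.im.eval a) * w.im.eval a) * hab
  map_zero' := by simp
  map_add' z w := by
    simp only [QuadraticAlgebra.re_add, QuadraticAlgebra.im_add, eval_add]
    ring

theorem evp_apply (z : QuadraticAlgebra R[X] f h) :
    evp a b hab z = z.re.eval a + z.im.eval a * b := rfl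

include hf hh in
theorem evp_inj (z : QuadraticAlgebra R[X] f h) (hz : (QuadraticAlgebra.norm z).natDegree = 0)
    (h0 : evp a b hab z = 0) : z = 0 := by
  obtain ⟨z1, z2, _, _⟩ := nat_norm hf hh z
  have him : z.im = 0 := by
    by_contra h1
    have := (z2 h1).1
    have hf1 : 0 < f.natDegree := hf.pos
    omega
  have hre : z.re.natDegree = 0 := by omega
  rw [evp_apply, him, eval_zero, zero_mul, add_zero] at h0
  rw [eq_C_of_natDegree_eq_zero hre, eval_C] at h0
  ext1
  · rw [eq_C_of_natDegree_eq_zero hre, h0, C_0]
    rfl
  · exact him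

end Hyp

variable {C : ∀ (G : Type) [Group G], Prop}

/-- injective homomorphisms of rings and `GL₂` -/
theorem gl_inj (hC : ClosedE C) {A B : Type} [Ring A] [Ring B] (j : A →+* B)
    (hj : Function.Injective j) (h : C (Matrix (Fin 2) (Fin 2) B)ˣ) :
    C (Matrix (Fin 2) (Fin 2) A)ˣ := by
  refine hC.base.of_injective _ _ (Units.map (j.mapMatrix (m := Fin 2)).toMonoidHom) ?_ h
  refine Units.map_injective ?_
  intro M N hMN
  ext i k
  apply hj
  exact congrFun (congrFun hMN i) k

/-- **`GL₂` over the coordinate rings of hyperelliptic curves.** -/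
theorem hyp_iff (hC : ClosedE C) (hF : FbC C) (hS : Sol C) {R : Type} [CommRing R] [IsDomain R]
    {f h : R[X]} (hf : Odd f.natDegree) (hh : 2 * h.natDegree < f.natDegree) (a b : R)
    (hab : b * b = f.eval a + h.eval a * b) :
    C (Matrix (Fin 2) (Fin 2) (QuadraticAlgebra R[X] f h))ˣ ↔ C (Matrix (Fin 2) (Fin 2) R)ˣ := by
  have := hyp_domain hf hh
  constructor
  · refine gl_inj hC ((algebraMap R[X] (QuadraticAlgebra R[X] f h)).comp Polynomial.C) ?_
    intro u v huv
    have h1 := congrArg QuadraticAlgebra.re huv
    exact C_injective h1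
  · exact curve_top hC hF hS (hyp_deg hf hh) (evp a b hab) (evp_inj hf hh a b hab)

end Pool.Agent.Helper686_FJ.Cur
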