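import Mathlib

/-!
# The rings `R[x, y, z] / (x y - p(z))` and their automorphisms
-/

set_option autoImplicit false

namespace Pool.Agent.Helper686_FJ.Dan

variable {R : Type} [CommRing R]

/-- the polynomial `x y - p(z)` -/
noncomputable def rel (p : Polynomial R) : MvPolynomial (Fin 3) R :=
  MvPolynomial.X 0 * MvPolynomial.X 1 - Polynomial.aeval (MvPolynomial.X 2) p

/-- the ring `R[x, y, z] / (x y - p(z))` -/
abbrev DA (p : Polynomial R) : Type := MvPolynomial (Fin 3) R ⧸ Ideal.span {rel p}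

/-- the class of `x` -/
noncomputable def gx (p : Polynomial R) : DA p := Ideal.Quotient.mkₐ R _ (MvPolynomial.X 0)

/-- the class of `y` -/
noncomputable def gy (p : Polynomial R) : DA p := Ideal.Quotient.mkₐ R _ (MvPolynomial.X 1)

/-- the class of `z` -/
noncomputable def gz (p : Polynomial R) : DA p := Ideal.Quotient.mkₐ R _ (MvPolynomial.X 2)

theorem gxy (p : Polynomial R) : gx p * gy p = Polynomial.aeval (gz p) p := by
  have h1 : Ideal.Quotient.mkₐ R (Ideal.span {rel p}) (rel p) = 0 :=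
    Ideal.Quotient.eq_zero_iff_mem.2 (Ideal.subset_span rfl)
  unfold rel at h1
  rw [map_sub, map_mul, sub_eq_zero, ← Polynomial.aeval_algHom_apply] at h1
  exact h1

section Hom

variable {S : Type} [CommRing S] [Algebra R S]

/-- homomorphisms from `DA p` -/
noncomputable def hm (p : Polynomial R) (a b c : S) (h : a * b = Polynomial.aeval c p) :
    DA p →ₐ[R] S :=
  Ideal.Quotient.liftₐ (Ideal.span {rel p}) (MvPolynomial.aeval ![a, b, c]) (by
    intro u hu
    have h1 : Ideal.span {rel p} ≤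
        RingHom.ker (MvPolynomial.aeval (R := R) ![a, b, c]).toRingHom := by
      rw [Ideal.span_le]
      rintro _ rfl
      change MvPolynomial.aeval ![a, b, c] (rel p) = 0
      unfold rel
      rw [map_sub, map_mul, ← Polynomial.aeval_algHom_apply]
      simp [h]
    exact h1 hu)

variable (p : Polynomial R) (a b c : S) (h : a * b = Polynomial.aeval c p)

theorem hm_x : hm p a b c h (gx p) = a := by
  change MvPolynomial.aeval ![a, b, c] (MvPolynomial.X 0) = a
  simp

theorem hm_y : hm p a b c h (gy p) = b := by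
  change MvPolynomial.aeval ![a, b, c] (MvPolynomial.X 1) = b
  simp

theorem hm_z : hm p a b c h (gz p) = c := by
  change MvPolynomial.aeval ![a, b, c] (MvPolynomial.X 2) = c
  simp

variable {p}

theorem hom_ext {φ ψ : DA p →ₐ[R] S} (hx : φ (gx p) = ψ (gx p)) (hy : φ (gy p) = ψ (gy p))
    (hz : φ (gz p) = ψ (gz p)) : φ = ψ := by
  apply Ideal.Quotient.algHom_ext
  apply MvPolynomial.algHom_ext
  intro i
  fin_cases i
  · exact hx
  · exact hy
  · exact hz

theorem hom_xy (φ : DA p →ₐ[R] S) : φ (gx p) * φ (gy p) = Polynomial.aeval (φ (gz p)) p := by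
  rw [← map_mul, gxy, Polynomial.aeval_algHom_apply]

end Hom

/-- `x` is not a zero divisor -/
theorem x_reg [IsDomain R] {p : Polynomial R} (hp : p ≠ 0) {u v : DA p}
    (h : gx p * u = gx p * v) : u = v := by
  obtain ⟨U, rfl⟩ := Ideal.Quotient.mkₐ_surjective R _ u
  obtain ⟨W, rfl⟩ := Ideal.Quotient.mkₐ_surjective R _ v
  unfold gx at h
  rw [← map_mul, ← map_mul, ← sub_eq_zero, ← map_sub] at h
  have h1 := Ideal.Quotient.eq_zero_iff_mem.1 h
  rw [Ideal.mem_span_singleton] at h1
  obtain ⟨g, hg⟩ := h1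
  have hX : Prime (MvPolynomial.X 0 : MvPolynomial (Fin 3) R) := MvPolynomial.X_prime
  have h2 : (MvPolynomial.X 0 : MvPolynomial (Fin 3) R) ∣ Polynomial.aeval (MvPolynomial.X 2) p * g := by
    refine ⟨MvPolynomial.X 1 * g - (U - W), ?_⟩
    have h3 : (MvPolynomial.X 0 : MvPolynomial (Fin 3) R) * (U - W) = rel p * g := by
      rw [← hg]
      ring
    rw [mul_sub, h3]
    unfold rel
    ring
  have h4 : ¬ (MvPolynomial.X 0 : MvPolynomial (Fin 3) R) ∣ Polynomial.aeval (MvPolynomial.X 2) p := by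
    rintro ⟨q, hq⟩
    have h5 := congrArg (MvPolynomial.aeval (R := R) ![(0 : Polynomial R), 0, Polynomial.X]) hq
    rw [map_mul, ← Polynomial.aeval_algHom_apply] at h5
    simp at h5
    exact hp h5
  obtain ⟨g', rfl⟩ := (hX.dvd_or_dvd h2).resolve_left h4
  have h6 : (MvPolynomial.X 0 : MvPolynomial (Fin 3) R) * (U - W) =
      MvPolynomial.X 0 * (rel p * g') := by
    have : (MvPolynomial.X 0 : MvPolynomial (Fin 3) R) * (U - W) =
        MvPolynomial.X 0 * U - MvPolynomial.X 0 * W := by ring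
    rw [this, hg]
    ring
  have h7 := mul_left_cancel₀ hX.ne_zero h6
  rw [← sub_eq_zero, ← map_sub]
  apply Ideal.Quotient.eq_zero_iff_mem.2
  rw [Ideal.mem_span_singleton, h7]
  exact dvd_mul_right _ _

/-- homomorphisms to `DA p` which send `x` to `x` -/
theorem ext_x [IsDomain R] {p q : Polynomial R} (hq : q ≠ 0) {φ ψ : DA p →ₐ[R] DA q}
    (hφ : φ (gx p) = gx q) (hψ : ψ (gx p) = gx q) (hz : φ (gz p) = ψ (gz p)) : φ = ψ := by
  refine hom_ext (hφ.trans hψ.symm) ?_ hz
  apply x_reg hq
  have h1 := hom_xy φ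
  have h2 := hom_xy ψ
  rw [hφ] at h1
  rw [hψ] at h2
  rw [h1, h2, hz]

/-- the automorphisms of `DA p` -/
abbrev Ad (p : Polynomial R) : Type := DA p ≃ₐ[R] DA p

theorem Ad_ext {p : Polynomial R} {φ ψ : Ad p} (hx : φ (gx p) = ψ (gx p)) (hy : φ (gy p) = ψ (gy p))
    (hz : φ (gz p) = ψ (gz p)) : φ = ψ := by
  have h1 : (φ : DA p →ₐ[R] DA p) = ψ := hom_ext hx hy hz
  exact AlgEquiv.coe_toAlgHom_injective h1

theorem Ad_ext_x [IsDomain R] {p : Polynomial R} (hp : p ≠ 0) {φ ψ : Ad p}
    (hφ : φ (gx p) = gx p) (hψ : ψ (gx p) = gx p) (hz : φ (gz p) = ψ (gz p)) : φ = ψ := by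
  have h1 : (φ : DA p →ₐ[R] DA p) = ψ := ext_x hp hφ hψ hz
  exact AlgEquiv.coe_toAlgHom_injective h1

section Tri

variable (p f : Polynomial R)

/-- the new value of `z` -/
noncomputable def nz : DA p := gz p + gx p * Polynomial.aeval (gx p) f

theorem ex_ny : ∃ b : DA p, gx p * b = Polynomial.aeval (nz p f) p := by
  have h1 : nz p f - gz p ∣ Polynomial.aeval (nz p f) p - Polynomial.aeval (gz p) p := by
    have := Polynomial.sub_dvd_eval_sub (nz p f) (gz p) (p.map (algebraMap R (DA p)))
    rwa [Polynomial.eval_map_algebraMap, Polynomial.eval_map_algebraMap] at this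
  obtain ⟨e, he⟩ := h1
  refine ⟨gy p + Polynomial.aeval (gx p) f * e, ?_⟩
  have h2 : nz p f - gz p = gx p * Polynomial.aeval (gx p) f := by
    unfold nz
    ring
  rw [h2] at he
  have h3 : Polynomial.aeval (nz p f) p = Polynomial.aeval (gz p) p +
      gx p * Polynomial.aeval (gx p) f * e := by
    rw [← he]
    ring
  rw [h3, ← gxy]
  ring

/-- the triangular endomorphism -/
noncomputable def dh : DA p →ₐ[R] DA p :=
  hm p (gx p) (ex_ny p f).choose (nz p f) (ex_ny p f).choose_spec

theorem dh_x : dh p f (gx p) = gx p := hm_x _ _ _ _ _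

theorem dh_z : dh p f (gz p) = gz p + gx p * Polynomial.aeval (gx p) f := hm_z _ _ _ _ _

variable [IsDomain R] (hp : p ≠ 0)

include hp in
theorem dh_comp (g : Polynomial R) : (dh p f).comp (dh p g) = dh p (f + g) := by
  apply ext_x hp
  · change dh p f (dh p g (gx p)) = gx p
    rw [dh_x, dh_x]
  · exact dh_x _ _
  · change dh p f (dh p g (gz p)) = _
    rw [dh_z, map_add, map_mul, ← Polynomial.aeval_algHom_apply, dh_x, dh_z, dh_z, map_add]
    ring

include hp in
theorem dh_zero : dh p 0 = AlgHom.id R (DA p) := by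
  apply ext_x hp
  · exact dh_x _ _
  · rfl
  · rw [dh_z]
    simp

/-- the triangular automorphism -/
noncomputable def dau : Ad p :=
  AlgEquiv.ofAlgHom (dh p f) (dh p (-f))
    (by rw [dh_comp p f hp, add_neg_cancel, dh_zero p hp])
    (by rw [dh_comp p (-f) hp, neg_add_cancel, dh_zero p hp])

theorem dau_x : dau p f hp (gx p) = gx p := dh_x p f

theorem dau_z : dau p f hp (gz p) = gz p + gx p * Polynomial.aeval (gx p) f := dh_z p f

end Tri

/-- the endomorphism which interchanges `x` and `y` -/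
noncomputable def tauh (p : Polynomial R) : DA p →ₐ[R] DA p :=
  hm p (gy p) (gx p) (gz p) (by rw [mul_comm, gxy])

theorem tauh_x (p : Polynomial R) : tauh p (gx p) = gy p := hm_x p _ _ _ _
theorem tauh_y (p : Polynomial R) : tauh p (gy p) = gx p := hm_y p _ _ _ _
theorem tauh_z (p : Polynomial R) : tauh p (gz p) = gz p := hm_z p _ _ _ _

theorem tauh_sq (p : Polynomial R) : (tauh p).comp (tauh p) = AlgHom.id R (DA p) := by
  apply hom_ext
  · change tauh p (tauh p (gx p)) = gx p
    rw [tauh_x, tauh_y]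
  · change tauh p (tauh p (gy p)) = gy p
    rw [tauh_y, tauh_x]
  · change tauh p (tauh p (gz p)) = gz p
    rw [tauh_z, tauh_z]

/-- the automorphism which interchanges `x` and `y` -/
noncomputable def tau (p : Polynomial R) : Ad p :=
  AlgEquiv.ofAlgHom (tauh p) (tauh p) (tauh_sq p) (tauh_sq p)

theorem tau_x (p : Polynomial R) : tau p (gx p) = gy p := tauh_x p
theorem tau_y (p : Polynomial R) : tau p (gy p) = gx p := tauh_y p
theorem tau_z (p : Polynomial R) : tau p (gz p) = gz p := tauh_z p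

theorem tau_sq (p : Polynomial R) : tau p * tau p = 1 := by
  apply Ad_ext
  · change tau p (tau p (gx p)) = gx p
    rw [tau_x, tau_y]
  · change tau p (tau p (gy p)) = gy p
    rw [tau_y, tau_x]
  · change tau p (tau p (gz p)) = gz p
    rw [tau_z, tau_z]

end Pool.Agent.Helper686_FJ.Dan
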