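import Pool.Agent.Helper686_FJ.Dan1

/-!
# Ping-pong with the degrees of `x` and `y`
-/

set_option autoImplicit false

namespace Pool.Agent.Helper686_FJ.Dan

open Polynomial

variable {R : Type} [CommRing R] [IsDomain R]

/-- the growth of the degree -/
theorem grow {p : R[X]} (hp : 3 ≤ p.natDegree) {a b b' c f : R[X]} (hab : b.natDegree < a.natDegree)
    (h : a * b = p.comp c) (hf : f ≠ 0) (h' : a * b' = p.comp (c + a * f.comp a)) :
    a.natDegree < b'.natDegree := by
  have hn : 1 ≤ a.natDegree := by omega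
  have ha : a ≠ 0 := by
    rintro rfl
    simp at hn
  have hk : c.natDegree < a.natDegree := by
    have h1 := congrArg natDegree h
    rw [natDegree_comp] at h1
    by_cases hb : b = 0
    · rw [hb, mul_zero, natDegree_zero] at h1
      rcases Nat.mul_eq_zero.1 h1.symm with h2 | h2
      · omega
      · omega
    · rw [natDegree_mul ha hb] at h1
      nlinarith
  have hfa : f.comp a ≠ 0 := by
    intro h0
    rcases comp_eq_zero_iff.1 h0 with h1 | h1
    · exact hf h1
    · have h2 := congrArg natDegree h1.2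
      rw [natDegree_C] at h2
      omega
  have hd : (a * f.comp a).natDegree = a.natDegree * (1 + f.natDegree) := by
    rw [natDegree_mul ha hfa, natDegree_comp]
    ring
  have hd2 : (c + a * f.comp a).natDegree = a.natDegree * (1 + f.natDegree) := by
    rw [natDegree_add_eq_right_of_natDegree_lt, hd]
    rw [hd]
    nlinarith
  have h3 := congrArg natDegree h'
  rw [natDegree_comp, hd2] at h3
  have hb' : b' ≠ 0 := by
    rintro rfl
    rw [mul_zero, natDegree_zero] at h3
    have : 0 < p.natDegree * (a.natDegree * (1 + f.natDegree)) := by positivity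
    omega
  rw [natDegree_mul ha hb'] at h3
  have h4 : 3 * a.natDegree ≤ p.natDegree * (a.natDegree * (1 + f.natDegree)) := by
    have : a.natDegree ≤ a.natDegree * (1 + f.natDegree) := Nat.le_mul_of_pos_right _ (by omega)
    exact Nat.mul_le_mul hp this
  omega

/-- the points of `DA p` over `R[T]` -/
abbrev Pts (p : R[X]) : Type := DA p →ₐ[R] R[X]

/-- the action of the automorphisms on the points -/
noncomputable def rho (p : R[X]) : Ad p →* Equiv.Perm (Pts p) where
  toFun φ :=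
    { toFun := fun θ => θ.comp ((φ⁻¹ : Ad p) : DA p →ₐ[R] DA p)
      invFun := fun θ => θ.comp (φ : DA p →ₐ[R] DA p)
      left_inv := fun θ => by
        apply AlgHom.ext
        intro u
        change θ ((φ⁻¹ : Ad p) (φ u)) = θ u
        congr 1
        exact φ.symm_apply_apply u
      right_inv := fun θ => by
        apply AlgHom.ext
        intro u
        change θ (φ ((φ⁻¹ : Ad p) u)) = θ u
        congr 1
        exact φ.apply_symm_apply u }
  map_one' := by
    ext1 θ
    apply AlgHom.ext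
    intro u
    rfl
  map_mul' φ ψ := by
    ext1 θ
    apply AlgHom.ext
    intro u
    change θ (((φ * ψ)⁻¹ : Ad p) u) = θ (ψ⁻¹ (φ⁻¹ u))
    rw [mul_inv_rev]
    rfl

theorem rho_apply {p : R[X]} (φ : Ad p) (θ : Pts p) (u : DA p) : rho p φ θ u = θ ((φ⁻¹ : Ad p) u) := rfl

/-- points with `deg x > deg y` -/
def PX (p : R[X]) : Set (Pts p) := {θ | (θ (gy p)).natDegree < (θ (gx p)).natDegree}

/-- points with `deg y > deg x` -/
def PY (p : R[X]) : Set (Pts p) := {θ | (θ (gx p)).natDegree < (θ (gy p)).natDegree}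

/-- the triangular automorphisms -/
def A1 (p : R[X]) : Subgroup (Ad p) where
  carrier := {φ | φ (gx p) = gx p ∧ ∃ f : R[X], φ (gz p) = gz p + gx p * aeval (gx p) f}
  one_mem' := ⟨rfl, 0, by simp⟩
  mul_mem' := by
    rintro φ ψ ⟨h1, f, h2⟩ ⟨h3, g, h4⟩
    refine ⟨?_, f + g, ?_⟩
    · change φ (ψ (gx p)) = _
      rw [h3, h1]
    · change φ (ψ (gz p)) = _
      have h5 : φ (aeval (gx p) g) = aeval (φ (gx p)) g :=
        (aeval_algHom_apply (φ : DA p →ₐ[R] DA p) (gx p) g).symm
      rw [h4, map_add, map_mul, h5, h1, h2, map_add]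
      ring
  inv_mem' := by
    rintro φ ⟨h1, f, h2⟩
    have h3 : (φ⁻¹ : Ad p) (gx p) = gx p := by
      change φ.symm (gx p) = gx p
      rw [AlgEquiv.symm_apply_eq, h1]
    refine ⟨h3, -f, ?_⟩
    change φ.symm (gz p) = _
    rw [AlgEquiv.symm_apply_eq]
    have h5 : φ (aeval (gx p) (-f)) = aeval (φ (gx p)) (-f) :=
      (aeval_algHom_apply (φ : DA p →ₐ[R] DA p) (gx p) (-f)).symm
    rw [map_add, map_mul, h5, h1, h2, map_neg]
    ring

theorem dau_mem (p f : R[X]) (hp : p ≠ 0) : dau p f hp ∈ A1 p := ⟨dau_x p f hp, f, dau_z p f hp⟩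

theorem A1_comm {p : R[X]} (hp : p ≠ 0) {φ ψ : Ad p} (hφ : φ ∈ A1 p) (hψ : ψ ∈ A1 p) :
    φ * ψ = ψ * φ := by
  have h1 := (A1 p).mul_mem hφ hψ
  have h2 := (A1 p).mul_mem hψ hφ
  apply Ad_ext_x hp h1.1 h2.1
  obtain ⟨h3, f, h4⟩ := hφ
  obtain ⟨h5, g, h6⟩ := hψ
  change φ (ψ (gz p)) = ψ (φ (gz p))
  have h7 : φ (aeval (gx p) g) = aeval (φ (gx p)) g :=
    (aeval_algHom_apply (φ : DA p →ₐ[R] DA p) (gx p) g).symm
  have h8 : ψ (aeval (gx p) f) = aeval (ψ (gx p)) f :=
    (aeval_algHom_apply (ψ : DA p →ₐ[R] DA p) (gx p) f).symm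
  rw [h4, h6, map_add, map_add, map_mul, map_mul, h7, h8, h3, h5, h4, h6]
  ring

theorem A1_ping {p : R[X]} (hp : 3 ≤ p.natDegree) {φ : Ad p} (hφ : φ ∈ A1 p) (h1 : φ ≠ 1)
    {θ : Pts p} (hθ : θ ∈ PX p) : rho p φ θ ∈ PY p := by
  have hp0 : p ≠ 0 := by
    rintro rfl
    simp at hp
  obtain ⟨h2, f, h3⟩ := (A1 p).inv_mem hφ
  have hf : f ≠ 0 := by
    rintro rfl
    apply h1
    have h4 : (φ⁻¹ : Ad p) = 1 := by
      apply Ad_ext_x hp0 h2 rfl
      rw [h3, map_zero, mul_zero, add_zero]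
      rfl
    exact inv_eq_one.1 h4
  change (rho p φ θ (gx p)).natDegree < (rho p φ θ (gy p)).natDegree
  have h5 : rho p φ θ (gx p) = θ (gx p) := by rw [rho_apply, h2]
  have h6 : rho p φ θ (gz p) = θ (gz p) + θ (gx p) * f.comp (θ (gx p)) := by
    rw [rho_apply, h3, map_add, map_mul, ← aeval_algHom_apply]
    rfl
  have h7 := hom_xy θ
  have h8 := hom_xy (rho p φ θ)
  rw [h5, h6] at h8
  rw [h5]
  exact grow hp hθ h7 hf h8

end Pool.Agent.Helper686_FJ.Dan
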