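import Pool.Agent.Helper686_FJ.Dan2
import Pool.Agent.Helper686_FJ.Base2

/-!
# The tame automorphism group of `R[x, y, z] / (x y - p(z))`
-/

set_option autoImplicit false

namespace Pool.Agent.Helper686_FJ.Dan

open Polynomial

variable {R : Type} [CommRing R]

theorem smul_da (p : R[X]) (r : R) (u : DA p) : r • u = algebraMap R (DA p) r * u :=
  Algebra.smul_def r u

/-- the diagonal automorphisms -/
def H0 (p : R[X]) : Subgroup (Ad p) where
  carrier := {φ | ∃ (a b c : Rˣ) (e : R), φ (gx p) = (a : R) • gx p ∧ φ (gy p) = (b : R) • gy p ∧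
    φ (gz p) = (c : R) • gz p + algebraMap R (DA p) e}
  one_mem' := ⟨1, 1, 1, 0, by simp, by simp, by simp⟩
  mul_mem' := by
    rintro φ ψ ⟨a, b, c, e, h1, h2, h3⟩ ⟨a', b', c', e', h4, h5, h6⟩
    refine ⟨a' * a, b' * b, c' * c, c' * e + e', ?_, ?_, ?_⟩
    · change φ (ψ (gx p)) = _
      rw [h4, map_smul, h1, smul_smul, Units.val_mul]
    · change φ (ψ (gy p)) = _
      rw [h5, map_smul, h2, smul_smul, Units.val_mul]
    · change φ (ψ (gz p)) = _
      rw [h6, map_add, map_smul, h3, smul_add, smul_smul, Units.val_mul, AlgEquiv.commutes, map_add,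
        map_mul, Algebra.smul_def (c' : R) (algebraMap R (DA p) e), add_assoc]
  inv_mem' := by
    rintro φ ⟨a, b, c, e, h1, h2, h3⟩
    refine ⟨a⁻¹, b⁻¹, c⁻¹, -((c⁻¹ : Rˣ) : R) * e, ?_, ?_, ?_⟩
    · change φ.symm (gx p) = _
      rw [AlgEquiv.symm_apply_eq, map_smul, h1, smul_smul, Units.inv_mul, one_smul]
    · change φ.symm (gy p) = _
      rw [AlgEquiv.symm_apply_eq, map_smul, h2, smul_smul, Units.inv_mul, one_smul]
    · change φ.symm (gz p) = _
      rw [AlgEquiv.symm_apply_eq, map_add, map_smul, h3, smul_add, smul_smul, Units.inv_mul, one_smul,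
        AlgEquiv.commutes, neg_mul, map_neg, map_mul,
        Algebra.smul_def ((c⁻¹ : Rˣ) : R) (algebraMap R (DA p) e), add_neg_cancel_right]

/-- the translations of `z` -/
def T0 (p : R[X]) : Subgroup (Ad p) where
  carrier := {φ | φ (gx p) = gx p ∧ φ (gy p) = gy p ∧ ∃ e : R, φ (gz p) = gz p + algebraMap R (DA p) e}
  one_mem' := ⟨rfl, rfl, 0, by simp⟩
  mul_mem' := by
    rintro φ ψ ⟨h1, h2, e, h3⟩ ⟨h4, h5, e', h6⟩
    refine ⟨?_, ?_, e + e', ?_⟩
    · change φ (ψ (gx p)) = _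
      rw [h4, h1]
    · change φ (ψ (gy p)) = _
      rw [h5, h2]
    · change φ (ψ (gz p)) = _
      rw [h6, map_add, h3, AlgEquiv.commutes, map_add, add_assoc]
  inv_mem' := by
    rintro φ ⟨h1, h2, e, h3⟩
    refine ⟨?_, ?_, -e, ?_⟩
    · change φ.symm (gx p) = _
      rw [AlgEquiv.symm_apply_eq, h1]
    · change φ.symm (gy p) = _
      rw [AlgEquiv.symm_apply_eq, h2]
    · change φ.symm (gz p) = _
      rw [AlgEquiv.symm_apply_eq, map_add, h3, AlgEquiv.commutes, map_neg, add_neg_cancel_right]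

theorem H0_comm {p : R[X]} {φ ψ : Ad p} (hφ : φ ∈ H0 p) (hψ : ψ ∈ H0 p) :
    (ψ * φ)⁻¹ * (φ * ψ) ∈ T0 p := by
  obtain ⟨a, b, c, e, h1, h2, h3⟩ := hφ
  obtain ⟨a', b', c', e', h4, h5, h6⟩ := hψ
  have hx : (φ * ψ) (gx p) = (ψ * φ) (gx p) := by
    change φ (ψ (gx p)) = ψ (φ (gx p))
    rw [h4, h1, map_smul, map_smul, h1, h4, smul_comm]
  have hy : (φ * ψ) (gy p) = (ψ * φ) (gy p) := by
    change φ (ψ (gy p)) = ψ (φ (gy p))
    rw [h5, h2, map_smul, map_smul, h2, h5, smul_comm]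
  obtain ⟨u, hz⟩ : ∃ u : R, (φ * ψ) (gz p) = (ψ * φ) (gz p) + algebraMap R (DA p) u := by
    refine ⟨((c' : R) * e + e') - ((c : R) * e' + e), ?_⟩
    change φ (ψ (gz p)) = ψ (φ (gz p)) + _
    rw [h6, h3, map_add, map_add, map_smul, map_smul, h3, h6, AlgEquiv.commutes,
      AlgEquiv.commutes, map_sub, map_add, map_add, map_mul, map_mul]
    simp only [smul_da]
    ring
  generalize φ * ψ = α at *
  generalize ψ * φ = β at *
  have hs : ∀ g : DA p, (β⁻¹ : Ad p) (β g) = g := fun g => β.symm_apply_apply g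
  refine ⟨?_, ?_, u, ?_⟩
  · change (β⁻¹ : Ad p) (α (gx p)) = _
    rw [hx, hs]
  · change (β⁻¹ : Ad p) (α (gy p)) = _
    rw [hy, hs]
  · change (β⁻¹ : Ad p) (α (gz p)) = _
    rw [hz, map_add, hs, AlgEquiv.commutes]

theorem H0_solv (p : R[X]) : Group.IsSolvable (H0 p) := by
  refine solv_meta (H0 p) (T0 p) ?_ ?_
  · rintro φ ⟨h1, h2, e, h3⟩ ψ ⟨h4, h5, e', h6⟩
    apply Ad_ext
    · change φ (ψ (gx p)) = ψ (φ (gx p))
      rw [h4, h1, h4]
    · change φ (ψ (gy p)) = ψ (φ (gy p))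
      rw [h5, h2, h5]
    · change φ (ψ (gz p)) = ψ (φ (gz p))
      rw [h6, h3, map_add, map_add, h3, h6, AlgEquiv.commutes, AlgEquiv.commutes, add_right_comm]
  · intro φ hφ ψ hψ
    have h1 := H0_comm ((H0 p).inv_mem hφ) ((H0 p).inv_mem hψ)
    have h2 : (ψ⁻¹ * φ⁻¹)⁻¹ * (φ⁻¹ * ψ⁻¹) = φ * ψ * φ⁻¹ * ψ⁻¹ := by group
    rwa [h2] at h1

/-- the diagonal automorphisms normalize the group of triangular automorphisms -/
theorem H0_A1' {p : R[X]} {h φ : Ad p} (hh : h ∈ H0 p) (hφ : φ ∈ A1 p) : h * φ * h⁻¹ ∈ A1 p := by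
  obtain ⟨a, b, c, e, h1, _, h3⟩ := hh
  obtain ⟨h4, f, h5⟩ := hφ
  have i1 : (h⁻¹ : Ad p) (gx p) = ((a⁻¹ : Rˣ) : R) • gx p := by
    change h.symm (gx p) = _
    rw [AlgEquiv.symm_apply_eq, map_smul, h1, smul_smul, Units.inv_mul, one_smul]
  have i2 : (h⁻¹ : Ad p) (gz p) = ((c⁻¹ : Rˣ) : R) • (gz p - algebraMap R (DA p) e) := by
    change h.symm (gz p) = _
    rw [AlgEquiv.symm_apply_eq, map_smul, map_sub, h3, AlgEquiv.commutes, add_sub_cancel_right,
      smul_smul, Units.inv_mul, one_smul]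
  refine ⟨?_, C ((c⁻¹ : Rˣ) : R) * C (a : R) * f.comp (C (a : R) * X), ?_⟩
  · change h (φ ((h⁻¹ : Ad p) (gx p))) = gx p
    rw [i1, map_smul, h4, map_smul, h1, smul_smul, Units.inv_mul, one_smul]
  · change h (φ ((h⁻¹ : Ad p) (gz p))) = _
    have h6 : h (aeval (gx p) f) = aeval (h (gx p)) f :=
      (aeval_algHom_apply (h : DA p →ₐ[R] DA p) (gx p) f).symm
    have h7 : aeval (gx p) (f.comp (C (a : R) * X)) = aeval ((a : R) • gx p) f := by
      rw [aeval_comp, map_mul, aeval_C, aeval_X, ← smul_da]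
    rw [i2, map_smul, map_sub, h5, AlgEquiv.commutes, map_smul, map_sub, map_add, map_mul, h6, h1,
      h3, AlgEquiv.commutes, map_mul, map_mul, h7, aeval_C, aeval_C]
    generalize aeval ((a : R) • gx p) f = F
    have h8 : algebraMap R (DA p) ((c⁻¹ : Rˣ) : R) * algebraMap R (DA p) (c : R) = 1 := by
      rw [← map_mul, Units.inv_mul, map_one]
    simp only [smul_da]
    linear_combination (gz p) * h8

theorem conj_iff {G : Type} [Group G] {A B : Subgroup G} {g : G}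
    (h1 : ∀ x ∈ A, g * x * g⁻¹ ∈ B) (h2 : ∀ x ∈ B, g⁻¹ * x * g⁻¹⁻¹ ∈ A) (x : G) :
    x ∈ A ↔ g * x * g⁻¹ ∈ B := by
  constructor
  · exact h1 x
  · intro h
    have h3 := h2 _ h
    have e : g⁻¹ * (g * x * g⁻¹) * g⁻¹⁻¹ = x := by group
    rwa [e] at h3

theorem H0_A1 {p : R[X]} {h : Ad p} (hh : h ∈ H0 p) (φ : Ad p) : φ ∈ A1 p ↔ h * φ * h⁻¹ ∈ A1 p :=
  conj_iff (fun _ hx => H0_A1' hh hx) (fun _ hx => H0_A1' ((H0 p).inv_mem hh) hx) φ

theorem tau_inv (p : R[X]) : (tau p)⁻¹ = tau p := inv_eq_of_mul_eq_one_left (tau_sq p)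

theorem tau_H0 {p : R[X]} {h : Ad p} (hh : h ∈ H0 p) : tau p * h * (tau p)⁻¹ ∈ H0 p := by
  obtain ⟨a, b, c, e, h1, h2, h3⟩ := hh
  rw [tau_inv]
  refine ⟨b, a, c, e, ?_, ?_, ?_⟩
  · change tau p (h (tau p (gx p))) = _
    rw [tau_x, h2, map_smul, tau_y]
  · change tau p (h (tau p (gy p))) = _
    rw [tau_y, h1, map_smul, tau_x]
  · change tau p (h (tau p (gz p))) = _
    rw [tau_z, h3, map_add, map_smul, tau_z, AlgEquiv.commutes]

/-- the triangular automorphisms with respect to `y` -/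
noncomputable def A2 (p : R[X]) : Subgroup (Ad p) := (A1 p).map (MulAut.conj (tau p)).toMonoidHom

theorem mem_A2 {p : R[X]} {φ : Ad p} : φ ∈ A2 p ↔ tau p * φ * (tau p)⁻¹ ∈ A1 p := by
  constructor
  · rintro ⟨ψ, hψ, rfl⟩
    change tau p * (tau p * ψ * (tau p)⁻¹) * (tau p)⁻¹ ∈ A1 p
    have : tau p * (tau p * ψ * (tau p)⁻¹) * (tau p)⁻¹ = (tau p * tau p) * ψ * (tau p * tau p)⁻¹ := by
      group
    rw [this, tau_sq, one_mul, inv_one, mul_one]
    exact hψ
  · intro h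
    refine ⟨_, h, ?_⟩
    change tau p * (tau p * φ * (tau p)⁻¹) * (tau p)⁻¹ = φ
    have : tau p * (tau p * φ * (tau p)⁻¹) * (tau p)⁻¹ = (tau p * tau p) * φ * (tau p * tau p)⁻¹ := by
      group
    rw [this, tau_sq, one_mul, inv_one, mul_one]

theorem tau_A2 {p : R[X]} (φ : Ad p) : φ ∈ A2 p ↔ tau p * φ * (tau p)⁻¹ ∈ A1 p := mem_A2

theorem tau_A1 {p : R[X]} (φ : Ad p) : φ ∈ A1 p ↔ tau p * φ * (tau p)⁻¹ ∈ A2 p := by
  rw [mem_A2]
  have : tau p * (tau p * φ * (tau p)⁻¹) * (tau p)⁻¹ = (tau p * tau p) * φ * (tau p * tau p)⁻¹ := by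
    group
  rw [this, tau_sq, one_mul, inv_one, mul_one]

theorem H0_A2 {p : R[X]} {h : Ad p} (hh : h ∈ H0 p) (φ : Ad p) : φ ∈ A2 p ↔ h * φ * h⁻¹ ∈ A2 p := by
  rw [mem_A2, mem_A2, H0_A1 (tau_H0 hh) (tau p * φ * (tau p)⁻¹)]
  have : tau p * h * (tau p)⁻¹ * (tau p * φ * (tau p)⁻¹) * (tau p * h * (tau p)⁻¹)⁻¹ =
      tau p * (h * φ * h⁻¹) * (tau p)⁻¹ := by group
  rw [this]

/-- diagonal automorphisms and their products with `tau` -/
def Gam (p : R[X]) : Subgroup (Ad p) where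
  carrier := {φ | φ ∈ H0 p ∨ φ * tau p ∈ H0 p}
  one_mem' := Or.inl (H0 p).one_mem
  mul_mem' := by
    have key : ∀ {h : Ad p}, h ∈ H0 p → tau p * h * tau p ∈ H0 p := by
      intro h hh
      have := tau_H0 hh
      rwa [tau_inv] at this
    have t2 : tau p * tau p = 1 := tau_sq p
    rintro φ ψ (h1 | h1) (h2 | h2)
    · exact Or.inl ((H0 p).mul_mem h1 h2)
    · right
      rw [mul_assoc]
      exact (H0 p).mul_mem h1 h2
    · right
      have e : φ * ψ * tau p = (φ * tau p) * (tau p * ψ * tau p) := by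
        have : (φ * tau p) * (tau p * ψ * tau p) = φ * (tau p * tau p) * ψ * tau p := by group
        rw [this, t2, mul_one]
      rw [e]
      exact (H0 p).mul_mem h1 (key h2)
    · left
      have e : φ * ψ = (φ * tau p) * (tau p * (ψ * tau p) * tau p) := by
        have : (φ * tau p) * (tau p * (ψ * tau p) * tau p) =
            φ * (tau p * tau p) * ψ * (tau p * tau p) := by group
        rw [this, t2, mul_one, mul_one]
      rw [e]
      exact (H0 p).mul_mem h1 (key h2)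
  inv_mem' := by
    have key : ∀ {h : Ad p}, h ∈ H0 p → tau p * h * tau p ∈ H0 p := by
      intro h hh
      have := tau_H0 hh
      rwa [tau_inv] at this
    rintro φ (h1 | h1)
    · exact Or.inl ((H0 p).inv_mem h1)
    · right
      have e : φ⁻¹ * tau p = tau p * (φ * tau p)⁻¹ * tau p := by
        rw [mul_inv_rev, tau_inv, ← mul_assoc, tau_sq, one_mul]
      rw [e]
      exact key ((H0 p).inv_mem h1)

theorem Gam_eq (p : R[X]) : Gam p = H0 p ⊔ Subgroup.zpowers (tau p) := by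
  apply le_antisymm
  · rintro φ (h | h)
    · exact Subgroup.mem_sup_left h
    · have h1 : φ = (φ * tau p) * (tau p)⁻¹ := by group
      rw [h1]
      exact Subgroup.mul_mem _ (Subgroup.mem_sup_left h)
        (Subgroup.inv_mem _ (Subgroup.mem_sup_right (Subgroup.mem_zpowers _)))
  · refine sup_le (fun φ h => Or.inl h) ?_
    rw [Subgroup.zpowers_le]
    right
    rw [tau_sq]
    exact (H0 p).one_mem

theorem Gam_solv (p : R[X]) : Group.IsSolvable (Gam p) := by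
  rw [Gam_eq]
  refine solv_sup _ _ (H0_solv p) (Group.isSolvable_of_comm ?_) ?_
  · rintro ⟨_, a, rfl⟩ ⟨_, b, rfl⟩
    exact Subtype.ext (zpow_mul_comm _ a b)
  · rintro b ⟨n, rfl⟩ h hh
    have h1 : Subgroup.zpowers (tau p) ≤ Subgroup.normalizer (H0 p : Set (Ad p)) := by
      rw [Subgroup.zpowers_le]
      intro x
      refine conj_iff (fun _ hx => tau_H0 hx) (fun y hy => ?_) x
      have := tau_H0 hy
      rw [tau_inv] at this ⊢
      rwa [tau_inv]
    exact (h1 ⟨n, rfl⟩ h).1 hh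

end Pool.Agent.Helper686_FJ.Dan
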