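import Pool.Agent.Helper686_FJ.Dan3

/-!
# The tame automorphism group of `R[x, y, z] / (x y - p(z))` is in the class
-/

set_option autoImplicit false

namespace Pool.Agent.Helper686_FJ.Dan

open Polynomial Pool.Agent.Y110.FJ Pool.Agent.R684.FP Pool.Agent.H694.TR

variable {R : Type} [CommRing R] [IsDomain R]

/-- the two groups of triangular automorphisms -/
noncomputable def AA (p : R[X]) (b : Bool) : Subgroup (Ad p) := if b then A1 p else A2 p

/-- the ping-pong sets -/
def XX (p : R[X]) (b : Bool) : Set (Pts p) := if b then PY p else PX p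

theorem rho_tau {p : R[X]} {θ : Pts p} : (θ ∈ PX p → rho p (tau p) θ ∈ PY p) ∧
    (θ ∈ PY p → rho p (tau p) θ ∈ PX p) := by
  have h1 : rho p (tau p) θ (gx p) = θ (gy p) := by
    rw [rho_apply, tau_inv, tau_x]
  have h2 : rho p (tau p) θ (gy p) = θ (gx p) := by
    rw [rho_apply, tau_inv, tau_y]
  constructor
  · intro h
    change (rho p (tau p) θ (gx p)).natDegree < (rho p (tau p) θ (gy p)).natDegree
    rw [h1, h2]
    exact h
  · intro h
    change (rho p (tau p) θ (gy p)).natDegree < (rho p (tau p) θ (gx p)).natDegree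
    rw [h1, h2]
    exact h

theorem A2_ping {p : R[X]} (hp : 3 ≤ p.natDegree) {φ : Ad p} (hφ : φ ∈ A2 p) (h1 : φ ≠ 1)
    {θ : Pts p} (hθ : θ ∈ PY p) : rho p φ θ ∈ PX p := by
  obtain ⟨ψ, hψ⟩ : ∃ ψ, ψ = tau p * φ * (tau p)⁻¹ := ⟨_, rfl⟩
  have h2 : ψ ∈ A1 p := by rw [hψ]; exact mem_A2.1 hφ
  have h3 : φ = tau p * ψ * tau p := by
    rw [hψ]
    have : tau p * (tau p * φ * (tau p)⁻¹) * tau p = (tau p * tau p) * φ := by group
    rw [this, tau_sq, one_mul]
  have h4 : ψ ≠ 1 := by
    rintro rfl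
    apply h1
    rw [h3, mul_one, tau_sq]
  rw [h3, map_mul, map_mul]
  exact rho_tau.2 (A1_ping hp h2 h4 (rho_tau.2 hθ))

theorem PY_nonempty {p : R[X]} (hp : 3 ≤ p.natDegree) : (PY p).Nonempty := by
  have h : (1 : R[X]) * p = aeval X p := by rw [one_mul, aeval_X_left_apply]
  refine ⟨hm p 1 p X h, ?_⟩
  change (hm p 1 p X h (gx p)).natDegree < (hm p 1 p X h (gy p)).natDegree
  rw [hm_x, hm_y, natDegree_one]
  omega

theorem A1_infinite {p : R[X]} (hp : 3 ≤ p.natDegree) : Infinite (A1 p) := by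
  have hp0 : p ≠ 0 := by
    rintro rfl
    simp at hp
  refine Infinite.of_injective (fun f : R[X] => (⟨dau p f hp0, dau_mem p f hp0⟩ : A1 p)) ?_
  intro f g hfg
  have h1 : dau p f hp0 (gz p) = dau p g hp0 (gz p) := by
    have := congrArg (fun φ : A1 p => (φ : Ad p) (gz p)) hfg
    exact this
  rw [dau_z, dau_z] at h1
  have h2 := x_reg hp0 (add_left_cancel h1)
  have h3 := congrArg (hm p p 1 X (by rw [mul_one, aeval_X_left_apply])) h2
  rw [← aeval_algHom_apply, ← aeval_algHom_apply, hm_x] at h3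
  have h4 : (f - g).comp p = 0 := by
    rw [sub_comp, sub_eq_zero]
    exact h3
  rcases comp_eq_zero_iff.1 h4 with h5 | h5
  · exact sub_eq_zero.1 h5
  · exfalso
    have h6 := congrArg natDegree h5.2
    rw [natDegree_C] at h6
    omega

theorem free_inj {p : R[X]} (hp : 3 ≤ p.natDegree) :
    Function.Injective (Monoid.CoprodI.lift fun b : Bool => (AA p b).subtype) := by
  have h1 : (rho p).comp (Monoid.CoprodI.lift fun b : Bool => (AA p b).subtype) =
      Monoid.CoprodI.lift fun b : Bool => (rho p).comp (AA p b).subtype := by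
    apply Monoid.CoprodI.ext_hom
    intro i
    ext1 u
    change rho p (Monoid.CoprodI.lift (fun b => (AA p b).subtype) (Monoid.CoprodI.of u)) =
      Monoid.CoprodI.lift (fun b => (rho p).comp (AA p b).subtype) (Monoid.CoprodI.of u)
    rw [Monoid.CoprodI.lift_of, Monoid.CoprodI.lift_of]
    rfl
  have h2 : Function.Injective
      (Monoid.CoprodI.lift fun b : Bool => (rho p).comp (AA p b).subtype) := by
    refine Monoid.CoprodI.lift_injective_of_ping_pong _ (Or.inr ⟨true, ?_⟩) (XX p) ?_ ?_ ?_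
    · have : Infinite (A1 p) := A1_infinite hp
      exact (Cardinal.natCast_lt_aleph0 (n := 3)).le.trans (Cardinal.aleph0_le_mk (A1 p))
    · rintro (_ | _)
      · obtain ⟨θ, hθ⟩ := PY_nonempty hp
        exact ⟨_, rho_tau.2 hθ⟩
      · exact PY_nonempty hp
    · have h3 : Disjoint (PX p) (PY p) := by
        rw [Set.disjoint_left]
        intro θ h4 h5
        change (θ (gy p)).natDegree < (θ (gx p)).natDegree at h4
        change (θ (gx p)).natDegree < (θ (gy p)).natDegree at h5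
        omega
      rintro (_ | _) (_ | _) hij
      · exact absurd rfl hij
      · exact h3
      · exact h3.symm
      · exact absurd rfl hij
    · rintro (_ | _) (_ | _) hij u hu
      · exact absurd rfl hij
      · rintro _ ⟨θ, hθ, rfl⟩
        exact A2_ping hp u.2 (fun h => hu (Subtype.ext h)) hθ
      · rintro _ ⟨θ, hθ, rfl⟩
        exact A1_ping hp u.2 (fun h => hu (Subtype.ext h)) hθ
      · exact absurd rfl hij
  intro a b hab
  apply h2
  rw [← h1, MonoidHom.comp_apply, MonoidHom.comp_apply, hab]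

theorem A2_comm {p : R[X]} (hp : p ≠ 0) {φ ψ : Ad p} (hφ : φ ∈ A2 p) (hψ : ψ ∈ A2 p) :
    φ * ψ = ψ * φ := by
  have h1 := A1_comm hp (mem_A2.1 hφ) (mem_A2.1 hψ)
  have h2 : tau p * φ * (tau p)⁻¹ * (tau p * ψ * (tau p)⁻¹) = tau p * (φ * ψ) * (tau p)⁻¹ := by group
  have h3 : tau p * ψ * (tau p)⁻¹ * (tau p * φ * (tau p)⁻¹) = tau p * (ψ * φ) * (tau p)⁻¹ := by group
  rw [h2, h3] at h1
  exact mul_left_cancel (mul_right_cancel h1)

theorem Gam_perm {p : R[X]} {γ : Ad p} (hγ : γ ∈ Gam p) (b : Bool) :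
    ∃ j, ∀ φ, φ ∈ AA p b ↔ γ * φ * γ⁻¹ ∈ AA p j := by
  rcases hγ with h | h
  · refine ⟨b, fun φ => ?_⟩
    rcases b with _ | _
    · exact H0_A2 h φ
    · exact H0_A1 h φ
  · refine ⟨!b, fun φ => ?_⟩
    have e : γ * φ * γ⁻¹ = (γ * tau p) * (tau p * φ * (tau p)⁻¹) * (γ * tau p)⁻¹ := by
      have : (γ * tau p) * (tau p * φ * (tau p)⁻¹) * (γ * tau p)⁻¹ =
          γ * (tau p * tau p) * φ * (γ * (tau p * tau p))⁻¹ := by group
      rw [this, tau_sq, mul_one]
    rw [e]
    rcases b with _ | _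
    · exact (tau_A2 φ).trans (H0_A1 h _)
    · exact (tau_A1 φ).trans (H0_A2 h _)

variable {C : ∀ (G : Type) [Group G], Prop}

theorem tame_mem (hC : ClosedE C) (hF : FbC C) (hS : Sol C) {p : R[X]} (hp : 3 ≤ p.natDegree) :
    C ↥((⨆ b, AA p b) ⊔ Gam p) := by
  have hp0 : p ≠ 0 := by
    rintro rfl
    simp at hp
  refine lemS hC hF hS (Gam p) (⨆ b, AA p b) (AA p) rfl (free_inj hp) ?_
    (fun γ hγ b => Gam_perm hγ b) (Gam_solv p)
  rintro (_ | _) φ hφ ψ hψ
  · exact A2_comm hp0 hφ hψ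
  · exact A1_comm hp0 hφ hψ

section Def

variable {R : Type} [CommRing R]

/-- `c u + e` -/
noncomputable def aff (p : R[X]) (c e : R) (u : DA p) : DA p :=
  algebraMap R (DA p) c * u + algebraMap R (DA p) e

/-- the value at `x` -/
noncomputable def vx (p : R[X]) (φ : Ad p) : DA p := φ (gx p)

/-- the value at `y` -/
noncomputable def vy (p : R[X]) (φ : Ad p) : DA p := φ (gy p)

/-- the value at `z` -/
noncomputable def vz (p : R[X]) (φ : Ad p) : DA p := φ (gz p)

/-- the automorphisms with `x ↦ x`, `z ↦ z + x f(x)` for a polynomial `f` -/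
def TriD (p : R[X]) : Set (Ad p) := {φ | vx p φ = gx p ∧ ∃ f : R[X], vz p φ = nz p f}

/-- the automorphisms with `x ↦ a x`, `y ↦ b y`, `z ↦ c z + e` -/
def DiaD (p : R[X]) : Set (Ad p) :=
  {φ | ∃ (a b c : Rˣ) (e : R), vx p φ = aff p a 0 (gx p) ∧ vy p φ = aff p b 0 (gy p) ∧
    vz p φ = aff p c e (gz p)}

/-- the automorphism which interchanges `x` and `y` and fixes `z` -/
def SwaD (p : R[X]) : Set (Ad p) := {φ | vx p φ = gy p ∧ vy p φ = gx p ∧ vz p φ = gz p}

/-- The group of tame automorphisms of `R[x, y, z] / (x y - p(z))`: it is generated by the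
automorphisms with `x ↦ x`, `z ↦ z + x f(x)` for a polynomial `f`, the automorphisms with `x ↦ a x`, `y ↦ b y`,
`z ↦ c z + e` for units `a`, `b`, `c` and an element `e` of `R`, and the automorphism which interchanges `x`
and `y` and fixes `z`. -/
noncomputable def TamD (p : R[X]) : Subgroup (Ad p) := Subgroup.closure (TriD p ∪ DiaD p ∪ SwaD p)

/-- the group of tame automorphisms is in `C` -/
def InCT (C : ∀ (G : Type) [Group G], Prop) (p : R[X]) : Prop := C (TamD p)

theorem DiaD_iff (p : R[X]) (φ : Ad p) : φ ∈ DiaD p ↔ φ ∈ H0 p := by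
  have h : ∀ (a : R) (u : DA p), aff p a 0 u = a • u := by
    intro a u
    unfold aff
    rw [map_zero, add_zero, smul_da]
  have h' : ∀ (a e : R) (u : DA p), aff p a e u = a • u + algebraMap R (DA p) e := by
    intro a e u
    unfold aff
    rw [smul_da]
  constructor
  · rintro ⟨a, b, c, e, h1, h2, h3⟩
    exact ⟨a, b, c, e, h1.trans (h _ _), h2.trans (h _ _), h3.trans (h' _ _ _)⟩
  · rintro ⟨a, b, c, e, h1, h2, h3⟩
    exact ⟨a, b, c, e, h1.trans (h _ _).symm, h2.trans (h _ _).symm, h3.trans (h' _ _ _).symm⟩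

end Def

omit [IsDomain R] in
theorem TamD_eq (p : R[X]) : TamD p = (⨆ b, AA p b) ⊔ Gam p := by
  have hτ : tau p ∈ Gam p := by
    right
    rw [tau_sq]
    exact (H0 p).one_mem
  apply le_antisymm
  · unfold TamD
    rw [Subgroup.closure_le]
    rintro φ ((h | h) | h)
    · exact Subgroup.mem_sup_left (Subgroup.mem_iSup_of_mem true h)
    · exact Subgroup.mem_sup_right (Or.inl ((DiaD_iff p φ).1 h))
    · have h1 : φ = tau p := Ad_ext (h.1.trans (tau_x p).symm) (h.2.1.trans (tau_y p).symm)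
        (h.2.2.trans (tau_z p).symm)
      rw [h1]
      exact Subgroup.mem_sup_right hτ
  · have h1 : A1 p ≤ TamD p := fun φ h => Subgroup.subset_closure (Or.inl (Or.inl h))
    have h2 : H0 p ≤ TamD p := fun φ h =>
      Subgroup.subset_closure (Or.inl (Or.inr ((DiaD_iff p φ).2 h)))
    have h3 : tau p ∈ TamD p :=
      Subgroup.subset_closure (Or.inr ⟨tau_x p, tau_y p, tau_z p⟩)
    refine sup_le (iSup_le ?_) ?_
    · rintro (_ | _)
      · rintro _ ⟨φ, hφ, rfl⟩
        exact Subgroup.mul_mem _ (Subgroup.mul_mem _ h3 (h1 hφ)) (Subgroup.inv_mem _ h3)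
      · exact h1
    · rw [Gam_eq]
      refine sup_le h2 ?_
      rw [Subgroup.zpowers_le]
      exact h3

end Pool.Agent.Helper686_FJ.Dan
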