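import Pool.Agent.Helper686_FJ.Base

/-!
# `GL₂` of polynomial rings over division rings
-/

set_option autoImplicit false

namespace Pool.Agent.Helper686_FJ

namespace GLP

open Polynomial Pool.Agent.Y110.FJ Pool.Agent.R684.FP Pool.Agent.H694.TR
open Pool.Agent.R941.FJ (C_equiv C_le)

/-- `GL₂(R)` for an arbitrary ring `R`: the invertible `2 × 2` matrices -/
abbrev G2 (R : Type) [Ring R] : Type := (Matrix (Fin 2) (Fin 2) R)ˣ

variable {D : Type} [DivisionRing D]

/-- representatives of the points of the projective line -/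
def vec : Option D → Fin 2 → D
  | none => ![0, 1]
  | some c => ![1, c]

/-- the row vector which is zero on `vec x` -/
def row : Option D → Fin 2 → D
  | none => ![1, 0]
  | some c => ![-c, 1]

/-- the value of the row `row x` on `vec y` -/
def pair (x y : Option D) : D := row x 0 * vec y 0 + row x 1 * vec y 1

theorem pair_self (x : Option D) : pair x x = 0 := by
  cases x <;> simp [pair, row, vec]

theorem pair_ne {x y : Option D} (h : x ≠ y) : pair x y ≠ 0 := by
  cases x with
  | none =>
    cases y with
    | none => exact absurd rfl h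
    | some c => simp [pair, row, vec]
  | some c =>
    cases y with
    | none => simp [pair, row, vec]
    | some c' =>
      simp only [pair, row, vec]
      simp only [Matrix.cons_val_zero, Matrix.cons_val_one, mul_one, one_mul]
      intro h0
      apply h
      rw [neg_add_eq_zero.1 h0]

theorem vec_ne (x : Option D) : vec x ≠ 0 := by
  intro h
  cases x with
  | none => exact one_ne_zero (congrFun h 1)
  | some c => exact one_ne_zero (congrFun h 0)

/-- the matrix `v_x f ℓ_x` -/
noncomputable def em (x : Option D) (f : D[X]) : Matrix (Fin 2) (Fin 2) D[X] :=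
  fun i j => C (vec x i) * f * C (row x j)

theorem em_add (x : Option D) (f g : D[X]) : em x (f + g) = em x f + em x g := by
  ext i j : 2
  simp only [em, Matrix.add_apply, mul_add, add_mul]

theorem em_zero (x : Option D) : em x (0 : D[X]) = 0 := by
  ext i j : 2
  simp only [em, Matrix.zero_apply, mul_zero, zero_mul]

theorem em_mul (x : Option D) (f g : D[X]) : em x f * em x g = 0 := by
  ext i j : 2
  rw [Matrix.mul_apply, Fin.sum_univ_two, Matrix.zero_apply]
  simp only [em]
  have h : (C (row x 0) * C (vec x 0) + C (row x 1) * C (vec x 1) : D[X]) = 0 := by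
    rw [← C_mul, ← C_mul, ← C_add]
    have := pair_self x
    unfold pair at this
    rw [this, C_0]
  have : C (vec x i) * f * C (row x 0) * (C (vec x 0) * g * C (row x j)) +
      C (vec x i) * f * C (row x 1) * (C (vec x 1) * g * C (row x j)) =
      C (vec x i) * f * (C (row x 0) * C (vec x 0) + C (row x 1) * C (vec x 1)) * g *
        C (row x j) := by
    noncomm_ring
  rw [this, h]
  simp

/-- the elementary matrix `1 + v_x f ℓ_x` -/
noncomputable def el (x : Option D) (f : D[X]) : G2 D[X] where
  val := 1 + em x f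
  inv := 1 + em x (-f)
  val_inv := by
    have h : em x f + em x (-f) = 0 := by rw [← em_add, add_neg_cancel, em_zero]
    have : (1 + em x f) * (1 + em x (-f)) = 1 + (em x f + em x (-f)) + em x f * em x (-f) := by
      noncomm_ring
    rw [this, h, em_mul, add_zero, add_zero]
  inv_val := by
    have h : em x (-f) + em x f = 0 := by rw [← em_add, neg_add_cancel, em_zero]
    have : (1 + em x (-f)) * (1 + em x f) = 1 + (em x (-f) + em x f) + em x (-f) * em x f := by
      noncomm_ring
    rw [this, h, em_mul, add_zero, add_zero]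

theorem el_mul (x : Option D) (f g : D[X]) : el x f * el x g = el x (f + g) := by
  apply Units.ext
  change (1 + em x f) * (1 + em x g) = 1 + em x (f + g)
  have : (1 + em x f) * (1 + em x g) = 1 + (em x f + em x g) + em x f * em x g := by
    noncomm_ring
  rw [this, em_mul, add_zero, em_add]

theorem el_zero (x : Option D) : el x (0 : D[X]) = 1 := by
  apply Units.ext
  change 1 + em x 0 = 1
  rw [em_zero, add_zero]

theorem el_inv (x : Option D) (f : D[X]) : (el x f)⁻¹ = el x (-f) := by
  rw [inv_eq_iff_mul_eq_one, el_mul, add_neg_cancel, el_zero]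

/-- the group `1 + v_x T D[T] ℓ_x` -/
noncomputable def UL (x : Option D) : Subgroup (G2 D[X]) where
  carrier := {A | ∃ f : D[X], X ∣ f ∧ A = el x f}
  one_mem' := ⟨0, dvd_zero _, (el_zero x).symm⟩
  mul_mem' := by
    rintro _ _ ⟨f, hf, rfl⟩ ⟨g, hg, rfl⟩
    exact ⟨f + g, dvd_add hf hg, el_mul x f g⟩
  inv_mem' := by
    rintro _ ⟨f, hf, rfl⟩
    exact ⟨-f, (dvd_neg).2 hf, el_inv x f⟩

theorem UL_comm (x : Option D) {A B : G2 D[X]} (hA : A ∈ UL x) (hB : B ∈ UL x) : A * B = B * A := by
  obtain ⟨f, _, rfl⟩ := hA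
  obtain ⟨g, _, rfl⟩ := hB
  rw [el_mul, el_mul, add_comm]

/-! ### ping-pong -/

/-- the vectors over `D[T]` with leading coefficients in `v_x D` -/
def PL (x : Option D) : Set (Fin 2 → D[X]) :=
  {a | ∃ d : ℕ, (∀ i, (a i).natDegree ≤ d) ∧ ∃ l : D, l ≠ 0 ∧ ∀ i, (a i).coeff d = vec x i * l}

theorem PL_nonempty (x : Option D) : (PL x).Nonempty := by
  refine ⟨fun i => C (vec x i), 0, fun i => ?_, 1, one_ne_zero, fun i => ?_⟩
  · rw [natDegree_C]
  · rw [coeff_C_zero, mul_one]

theorem PL_disjoint {x y : Option D} (h : x ≠ y) : Disjoint (PL x) (PL y) := by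
  rw [Set.disjoint_left]
  rintro a ⟨d, ha, l, hl, hc⟩ ⟨d', ha', l', hl', hc'⟩
  have aux : ∀ (z : Option D) (e : ℕ) (m : D), m ≠ 0 → (∀ i, (a i).coeff e = vec z i * m) →
      ∀ e', (∀ i, (a i).natDegree ≤ e') → e ≤ e' := by
    intro z e m hm h1 e' h2
    by_contra h3
    push Not at h3
    apply vec_ne z
    funext i
    have h4 := coeff_eq_zero_of_natDegree_lt (lt_of_le_of_lt (h2 i) h3)
    rw [h1 i] at h4
    exact (mul_eq_zero.1 h4).resolve_right hm
  have hdd : d = d' := le_antisymm (aux x d l hl hc d' ha') (aux y d' l' hl' hc' d ha)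
  subst hdd
  -- apply the row of `y`
  have h1 : row y 0 * (a 0).coeff d + row y 1 * (a 1).coeff d = pair y x * l := by
    rw [hc 0, hc 1, pair]
    noncomm_ring
  have h2 : row y 0 * (a 0).coeff d + row y 1 * (a 1).coeff d = pair y y * l' := by
    rw [hc' 0, hc' 1, pair]
    noncomm_ring
  rw [pair_self, zero_mul] at h2
  rw [h2] at h1
  exact (mul_ne_zero (pair_ne h.symm) hl) h1.symm

/-- matrices act on column vectors -/
noncomputable instance actL : MulAction (G2 D[X]) (Fin 2 → D[X]) where
  smul A a := A.1.mulVec a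
  one_smul a := Matrix.one_mulVec a
  mul_smul A B a := (Matrix.mulVec_mulVec a A.1 B.1).symm

theorem smul_el (x : Option D) (f : D[X]) (a : Fin 2 → D[X]) (i : Fin 2) :
    (actL.smul (el x f) a) i = a i + C (vec x i) * (f * (C (row x 0) * a 0 + C (row x 1) * a 1)) := by
  change ((1 + em x f).mulVec a) i = _
  rw [Matrix.add_mulVec, Matrix.one_mulVec, Pi.add_apply]
  congr 1
  simp only [Matrix.mulVec, dotProduct, Fin.sum_univ_two, em]
  noncomm_ring

theorem pingL {x y : Option D} (h : x ≠ y) {f : D[X]} (hX : X ∣ f) (hf : f ≠ 0)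
    {a : Fin 2 → D[X]} (ha : a ∈ PL y) : actL.smul (el x f) a ∈ PL x := by
  obtain ⟨d, had, l, hl, hc⟩ := ha
  have hm : 1 ≤ f.natDegree := by
    obtain ⟨g, rfl⟩ := hX
    have hg : g ≠ 0 := by
      rintro rfl
      exact hf (mul_zero _)
    rw [natDegree_mul X_ne_zero hg, natDegree_X]
    omega
  set b : D[X] := C (row x 0) * a 0 + C (row x 1) * a 1 with hb
  have hbd : b.natDegree ≤ d := by
    refine (natDegree_add_le _ _).trans (max_le ?_ ?_)
    · exact (natDegree_C_mul_le _ _).trans (had 0)
    · exact (natDegree_C_mul_le _ _).trans (had 1)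
  have hbc : b.coeff d = pair x y * l := by
    rw [hb, coeff_add, coeff_C_mul, coeff_C_mul, hc 0, hc 1, pair]
    noncomm_ring
  have hbc0 : b.coeff d ≠ 0 := by
    rw [hbc]
    exact mul_ne_zero (pair_ne h) hl
  have hbd' : b.natDegree = d := le_antisymm hbd (le_natDegree_of_ne_zero hbc0)
  have hb0 : b ≠ 0 := by
    intro h0
    rw [h0, coeff_zero] at hbc0
    exact hbc0 rfl
  have hfb : (f * b).natDegree = f.natDegree + d := by
    rw [natDegree_mul hf hb0, hbd']
  have hlt : d < f.natDegree + d := by omega
  refine ⟨f.natDegree + d, fun i => ?_, (f * b).leadingCoeff, ?_, fun i => ?_⟩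
  · rw [smul_el]
    refine (natDegree_add_le _ _).trans (max_le ((had i).trans hlt.le) ?_)
    exact (natDegree_C_mul_le _ _).trans hfb.le
  · exact leadingCoeff_ne_zero.2 (mul_ne_zero hf hb0)
  · rw [smul_el, coeff_add, coeff_eq_zero_of_natDegree_lt (lt_of_le_of_lt (had i) hlt), zero_add,
      coeff_C_mul, leadingCoeff, hfb]

open Cardinal in
theorem three_le_option : 3 ≤ Cardinal.mk (Option D) := by
  let f : Fin 3 → Option D := ![none, some 0, some 1]
  have hf : Function.Injective f := by
    intro i j hij
    fin_cases i <;> fin_cases j <;> simp_all [f]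
  have := Cardinal.mk_le_of_injective hf
  simpa using this

theorem free_injL : Function.Injective
    (Monoid.CoprodI.lift fun x : Option D => (UL x).subtype) := by
  refine Monoid.CoprodI.lift_injective_of_ping_pong _ (Or.inl three_le_option)
    PL PL_nonempty ?_ ?_
  · intro x y hxy
    exact PL_disjoint hxy
  · intro x y hxy u hu
    rintro _ ⟨a, ha, rfl⟩
    obtain ⟨_, f, hX, rfl⟩ := u
    refine pingL hxy hX ?_ ha
    rintro rfl
    exact hu (Subtype.ext (el_zero x))

end GLP

end Pool.Agent.Helper686_FJ
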