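import Pool.Agent.Helper686_FJ.Lin

/-!
# `GL₂` of polynomial rings over division rings: conjugation and Euclid's algorithm
-/

set_option autoImplicit false

namespace Pool.Agent.Helper686_FJ

namespace GLP

open Polynomial Pool.Agent.Y110.FJ Pool.Agent.R684.FP Pool.Agent.H694.TR
open Pool.Agent.R941.FJ (C_equiv C_le)

variable {D : Type} [DivisionRing D]

/-- the functoriality of `GL₂` -/
def G2map {R S : Type} [Ring R] [Ring S] (f : R →+* S) : G2 R →* G2 S :=
  Units.map (f.mapMatrix (m := Fin 2)).toMonoidHom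

theorem G2map_val {R S : Type} [Ring R] [Ring S] (f : R →+* S) (A : G2 R) (i j : Fin 2) :
    (G2map f A).1 i j = f (A.1 i j) := rfl

theorem G2map_inj {R S : Type} [Ring R] [Ring S] (f : R →+* S) (hf : Function.Injective f) :
    Function.Injective (G2map f) := by
  intro A B h
  apply Units.ext
  ext i j
  apply hf
  rw [← G2map_val, ← G2map_val, h]

theorem G2map_comp {R S T : Type} [Ring R] [Ring S] [Ring T] (f : R →+* S) (g : S →+* T)
    (A : G2 R) : G2map g (G2map f A) = G2map (g.comp f) A := by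
  apply Units.ext
  ext i j
  rfl

/-- constant matrices -/
noncomputable def cst {R : Type} [Ring R] : G2 R →* G2 R[X] := G2map C

/-- evaluation at `0` -/
noncomputable def ev0 {R : Type} [Ring R] : G2 R[X] →* G2 R := G2map constantCoeff

theorem ev0_cst {R : Type} [Ring R] (M : G2 R) : ev0 (cst M) = M := by
  apply Units.ext
  ext i j
  exact coeff_C_zero

theorem ev0_el {x : Option D} {f : D[X]} (hf : X ∣ f) : ev0 (el x f) = 1 := by
  apply Units.ext
  ext i j
  change constantCoeff ((1 + em x f) i j) = _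
  have h0 : constantCoeff f = 0 := by
    obtain ⟨g, rfl⟩ := hf
    rw [map_mul, constantCoeff_apply, coeff_X_zero, zero_mul]
  rw [Matrix.add_apply, map_add, em, map_mul, map_mul, h0, mul_zero, zero_mul, add_zero,
    Units.val_one, Matrix.one_apply, Matrix.one_apply]
  split_ifs <;> simp

theorem UL_le_ker (x : Option D) : UL x ≤ (ev0 (R := D)).ker := by
  rintro _ ⟨f, hf, rfl⟩
  exact ev0_el hf

/-- every nonzero vector is a multiple of a unique representative -/
theorem exists_vec (a : Fin 2 → D) (ha : a ≠ 0) :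
    ∃ (y : Option D) (l : D), l ≠ 0 ∧ ∀ i, a i = vec y i * l := by
  by_cases h0 : a 0 = 0
  · refine ⟨none, a 1, ?_, ?_⟩
    · intro h1
      apply ha
      funext i
      fin_cases i
      · exact h0
      · exact h1
    · intro i
      fin_cases i
      · simp [vec, h0]
      · simp [vec]
  · refine ⟨some (a 1 * (a 0)⁻¹), a 0, h0, ?_⟩
    intro i
    fin_cases i
    · simp [vec]
    · simp [vec, h0]

/-- a nonzero row which is zero on `vec y` is a multiple of `row y` -/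
theorem exists_row (y : Option D) (b : Fin 2 → D) (hb : b ≠ 0)
    (h : b 0 * vec y 0 + b 1 * vec y 1 = 0) : ∃ m : D, m ≠ 0 ∧ ∀ i, b i = m * row y i := by
  cases y with
  | none =>
    simp only [vec, Matrix.cons_val_zero, Matrix.cons_val_one, mul_zero, mul_one, zero_add] at h
    refine ⟨b 0, ?_, ?_⟩
    · intro h1
      apply hb
      funext i
      fin_cases i
      · exact h1
      · exact h
    · intro i
      fin_cases i
      · simp [row]
      · simp [row, h]
  | some c =>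
    simp only [vec, Matrix.cons_val_zero, Matrix.cons_val_one, mul_one] at h
    have h2 : b 0 = -(b 1 * c) := eq_neg_of_add_eq_zero_left h
    refine ⟨b 1, ?_, ?_⟩
    · intro h1
      apply hb
      funext i
      fin_cases i
      · change b 0 = 0
        rw [h2, h1, zero_mul, neg_zero]
      · exact h1
    · intro i
      fin_cases i
      · simp [row, h2]
      · simp [row]

theorem conj_data (M : G2 D) (x : Option D) : ∃ (y : Option D) (l m : D), l ≠ 0 ∧ m ≠ 0 ∧
    (∀ i, M.1 i 0 * vec x 0 + M.1 i 1 * vec x 1 = vec y i * l) ∧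
    (∀ j, row x 0 * M⁻¹.1 0 j + row x 1 * M⁻¹.1 1 j = m * row y j) := by
  have hMM : ∀ i j, M⁻¹.1 i 0 * M.1 0 j + M⁻¹.1 i 1 * M.1 1 j = (1 : Matrix (Fin 2) (Fin 2) D) i j := by
    intro i j
    have : (M⁻¹.1 * M.1) i j = (1 : Matrix (Fin 2) (Fin 2) D) i j := by
      rw [Units.inv_mul]
    rwa [Matrix.mul_apply, Fin.sum_univ_two] at this
  have hMM' : ∀ i j, M.1 i 0 * M⁻¹.1 0 j + M.1 i 1 * M⁻¹.1 1 j = (1 : Matrix (Fin 2) (Fin 2) D) i j := by
    intro i j
    have : (M.1 * M⁻¹.1) i j = (1 : Matrix (Fin 2) (Fin 2) D) i j := by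
      rw [Units.mul_inv]
    rwa [Matrix.mul_apply, Fin.sum_univ_two] at this
  have h00 := hMM 0 0
  have h01 := hMM 0 1
  have h10 := hMM 1 0
  have h11 := hMM 1 1
  rw [Matrix.one_apply_eq] at h00 h11
  rw [Matrix.one_apply_ne (by decide)] at h01 h10
  set a : Fin 2 → D := fun i => M.1 i 0 * vec x 0 + M.1 i 1 * vec x 1 with ha
  have hback : ∀ i, M⁻¹.1 i 0 * a 0 + M⁻¹.1 i 1 * a 1 = vec x i := by
    intro i
    have : M⁻¹.1 i 0 * a 0 + M⁻¹.1 i 1 * a 1 =
        (M⁻¹.1 i 0 * M.1 0 0 + M⁻¹.1 i 1 * M.1 1 0) * vec x 0 +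
        (M⁻¹.1 i 0 * M.1 0 1 + M⁻¹.1 i 1 * M.1 1 1) * vec x 1 := by
      rw [ha]
      noncomm_ring
    rw [this]
    fin_cases i
    · change (M⁻¹.1 0 0 * M.1 0 0 + M⁻¹.1 0 1 * M.1 1 0) * vec x 0 +
        (M⁻¹.1 0 0 * M.1 0 1 + M⁻¹.1 0 1 * M.1 1 1) * vec x 1 = vec x 0
      rw [h00, h01, one_mul, zero_mul, add_zero]
    · change (M⁻¹.1 1 0 * M.1 0 0 + M⁻¹.1 1 1 * M.1 1 0) * vec x 0 +
        (M⁻¹.1 1 0 * M.1 0 1 + M⁻¹.1 1 1 * M.1 1 1) * vec x 1 = vec x 1
      rw [h10, h11, one_mul, zero_mul, zero_add]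
  have hane : a ≠ 0 := by
    intro h0
    apply vec_ne x
    funext i
    rw [← hback i, h0]
    simp
  obtain ⟨y, l, hl, hy⟩ := exists_vec a hane
  set b : Fin 2 → D := fun j => row x 0 * M⁻¹.1 0 j + row x 1 * M⁻¹.1 1 j with hb
  have hbback : ∀ j, b 0 * M.1 0 j + b 1 * M.1 1 j = row x j := by
    intro j
    have : b 0 * M.1 0 j + b 1 * M.1 1 j =
        row x 0 * (M⁻¹.1 0 0 * M.1 0 j + M⁻¹.1 0 1 * M.1 1 j) +
        row x 1 * (M⁻¹.1 1 0 * M.1 0 j + M⁻¹.1 1 1 * M.1 1 j) := by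
      rw [hb]
      noncomm_ring
    rw [this]
    fin_cases j
    · change row x 0 * (M⁻¹.1 0 0 * M.1 0 0 + M⁻¹.1 0 1 * M.1 1 0) +
        row x 1 * (M⁻¹.1 1 0 * M.1 0 0 + M⁻¹.1 1 1 * M.1 1 0) = row x 0
      rw [h00, h10, mul_one, mul_zero, add_zero]
    · change row x 0 * (M⁻¹.1 0 0 * M.1 0 1 + M⁻¹.1 0 1 * M.1 1 1) +
        row x 1 * (M⁻¹.1 1 0 * M.1 0 1 + M⁻¹.1 1 1 * M.1 1 1) = row x 1
      rw [h01, h11, mul_one, mul_zero, zero_add]
  have hbne : b ≠ 0 := by
    intro h0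
    have h1 : row x = 0 := by
      funext j
      rw [← hbback j, h0]
      simp
    cases x with
    | none => exact one_ne_zero (congrFun h1 0)
    | some c => exact one_ne_zero (congrFun h1 1)
  have hpair : b 0 * vec y 0 + b 1 * vec y 1 = 0 := by
    have h1 : (b 0 * vec y 0 + b 1 * vec y 1) * l = 0 := by
      have e1 : (b 0 * vec y 0 + b 1 * vec y 1) * l = b 0 * a 0 + b 1 * a 1 := by
        rw [hy 0, hy 1]
        noncomm_ring
      have e2 : b 0 * a 0 + b 1 * a 1 =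
          (b 0 * M.1 0 0 + b 1 * M.1 1 0) * vec x 0 + (b 0 * M.1 0 1 + b 1 * M.1 1 1) * vec x 1 := by
        rw [ha]
        noncomm_ring
      rw [e1, e2, hbback 0, hbback 1]
      exact pair_self x
    exact (mul_eq_zero.1 h1).resolve_right hl
  obtain ⟨m, hm, hrow⟩ := exists_row y b hbne hpair
  exact ⟨y, l, m, hl, hm, hy, hrow⟩

theorem conj_el (M : G2 D) (x y : Option D) (l m : D)
    (h1 : ∀ i, M.1 i 0 * vec x 0 + M.1 i 1 * vec x 1 = vec y i * l)
    (h2 : ∀ j, row x 0 * M⁻¹.1 0 j + row x 1 * M⁻¹.1 1 j = m * row y j) (f : D[X]) :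
    cst M * el x f * (cst M)⁻¹ = el y (C l * f * C m) := by
  apply Units.ext
  change (cst M).1 * (1 + em x f) * (cst M)⁻¹.1 = 1 + em y (C l * f * C m)
  have e1 : (cst M).1 * (1 + em x f) * (cst M)⁻¹.1 =
      (cst M).1 * (cst M)⁻¹.1 + (cst M).1 * em x f * (cst M)⁻¹.1 := by
    noncomm_ring
  rw [e1, Units.mul_inv]
  refine congrArg (fun Z => 1 + Z) ?_
  have hinv : ∀ i j, (cst M)⁻¹.1 i j = C (M⁻¹.1 i j) := by
    intro i j
    rw [← map_inv]
    rfl
  have hval : ∀ i j, (cst M).1 i j = C (M.1 i j) := fun i j => rfl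
  ext i j : 2
  rw [Matrix.mul_apply, Fin.sum_univ_two, Matrix.mul_apply, Fin.sum_univ_two, Matrix.mul_apply,
    Fin.sum_univ_two]
  simp only [hinv, hval, em]
  have e2 : C (vec y i) * (C l * f * C m) * C (row y j) =
      C (M.1 i 0 * vec x 0 + M.1 i 1 * vec x 1) * f *
      C (row x 0 * M⁻¹.1 0 j + row x 1 * M⁻¹.1 1 j) := by
    rw [h1 i, h2 j, C_mul, C_mul]
    simp only [mul_assoc]
  rw [e2]
  simp only [C_add, C_mul]
  noncomm_ring

theorem X_dvd_conj {l m : D} {f : D[X]} (h : X ∣ f) : X ∣ C l * f * C m := by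
  obtain ⟨g, rfl⟩ := h
  refine ⟨C l * g * C m, ?_⟩
  rw [← mul_assoc, ← X_mul_C, mul_assoc, mul_assoc, mul_assoc]

theorem hperm (M : G2 D) (x : Option D) :
    ∃ y, ∀ A, A ∈ UL x ↔ cst M * A * (cst M)⁻¹ ∈ UL y := by
  obtain ⟨y, l, m, hl, hm, h1, h2⟩ := conj_data M x
  refine ⟨y, fun A => ⟨?_, ?_⟩⟩
  · rintro ⟨f, hf, rfl⟩
    exact ⟨_, X_dvd_conj hf, conj_el M x y l m h1 h2 f⟩
  · rintro ⟨g, hg, h⟩
    refine ⟨C l⁻¹ * g * C m⁻¹, X_dvd_conj hg, ?_⟩
    have h3 := conj_el M x y l m h1 h2 (C l⁻¹ * g * C m⁻¹)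
    have h4 : C l * (C l⁻¹ * g * C m⁻¹) * C m = g := by
      have e1 : C l * (C l⁻¹ * g * C m⁻¹) * C m = (C l * C l⁻¹) * g * (C m⁻¹ * C m) := by
        simp only [mul_assoc]
      rw [e1, ← C_mul, ← C_mul, mul_inv_cancel₀ hl, inv_mul_cancel₀ hm, C_1, one_mul, mul_one]
    rw [h4, ← h] at h3
    exact (mul_left_cancel (mul_right_cancel h3)).symm

/-- the group generated by the groups `UL x` -/
noncomputable def NL (D : Type) [DivisionRing D] : Subgroup (G2 D[X]) := ⨆ x : Option D, UL x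

theorem NL_le_ker : NL D ≤ (ev0 (R := D)).ker := iSup_le UL_le_ker

theorem cst_conj_NL (M : G2 D) {A : G2 D[X]} (hA : A ∈ NL D) : cst M * A * (cst M)⁻¹ ∈ NL D := by
  have : NL D ≤ (NL D).comap (MulAut.conj (cst M)).toMonoidHom := by
    refine iSup_le fun x B hB => ?_
    obtain ⟨y, hy⟩ := hperm M x
    exact (le_iSup UL y : UL y ≤ NL D) ((hy B).1 hB)
  exact this hA

/-! ### Euclid's algorithm -/

/-- the set of products of an element of `NL` and a constant matrix -/
noncomputable def GE (D : Type) [DivisionRing D] : Subgroup (G2 D[X]) := NL D ⊔ (cst (R := D)).range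

theorem cst_mem (M : G2 D) : cst M ∈ GE D :=
  (le_sup_right : (cst (R := D)).range ≤ GE D) ⟨M, rfl⟩

/-- a matrix with constant entries whose inverse has constant entries -/
theorem const_mem (A : G2 D[X]) (h1 : ∀ i j, ∃ c, A.1 i j = C c) (h2 : ∀ i j, ∃ c, A⁻¹.1 i j = C c) :
    A ∈ GE D := by
  choose a ha using h1
  choose b hb using h2
  have hA : A.1 = (C.mapMatrix (m := Fin 2)) (Matrix.of a) := Matrix.ext fun i j => ha i j
  have hB : A⁻¹.1 = (C.mapMatrix (m := Fin 2)) (Matrix.of b) := Matrix.ext fun i j => hb i j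
  have hinj : Function.Injective (C.mapMatrix (m := Fin 2) : Matrix (Fin 2) (Fin 2) D →+* _) := by
    intro P Q h
    ext i j
    exact C_injective (congrFun (congrFun h i) j)
  let M : G2 D :=
    { val := Matrix.of a
      inv := Matrix.of b
      val_inv := hinj (by rw [map_mul, ← hA, ← hB, map_one, Units.mul_inv])
      inv_val := hinj (by rw [map_mul, ← hA, ← hB, map_one, Units.inv_mul]) }
  have : A = cst M := Units.ext hA
  rw [this]
  exact cst_mem M

theorem el_C_mem (x : Option D) (c : D) : el x (C c) ∈ GE D := by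
  have aux : ∀ (c : D) (i j : Fin 2), ∃ d, (el x (C c)).1 i j = C d := by
    intro c i j
    refine ⟨(1 : Matrix (Fin 2) (Fin 2) D) i j + vec x i * c * row x j, ?_⟩
    change (1 + em x (C c)) i j = _
    rw [Matrix.add_apply, em, C_add, C_mul, C_mul, Matrix.one_apply, Matrix.one_apply]
    split_ifs <;> simp
  refine const_mem _ (aux c) ?_
  intro i j
  rw [el_inv, ← C_neg]
  exact aux (-c) i j

theorem el_mem (x : Option D) (f : D[X]) : el x f ∈ GE D := by
  have h : el x f = el x (f - C (f.coeff 0)) * el x (C (f.coeff 0)) := by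
    rw [el_mul, sub_add_cancel]
  rw [h]
  refine (GE D).mul_mem ?_ (el_C_mem x _)
  refine (le_sup_left : NL D ≤ GE D) ((le_iSup UL x : UL x ≤ NL D) ⟨_, ?_, rfl⟩)
  rw [X_dvd_iff, coeff_sub, coeff_C_zero, sub_self]

end GLP

end Pool.Agent.Helper686_FJ
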