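import Pool.Agent.Helper686_FJ.Lin2

/-!
# `GL₂` of polynomial rings over division rings: generators, and the theorem
-/

set_option autoImplicit false

namespace Pool.Agent.Helper686_FJ

namespace GLP

open Polynomial Pool.Agent.Y110.FJ Pool.Agent.R684.FP Pool.Agent.H694.TR
open Pool.Agent.R941.FJ (C_equiv C_le)

variable {D : Type} [DivisionRing D]

theorem const_of_mul_eq_one {p q : D[X]} (h : p * q = 1) : (∃ c, p = C c) ∧ ∃ c, q = C c := by
  have hp : p ≠ 0 := by
    rintro rfl
    rw [zero_mul] at h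
    exact zero_ne_one h
  have hq : q ≠ 0 := by
    rintro rfl
    rw [mul_zero] at h
    exact zero_ne_one h
  have h1 := natDegree_mul hp hq
  rw [h, natDegree_one] at h1
  exact ⟨⟨_, eq_C_of_natDegree_eq_zero (by omega)⟩, ⟨_, eq_C_of_natDegree_eq_zero (by omega)⟩⟩

theorem mul_inv_entry (A : G2 D[X]) (i j : Fin 2) :
    A.1 i 0 * A⁻¹.1 0 j + A.1 i 1 * A⁻¹.1 1 j = (1 : Matrix (Fin 2) (Fin 2) D[X]) i j := by
  have : (A.1 * A⁻¹.1) i j = (1 : Matrix (Fin 2) (Fin 2) D[X]) i j := by
    rw [Units.mul_inv]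
  rwa [Matrix.mul_apply, Fin.sum_univ_two] at this

theorem diag_mem (A : G2 D[X]) (h01 : A.1 0 1 = 0) (h10 : A.1 1 0 = 0) : A ∈ GE D := by
  have e00 := mul_inv_entry A 0 0
  have e01 := mul_inv_entry A 0 1
  have e10 := mul_inv_entry A 1 0
  have e11 := mul_inv_entry A 1 1
  rw [h01, zero_mul, add_zero, Matrix.one_apply_eq] at e00
  rw [h01, zero_mul, add_zero, Matrix.one_apply_ne (by decide)] at e01
  rw [h10, zero_mul, zero_add, Matrix.one_apply_ne (by decide)] at e10
  rw [h10, zero_mul, zero_add, Matrix.one_apply_eq] at e11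
  have ha : A.1 0 0 ≠ 0 := by
    intro h
    rw [h, zero_mul] at e00
    exact zero_ne_one e00
  have hd : A.1 1 1 ≠ 0 := by
    intro h
    rw [h, zero_mul] at e11
    exact zero_ne_one e11
  have i01 : A⁻¹.1 0 1 = 0 := (mul_eq_zero.1 e01).resolve_left ha
  have i10 : A⁻¹.1 1 0 = 0 := (mul_eq_zero.1 e10).resolve_left hd
  obtain ⟨ha1, ha2⟩ := const_of_mul_eq_one e00
  obtain ⟨hd1, hd2⟩ := const_of_mul_eq_one e11
  refine const_mem A ?_ ?_
  · intro i j
    fin_cases i <;> fin_cases j
    · exact ha1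
    · exact ⟨0, by rw [C_0]; exact h01⟩
    · exact ⟨0, by rw [C_0]; exact h10⟩
    · exact hd1
  · intro i j
    fin_cases i <;> fin_cases j
    · exact ha2
    · exact ⟨0, by rw [C_0]; exact i01⟩
    · exact ⟨0, by rw [C_0]; exact i10⟩
    · exact hd2

theorem mul_el_zero (A : G2 D[X]) (f : D[X]) (i : Fin 2) :
    (A * el (some 0) f).1 i 0 = A.1 i 0 ∧ (A * el (some 0) f).1 i 1 = A.1 i 1 + A.1 i 0 * f := by
  have e : ∀ j, (A * el (some 0) f).1 i j = A.1 i j + (A.1 * em (some 0) f) i j := by
    intro j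
    change (A.1 * (1 + em (some 0) f)) i j = _
    rw [mul_add, mul_one, Matrix.add_apply]
  rw [e, e, Matrix.mul_apply, Fin.sum_univ_two, Matrix.mul_apply, Fin.sum_univ_two]
  simp [em, vec, row]

/-- the permutation matrix -/
def sw (R : Type) [Ring R] : G2 R where
  val := !![0, 1; 1, 0]
  inv := !![0, 1; 1, 0]
  val_inv := by
    rw [Matrix.mul_fin_two, Matrix.one_fin_two]
    simp
  inv_val := by
    rw [Matrix.mul_fin_two, Matrix.one_fin_two]
    simp

theorem mul_sw (A : G2 D[X]) (i : Fin 2) :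
    (A * cst (sw D)).1 i 0 = A.1 i 1 ∧ (A * cst (sw D)).1 i 1 = A.1 i 0 := by
  have e : ∀ j, (A * cst (sw D)).1 i j = A.1 i 0 * C ((sw D).1 0 j) + A.1 i 1 * C ((sw D).1 1 j) := by
    intro j
    change (A.1 * (cst (sw D)).1) i j = _
    rw [Matrix.mul_apply, Fin.sum_univ_two]
    rfl
  rw [e, e]
  simp [sw]

theorem tri_mem (A : G2 D[X]) (h10 : A.1 1 0 = 0) : A ∈ GE D := by
  have e00 := mul_inv_entry A 0 0
  have e10 := mul_inv_entry A 1 0
  have e11 := mul_inv_entry A 1 1
  rw [Matrix.one_apply_eq] at e00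
  rw [h10, zero_mul, zero_add, Matrix.one_apply_ne (by decide)] at e10
  rw [h10, zero_mul, zero_add, Matrix.one_apply_eq] at e11
  have hd : A.1 1 1 ≠ 0 := by
    intro h
    rw [h, zero_mul] at e11
    exact zero_ne_one e11
  have i10 : A⁻¹.1 1 0 = 0 := (mul_eq_zero.1 e10).resolve_left hd
  rw [i10, mul_zero, add_zero] at e00
  set f : D[X] := -(A⁻¹.1 0 0 * A.1 0 1) with hf
  have h1 : A * el (some 0) f ∈ GE D := by
    refine diag_mem _ ?_ ?_
    · rw [(mul_el_zero A f 0).2, hf, mul_neg, ← mul_assoc, e00, one_mul, add_neg_cancel]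
    · rw [(mul_el_zero A f 1).1, h10]
  have h2 : A = A * el (some 0) f * (el (some 0) f)⁻¹ := by group
  rw [h2]
  exact (GE D).mul_mem h1 ((GE D).inv_mem (el_mem _ _))

/-- **Euclid's algorithm**: `GL₂(D[T])` is generated by the constant matrices and the `UL x` -/
theorem all_mem (A : G2 D[X]) : A ∈ GE D := by
  have key : ∀ (n : ℕ) (A : G2 D[X]), (A.1 1 0).degree < n → A ∈ GE D := by
    intro n
    induction n with
    | zero =>
      intro A hA
      apply tri_mem
      by_contra h
      exact absurd hA (not_lt.2 (by simpa using zero_le_degree_iff.2 h))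
    | succ n ih =>
      intro A hA
      by_cases h : A.1 1 0 = 0
      · exact tri_mem A h
      set c := A.1 1 0 with hc
      set u : D[X] := C (c.leadingCoeff)⁻¹ with hu
      have hmon : (c * u).Monic := by
        rw [Monic, hu, leadingCoeff_mul, leadingCoeff_C, mul_inv_cancel₀ (leadingCoeff_ne_zero.2 h)]
      have hdeg : (c * u).degree = c.degree := by
        rw [degree_mul, hu, degree_C (inv_ne_zero (leadingCoeff_ne_zero.2 h)), add_zero]
      set f : D[X] := -(u * (A.1 1 1 /ₘ (c * u))) with hf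
      have hr : (A * el (some 0) f).1 1 1 = A.1 1 1 %ₘ (c * u) := by
        rw [(mul_el_zero A f 1).2, ← hc, hf, mul_neg, ← mul_assoc]
        have := modByMonic_add_div (A.1 1 1) (c * u)
        rw [← sub_eq_add_neg, sub_eq_iff_eq_add]
        exact this.symm
      have h1 : A * el (some 0) f * cst (sw D) ∈ GE D := by
        apply ih
        rw [(mul_sw _ 1).1, hr]
        have h2 : (A.1 1 1 %ₘ (c * u)).degree < c.degree := by
          rw [← hdeg]
          exact degree_modByMonic_lt _ hmon
        refine lt_of_lt_of_le h2 ?_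
        have h3 : c.degree < ((n : ℕ) : WithBot ℕ) + 1 := by exact_mod_cast hA
        rw [degree_eq_natDegree h] at h3 ⊢
        have h4 : c.natDegree < n + 1 := by exact_mod_cast h3
        exact_mod_cast Nat.lt_succ_iff.1 h4
      have h2 : A = A * el (some 0) f * cst (sw D) * (cst (sw D))⁻¹ * (el (some 0) f)⁻¹ := by group
      rw [h2]
      exact (GE D).mul_mem ((GE D).mul_mem h1 ((GE D).inv_mem (cst_mem _)))
        ((GE D).inv_mem (el_mem _ _))
  by_cases h : A.1 1 0 = 0
  · exact tri_mem A h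
  · refine key ((A.1 1 0).natDegree + 1) A ?_
    rw [degree_eq_natDegree h]
    exact_mod_cast Nat.lt_succ_self _

/-- every matrix is a product of an element of `NL` and a constant matrix -/
theorem decomp (A : G2 D[X]) : ∃ n ∈ NL D, A = n * cst (ev0 A) := by
  let K : Subgroup (G2 D[X]) :=
    { carrier := {A | ∃ n ∈ NL D, ∃ M, A = n * cst M}
      one_mem' := ⟨1, (NL D).one_mem, 1, by rw [map_one, one_mul]⟩
      mul_mem' := by
        rintro _ _ ⟨n, hn, M, rfl⟩ ⟨n', hn', M', rfl⟩
        refine ⟨n * (cst M * n' * (cst M)⁻¹), (NL D).mul_mem hn (cst_conj_NL M hn'), M * M', ?_⟩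
        rw [map_mul]
        group
      inv_mem' := by
        rintro _ ⟨n, hn, M, rfl⟩
        refine ⟨cst M⁻¹ * n⁻¹ * (cst M⁻¹)⁻¹, cst_conj_NL _ ((NL D).inv_mem hn), M⁻¹, ?_⟩
        rw [map_inv]
        group }
  have h1 : GE D ≤ K := by
    refine sup_le ?_ ?_
    · intro n hn
      exact ⟨n, hn, 1, by rw [map_one, mul_one]⟩
    · rintro _ ⟨M, rfl⟩
      exact ⟨1, (NL D).one_mem, M, (one_mul _).symm⟩
  obtain ⟨n, hn, M, rfl⟩ := h1 (all_mem A)
  refine ⟨n, hn, ?_⟩
  have : ev0 n = 1 := NL_le_ker hn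
  rw [map_mul, this, one_mul, ev0_cst]

/-- the congruence kernel is generated by the `UL x` -/
theorem NL_eq_ker : NL D = (ev0 (R := D)).ker := by
  refine le_antisymm NL_le_ker ?_
  intro A hA
  obtain ⟨n, hn, h⟩ := decomp A
  rw [show ev0 A = 1 from hA, map_one, mul_one] at h
  rw [h]
  exact hn

variable {C' : ∀ (G : Type) [Group G], Prop}

theorem comap_eq (H : Subgroup (G2 D)) : H.comap (ev0 (R := D)) = NL D ⊔ H.map cst := by
  apply le_antisymm
  · intro A hA
    obtain ⟨n, hn, h⟩ := decomp A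
    rw [h]
    exact Subgroup.mul_mem_sup hn ⟨_, hA, rfl⟩
  · refine sup_le ?_ ?_
    · intro n hn
      rw [Subgroup.mem_comap, show ev0 n = 1 from NL_le_ker hn]
      exact H.one_mem
    · rintro _ ⟨M, hM, rfl⟩
      rw [Subgroup.mem_comap, ev0_cst]
      exact hM

/-- **`GL₂(D[T])`, relative to the value at `0`.** -/
theorem comap_ev0_iff (hC : ClosedE C') (hF : FbC C') (hS : Sol C') (H : Subgroup (G2 D)) :
    C' (H.comap (ev0 (R := D))) ↔ C' H := by
  constructor
  · intro h
    have hle : H.map (cst (R := D)) ≤ H.comap (ev0 (R := D)) := by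
      rw [comap_eq]
      exact le_sup_right
    have h1 : C' (H.map (cst (R := D))) := C_le hC.base hle h
    have hinj : Function.Injective (cst (R := D)) := fun A B h => by
      rw [← ev0_cst A, ← ev0_cst B, h]
    exact C_equiv hC.base (H.equivMapOfInjective cst hinj) h1
  · intro h
    rw [comap_eq]
    refine lemL hC hF hS (H.map cst) (NL D) (fun x : Option D => UL x) rfl free_injL ?_ ?_ ?_ ?_
    · intro x A hA B hB
      exact UL_comm x hA hB
    · rintro _ ⟨M, _, rfl⟩ x
      exact hperm M x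
    · rintro _ ⟨M, _, rfl⟩ h1
      have h2 : ev0 (cst M) = 1 := NL_le_ker h1
      rw [ev0_cst] at h2
      rw [h2, map_one]
    · have hinj : Function.Injective (cst (R := D)) := fun A B h => by
        rw [← ev0_cst A, ← ev0_cst B, h]
      exact C_equiv hC.base (H.equivMapOfInjective cst hinj).symm h

/-- a ring which embeds into a division ring -/
theorem poly_iff (hC : ClosedE C') (hF : FbC C') (hS : Sol C') {R : Type} [Ring R]
    (j : R →+* D) (hj : Function.Injective j) : C' (G2 R[X]) ↔ C' (G2 R) := by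
  constructor
  · intro h
    have hinj : Function.Injective (cst (R := R)) := fun A B h => by
      rw [← ev0_cst A, ← ev0_cst B, h]
    exact C_equiv hC.base (MonoidHom.ofInjective hinj) (C_le hC.base le_top
      (C_equiv hC.base Subgroup.topEquiv h))
  · intro h
    have h1 : C' ((G2map j).range) := C_equiv hC.base (MonoidHom.ofInjective (G2map_inj j hj)).symm h
    have h2 := (comap_ev0_iff hC hF hS (G2map j).range).2 h1
    let φ : G2 R[X] →* G2 D[X] := G2map (mapRingHom j)
    have hφ : Function.Injective φ := G2map_inj _ (by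
      rw [coe_mapRingHom]
      exact map_injective j hj)
    have h3 : φ.range ≤ (G2map j).range.comap (ev0 (R := D)) := by
      rintro _ ⟨A, rfl⟩
      refine ⟨ev0 A, ?_⟩
      apply Units.ext
      ext i k
      change j (constantCoeff (A.1 i k)) = constantCoeff ((mapRingHom j) (A.1 i k))
      rw [constantCoeff_apply, constantCoeff_apply, coe_mapRingHom, coeff_map]
    exact C_equiv hC.base (MonoidHom.ofInjective hφ) (C_le hC.base h3 h2)

end GLP

end Pool.Agent.Helper686_FJ
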