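import Mathlib

/-!
# Eichler transformations
-/

set_option autoImplicit false

namespace Pool.Agent.Helper686_FJ.Orth

open Matrix

variable {ι A : Type} [Fintype ι] [DecidableEq ι] [CommRing A]

/-- the bilinear form with matrix `B` -/
def bl (B : Matrix ι ι A) (x y : ι → A) : A := x ⬝ᵥ (B *ᵥ y)

section form

variable (B : Matrix ι ι A)

omit [DecidableEq ι] in
theorem bl_add_left (x y z : ι → A) : bl B (x + y) z = bl B x z + bl B y z := by
  unfold bl
  rw [add_dotProduct]

omit [DecidableEq ι] in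
theorem bl_add_right (x y z : ι → A) : bl B x (y + z) = bl B x y + bl B x z := by
  unfold bl
  rw [mulVec_add, dotProduct_add]

omit [DecidableEq ι] in
theorem bl_smul_left (c : A) (x y : ι → A) : bl B (c • x) y = c * bl B x y := by
  unfold bl
  rw [smul_dotProduct, smul_eq_mul]

omit [DecidableEq ι] in
theorem bl_smul_right (c : A) (x y : ι → A) : bl B x (c • y) = c * bl B x y := by
  unfold bl
  rw [mulVec_smul, dotProduct_smul, smul_eq_mul]

omit [DecidableEq ι] in
theorem bl_neg_left (x y : ι → A) : bl B (-x) y = - bl B x y := by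
  unfold bl
  rw [neg_dotProduct]

omit [DecidableEq ι] in
theorem bl_neg_right (x y : ι → A) : bl B x (-y) = - bl B x y := by
  unfold bl
  rw [mulVec_neg, dotProduct_neg]

omit [DecidableEq ι] in
theorem bl_sub_left (x y z : ι → A) : bl B (x - y) z = bl B x z - bl B y z := by
  rw [sub_eq_add_neg, bl_add_left, bl_neg_left, sub_eq_add_neg]

omit [DecidableEq ι] in
theorem bl_sub_right (x y z : ι → A) : bl B x (y - z) = bl B x y - bl B x z := by
  rw [sub_eq_add_neg, bl_add_right, bl_neg_right, sub_eq_add_neg]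

omit [DecidableEq ι] in
theorem bl_zero_left (x : ι → A) : bl B 0 x = 0 := by
  unfold bl
  rw [zero_dotProduct]

omit [DecidableEq ι] in
theorem bl_zero_right (x : ι → A) : bl B x 0 = 0 := by
  unfold bl
  rw [mulVec_zero, dotProduct_zero]

omit [DecidableEq ι] in
theorem bl_comm {B : Matrix ι ι A} (hB : Bᵀ = B) (x y : ι → A) : bl B x y = bl B y x := by
  unfold bl
  rw [dotProduct_mulVec, ← mulVec_transpose, hB, dotProduct_comm]

end form

theorem mat_ext {P Q : Matrix ι ι A} (h : ∀ x, P *ᵥ x = Q *ᵥ x) : P = Q := by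
  ext i j
  have := congrFun (h (Pi.single j 1)) i
  simpa using this

/-- the Eichler transformation `x ↦ x + b(x, e) v - b(x, v) e - h b(x, e) e` -/
def Ei (B : Matrix ι ι A) (e v : ι → A) (h : A) : Matrix ι ι A :=
  1 + vecMulVec v (B *ᵥ e) - vecMulVec e (B *ᵥ v) - h • vecMulVec e (B *ᵥ e)

theorem Ei_mulVec (B : Matrix ι ι A) (e v : ι → A) (h : A) (x : ι → A) :
    Ei B e v h *ᵥ x = x + bl B x e • v - bl B x v • e - (h * bl B x e) • e := by
  have key : ∀ p q : ι → A, vecMulVec p (B *ᵥ q) *ᵥ x = bl B x q • p := by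
    intro p q
    rw [vecMulVec_mulVec, dotProduct_comm]
    ext i
    simp [bl, mul_comm]
  unfold Ei
  rw [sub_mulVec, sub_mulVec, add_mulVec, one_mulVec, smul_mulVec, key, key, key, smul_smul]

theorem Ei_zero (B : Matrix ι ι A) (e : ι → A) : Ei B e 0 0 = 1 := by
  apply mat_ext
  intro x
  rw [Ei_mulVec, bl_zero_right]
  simp

/-- `O(B)`: the invertible matrices which preserve the form `B` -/
def OO (B : Matrix ι ι A) : Subgroup (Matrix ι ι A)ˣ where
  carrier := {g | ∀ x y, bl B (g.1 *ᵥ x) (g.1 *ᵥ y) = bl B x y}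
  one_mem' := fun x y => by simp
  mul_mem' := by
    intro g h hg hh x y
    rw [Units.val_mul, ← mulVec_mulVec, ← mulVec_mulVec, hg, hh]
  inv_mem' := by
    intro g hg x y
    have h1 := hg ((g⁻¹).1 *ᵥ x) ((g⁻¹).1 *ᵥ y)
    rw [mulVec_mulVec, mulVec_mulVec, Units.mul_inv, one_mulVec, one_mulVec] at h1
    exact h1.symm

section ei

variable {B : Matrix ι ι A} (hB : Bᵀ = B) {e v v' : ι → A} {h h' : A} (he : bl B e e = 0)
  (hv : bl B v e = 0) (hv' : bl B v' e = 0) (hh : 2 * h = bl B v v) (hh' : 2 * h' = bl B v' v')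

include hB he hv hv' in
theorem Ei_mul : Ei B e v h * Ei B e v' h' = Ei B e (v + v') (h + bl B v v' + h') := by
  apply mat_ext
  intro x
  rw [← mulVec_mulVec]
  simp only [Ei_mulVec, bl_add_left, bl_sub_left, bl_smul_left, bl_add_right]
  rw [he, hv', bl_comm hB e v, hv, bl_comm hB v' v]
  module

include hB he hv hh in
theorem Ei_mul_neg : Ei B e v h * Ei B e (-v) h = 1 := by
  have hv2 : bl B (-v) e = 0 := by rw [bl_neg_left, hv, neg_zero]
  rw [Ei_mul hB he hv hv2, bl_neg_right, add_neg_cancel, ← hh]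
  have : h + -(2 * h) + h = 0 := by ring
  rw [this, Ei_zero]

include hB he hv hh in
theorem Ei_neg_mul : Ei B e (-v) h * Ei B e v h = 1 := by
  have hv2 : bl B (-v) e = 0 := by rw [bl_neg_left, hv, neg_zero]
  rw [Ei_mul hB he hv2 hv, bl_neg_left, neg_add_cancel, ← hh]
  have : h + -(2 * h) + h = 0 := by ring
  rw [this, Ei_zero]

/-- the Eichler transformation as a unit -/
def EU : (Matrix ι ι A)ˣ where
  val := Ei B e v h
  inv := Ei B e (-v) h
  val_inv := Ei_mul_neg hB he hv hh
  inv_val := Ei_neg_mul hB he hv hh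

include hB he hv hh in
theorem Ei_isom (x y : ι → A) :
    bl B (Ei B e v h *ᵥ x) (Ei B e v h *ᵥ y) = bl B x y := by
  simp only [Ei_mulVec, bl_add_left, bl_sub_left, bl_smul_left, bl_add_right, bl_sub_right,
    bl_smul_right]
  rw [he, hv, bl_comm hB e v, hv, ← hh, bl_comm hB e y, bl_comm hB v y]
  ring

theorem EU_mem : EU hB he hv hh ∈ OO B := Ei_isom hB he hv hh

end ei

/-- multiples of `e` do not change the transformation -/
theorem Ei_add {B : Matrix ι ι A} {e v : ι → A} {h : A} (c : A) :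
    Ei B e (v + c • e) h = Ei B e v h := by
  apply mat_ext
  intro x
  simp only [Ei_mulVec, bl_add_right, bl_smul_right]
  module

theorem Ei_smul {B : Matrix ι ι A} {e v : ι → A} {h : A} (c : A) :
    Ei B (c • e) v h = Ei B e (c • v) (c * c * h) := by
  apply mat_ext
  intro x
  simp only [Ei_mulVec, bl_smul_right]
  module

/-- conjugation by isometries -/
theorem conj_Ei {B : Matrix ι ι A} {g : (Matrix ι ι A)ˣ} (hg : g ∈ OO B) (e v : ι → A) (h : A) :
    g.1 * Ei B e v h * (g⁻¹).1 = Ei B (g.1 *ᵥ e) (g.1 *ᵥ v) h := by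
  apply mat_ext
  intro x
  obtain ⟨y, rfl⟩ : ∃ y, x = g.1 *ᵥ y := ⟨(g⁻¹).1 *ᵥ x, by
    rw [mulVec_mulVec, Units.mul_inv, one_mulVec]⟩
  rw [← mulVec_mulVec, ← mulVec_mulVec, mulVec_mulVec y, Units.inv_mul, one_mulVec, Ei_mulVec,
    Ei_mulVec, hg, hg]
  simp only [mulVec_add, mulVec_sub, mulVec_smul]

end Pool.Agent.Helper686_FJ.Orth
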