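import Pool.Agent.Helper686_FJ.Or9

/-!
# Orthogonal groups over graded rings
-/

set_option autoImplicit false

namespace Pool.Agent.Helper686_FJ.Orth

open Matrix Monoid
open Pool.Agent.Y110.FJ Pool.Agent.R684.FP Pool.Agent.H694.TR
open Pool.Agent.R941.FJ (C_equiv C_le)

variable {ι : Type} [Fintype ι] [DecidableEq ι] {C' : ∀ (G : Type) [Group G], Prop}

section grading

open Polynomial DirectSum

variable {A : Type} [CommRing A] (𝒜 : ℕ → AddSubgroup A) [GradedRing 𝒜]

/-- the homomorphism of a graded ring to its polynomial ring which multiplies the elements of degree `d`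
by `X ^ d` -/
noncomputable def gr : A →+* A[X] :=
  (DirectSum.toSemiring (fun i => ((monomial i).toAddMonoidHom.comp (𝒜 i).subtype : 𝒜 i →+ A[X]))
    (by
      show monomial 0 (1 : A) = 1
      simp)
    (by
      intro i j a b
      show monomial (i + j) ((a : A) * (b : A)) = monomial i (a : A) * monomial j (b : A)
      rw [monomial_mul_monomial])).comp (decomposeRingEquiv 𝒜).toRingHom

theorem gr_of {i : ℕ} {a : A} (ha : a ∈ 𝒜 i) : gr 𝒜 a = monomial i a := by
  unfold gr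
  rw [RingHom.comp_apply]
  have h1 : (decomposeRingEquiv 𝒜).toRingHom a = DirectSum.of (fun i => 𝒜 i) i ⟨a, ha⟩ :=
    decompose_of_mem 𝒜 ha
  rw [h1, DirectSum.toSemiring_of]
  rfl

theorem gr_eval (a : A) : (gr 𝒜 a).eval 1 = a := by
  classical
  induction a using DirectSum.Decomposition.inductionOn 𝒜 with
  | zero => simp
  | homogeneous m => rw [gr_of 𝒜 m.2]; simp
  | add x y hx hy => rw [map_add, eval_add, hx, hy]

theorem gr_inj : Function.Injective (gr 𝒜) := by
  intro a b h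
  rw [← gr_eval 𝒜 a, h, gr_eval]

theorem gr_const (a : A) : (gr 𝒜 a).coeff 0 = GradedRing.projZeroRingHom 𝒜 a := by
  classical
  induction a using DirectSum.Decomposition.inductionOn 𝒜 with
  | zero => simp
  | @homogeneous i m =>
    rw [gr_of 𝒜 m.2, coeff_monomial]
    split_ifs with h
    · subst h
      rw [GradedRing.projZeroRingHom_apply, decompose_coe, of_eq_same]
    · rw [GradedRing.projZeroRingHom_apply, decompose_coe, of_eq_of_ne _ _ _ (Ne.symm h)]
      rfl
  | add x y hx hy => rw [map_add, coeff_add, hx, hy, map_add]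

/-- the form over the graded ring given by a form over the ring of the elements of degree `0` -/
def gB (B : Matrix ι ι (𝒜 0)) : Matrix ι ι A := B.map (fun a => (a : A))

/-- the inclusion of the ring of the elements of degree `0` -/
def inc0 : (𝒜 0) →+* A where
  toFun a := a
  map_one' := rfl
  map_mul' _ _ := rfl
  map_zero' := rfl
  map_add' _ _ := rfl

/-- **Preimages of subgroups, graded rings.** -/
theorem gr_rel (hC : ClosedE C') (hF : FbC C') (hS : Sol C') [IsDomain A] (h2 : (2 : A) ≠ 0)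
    (B : Matrix ι ι (𝒜 0)) (hB : (gB 𝒜 B)ᵀ = gB 𝒜 B) (hd : (gB 𝒜 B).det ≠ 0) (hW : WR (gB 𝒜 B))
    (H : Subgroup (Matrix ι ι (𝒜 0))ˣ) (hHO : H ≤ OO B) (h : C' H) :
    C' (Pre (GradedRing.projZeroRingHom' 𝒜) (gB 𝒜 B) H) := by
  have hp : (GradedRing.projZeroRingHom' 𝒜).comp (inc0 𝒜) = RingHom.id _ := by
    ext a
    show ((GradedRing.projZeroRingHom' 𝒜 (a : A) : 𝒜 0) : A) = a
    rw [GradedRing.projZeroRingHom'_apply_coe]
  have hc : (constantCoeff (R := A)).comp (gr 𝒜) =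
      (inc0 𝒜).comp (GradedRing.projZeroRingHom' 𝒜) := by
    ext a
    show (gr 𝒜 a).coeff 0 = ((GradedRing.projZeroRingHom' 𝒜 a : 𝒜 0) : A)
    rw [gr_const, GradedRing.coe_projZeroRingHom'_apply]
  let H' : Subgroup (Matrix ι ι A)ˣ := H.map (um (inc0 𝒜))
  have hH' : H' ≤ OO (gB 𝒜 B) := by
    rintro _ ⟨g, hg, rfl⟩
    exact um_OO (inc0 𝒜) (hHO hg)
  have h' : C' H' := by
    refine hC.base.of_injective _ _ (((um (GradedRing.projZeroRingHom' 𝒜)).comp
      H'.subtype).codRestrict H ?_) ?_ h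
    · rintro ⟨_, g, hg, rfl⟩
      show um _ (um (inc0 𝒜) g) ∈ H
      rw [um_um, hp, um_id]
      exact hg
    · rintro ⟨_, g, hg, rfl⟩ ⟨_, g', hg', rfl⟩ hgg
      have h1 : um (GradedRing.projZeroRingHom' 𝒜) (um (inc0 𝒜) g) =
          um (GradedRing.projZeroRingHom' 𝒜) (um (inc0 𝒜) g') :=
        congrArg (fun z : H => (z : (Matrix ι ι (𝒜 0))ˣ)) hgg
      rw [um_um, um_um, hp, um_id, um_id] at h1
      subst h1
      rfl
  refine pre_inj hC (gr 𝒜) (gr_inj 𝒜) (B' := (gB 𝒜 B).map C) ?_ _ (constantCoeff (R := A)) H H' ?_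
    (dom_rel hC hF hS h2 (gB 𝒜 B) hB hd hW H' hH' h')
  · ext1 i j
    show gr 𝒜 (B i j : A) = C (B i j : A)
    rw [gr_of 𝒜 (B i j).2]
    rfl
  · intro g _ hg
    rw [um_um, hc, ← um_um]
    exact ⟨_, hg, rfl⟩

/-- **Graded rings.** `O(B)(A)` is in `C` if and only if `O(B)(A₀)` is in `C`. -/
theorem gr_iff (hC : ClosedE C') (hF : FbC C') (hS : Sol C') [IsDomain A] (h2 : (2 : A) ≠ 0)
    (B : Matrix ι ι (𝒜 0)) (hB : (gB 𝒜 B)ᵀ = gB 𝒜 B) (hd : (gB 𝒜 B).det ≠ 0) (hW : WR (gB 𝒜 B)) :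
    C' (OO (gB 𝒜 B)) ↔ C' (OO B) := by
  have hinj : Function.Injective (inc0 𝒜) := fun a b hab => Subtype.ext hab
  have hBm : (gB 𝒜 B).map (GradedRing.projZeroRingHom' 𝒜) = B := by
    ext1 i j
    exact GradedRing.projZeroRingHom'_apply_coe 𝒜 (B i j)
  constructor
  · intro h
    refine hC.base.of_injective _ _ (((um (inc0 𝒜)).comp (OO B).subtype).codRestrict
      (OO (gB 𝒜 B)) (fun g => um_OO (inc0 𝒜) g.2)) ?_ h
    intro x y hxy
    have h1 : um (inc0 𝒜) x.1 = um (inc0 𝒜) y.1 :=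
      congrArg (fun z : OO (gB 𝒜 B) => (z : (Matrix ι ι A)ˣ)) hxy
    exact Subtype.ext (um_inj _ hinj h1)
  · intro h
    refine C_le hC.base ?_ (gr_rel 𝒜 hC hF hS h2 B hB hd hW (OO B) le_rfl h)
    intro g hg
    refine ⟨hg, ?_⟩
    have := um_OO (GradedRing.projZeroRingHom' 𝒜) hg
    rw [hBm] at this
    exact this

end grading

end Pool.Agent.Helper686_FJ.Orth
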