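import Pool.Agent.Helper686_FJ.Or1

/-!
# Eichler transformations over polynomial rings: degrees
-/

set_option autoImplicit false

namespace Pool.Agent.Helper686_FJ.Orth

open Matrix Polynomial

variable {ι K : Type} [Fintype ι] [DecidableEq ι] [Field K]

/-- the matrix `B` over the polynomial ring -/
noncomputable abbrev Bp (B : Matrix ι ι K) : Matrix ι ι K[X] := B.map C

/-- constant vectors -/
noncomputable def cv (e : ι → K) : ι → K[X] := fun i => C (e i)

/-- vectors of coefficients -/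
def cf (a : ι → K[X]) (m : ℕ) : ι → K := fun i => (a i).coeff m

/-- degree at most `p` -/
def bd (a : ι → K[X]) (p : ℕ) : Prop := ∀ i, (a i).natDegree ≤ p

omit [Fintype ι] [DecidableEq ι] in
theorem bd_cv (e : ι → K) : bd (cv e) 0 := fun i => by simp [cv]

omit [Fintype ι] [DecidableEq ι] in
theorem cf_cv (e : ι → K) : cf (cv e) 0 = e := by
  funext i
  simp [cf, cv]

omit [DecidableEq ι] in
theorem Bp_bd (B : Matrix ι ι K) {c : ι → K[X]} {q : ℕ} (hc : bd c q) (i : ι) :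
    ((Bp B *ᵥ c) i).natDegree ≤ q ∧ ((Bp B *ᵥ c) i).coeff q = (B *ᵥ cf c q) i := by
  constructor
  · show (∑ j, C (B i j) * c j).natDegree ≤ q
    refine natDegree_sum_le_of_forall_le _ _ fun j _ => ?_
    exact (natDegree_C_mul_le _ _).trans (hc j)
  · show (∑ j, C (B i j) * c j).coeff q = ∑ j, B i j * (c j).coeff q
    rw [finset_sum_coeff]
    simp

omit [DecidableEq ι] in
theorem bl_bd (B : Matrix ι ι K) {a c : ι → K[X]} {p q : ℕ} (ha : bd a p) (hc : bd c q) :
    (bl (Bp B) a c).natDegree ≤ p + q := by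
  show (∑ i, a i * (Bp B *ᵥ c) i).natDegree ≤ p + q
  refine natDegree_sum_le_of_forall_le _ _ fun i _ => ?_
  exact natDegree_mul_le_of_le (ha i) (Bp_bd B hc i).1

omit [DecidableEq ι] in
theorem bl_top (B : Matrix ι ι K) {a c : ι → K[X]} {p q : ℕ} (ha : bd a p) (hc : bd c q) :
    (bl (Bp B) a c).coeff (p + q) = bl B (cf a p) (cf c q) := by
  show (∑ i, a i * (Bp B *ᵥ c) i).coeff (p + q) = ∑ i, (a i).coeff p * (B *ᵥ cf c q) i
  rw [finset_sum_coeff]
  refine Finset.sum_congr rfl fun i _ => ?_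
  rw [coeff_mul_add_eq_of_natDegree_le (ha i) (Bp_bd B hc i).1, (Bp_bd B hc i).2]

omit [DecidableEq ι] in
theorem bl_zero (B : Matrix ι ι K) (a c : ι → K[X]) :
    (bl (Bp B) a c).coeff 0 = bl B (cf a 0) (cf c 0) := by
  show (∑ i, a i * ∑ j, C (B i j) * c j).coeff 0 =
    ∑ i, (a i).coeff 0 * ∑ j, B i j * (c j).coeff 0
  rw [finset_sum_coeff]
  refine Finset.sum_congr rfl fun i _ => ?_
  rw [mul_coeff_zero, finset_sum_coeff]
  simp

omit [DecidableEq ι] in
theorem bl_cv (B : Matrix ι ι K) (x y : ι → K) : bl (Bp B) (cv x) (cv y) = C (bl B x y) := by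
  show ∑ i, C (x i) * ∑ j, C (B i j) * C (y j) = C (∑ i, x i * ∑ j, B i j * y j)
  simp [map_sum]

omit [DecidableEq ι] in
theorem exists_L {a : ι → K[X]} (ha : a ≠ 0) : ∃ d, bd a d ∧ cf a d ≠ 0 := by
  obtain ⟨d, hd⟩ : ∃ d, d = Finset.univ.sup fun i => (a i).natDegree := ⟨_, rfl⟩
  have h1 : bd a d := fun i => by
    rw [hd]
    exact Finset.le_sup (f := fun i => (a i).natDegree) (Finset.mem_univ i)
  refine ⟨d, h1, fun h2 => ?_⟩
  rcases Nat.eq_zero_or_pos d with h0 | h0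
  · apply ha
    funext i
    have h3 := h1 i
    rw [h0, Nat.le_zero] at h3
    have h4 : (a i).coeff d = 0 := congrFun h2 i
    rw [h0] at h4
    rw [eq_C_of_natDegree_eq_zero h3, h4, C_0]
    rfl
  · have hne : (Finset.univ : Finset ι).Nonempty := by
      by_contra h
      rw [Finset.not_nonempty_iff_eq_empty] at h
      rw [h, Finset.sup_empty] at hd
      rw [hd] at h0
      exact lt_irrefl _ h0
    obtain ⟨i, -, hi⟩ := Finset.exists_mem_eq_sup _ hne fun i => (a i).natDegree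
    have h4 : (a i).coeff d = 0 := congrFun h2 i
    rw [hd, hi] at h4
    have h5 : a i = 0 := leadingCoeff_eq_zero.mp h4
    rw [hd, hi, h5, natDegree_zero] at h0
    exact lt_irrefl _ h0

omit [Fintype ι] [DecidableEq ι] in
theorem L_uniq {a : ι → K[X]} {d d' : ℕ} (h1 : bd a d) (h2 : cf a d ≠ 0) (h3 : bd a d')
    (h4 : cf a d' ≠ 0) : d = d' := by
  by_contra h
  rcases lt_or_gt_of_ne h with h | h
  · apply h4
    funext i
    exact coeff_eq_zero_of_natDegree_lt ((h1 i).trans_lt h)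
  · apply h2
    funext i
    exact coeff_eq_zero_of_natDegree_lt ((h3 i).trans_lt h)

/-- The Witt index of the form is at most one. -/
def W1 (B : Matrix ι ι K) : Prop :=
  ∀ x y : ι → K, x ≠ 0 → y ≠ 0 → bl B x x = 0 → bl B x y = 0 → bl B y y = 0 → ∃ c : K, y = c • x

section two

variable (h2 : (2 : K) ≠ 0)

include h2 in
omit [Fintype ι] [DecidableEq ι] in
theorem two_ne : (2 : K[X]) ≠ 0 := by
  intro h
  apply h2
  have := congrArg (fun p => coeff p 0) h
  simpa using this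

include h2 in
omit [Fintype ι] [DecidableEq ι] in
theorem half_deg {h b : K[X]} (hh : 2 * h = b) {n : ℕ} (hb : b.natDegree ≤ n) :
    h.natDegree ≤ n ∧ 2 * h.coeff n = b.coeff n := by
  constructor
  · have h3 : h = C (2⁻¹ : K) * b := by
      rw [← hh, ← mul_assoc]
      have : C (2⁻¹ : K) * 2 = 1 := by
        have h4 : (2 : K[X]) = C 2 := (map_ofNat C 2).symm
        rw [h4, ← C_mul, inv_mul_cancel₀ h2, C_1]
      rw [this, one_mul]
    rw [h3]
    exact (natDegree_C_mul_le _ _).trans hb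
  · rw [← hh]
    have h4 : (2 : K[X]) = C 2 := (map_ofNat C 2).symm
    rw [h4, coeff_C_mul]

end two

omit [DecidableEq ι] in
theorem aniso {B : Matrix ι ι K} (hB : Bᵀ = B) (hW : W1 B) {e f u : ι → K} (he0 : e ≠ 0)
    (he : bl B e e = 0) (hef : bl B e f = 1) (hue : bl B u e = 0) (huf : bl B u f = 0)
    (huu : bl B u u = 0) : u = 0 := by
  by_contra hu
  obtain ⟨c, hc⟩ := hW e u he0 hu he (by rw [bl_comm hB]; exact hue) huu
  rw [hc, bl_smul_left, hef, mul_one] at huf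
  rw [huf, zero_smul] at hc
  exact hu hc

/-- isotropic polynomial vectors orthogonal to `e` and `f` vanish -/
theorem aniso_p {B : Matrix ι ι K} (hB : Bᵀ = B) (hW : W1 B) {e f : ι → K} (he0 : e ≠ 0)
    (he : bl B e e = 0) (hef : bl B e f = 1) {w : ι → K[X]} (hwe : bl (Bp B) w (cv e) = 0)
    (hwf : bl (Bp B) w (cv f) = 0) (hw : w ≠ 0) : ∃ k, bd w k ∧ cf w k ≠ 0 ∧
      bl B (cf w k) e = 0 ∧ bl B (cf w k) f = 0 ∧ bl B (cf w k) (cf w k) ≠ 0 := by
  obtain ⟨k, hk, hk0⟩ := exists_L hw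
  have h1 : bl B (cf w k) e = 0 := by
    have h := bl_top B hk (bd_cv e)
    rw [hwe, cf_cv, coeff_zero] at h
    exact h.symm
  have h3 : bl B (cf w k) f = 0 := by
    have h := bl_top B hk (bd_cv f)
    rw [hwf, cf_cv, coeff_zero] at h
    exact h.symm
  exact ⟨k, hk, hk0, h1, h3, fun h => hk0 (aniso hB hW he0 he hef h1 h3 h)⟩

theorem ping {B : Matrix ι ι K} (hB : Bᵀ = B) (h2 : (2 : K) ≠ 0) (hW : W1 B) {e f : ι → K}
    (he0 : e ≠ 0) (he : bl B e e = 0) (hef : bl B e f = 1)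
    {v : ι → K[X]} {h : K[X]} (hv : bl (Bp B) v (cv e) = 0) (hh : 2 * h = bl (Bp B) v v)
    (hX : cf v 0 = 0) (hne : Ei (Bp B) (cv e) v h ≠ 1) {a : ι → K[X]} {d : ℕ} (ha : bd a d)
    (hle : bl B (cf a d) e ≠ 0) : ∃ m, 1 ≤ m ∧ ∃ c : K, c ≠ 0 ∧
      bd (Ei (Bp B) (cv e) v h *ᵥ a) (d + 2 * m) ∧
      cf (Ei (Bp B) (cv e) v h *ᵥ a) (d + 2 * m) = c • e := by
  have hBp : (Bp B)ᵀ = Bp B := by
    ext i j
    have := congrFun (congrFun hB i) j
    simp only [transpose_apply, map_apply] at this ⊢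
    rw [this]
  have hee : bl (Bp B) (cv e) (cv e) = 0 := by rw [bl_cv, he, C_0]
  have heff : bl (Bp B) (cv e) (cv f) = 1 := by rw [bl_cv, hef, C_1]
  obtain ⟨q, hq⟩ : ∃ q, q = bl (Bp B) v (cv f) := ⟨_, rfl⟩
  obtain ⟨w, hw⟩ : ∃ w, w = v + (-q) • cv e := ⟨_, rfl⟩
  have hE : Ei (Bp B) (cv e) v h = Ei (Bp B) (cv e) w h := by
    rw [hw, Ei_add]
  have hwe : bl (Bp B) w (cv e) = 0 := by
    rw [hw, bl_add_left, bl_smul_left, hee, hv, mul_zero, add_zero]
  have hwf : bl (Bp B) w (cv f) = 0 := by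
    rw [hw, bl_add_left, bl_smul_left, heff, ← hq]
    ring
  have hww : 2 * h = bl (Bp B) w w := by
    rw [hw, bl_add_left, bl_smul_left, bl_add_right, bl_add_right, bl_smul_right, bl_smul_right,
      hee, hv, bl_comm hBp (cv e) v, hv, hh]
    ring
  have hw0 : cf w 0 = 0 := by
    have h1 : q.coeff 0 = 0 := by
      rw [hq, bl_zero, hX, bl_zero_left]
    funext i
    have h3 : (v i).coeff 0 = 0 := congrFun hX i
    show (w i).coeff 0 = 0
    rw [hw]
    simp [h3, h1, mul_coeff_zero]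
  have hwne : w ≠ 0 := by
    intro h0
    apply hne
    have h1 : h = 0 := by
      rw [h0, bl_zero_left] at hww
      exact (mul_eq_zero.mp hww).resolve_left (two_ne h2)
    rw [hE, h0, h1, Ei_zero]
  obtain ⟨m, hm, hm0, h1, h3, h4⟩ := aniso_p hB hW he0 he hef hwe hwf hwne
  have hm1 : 1 ≤ m := by
    rcases Nat.eq_zero_or_pos m with h0 | h0
    · rw [h0] at hm0
      exact absurd hw0 hm0
    · exact h0
  have hwd := bl_bd B hm hm
  have hwt := bl_top B hm hm
  obtain ⟨h5, h6⟩ := half_deg h2 hww hwd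
  have hc0 : h.coeff (m + m) ≠ 0 := by
    intro h0
    rw [h0, mul_zero, hwt] at h6
    exact h4 h6.symm
  have ha1 := bl_bd B ha (bd_cv e)
  have ha2 := bl_top B ha (bd_cv e)
  rw [cf_cv] at ha2
  have ha3 := bl_bd B ha hm
  have hdm : d + 2 * m = (m + m) + (d + 0) := by ring
  have key : ∀ i, (Ei (Bp B) (cv e) v h *ᵥ a) i = a i + bl (Bp B) a (cv e) * w i -
      bl (Bp B) a w * C (e i) - h * bl (Bp B) a (cv e) * C (e i) := by
    intro i
    rw [hE, Ei_mulVec]
    simp [cv]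
  refine ⟨m, hm1, -(h.coeff (m + m) * bl B (cf a d) e), ?_, ?_, ?_⟩
  · exact neg_ne_zero.mpr (mul_ne_zero hc0 hle)
  · intro i
    rw [key]
    have e1 : (a i).natDegree ≤ d + 2 * m := (ha i).trans (by omega)
    have e2 : (bl (Bp B) a (cv e) * w i).natDegree ≤ d + 2 * m :=
      (natDegree_mul_le_of_le ha1 (hm i)).trans (by omega)
    have e3 : (bl (Bp B) a w * C (e i)).natDegree ≤ d + 2 * m :=
      (natDegree_mul_C_le _ _).trans (ha3.trans (by omega))
    have e4 : (h * bl (Bp B) a (cv e) * C (e i)).natDegree ≤ d + 2 * m :=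
      (natDegree_mul_C_le _ _).trans ((natDegree_mul_le_of_le h5 ha1).trans (by omega))
    exact natDegree_sub_le_of_le (natDegree_sub_le_of_le (natDegree_add_le_of_degree_le e1 e2) e3) e4
      |>.trans (by simp)
  · funext i
    show ((Ei (Bp B) (cv e) v h *ᵥ a) i).coeff (d + 2 * m) = _
    rw [key]
    have e1 : (a i).coeff (d + 2 * m) = 0 :=
      coeff_eq_zero_of_natDegree_lt ((ha i).trans_lt (by omega))
    have e2 : (bl (Bp B) a (cv e) * w i).coeff (d + 2 * m) = 0 :=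
      coeff_eq_zero_of_natDegree_lt ((natDegree_mul_le_of_le ha1 (hm i)).trans_lt (by omega))
    have e3 : (bl (Bp B) a w * C (e i)).coeff (d + 2 * m) = 0 :=
      coeff_eq_zero_of_natDegree_lt (((natDegree_mul_C_le _ _).trans ha3).trans_lt (by omega))
    have e4 : (h * bl (Bp B) a (cv e) * C (e i)).coeff (d + 2 * m) =
        h.coeff (m + m) * bl B (cf a d) e * e i := by
      rw [coeff_mul_C, hdm, coeff_mul_add_eq_of_natDegree_le h5 ha1, ha2]
    rw [coeff_sub, coeff_sub, coeff_add, e1, e2, e3, e4]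
    simp

end Pool.Agent.Helper686_FJ.Orth
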