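import Pool.Agent.Helper686_FJ.Or2

/-!
# Generation of the congruence subgroups of orthogonal groups over polynomial rings
-/

set_option autoImplicit false

namespace Pool.Agent.Helper686_FJ.Orth

open Matrix Polynomial

variable {ι K : Type} [Fintype ι] [DecidableEq ι] [Field K]

omit [Fintype ι] [DecidableEq ι] in
theorem Bp_sym {B : Matrix ι ι K} (hB : Bᵀ = B) : (Bp B)ᵀ = Bp B := by
  ext i j
  have := congrFun (congrFun hB i) j
  simp only [transpose_apply, map_apply] at this ⊢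
  rw [this]

/-- The form is non-degenerate. -/
def Nd (B : Matrix ι ι K) : Prop := ∀ x : ι → K, (∀ y, bl B x y = 0) → x = 0

omit [DecidableEq ι] in
theorem partner {B : Matrix ι ι K} (hB : Bᵀ = B) (h2 : (2 : K) ≠ 0) (hN : Nd B) {e : ι → K}
    (he0 : e ≠ 0) (he : bl B e e = 0) : ∃ f, bl B f f = 0 ∧ bl B e f = 1 := by
  obtain ⟨y, hy⟩ : ∃ y, bl B e y ≠ 0 := by
    by_contra h
    push Not at h
    exact he0 (hN e h)
  obtain ⟨z, hz⟩ : ∃ z, z = (bl B e y)⁻¹ • y := ⟨_, rfl⟩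
  have h1 : bl B e z = 1 := by rw [hz, bl_smul_right, inv_mul_cancel₀ hy]
  refine ⟨z - (2⁻¹ * bl B z z) • e, ?_, ?_⟩
  · rw [bl_sub_left, bl_sub_right, bl_sub_right, bl_smul_left, bl_smul_right, bl_smul_left,
      bl_smul_right, he, h1, bl_comm hB z e, h1]
    field_simp
    ring
  · rw [bl_sub_right, bl_smul_right, he, h1]
    ring

omit [DecidableEq ι] in
theorem cv_cf {a : ι → K[X]} (h : bd a 0) : a = cv (cf a 0) := by
  funext i
  exact eq_C_of_natDegree_eq_zero (Nat.le_zero.mp (h i))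

theorem eq_one_of_cv {g : Matrix ι ι K[X]} (h : ∀ z : ι → K, g *ᵥ cv z = cv z) : g = 1 := by
  have h1 : ∀ j, (cv (Pi.single j 1) : ι → K[X]) = Pi.single j 1 := by
    intro j
    funext i
    by_cases hij : i = j
    · subst hij
      simp [cv]
    · simp [cv, hij]
  ext1 i j
  have h3 := congrFun (h (Pi.single j 1)) i
  rw [h1] at h3
  simp only [mulVec_single_one, col_apply] at h3
  rw [h3, Matrix.one_apply]
  by_cases hij : i = j
  · subst hij
    simp
  · simp [hij]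

section gen

variable {B : Matrix ι ι K} (hB : Bᵀ = B) (h2 : (2 : K) ≠ 0) (hW : W1 B)

/-- an isometry which is the identity at `0` and fixes `e`, `f` -/
theorem fix_two (hB : Bᵀ = B) (hW : W1 B) {e f : ι → K} (he0 : e ≠ 0) (he : bl B e e = 0)
    (hf : bl B f f = 0) (hef : bl B e f = 1) {g : (Matrix ι ι K[X])ˣ} (hg : g ∈ OO (Bp B))
    (hg0 : ∀ a, cf (g.1 *ᵥ a) 0 = cf a 0) (hge : g.1 *ᵥ cv e = cv e) (hgf : g.1 *ᵥ cv f = cv f) :
    g.1 = 1 := by
  have hz : ∀ z : ι → K, bl B z e = 0 → bl B z f = 0 → g.1 *ᵥ cv z = cv z := by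
    intro z hze hzf
    by_cases hc : g.1 *ᵥ cv z = 0
    · have h1 := hg0 (cv z)
      rw [hc, cf_cv] at h1
      rw [hc, ← h1]
      funext i
      simp [cv, cf]
    · have h1 : bl (Bp B) (g.1 *ᵥ cv z) (cv e) = 0 := by
        rw [← hge, hg, bl_cv, hze, C_0]
      have h3 : bl (Bp B) (g.1 *ᵥ cv z) (cv f) = 0 := by
        rw [← hgf, hg, bl_cv, hzf, C_0]
      obtain ⟨k, hk, -, -, -, h4⟩ := aniso_p hB hW he0 he hef h1 h3 hc
      have h5 := bl_top B hk hk
      rw [hg, bl_cv] at h5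
      rcases Nat.eq_zero_or_pos k with h0 | h0
      · rw [h0] at hk
        rw [cv_cf hk, hg0, cf_cv]
      · exfalso
        rw [coeff_C, if_neg (by omega)] at h5
        exact h4 h5.symm
  apply eq_one_of_cv
  intro z
  obtain ⟨z0, hz0⟩ : ∃ z0, z0 = z - bl B z f • e - bl B z e • f := ⟨_, rfl⟩
  have h1 : bl B z0 e = 0 := by
    rw [hz0, bl_sub_left, bl_sub_left, bl_smul_left, bl_smul_left, he, bl_comm hB f e, hef]
    ring
  have h3 : bl B z0 f = 0 := by
    rw [hz0, bl_sub_left, bl_sub_left, bl_smul_left, bl_smul_left, hf, hef]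
    ring
  have h4 : (cv z : ι → K[X]) = cv z0 + C (bl B z f) • cv e + C (bl B z e) • cv f := by
    funext i
    simp only [cv, hz0, Pi.add_apply, Pi.sub_apply, Pi.smul_apply, smul_eq_mul, ← C_mul, ← C_add]
    congr 1
    ring
  rw [h4, mulVec_add, mulVec_add, mulVec_smul, mulVec_smul, hge, hgf, hz z0 h1 h3]

/-- anisotropic forms -/
theorem fix_none {g : (Matrix ι ι K[X])ˣ} (hg : g ∈ OO (Bp B))
    (hg0 : ∀ a, cf (g.1 *ᵥ a) 0 = cf a 0) (hno : ∀ e : ι → K, bl B e e = 0 → e = 0) : g.1 = 1 := by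
  apply eq_one_of_cv
  intro z
  by_cases hc : g.1 *ᵥ cv z = 0
  · have h1 := hg0 (cv z)
    rw [hc, cf_cv] at h1
    rw [hc, ← h1]
    funext i
    simp [cv, cf]
  · obtain ⟨k, hk, hk0⟩ := exists_L hc
    have h5 := bl_top B hk hk
    rw [hg, bl_cv] at h5
    rcases Nat.eq_zero_or_pos k with h0 | h0
    · rw [h0] at hk
      rw [cv_cf hk, hg0, cf_cv]
    · exfalso
      rw [coeff_C, if_neg (by omega)] at h5
      exact hk0 (hno _ h5.symm)

/-- the subgroup of the Eichler transformations of `e` which are the identity at `0` -/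
def UE (hB : Bᵀ = B) {e : ι → K} (he : bl B e e = 0) : Subgroup (Matrix ι ι K[X])ˣ where
  carrier := {g | ∃ (v : ι → K[X]) (h : K[X]), bl (Bp B) v (cv e) = 0 ∧ 2 * h = bl (Bp B) v v ∧
    cf v 0 = 0 ∧ g.1 = Ei (Bp B) (cv e) v h}
  one_mem' := ⟨0, 0, bl_zero_left _ _, by rw [bl_zero_left, mul_zero], by
    funext i
    simp [cf], by rw [Ei_zero]; rfl⟩
  mul_mem' := by
    rintro g g' ⟨v, h, hv, hh, h0, hg⟩ ⟨v', h', hv', hh', h0', hg'⟩
    have hee : bl (Bp B) (cv e) (cv e) = 0 := by rw [bl_cv, he, C_0]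
    refine ⟨v + v', h + bl (Bp B) v v' + h', ?_, ?_, ?_, ?_⟩
    · rw [bl_add_left, hv, hv', add_zero]
    · rw [bl_add_left, bl_add_right, bl_add_right, ← hh, ← hh', bl_comm (Bp_sym hB) v' v]
      ring
    · funext i
      have h1 : (v i).coeff 0 = 0 := congrFun h0 i
      have h3 : (v' i).coeff 0 = 0 := congrFun h0' i
      simp [cf, h1, h3]
    · rw [Units.val_mul, hg, hg', Ei_mul (Bp_sym hB) hee hv hv']
  inv_mem' := by
    rintro g ⟨v, h, hv, hh, h0, hg⟩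
    have hee : bl (Bp B) (cv e) (cv e) = 0 := by rw [bl_cv, he, C_0]
    refine ⟨-v, h, ?_, ?_, ?_, ?_⟩
    · rw [bl_neg_left, hv, neg_zero]
    · rw [bl_neg_left, bl_neg_right, hh, neg_neg]
    · funext i
      have h1 : (v i).coeff 0 = 0 := congrFun h0 i
      simp [cf, h1]
    · have h1 := Ei_mul_neg (Bp_sym hB) hee hv hh
      rw [← hg] at h1
      calc (g⁻¹).1 = (g⁻¹).1 * (g.1 * Ei (Bp B) (cv e) (-v) h) := by rw [h1, mul_one]
        _ = _ := by rw [← mul_assoc, Units.inv_mul, one_mul]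

/-- an isometry which is the identity at `0` and fixes `e` -/
theorem fix_one (hB : Bᵀ = B) (hW : W1 B) {e f : ι → K} (he0 : e ≠ 0) (he : bl B e e = 0)
    (hf : bl B f f = 0) (hef : bl B e f = 1) {g : (Matrix ι ι K[X])ˣ} (hg : g ∈ OO (Bp B))
    (hg0 : ∀ a, cf (g.1 *ᵥ a) 0 = cf a 0) (hge : g.1 *ᵥ cv e = cv e) : g ∈ UE hB he := by
  have hBp := Bp_sym hB
  have hee : bl (Bp B) (cv e) (cv e) = 0 := by rw [bl_cv, he, C_0]
  have hff : bl (Bp B) (cv f) (cv f) = 0 := by rw [bl_cv, hf, C_0]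
  have heff : bl (Bp B) (cv e) (cv f) = 1 := by rw [bl_cv, hef, C_1]
  have hfe : bl (Bp B) (cv f) (cv e) = 1 := by rw [bl_comm hBp, heff]
  obtain ⟨a, ha⟩ : ∃ a, a = g.1 *ᵥ cv f := ⟨_, rfl⟩
  have hae : bl (Bp B) a (cv e) = 1 := by
    rw [ha, ← hfe]
    conv_lhs => rw [← hge]
    exact hg _ _
  have haa : bl (Bp B) a a = 0 := by rw [ha, hg, hff]
  obtain ⟨x, hx⟩ : ∃ x, x = bl (Bp B) a (cv f) := ⟨_, rfl⟩
  obtain ⟨w, hw⟩ : ∃ w, w = a - x • cv e - cv f := ⟨_, rfl⟩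
  have hwe : bl (Bp B) w (cv e) = 0 := by
    rw [hw, bl_sub_left, bl_sub_left, bl_smul_left, hee, hae, hfe]
    ring
  have hwf : bl (Bp B) w (cv f) = 0 := by
    rw [hw, bl_sub_left, bl_sub_left, bl_smul_left, heff, ← hx, hff]
    ring
  have haw : a = w + x • cv e + cv f := by
    rw [hw]
    abel
  have hww : 2 * (-x) = bl (Bp B) w w := by
    have h1 := haa
    rw [haw] at h1
    simp only [bl_add_left, bl_add_right, bl_smul_left, bl_smul_right] at h1
    rw [hee, hff, heff, hfe, hwe, hwf, bl_comm hBp (cv e) w, bl_comm hBp (cv f) w, hwe, hwf] at h1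
    linear_combination -h1
  have hx0 : x.coeff 0 = 0 := by
    rw [hx, bl_zero, ha, hg0, cf_cv, hf]
  have hw0 : cf w 0 = 0 := by
    have h1 : cf a 0 = f := by rw [ha, hg0, cf_cv]
    funext i
    have h3 : (a i).coeff 0 = f i := congrFun h1 i
    show (w i).coeff 0 = 0
    rw [hw]
    simp [cv, h3, hx0, mul_coeff_zero]
  let u : (Matrix ι ι K[X])ˣ := EU hBp hee hwe hww
  have hu : u ∈ UE hB he := ⟨w, -x, hwe, hww, hw0, rfl⟩
  have hu1 : u.1 = Ei (Bp B) (cv e) w (-x) := rfl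
  have huO : u ∈ OO (Bp B) := EU_mem hBp hee hwe hww
  have hue : u.1 *ᵥ cv e = cv e := by
    rw [hu1, Ei_mulVec, hee, bl_comm hBp (cv e) w, hwe]
    simp
  have huf : u.1 *ᵥ cv f = a := by
    rw [hu1, Ei_mulVec, hfe, bl_comm hBp (cv f) w, hwf, haw]
    module
  have hu0 : ∀ a, cf (u.1 *ᵥ a) 0 = cf a 0 := by
    intro b
    funext i
    show ((u.1 *ᵥ b) i).coeff 0 = (b i).coeff 0
    rw [hu1, Ei_mulVec]
    have h1 : (w i).coeff 0 = 0 := congrFun hw0 i
    have h3 : (bl (Bp B) b w).coeff 0 = 0 := by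
      rw [bl_zero, hw0, bl_zero_right]
    simp [h1, h3, hx0, mul_coeff_zero]
  have hinv : ∀ b c, u.1 *ᵥ b = c → (u⁻¹).1 *ᵥ c = b := by
    intro b c h
    rw [← h, mulVec_mulVec, Units.inv_mul, one_mulVec]
  have h1 : (u⁻¹ * g).1 = 1 := by
    refine fix_two hB hW he0 he hf hef ((OO (Bp B)).mul_mem ((OO (Bp B)).inv_mem huO) hg) ?_ ?_ ?_
    · intro b
      rw [Units.val_mul, ← mulVec_mulVec]
      have h3 := hu0 ((u⁻¹).1 *ᵥ (g.1 *ᵥ b))
      rw [mulVec_mulVec (g.1 *ᵥ b), Units.mul_inv, one_mulVec] at h3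
      rw [← h3, hg0]
    · rw [Units.val_mul, ← mulVec_mulVec, hge]
      exact hinv _ _ hue
    · rw [Units.val_mul, ← mulVec_mulVec, ← ha]
      exact hinv _ _ huf
  have h3 : u⁻¹ * g = 1 := Units.ext h1
  have h4 : g = u := (inv_mul_eq_one.mp h3).symm
  rw [h4]
  exact hu

end gen

end Pool.Agent.Helper686_FJ.Orth
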