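import Pool.Agent.Helper686_FJ.Or3
import Pool.Agent.Helper686_FJ.AF1

/-!
# Reduction of degrees and the free product
-/

set_option autoImplicit false

namespace Pool.Agent.Helper686_FJ.Orth

open Matrix Polynomial

variable {ι K : Type} [Fintype ι] [DecidableEq ι] [Field K]

theorem red_step {B : Matrix ι ι K} (hB : Bᵀ = B) (h2 : (2 : K) ≠ 0) (hW : W1 B) (hN : Nd B)
    {a : ι → K[X]} {d : ℕ} (haa : bl (Bp B) a a = 0) (ha : bd a d) (hd : 1 ≤ d)
    (hl : cf a d ≠ 0) : bl B (cf a d) (cf a d) = 0 ∧ ((∃ x : K[X], a = x • cv (cf a d)) ∨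
      ∃ (v : ι → K[X]) (h : K[X]), bl (Bp B) v (cv (cf a d)) = 0 ∧ 2 * h = bl (Bp B) v v ∧
        cf v 0 = 0 ∧ bd (Ei (Bp B) (cv (cf a d)) v h *ᵥ a) (d - 1)) := by
  have hBp := Bp_sym hB
  obtain ⟨e, he'⟩ : ∃ e, e = cf a d := ⟨_, rfl⟩
  rw [← he'] at hl ⊢
  have he : bl B e e = 0 := by
    have h := bl_top B ha ha
    rw [haa, coeff_zero, ← he'] at h
    exact h.symm
  refine ⟨he, ?_⟩
  obtain ⟨f, hf, hef⟩ := partner hB h2 hN hl he
  have hee : bl (Bp B) (cv e) (cv e) = 0 := by rw [bl_cv, he, C_0]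
  have hff : bl (Bp B) (cv f) (cv f) = 0 := by rw [bl_cv, hf, C_0]
  have heff : bl (Bp B) (cv e) (cv f) = 1 := by rw [bl_cv, hef, C_1]
  have hfe : bl (Bp B) (cv f) (cv e) = 1 := by rw [bl_comm hBp, heff]
  obtain ⟨x, hx⟩ : ∃ x, x = bl (Bp B) a (cv f) := ⟨_, rfl⟩
  obtain ⟨y, hy⟩ : ∃ y, y = bl (Bp B) a (cv e) := ⟨_, rfl⟩
  obtain ⟨w, hw⟩ : ∃ w, w = a - x • cv e - y • cv f := ⟨_, rfl⟩
  have hwe : bl (Bp B) w (cv e) = 0 := by
    rw [hw, bl_sub_left, bl_sub_left, bl_smul_left, bl_smul_left, hee, ← hy, hfe]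
    ring
  have hwf : bl (Bp B) w (cv f) = 0 := by
    rw [hw, bl_sub_left, bl_sub_left, bl_smul_left, bl_smul_left, heff, ← hx, hff]
    ring
  have haw : a = w + x • cv e + y • cv f := by
    rw [hw]
    abel
  -- the norm in the decomposition
  have norm : ∀ (z : ι → K[X]) (p q : K[X]), bl (Bp B) z (cv e) = 0 → bl (Bp B) z (cv f) = 0 →
      bl (Bp B) (z + p • cv e + q • cv f) (z + p • cv e + q • cv f) =
        bl (Bp B) z z + 2 * (p * q) := by
    intro z p q h1 h3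
    simp only [bl_add_left, bl_add_right, bl_smul_left, bl_smul_right]
    rw [hee, hff, heff, hfe, h1, h3, bl_comm hBp (cv e) z, bl_comm hBp (cv f) z, h1, h3]
    ring
  have hww : bl (Bp B) w w + 2 * (x * y) = 0 := by
    rw [← norm w x y hwe hwf, ← haw, haa]
  have hxd : x.natDegree ≤ d := by
    rw [hx]
    exact bl_bd B ha (bd_cv f)
  have hxc : x.coeff d = 1 := by
    have h := bl_top B ha (bd_cv f)
    rw [cf_cv, ← he', hef, ← hx] at h
    exact h
  have hyd : y.natDegree ≤ d := by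
    rw [hy]
    exact bl_bd B ha (bd_cv e)
  have hyc : y.coeff d = 0 := by
    have h := bl_top B ha (bd_cv e)
    rw [cf_cv, ← he', he, ← hy] at h
    exact h
  have hx0 : x ≠ 0 := by
    rintro h
    rw [h, coeff_zero] at hxc
    exact zero_ne_one hxc
  have hxn : x.natDegree = d := by
    refine le_antisymm hxd ?_
    refine le_natDegree_of_ne_zero ?_
    rw [hxc]
    exact one_ne_zero
  have h2p := two_ne h2
  by_cases hw0 : w = 0
  · left
    have hy0 : y = 0 := by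
      rw [hw0, bl_zero_left, zero_add] at hww
      exact (mul_eq_zero.mp ((mul_eq_zero.mp hww).resolve_left h2p)).resolve_left hx0
    refine ⟨x, ?_⟩
    rw [haw, hw0, hy0]
    simp
  right
  obtain ⟨k, hk, hu0, hue, huf, huu⟩ := aniso_p hB hW hl he hef hwe hwf hw0
  obtain ⟨u, hu⟩ : ∃ u, u = cf w k := ⟨_, rfl⟩
  rw [← hu] at hu0 hue huf huu
  have hwn : (bl (Bp B) w w).natDegree = k + k := by
    refine le_antisymm (bl_bd B hk hk) (le_natDegree_of_ne_zero ?_)
    rw [bl_top B hk hk, ← hu]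
    exact huu
  have hy0 : y ≠ 0 := by
    rintro h
    rw [h, mul_zero, mul_zero, add_zero] at hww
    rw [hww, natDegree_zero] at hwn
    apply huu
    have h3 := bl_top B hk hk
    rw [hww, coeff_zero, ← hu] at h3
    exact h3.symm
  have hs : d + y.natDegree = k + k := by
    have h3 : bl (Bp B) w w = -(2 * (x * y)) := by linear_combination hww
    rw [h3, natDegree_neg, natDegree_mul h2p (mul_ne_zero hx0 hy0), natDegree_mul hx0 hy0, hxn] at hwn
    have h4 : (2 : K[X]).natDegree = 0 := natDegree_ofNat 2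
    omega
  obtain ⟨s, hs'⟩ : ∃ s, s = y.natDegree := ⟨_, rfl⟩
  rw [← hs'] at hs
  have hsd : s < d := by
    refine lt_of_le_of_ne (hs' ▸ hyd) ?_
    rintro h
    apply hy0
    rw [← leadingCoeff_eq_zero, leadingCoeff, ← hs', h, hyc]
  obtain ⟨r, hr⟩ : ∃ r, k = s + r := ⟨k - s, by omega⟩
  have hr1 : 1 ≤ r := by omega
  have hyl : y.coeff s ≠ 0 := by
    rw [hs']
    exact leadingCoeff_ne_zero.mpr hy0
  obtain ⟨p, hp⟩ : ∃ p : K[X], p = C (-(y.coeff s)⁻¹) * X ^ r := ⟨_, rfl⟩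
  have hpn : p.natDegree ≤ r := by
    rw [hp]
    exact natDegree_C_mul_X_pow_le _ _
  have hpc : p.coeff r = -(y.coeff s)⁻¹ := by
    rw [hp, coeff_C_mul_X_pow, if_pos rfl]
  have hp0 : p.coeff 0 = 0 := by
    rw [hp, coeff_C_mul_X_pow, if_neg (by omega)]
  obtain ⟨v, hv⟩ : ∃ v, v = p • (cv u : ι → K[X]) := ⟨_, rfl⟩
  obtain ⟨h, hh⟩ : ∃ h, h = C (2⁻¹ * bl B u u) * (p * p) := ⟨_, rfl⟩
  have hve : bl (Bp B) v (cv e) = 0 := by rw [hv, bl_smul_left, bl_cv, hue, C_0, mul_zero]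
  have hvf : bl (Bp B) v (cv f) = 0 := by rw [hv, bl_smul_left, bl_cv, huf, C_0, mul_zero]
  have h2C : (2 : K[X]) = C 2 := (map_ofNat C 2).symm
  have hvv : 2 * h = bl (Bp B) v v := by
    rw [hv, bl_smul_left, bl_smul_right, bl_cv, hh, h2C]
    have : C (2 : K) * (C (2⁻¹ * bl B u u) * (p * p)) = C (2 * (2⁻¹ * bl B u u)) * (p * p) := by
      rw [← mul_assoc (C 2), ← C_mul]
    rw [this, mul_inv_cancel_left₀ h2]
    ring
  have hv0 : cf v 0 = 0 := by
    funext i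
    show (v i).coeff 0 = 0
    rw [hv]
    simp [mul_coeff_zero, hp0]
  refine ⟨v, h, hve, hvv, hv0, ?_⟩
  obtain ⟨w', hw'⟩ : ∃ w', w' = w + y • v := ⟨_, rfl⟩
  obtain ⟨x', hx'⟩ : ∃ x', x' = x - bl (Bp B) a v - h * y := ⟨_, rfl⟩
  have hEa : Ei (Bp B) (cv e) v h *ᵥ a = w' + x' • cv e + y • cv f := by
    rw [Ei_mulVec, ← hy, hw', hx']
    nth_rewrite 1 [haw]
    module
  have hwe' : bl (Bp B) w' (cv e) = 0 := by
    rw [hw', bl_add_left, bl_smul_left, hwe, hve]
    ring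
  have hwf' : bl (Bp B) w' (cv f) = 0 := by
    rw [hw', bl_add_left, bl_smul_left, hwf, hvf]
    ring
  have hww' : bl (Bp B) w' w' + 2 * (x' * y) = 0 := by
    rw [← norm w' x' y hwe' hwf', ← hEa, Ei_isom hBp hee hve hvv, haa]
  have hwk : bd w' (k - 1) := by
    intro i
    have e1 : w' i = w i + y * p * C (u i) := by
      rw [hw', hv]
      simp [cv, mul_assoc]
    have e2 : (y * p).natDegree ≤ k := by
      rw [hr, hs']
      exact natDegree_mul_le_of_le le_rfl hpn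
    rw [e1]
    refine natDegree_le_pred ?_ ?_
    · exact (natDegree_add_le_of_degree_le (hk i) ((natDegree_mul_C_le _ _).trans e2))
    · rw [coeff_add, coeff_mul_C]
      have e3 : (y * p).coeff k = y.coeff s * p.coeff r := by
        rw [hr]
        exact coeff_mul_add_eq_of_natDegree_le (hs' ▸ le_rfl) hpn
      have e4 : (w i).coeff k = u i := by rw [hu]; rfl
      rw [e3, e4, hpc]
      field_simp
      ring
  have hx'd : x'.natDegree ≤ d - 1 := by
    by_cases hx'0 : x' = 0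
    · rw [hx'0, natDegree_zero]
      omega
    · have h3 : bl (Bp B) w' w' = -(2 * (x' * y)) := by linear_combination hww'
      have h4 := bl_bd B hwk hwk
      rw [h3, natDegree_neg, natDegree_mul h2p (mul_ne_zero hx'0 hy0), natDegree_mul hx'0 hy0] at h4
      omega
  intro i
  rw [hEa]
  have e1 : (w' i).natDegree ≤ d - 1 := (hwk i).trans (by omega)
  have e2 : (x' * C (e i)).natDegree ≤ d - 1 := (natDegree_mul_C_le _ _).trans hx'd
  have e3 : (y * C (f i)).natDegree ≤ d - 1 := (natDegree_mul_C_le _ _).trans (by omega)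
  exact natDegree_add_le_of_degree_le (natDegree_add_le_of_degree_le e1 e2) e3

theorem ue_zero {B : Matrix ι ι K} (hB : Bᵀ = B) {e : ι → K} (he : bl B e e = 0)
    {g : (Matrix ι ι K[X])ˣ} (hg : g ∈ UE hB he) (h2 : (2 : K) ≠ 0) (b : ι → K[X]) :
    cf (g.1 *ᵥ b) 0 = cf b 0 := by
  obtain ⟨v, h, hv, hh, h0, hg⟩ := hg
  funext i
  show ((g.1 *ᵥ b) i).coeff 0 = (b i).coeff 0
  rw [hg, Ei_mulVec]
  have h1 : (v i).coeff 0 = 0 := congrFun h0 i
  have h3 : (bl (Bp B) b v).coeff 0 = 0 := by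
    rw [bl_zero, h0, bl_zero_right]
  have h4 : h.coeff 0 = 0 := by
    have h5 := congrArg (fun p => coeff p 0) hh
    simp only [mul_coeff_zero] at h5
    rw [bl_zero, h0, bl_zero_right] at h5
    refine (mul_eq_zero.mp h5).resolve_left ?_
    rw [coeff_ofNat_zero]
    exact h2
  simp [h1, h3, h4, mul_coeff_zero]

theorem ue_OO {B : Matrix ι ι K} (hB : Bᵀ = B) {e : ι → K} (he : bl B e e = 0)
    {g : (Matrix ι ι K[X])ˣ} (hg : g ∈ UE hB he) : g ∈ OO (Bp B) := by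
  obtain ⟨v, h, hv, hh, h0, hg⟩ := hg
  have hee : bl (Bp B) (cv e) (cv e) = 0 := by rw [bl_cv, he, C_0]
  intro x y
  rw [hg]
  exact Ei_isom (Bp_sym hB) hee hv hh x y

theorem gen_fix {B : Matrix ι ι K} (hB : Bᵀ = B) (h2 : (2 : K) ≠ 0) (hW : W1 B) (hN : Nd B)
    {e : ι → K} (he0 : e ≠ 0) (he : bl B e e = 0) (N : Subgroup (Matrix ι ι K[X])ˣ)
    (hNN : ∀ (e : ι → K) (_ : e ≠ 0) (he : bl B e e = 0), UE hB he ≤ N) (d : ℕ) :
    ∀ g : (Matrix ι ι K[X])ˣ, g ∈ OO (Bp B) → (∀ a, cf (g.1 *ᵥ a) 0 = cf a 0) →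
      bd (g.1 *ᵥ cv e) d → g ∈ N := by
  obtain ⟨f, hf, hef⟩ := partner hB h2 hN he0 he
  have hee : bl (Bp B) (cv e) (cv e) = 0 := by rw [bl_cv, he, C_0]
  induction d with
  | zero =>
    intro g hg hg0 hb
    refine hNN e he0 he (fix_one hB hW he0 he hf hef hg hg0 ?_)
    rw [cv_cf hb, hg0, cf_cv]
  | succ d ih =>
    intro g hg hg0 hb
    by_cases hc : cf (g.1 *ᵥ cv e) (d + 1) = 0
    · refine ih g hg hg0 fun i => ?_
      exact natDegree_le_pred (hb i) (congrFun hc i)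
    · obtain ⟨hll, h1 | ⟨v, h, hv, hh, h0, hd⟩⟩ := red_step hB h2 hW hN (by rw [hg, hee]) hb
        (by omega) hc
      · exfalso
        obtain ⟨x, hx⟩ := h1
        obtain ⟨i, hi⟩ : ∃ i, e i ≠ 0 := by
          by_contra h
          push Not at h
          exact he0 (funext h)
        have h3 : (cv e : ι → K[X]) = x • ((g⁻¹).1 *ᵥ cv (cf (g.1 *ᵥ cv e) (d + 1))) := by
          rw [← mulVec_smul, ← hx, mulVec_mulVec, Units.inv_mul, one_mulVec]
        have h4 := congrFun h3 i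
        have h5 : x ∣ C (e i) := ⟨_, h4⟩
        have h6 : x.natDegree = 0 := by
          have h7 : IsUnit x := isUnit_of_dvd_unit h5 (isUnit_C.mpr hi.isUnit)
          exact natDegree_eq_zero_of_isUnit h7
        apply hc
        funext j
        show ((g.1 *ᵥ cv e) j).coeff (d + 1) = 0
        rw [hx]
        refine coeff_eq_zero_of_natDegree_lt ?_
        show (x * C _).natDegree < d + 1
        exact ((natDegree_mul_C_le _ _).trans h6.le).trans_lt (by omega)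
      · have hll' : bl (Bp B) (cv (cf (g.1 *ᵥ cv e) (d + 1))) (cv (cf (g.1 *ᵥ cv e) (d + 1))) = 0 := by
          rw [bl_cv, hll, C_0]
        let u : (Matrix ι ι K[X])ˣ := EU (Bp_sym hB) hll' hv hh
        have hu : u ∈ UE hB hll := ⟨v, h, hv, hh, h0, rfl⟩
        have hu1 : u.1 = Ei (Bp B) (cv (cf (g.1 *ᵥ cv e) (d + 1))) v h := rfl
        have h3 : u * g ∈ N := by
          refine ih (u * g) ((OO (Bp B)).mul_mem (ue_OO hB hll hu) hg) ?_ ?_
          · intro b
            rw [Units.val_mul, ← mulVec_mulVec, ue_zero hB hll hu h2, hg0]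
          · rw [Units.val_mul, ← mulVec_mulVec, hu1]
            exact hd
        have h4 : g = u⁻¹ * (u * g) := by group
        rw [h4]
        exact N.mul_mem (N.inv_mem (hNN _ hc hll hu)) h3

/-- **Generation.** -/
theorem gen_all {B : Matrix ι ι K} (hB : Bᵀ = B) (h2 : (2 : K) ≠ 0) (hW : W1 B) (hN : Nd B)
    (N : Subgroup (Matrix ι ι K[X])ˣ)
    (hNN : ∀ (e : ι → K) (_ : e ≠ 0) (he : bl B e e = 0), UE hB he ≤ N)
    {g : (Matrix ι ι K[X])ˣ} (hg : g ∈ OO (Bp B)) (hg0 : ∀ a, cf (g.1 *ᵥ a) 0 = cf a 0) : g ∈ N := by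
  by_cases h : ∃ e : ι → K, e ≠ 0 ∧ bl B e e = 0
  · obtain ⟨e, he0, he⟩ := h
    obtain ⟨d, hd⟩ : ∃ d, bd (g.1 *ᵥ cv e) d :=
      ⟨Finset.univ.sup fun i => ((g.1 *ᵥ cv e) i).natDegree, fun i =>
        Finset.le_sup (f := fun i => ((g.1 *ᵥ cv e) i).natDegree) (Finset.mem_univ i)⟩
    exact gen_fix hB h2 hW hN he0 he N hNN d g hg hg0 hd
  · push Not at h
    have h1 : g.1 = 1 := fix_none hg hg0 fun e he => by
      by_contra h3
      exact h e h3 he
    have h3 : g = 1 := Units.ext h1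
    rw [h3]
    exact N.one_mem

end Pool.Agent.Helper686_FJ.Orth
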