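import Pool.Agent.Helper686_FJ.Or4
import Pool.Agent.Helper686_FJ.Base

/-!
# The congruence subgroups are free products of abelian groups; orthogonal groups in a class of groups
-/

set_option autoImplicit false

namespace Pool.Agent.Helper686_FJ.Orth

open Matrix Polynomial Monoid
open Pool.Agent.Y110.FJ Pool.Agent.R684.FP Pool.Agent.H694.TR
open Pool.Agent.R941.FJ (C_equiv C_le)

variable {ι K : Type} [Fintype ι] [DecidableEq ι] [Field K]

/-- the subgroups of Eichler transformations for the isotropic vectors -/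
noncomputable def IsU {B : Matrix ι ι K} (hB : Bᵀ = B) (S : Subgroup (Matrix ι ι K[X])ˣ) : Prop :=
  ∃ (e : ι → K) (_ : e ≠ 0) (he : bl B e e = 0), S = UE hB he

/-- the index set of the free product -/
noncomputable def Idx {B : Matrix ι ι K} (hB : Bᵀ = B) : Type := {S : Subgroup (Matrix ι ι K[X])ˣ // IsU hB S}

/-- the factors -/
noncomputable def Fa {B : Matrix ι ι K} (hB : Bᵀ = B) (i : Idx hB) : Subgroup (Matrix ι ι K[X])ˣ := i.1

/-- the congruence subgroup -/
noncomputable def NN {B : Matrix ι ι K} (hB : Bᵀ = B) : Subgroup (Matrix ι ι K[X])ˣ := ⨆ i, Fa hB i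

theorem ue_comm {B : Matrix ι ι K} (hB : Bᵀ = B) {e : ι → K} (he : bl B e e = 0)
    {g g' : (Matrix ι ι K[X])ˣ} (hg : g ∈ UE hB he) (hg' : g' ∈ UE hB he) : g * g' = g' * g := by
  have hee : bl (Bp B) (cv e) (cv e) = 0 := by rw [bl_cv, he, C_0]
  obtain ⟨v, h, hv, hh, h0, hg⟩ := hg
  obtain ⟨v', h', hv', hh', h0', hg'⟩ := hg'
  apply Units.ext
  rw [Units.val_mul, Units.val_mul, hg, hg', Ei_mul (Bp_sym hB) hee hv hv',
    Ei_mul (Bp_sym hB) hee hv' hv, add_comm v v', bl_comm (Bp_sym hB) v' v]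
  congr 1
  ring

theorem ue_smul {B : Matrix ι ι K} (hB : Bᵀ = B) {e e' : ι → K} (he : bl B e e = 0)
    (he' : bl B e' e' = 0) {c : K} (h : e' = c • e) : UE hB he' ≤ UE hB he := by
  rintro g ⟨v, k, hv, hk, h0, hg⟩
  have h1 : (cv e' : ι → K[X]) = C c • cv e := by
    funext i
    simp [cv, h]
  by_cases hc : c = 0
  · have h3 : g = 1 := by
      apply Units.ext
      rw [hg, h1, hc, Ei_smul]
      simp only [C_0, zero_smul, zero_mul, Ei_zero]
      rfl
    rw [h3]
    exact (UE hB he).one_mem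
  refine ⟨C c • v, C c * C c * k, ?_, ?_, ?_, ?_⟩
  · rw [h1, bl_smul_right] at hv
    rw [bl_smul_left]
    exact hv
  · rw [bl_smul_left, bl_smul_right, ← hk]
    ring
  · funext i
    have h3 : (v i).coeff 0 = 0 := congrFun h0 i
    show (C c * v i).coeff 0 = 0
    rw [coeff_C_mul, h3, mul_zero]
  · rw [hg, h1, Ei_smul]

theorem word_ping {B : Matrix ι ι K} (hB : Bᵀ = B) (h2 : (2 : K) ≠ 0) (hW : W1 B) (hN : Nd B)
    (ev : Idx hB → ι → K) (he0 : ∀ i, ev i ≠ 0) (he : ∀ i, bl B (ev i) (ev i) = 0)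
    (hev : ∀ i, Fa hB i = UE hB (he i)) {i j : Idx hB}
    (w : CoprodI.NeWord (fun i => Fa hB i) i j) : ∀ (a : ι → K[X]) (d : ℕ), bd a d →
      bl B (cf a d) (ev j) ≠ 0 → ∃ d', d < d' ∧ ∃ c : K, c ≠ 0 ∧
        bd (((CoprodI.lift fun i => (Fa hB i).subtype) w.prod).1 *ᵥ a) d' ∧
        cf (((CoprodI.lift fun i => (Fa hB i).subtype) w.prod).1 *ᵥ a) d' = c • ev i := by
  induction w with
  | @singleton i x hx =>
    intro a d ha hl
    rw [CoprodI.NeWord.prod_singleton, CoprodI.lift_of]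
    obtain ⟨f, hf, hef⟩ := partner hB h2 hN (he0 i) (he i)
    have hxm : (x : (Matrix ι ι K[X])ˣ) ∈ UE hB (he i) := by
      rw [← hev]
      exact x.2
    obtain ⟨v, h, hv, hh, h0, hg⟩ := hxm
    have hne : Ei (Bp B) (cv (ev i)) v h ≠ 1 := by
      rw [← hg]
      intro h3
      apply hx
      apply Subtype.ext
      exact Units.ext h3
    obtain ⟨m, hm, c, hc, h3, h4⟩ := ping hB h2 hW (he0 i) (he i) hef hv hh h0 hne ha hl
    refine ⟨d + 2 * m, by omega, c, hc, ?_, ?_⟩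
    · show bd ((x : (Matrix ι ι K[X])ˣ).1 *ᵥ a) _
      rw [hg]
      exact h3
    · show cf ((x : (Matrix ι ι K[X])ˣ).1 *ᵥ a) _ = _
      rw [hg]
      exact h4
  | @append i j k l w₁ hjk w₂ ih₁ ih₂ =>
    intro a d ha hl
    obtain ⟨d', hd', c, hc, h3, h4⟩ := ih₂ a d ha hl
    have h5 : bl B (ev k) (ev j) ≠ 0 := by
      intro h6
      obtain ⟨c', hc'⟩ := hW (ev k) (ev j) (he0 k) (he0 j) (he k) h6 (he j)
      apply hjk
      apply Subtype.ext
      show Fa hB j = Fa hB k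
      rw [hev, hev]
      have hc0 : c' ≠ 0 := by
        rintro rfl
        rw [zero_smul] at hc'
        exact he0 j hc'
      refine le_antisymm (ue_smul hB (he k) (he j) hc') (ue_smul hB (he j) (he k) (c := c'⁻¹) ?_)
      rw [hc', smul_smul, inv_mul_cancel₀ hc0, one_smul]
    have h6 : bl B (cf (((CoprodI.lift fun i => (Fa hB i).subtype) w₂.prod).1 *ᵥ a) d') (ev j) ≠ 0 := by
      rw [h4, bl_smul_left]
      exact mul_ne_zero hc h5
    obtain ⟨d'', hd'', c'', hc'', h7, h8⟩ := ih₁ _ d' h3 h6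
    refine ⟨d'', hd'.trans hd'', c'', hc'', ?_, ?_⟩
    · rw [CoprodI.NeWord.append_prod, map_mul, Units.val_mul, ← mulVec_mulVec]
      exact h7
    · rw [CoprodI.NeWord.append_prod, map_mul, Units.val_mul, ← mulVec_mulVec]
      exact h8

/-- **Freeness.** -/
theorem free_inj {B : Matrix ι ι K} (hB : Bᵀ = B) (h2 : (2 : K) ≠ 0) (hW : W1 B) (hN : Nd B) :
    Function.Injective (CoprodI.lift fun i : Idx hB => (Fa hB i).subtype) := by
  classical
  have hex : ∀ i : Idx hB, ∃ e : ι → K, e ≠ 0 ∧ ∃ he : bl B e e = 0, Fa hB i = UE hB he := by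
    rintro ⟨S, e, he0, he, hS⟩
    exact ⟨e, he0, he, hS⟩
  choose ev he0 he hev using hex
  rw [injective_iff_map_eq_one]
  intro z hz
  by_contra hne
  obtain ⟨i, j, w, rfl⟩ := Pool.Agent.Helper686_FJ.AF.exists_nw hne
  obtain ⟨f, hf, hef⟩ := partner hB h2 hN (he0 j) (he j)
  obtain ⟨d', hd', c, hc, h3, h4⟩ := word_ping hB h2 hW hN ev he0 he hev w (cv f) 0 (bd_cv f) (by
    rw [cf_cv, bl_comm hB, hef]
    exact one_ne_zero)
  rw [hz, Units.val_one, one_mulVec] at h3 h4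
  have h5 : cf (cv f : ι → K[X]) d' = 0 := by
    funext i
    show (C (f i)).coeff d' = 0
    rw [coeff_C, if_neg (by omega)]
  rw [h5] at h4
  exact smul_ne_zero hc (he0 i) h4.symm

end Pool.Agent.Helper686_FJ.Orth
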