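import Pool.Agent.Helper686_FJ.Or5

/-!
# Orthogonal groups over polynomial rings in one variable, in a class of groups
-/

set_option autoImplicit false

namespace Pool.Agent.Helper686_FJ.Orth

open Matrix Polynomial Monoid
open Pool.Agent.Y110.FJ Pool.Agent.R684.FP Pool.Agent.H694.TR
open Pool.Agent.R941.FJ (C_equiv C_le)

section maps

variable {ι A A' : Type} [Fintype ι] [DecidableEq ι] [CommRing A] [CommRing A']

/-- the map of matrix groups given by a homomorphism of rings -/
def um (φ : A →+* A') : (Matrix ι ι A)ˣ →* (Matrix ι ι A')ˣ :=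
  Units.map (φ.mapMatrix (m := ι)).toMonoidHom

theorem um_val (φ : A →+* A') (g : (Matrix ι ι A)ˣ) : (um φ g).1 = g.1.map φ := rfl

theorem um_inj (φ : A →+* A') (hφ : Function.Injective φ) : Function.Injective (um (ι := ι) φ) := by
  intro g h hgh
  apply Units.ext
  have h1 : g.1.map φ = h.1.map φ := congrArg Units.val hgh
  exact Matrix.map_injective hφ h1

theorem um_um {A'' : Type} [CommRing A''] (φ : A →+* A') (ψ : A' →+* A'') (g : (Matrix ι ι A)ˣ) :
    um ψ (um φ g) = um (ψ.comp φ) g := by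
  apply Units.ext
  rw [um_val, um_val, um_val, Matrix.map_map]
  rfl

theorem um_id (g : (Matrix ι ι A)ˣ) : um (RingHom.id A) g = g := by
  apply Units.ext
  rw [um_val]
  simp

theorem OO_iff {B : Matrix ι ι A} {g : (Matrix ι ι A)ˣ} : g ∈ OO B ↔ g.1ᵀ * B * g.1 = B := by
  have key : ∀ x y, bl B (g.1 *ᵥ x) (g.1 *ᵥ y) = x ⬝ᵥ ((g.1ᵀ * B * g.1) *ᵥ y) := by
    intro x y
    unfold bl
    rw [mulVec_mulVec, dotProduct_comm, dotProduct_mulVec, ← mulVec_transpose, dotProduct_comm,
      mulVec_mulVec, mul_assoc]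
  constructor
  · intro h
    ext i j
    have h1 := h (Pi.single i 1) (Pi.single j 1)
    rw [key] at h1
    simpa [bl] using h1
  · intro h x y
    rw [key, h]
    rfl

theorem um_OO (φ : A →+* A') {B : Matrix ι ι A} {g : (Matrix ι ι A)ˣ} (hg : g ∈ OO B) :
    um φ g ∈ OO (B.map φ) := by
  rw [OO_iff] at hg ⊢
  rw [um_val, ← transpose_map, ← Matrix.map_mul, ← Matrix.map_mul, hg]

theorem um_OO_iff (φ : A →+* A') (hφ : Function.Injective φ) {B : Matrix ι ι A}
    {g : (Matrix ι ι A)ˣ} : um φ g ∈ OO (B.map φ) ↔ g ∈ OO B := by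
  refine ⟨fun h => ?_, um_OO φ⟩
  rw [OO_iff] at h ⊢
  rw [um_val, ← transpose_map, ← Matrix.map_mul, ← Matrix.map_mul] at h
  exact Matrix.map_injective hφ h

/-- the restriction of `um` -/
def uo (φ : A →+* A') (B : Matrix ι ι A) : OO B →* OO (B.map φ) :=
  ((um φ).comp (OO B).subtype).codRestrict (OO (B.map φ)) fun g => um_OO φ g.2

theorem uo_inj (φ : A →+* A') (hφ : Function.Injective φ) (B : Matrix ι ι A) :
    Function.Injective (uo φ B) := by
  intro x y hxy
  have h : um φ (x : (Matrix ι ι A)ˣ) = um φ (y : (Matrix ι ι A)ˣ) :=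
    congrArg (fun z : OO (B.map φ) => (z : (Matrix ι ι A')ˣ)) hxy
  exact Subtype.ext (um_inj φ hφ h)

end maps

section eval

variable {ι A : Type} [Fintype ι] [DecidableEq ι] [CommRing A]

theorem map_C_eval (B : Matrix ι ι A) : (B.map (C : A →+* A[X])).map constantCoeff = B := by
  ext i j
  simp

theorem um_C_eval (g : (Matrix ι ι A)ˣ) : um constantCoeff (um (C : A →+* A[X]) g) = g := by
  rw [um_um]
  have : (constantCoeff (R := A)).comp C = RingHom.id A := by
    ext
    simp
  rw [this, um_id]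

end eval

variable {ι K : Type} [Fintype ι] [DecidableEq ι] [Field K]

theorem cf_um (g : (Matrix ι ι K[X])ˣ) (a : ι → K[X]) :
    cf (g.1 *ᵥ a) 0 = (um constantCoeff g).1 *ᵥ cf a 0 := by
  funext i
  show (∑ j, g.1 i j * a j).coeff 0 = ∑ j, constantCoeff (g.1 i j) * (a j).coeff 0
  rw [finsetSum_coeff]
  simp [mul_coeff_zero]

theorem cst_mulVec (c : (Matrix ι ι K)ˣ) (e : ι → K) :
    (um (C : K →+* K[X]) c).1 *ᵥ cv e = cv (c.1 *ᵥ e) := by
  funext i
  show ∑ j, C (c.1 i j) * C (e j) = C (∑ j, c.1 i j * e j)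
  simp

theorem conj_UE {B : Matrix ι ι K} (hB : Bᵀ = B) {c : (Matrix ι ι K)ˣ} (hc : c ∈ OO B)
    {e e' : ι → K} (he : bl B e e = 0) (he' : bl B e' e' = 0) (h : e' = c.1 *ᵥ e)
    {x : (Matrix ι ι K[X])ˣ} (hx : x ∈ UE hB he) : um C c * x * (um C c)⁻¹ ∈ UE hB he' := by
  obtain ⟨v, k, hv, hk, h0, hg⟩ := hx
  have hγ : um (C : K →+* K[X]) c ∈ OO (Bp B) := um_OO C hc
  refine ⟨(um (C : K →+* K[X]) c).1 *ᵥ v, k, ?_, ?_, ?_, ?_⟩
  · rw [h, ← cst_mulVec, hγ, hv]
  · rw [hγ, hk]
  · rw [cf_um, h0, mulVec_zero]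
  · rw [Units.val_mul, Units.val_mul, hg, conj_Ei hγ, cst_mulVec, h]

section main

variable {C' : ∀ (G : Type) [Group G], Prop}

/-- **Orthogonal groups of forms of Witt index at most one over polynomial rings.** -/
theorem poly_iff (hC : ClosedE C') (hF : FbC C') (hS : Sol C') {R : Type} [CommRing R]
    (j : R →+* K) (hj : Function.Injective j) (h2 : (2 : K) ≠ 0) (B : Matrix ι ι R) (hB : Bᵀ = B)
    (hW : W1 (B.map j)) (hN : Nd (B.map j)) :
    C' (OO (B.map (C : R →+* R[X]))) ↔ C' (OO B) := by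
  constructor
  · intro h
    exact hC.base.of_injective _ _ (uo C B) (uo_inj C C_injective B) h
  intro h
  obtain ⟨BK, hBK⟩ : ∃ BK, BK = B.map j := ⟨_, rfl⟩
  rw [← hBK] at hW hN
  have hBKs : BKᵀ = BK := by
    rw [hBK, ← transpose_map, hB]
  -- the constant matrices
  let Γ : Subgroup (Matrix ι ι K[X])ˣ := (OO B).map (um ((C : K →+* K[X]).comp j))
  have hinjC : Function.Injective ((C : K →+* K[X]).comp j) := C_injective.comp hj
  have hΓ : C' Γ := by
    refine C_equiv hC.base ?_ h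
    exact ((OO B).equivMapOfInjective _ (um_inj _ hinjC)).symm
  have hΓc : ∀ γ ∈ Γ, ∃ c ∈ OO BK, um (C : K →+* K[X]) c = γ := by
    rintro γ ⟨g, hg, rfl⟩
    refine ⟨um j g, ?_, um_um _ _ _⟩
    rw [hBK]
    exact um_OO j hg
  have hNe : ∀ g ∈ NN hBKs, um constantCoeff g = 1 := by
    have h1 : NN hBKs ≤ (um (ι := ι) (constantCoeff (R := K))).ker := by
      refine iSup_le fun i => ?_
      obtain ⟨S, e, he0, he, hS⟩ := i
      intro g hg
      have hg' : g ∈ UE hBKs he := by
        rw [← hS]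
        exact hg
      rw [MonoidHom.mem_ker]
      apply Units.ext
      apply mat_ext
      intro z
      have h3 := ue_zero hBKs he hg' h2 (cv z)
      rw [cf_um, cf_cv] at h3
      rw [h3, Units.val_one, one_mulVec]
    exact h1
  have key : C' ↥(NN hBKs ⊔ Γ) := by
    refine lemL hC hF hS Γ (NN hBKs) (Fa hBKs) rfl (free_inj hBKs h2 hW hN) ?_ ?_ ?_ hΓ
    · rintro ⟨S, e, he0, he, hS⟩ x hx y hy
      have hx' : x ∈ UE hBKs he := by
        rw [← hS]
        exact hx
      have hy' : y ∈ UE hBKs he := by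
        rw [← hS]
        exact hy
      exact ue_comm hBKs he hx' hy'
    · rintro γ hγ ⟨S, e, he0, he, hS⟩
      obtain ⟨c, hc, rfl⟩ := hΓc γ hγ
      have he' : bl BK (c.1 *ᵥ e) (c.1 *ᵥ e) = 0 := by rw [hc, he]
      have he0' : c.1 *ᵥ e ≠ 0 := by
        intro h1
        apply he0
        have h3 : (c⁻¹).1 *ᵥ (c.1 *ᵥ e) = e := by rw [mulVec_mulVec, Units.inv_mul, one_mulVec]
        rw [← h3, h1, mulVec_zero]
      refine ⟨⟨UE hBKs he', c.1 *ᵥ e, he0', he', rfl⟩, fun x => ?_⟩
      constructor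
      · intro hx
        have hx' : x ∈ UE hBKs he := by
          rw [← hS]
          exact hx
        exact conj_UE hBKs hc he he' rfl hx'
      · intro hx
        have hx' : um C c * x * (um C c)⁻¹ ∈ UE hBKs he' := hx
        have h1 := conj_UE hBKs ((OO BK).inv_mem hc) he' he (by
          rw [mulVec_mulVec, Units.inv_mul, one_mulVec]) hx'
        have h3 : um C c⁻¹ * (um C c * x * (um C c)⁻¹) * (um C c⁻¹)⁻¹ = x := by
          rw [map_inv]
          group
        rw [h3] at h1
        show x ∈ S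
        rw [hS]
        exact h1
    · intro γ hγ hγN
      obtain ⟨c, hc, rfl⟩ := hΓc γ hγ
      have h1 := hNe _ hγN
      rw [um_C_eval] at h1
      rw [h1, map_one]
  -- the embedding
  have hmapC : (B.map (C : R →+* R[X])).map (mapRingHom j) = Bp BK := by
    rw [hBK]
    ext i k
    simp
  have hmem : ∀ g : OO (B.map (C : R →+* R[X])), um (mapRingHom j) g.1 ∈ NN hBKs ⊔ Γ := by
    intro g
    have hG : um (mapRingHom j) g.1 ∈ OO (Bp BK) := by
      rw [← hmapC]
      exact um_OO _ g.2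
    have hg0 : um constantCoeff g.1 ∈ OO B := by
      have := um_OO (constantCoeff (R := R)) g.2
      rwa [map_C_eval] at this
    have hγ : um ((C : K →+* K[X]).comp j) (um constantCoeff g.1) ∈ Γ := ⟨_, hg0, rfl⟩
    have hγO : um ((C : K →+* K[X]).comp j) (um constantCoeff g.1) ∈ OO (Bp BK) := by
      have h1 := um_OO ((C : K →+* K[X]).comp j) hg0
      have h3 : B.map ((C : K →+* K[X]).comp j) = Bp BK := by
        rw [hBK]
        ext i k
        simp
      rwa [h3] at h1
    have hN1 : um (mapRingHom j) g.1 *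
        (um ((C : K →+* K[X]).comp j) (um constantCoeff g.1))⁻¹ ∈ NN hBKs := by
      refine gen_all hBKs h2 hW hN (NN hBKs) ?_ ((OO _).mul_mem hG ((OO _).inv_mem hγO)) ?_
      · intro e he0 he
        exact le_iSup (Fa hBKs) ⟨UE hBKs he, e, he0, he, rfl⟩
      · intro a
        rw [cf_um, map_mul, map_inv, um_um, um_um, um_um]
        have h1 : (constantCoeff (R := K)).comp (mapRingHom j) = j.comp constantCoeff := by
          ext <;> simp
        have h3 : ((constantCoeff (R := K)).comp ((C : K →+* K[X]).comp j)).comp constantCoeff =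
            j.comp constantCoeff := by
          ext <;> simp
        rw [h1, h3, mul_inv_cancel, Units.val_one, one_mulVec]
    have h3 : um (mapRingHom j) g.1 = (um (mapRingHom j) g.1 *
        (um ((C : K →+* K[X]).comp j) (um constantCoeff g.1))⁻¹) *
        um ((C : K →+* K[X]).comp j) (um constantCoeff g.1) := by group
    rw [h3]
    exact mul_mem (Subgroup.mem_sup_left hN1) (Subgroup.mem_sup_right hγ)
  refine hC.base.of_injective _ _ (((um (mapRingHom j)).comp
    (OO (B.map (C : R →+* R[X]))).subtype).codRestrict (NN hBKs ⊔ Γ) hmem) ?_ key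
  intro x y hxy
  have h1 : um (mapRingHom j) x.1 = um (mapRingHom j) y.1 :=
    congrArg (fun z : ↥(NN hBKs ⊔ Γ) => (z : (Matrix ι ι K[X])ˣ)) hxy
  exact Subtype.ext (um_inj _ (map_injective j hj) h1)

end main

end Pool.Agent.Helper686_FJ.Orth
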