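import Pool.Agent.Helper686_FJ.Or6

/-!
# The condition on the Witt index over polynomial rings
-/

set_option autoImplicit false

namespace Pool.Agent.Helper686_FJ.Orth

open Matrix Polynomial Monoid

variable {ι : Type} [Fintype ι] [DecidableEq ι]

/-- Any two orthogonal isotropic vectors are proportional. -/
def WR {R : Type} [CommRing R] (B : Matrix ι ι R) : Prop :=
  ∀ x y : ι → R, bl B x x = 0 → bl B x y = 0 → bl B y y = 0 → ∀ i j, x i * y j = x j * y i

theorem bl_map {R S : Type} [CommRing R] [CommRing S] (φ : R →+* S) (B : Matrix ι ι R)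
    (x y : ι → R) : bl (B.map φ) (φ ∘ x) (φ ∘ y) = φ (bl B x y) := by
  show ∑ i, φ (x i) * ∑ j, φ (B i j) * φ (y j) = φ (∑ i, x i * ∑ j, B i j * y j)
  simp [map_sum]

theorem WR_of_inj {R S : Type} [CommRing R] [CommRing S] (φ : R →+* S)
    (hφ : Function.Injective φ) {B : Matrix ι ι R} (h : WR (B.map φ)) : WR B := by
  intro x y hx hxy hy i j
  apply hφ
  have h1 := h (φ ∘ x) (φ ∘ y) (by rw [bl_map, hx, map_zero]) (by rw [bl_map, hxy, map_zero])
    (by rw [bl_map, hy, map_zero]) i j
  rw [map_mul, map_mul]
  exact h1

/-- from the domain to its field of fractions -/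
theorem W1_of_WR {R K : Type} [CommRing R] [IsDomain R] [Field K] [Algebra R K]
    [IsFractionRing R K] {B : Matrix ι ι R} (h : WR B) : W1 (B.map (algebraMap R K)) := by
  have hinj : Function.Injective (algebraMap R K) := IsFractionRing.injective R K
  intro x y hx0 hy0 hx hxy hy
  obtain ⟨s, hs⟩ := IsLocalization.exist_integer_multiples_of_finite (nonZeroDivisors R) x
  obtain ⟨t, ht⟩ := IsLocalization.exist_integer_multiples_of_finite (nonZeroDivisors R) y
  choose x' hx' using hs
  choose y' hy' using ht
  have hs0 : algebraMap R K s ≠ 0 := by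
    rw [Ne, ← map_zero (algebraMap R K)]
    exact fun h => nonZeroDivisors.ne_zero s.2 (hinj h)
  have ht0 : algebraMap R K t ≠ 0 := by
    rw [Ne, ← map_zero (algebraMap R K)]
    exact fun h => nonZeroDivisors.ne_zero t.2 (hinj h)
  have ex : (algebraMap R K) ∘ x' = (algebraMap R K s) • x := by
    funext i
    show algebraMap R K (x' i) = _
    rw [hx' i]
    show (s : R) • x i = algebraMap R K s * x i
    rw [Algebra.smul_def]
  have ey : (algebraMap R K) ∘ y' = (algebraMap R K t) • y := by
    funext i
    show algebraMap R K (y' i) = _
    rw [hy' i]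
    show (t : R) • y i = algebraMap R K t * y i
    rw [Algebra.smul_def]
  have h1 := h x' y' (by
      apply hinj
      rw [← bl_map, ex, bl_smul_left, bl_smul_right, hx]
      simp) (by
      apply hinj
      rw [← bl_map, ex, ey, bl_smul_left, bl_smul_right, hxy]
      simp) (by
      apply hinj
      rw [← bl_map, ey, bl_smul_left, bl_smul_right, hy]
      simp)
  have h3 : ∀ i j, x i * y j = x j * y i := by
    intro i j
    have h4 := congrArg (algebraMap R K) (h1 i j)
    rw [map_mul, map_mul] at h4
    have e1 : ∀ k, algebraMap R K (x' k) = algebraMap R K s * x k := fun k => congrFun ex k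
    have e2 : ∀ k, algebraMap R K (y' k) = algebraMap R K t * y k := fun k => congrFun ey k
    rw [e1, e1, e2, e2] at h4
    have h5 : algebraMap R K s * algebraMap R K t ≠ 0 := mul_ne_zero hs0 ht0
    apply mul_left_cancel₀ h5
    linear_combination h4
  obtain ⟨i, hi⟩ : ∃ i, x i ≠ 0 := by
    by_contra h
    push Not at h
    exact hx0 (funext h)
  refine ⟨y i / x i, ?_⟩
  funext j
  show y j = y i / x i * x j
  field_simp
  linear_combination h3 i j

variable {K : Type} [Field K]

/-- over the polynomial ring over a field -/
theorem WR_poly_field {B : Matrix ι ι K} (hB : Bᵀ = B) (h : WR B) : WR (Bp B) := by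
  have key : ∀ n p q : ℕ, p + q = n → ∀ a c : ι → K[X], bd a p → bd c q → bl (Bp B) a a = 0 →
      bl (Bp B) a c = 0 → bl (Bp B) c c = 0 → ∀ i j, a i * c j = a j * c i := by
    intro n
    induction n with
    | zero =>
      intro p q hpq a c ha hc haa hac hcc i j
      obtain ⟨rfl, rfl⟩ : p = 0 ∧ q = 0 := by omega
      rw [cv_cf ha, cv_cf hc]
      have h1 := h (cf a 0) (cf c 0) (by rw [← bl_zero, haa, coeff_zero])
        (by rw [← bl_zero, hac, coeff_zero]) (by rw [← bl_zero, hcc, coeff_zero]) i j
      show C _ * C _ = C _ * C _
      rw [← C_mul, ← C_mul, h1]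
    | succ n ih =>
      -- the case `q ≤ p`
      have T : ∀ p q : ℕ, p + q = n + 1 → q ≤ p → ∀ a c : ι → K[X], bd a p → bd c q →
          bl (Bp B) a a = 0 → bl (Bp B) a c = 0 → bl (Bp B) c c = 0 →
          ∀ i j, a i * c j = a j * c i := by
        intro p q hpq hqp a c ha hc haa hac hcc i j
        have hp1 : 1 ≤ p := by omega
        by_cases hc0 : cf c q = 0
        · rcases Nat.eq_zero_or_pos q with hq | hq
          · subst hq
            have h1 : c = 0 := by
              rw [cv_cf hc, hc0]
              funext i
              simp [cv]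
            rw [h1]
            simp
          · exact ih p (q - 1) (by omega) a c ha (fun i => natDegree_le_pred (hc i) (congrFun hc0 i))
              haa hac hcc i j
        · obtain ⟨k, hk⟩ : ∃ k, cf c q k ≠ 0 := by
            by_contra h
            push Not at h
            exact hc0 (funext h)
          obtain ⟨l, hl⟩ : ∃ l, l = cf a p k / cf c q k := ⟨_, rfl⟩
          have hm := h (cf a p) (cf c q) (by
              have h1 := bl_top B ha ha
              rw [haa, coeff_zero] at h1
              exact h1.symm) (by
              have h1 := bl_top B ha hc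
              rw [hac, coeff_zero] at h1
              exact h1.symm) (by
              have h1 := bl_top B hc hc
              rw [hcc, coeff_zero] at h1
              exact h1.symm)
          have hal : ∀ m, cf a p m = l * cf c q m := by
            intro m
            rw [hl]
            field_simp
            exact hm m k
          obtain ⟨r, hr⟩ : ∃ r, p = r + q := ⟨p - q, by omega⟩
          obtain ⟨P, hP⟩ : ∃ P : K[X], P = C l * X ^ r := ⟨_, rfl⟩
          obtain ⟨a', ha'⟩ : ∃ a', a' = a - P • c := ⟨_, rfl⟩
          have hPn : P.natDegree ≤ r := by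
            rw [hP]
            exact natDegree_C_mul_X_pow_le _ _
          have hPc : P.coeff r = l := by
            rw [hP, coeff_C_mul_X_pow, if_pos rfl]
          have hbd : bd a' (p - 1) := by
            intro m
            rw [ha']
            refine natDegree_le_pred ?_ ?_
            · refine (natDegree_sub_le_of_le (ha m) (natDegree_mul_le_of_le hPn (hc m))).trans ?_
              rw [hr]
              simp
            · show (a m - P * c m).coeff p = 0
              have e1 : (P * c m).coeff p = l * cf c q m := by
                rw [hr, coeff_mul_add_eq_of_natDegree_le hPn (hc m), hPc]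
                rfl
              rw [coeff_sub, e1, ← hal m]
              exact sub_self _
          have hBp := Bp_sym hB
          have h3 := ih (p - 1) q (by omega) a' c hbd hc (by
              rw [ha', bl_sub_left, bl_sub_right, bl_sub_right, bl_smul_left, bl_smul_right,
                bl_smul_left, bl_smul_right, haa, hac, bl_comm hBp c a, hac, hcc]
              ring) (by
              rw [ha', bl_sub_left, bl_smul_left, hac, hcc]
              ring) hcc i j
          rw [ha'] at h3
          simp only [Pi.sub_apply, Pi.smul_apply, smul_eq_mul] at h3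
          linear_combination h3
      intro p q hpq a c ha hc haa hac hcc i j
      rcases le_total q p with hqp | hqp
      · exact T p q hpq hqp a c ha hc haa hac hcc i j
      · have h1 := T q p (by omega) hqp c a hc ha hcc (by rw [bl_comm (Bp_sym hB)]; exact hac) haa i j
        linear_combination -h1
  intro a c haa hac hcc i j
  obtain ⟨p, hp⟩ : ∃ p, bd a p := ⟨Finset.univ.sup fun i => (a i).natDegree, fun i =>
    Finset.le_sup (f := fun i => (a i).natDegree) (Finset.mem_univ i)⟩
  obtain ⟨q, hq⟩ : ∃ q, bd c q := ⟨Finset.univ.sup fun i => (c i).natDegree, fun i =>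
    Finset.le_sup (f := fun i => (c i).natDegree) (Finset.mem_univ i)⟩
  exact key (p + q) p q rfl a c hp hq haa hac hcc i j

theorem WR_of_W1 {B : Matrix ι ι K} (h : W1 B) : WR B := by
  intro x y hx hxy hy i j
  by_cases hx0 : x = 0
  · simp [hx0]
  by_cases hy0 : y = 0
  · simp [hy0]
  obtain ⟨c, hc⟩ := h x y hx0 hy0 hx hxy hy
  rw [hc]
  simp only [Pi.smul_apply, smul_eq_mul]
  ring

/-- over polynomial rings over domains -/
theorem WR_poly {R : Type} [CommRing R] [IsDomain R] {B : Matrix ι ι R} (hB : Bᵀ = B)
    (h : WR B) : WR (B.map (C : R →+* R[X])) := by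
  have h1 : W1 (B.map (algebraMap R (FractionRing R))) := W1_of_WR h
  have hBs : (B.map (algebraMap R (FractionRing R)))ᵀ = B.map (algebraMap R (FractionRing R)) := by
    rw [← transpose_map, hB]
  have h3 := WR_poly_field hBs (WR_of_W1 h1)
  refine WR_of_inj (mapRingHom (algebraMap R (FractionRing R)))
    (map_injective _ (IsFractionRing.injective _ _)) ?_
  have h4 : (B.map (C : R →+* R[X])).map (mapRingHom (algebraMap R (FractionRing R))) =
      Bp (B.map (algebraMap R (FractionRing R))) := by
    ext i k
    simp
  rw [h4]
  exact h3

theorem Nd_of_det {B : Matrix ι ι K} (h : B.det ≠ 0) : Nd B := by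
  intro x hx
  refine Matrix.eq_zero_of_vecMul_eq_zero h ?_
  funext j
  have h1 := hx (Pi.single j 1)
  unfold bl at h1
  rw [dotProduct_mulVec] at h1
  simpa using h1

end Pool.Agent.Helper686_FJ.Orth
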