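import Pool.Agent.Helper686_FJ.Or7
import Pool.Agent.Y430.SS.Lf
import Mathlib.Algebra.MvPolynomial.Supported

/-!
# Orthogonal groups over polynomial rings in several variables
-/

set_option autoImplicit false

namespace Pool.Agent.Helper686_FJ.Orth

open Matrix Monoid
open Pool.Agent.Y110.FJ Pool.Agent.R684.FP Pool.Agent.H694.TR
open Pool.Agent.R941.FJ (C_equiv C_le)
open Pool.Agent.Y430.SS (of_directed)

variable {ι : Type} [Fintype ι] [DecidableEq ι] {C' : ∀ (G : Type) [Group G], Prop}

theorem det_map {R S : Type} [CommRing R] [CommRing S] (φ : R →+* S) (B : Matrix ι ι R) :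
    (B.map φ).det = φ B.det := (RingHom.map_det φ B).symm

theorem two_map {R S : Type} [CommRing R] [CommRing S] (φ : R →+* S)
    (hφ : Function.Injective φ) (h : (2 : R) ≠ 0) : (2 : S) ≠ 0 := by
  intro h2
  apply h
  apply hφ
  rw [map_ofNat, map_zero]
  exact h2

/-- polynomial rings in one variable over domains -/
theorem dom_iff (hC : ClosedE C') (hF : FbC C') (hS : Sol C') {R : Type} [CommRing R] [IsDomain R]
    (h2 : (2 : R) ≠ 0) (B : Matrix ι ι R) (hB : Bᵀ = B) (hd : B.det ≠ 0) (hW : WR B) :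
    C' (OO (B.map (Polynomial.C : R →+* Polynomial R))) ↔ C' (OO B) := by
  have hinj : Function.Injective (algebraMap R (FractionRing R)) := IsFractionRing.injective _ _
  refine poly_iff hC hF hS (algebraMap R (FractionRing R)) hinj (two_map _ hinj h2) B hB
    (W1_of_WR hW) (Nd_of_det ?_)
  rw [det_map]
  intro h
  apply hd
  apply hinj
  rw [h, map_zero]

/-- pulling back along an injective homomorphism of rings -/
theorem oo_inj (hC : ClosedE C') {R S : Type} [CommRing R] [CommRing S] (φ : R →+* S)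
    (hφ : Function.Injective φ) {B : Matrix ι ι R} {B' : Matrix ι ι S} (hB : B.map φ = B')
    (h : C' (OO B')) : C' (OO B) := by
  subst hB
  exact hC.base.of_injective _ _ (uo φ B) (uo_inj φ hφ B) h

theorem fin_vars (hC : ClosedE C') (hF : FbC C') (hS : Sol C') {R : Type} [CommRing R] [IsDomain R]
    (h2 : (2 : R) ≠ 0) (B : Matrix ι ι R) (hB : Bᵀ = B) (hd : B.det ≠ 0) (hW : WR B)
    (hR : C' (OO B)) (n : ℕ) :
    WR (B.map (MvPolynomial.C : R →+* MvPolynomial (Fin n) R)) ∧
      C' (OO (B.map (MvPolynomial.C : R →+* MvPolynomial (Fin n) R))) := by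
  induction n with
  | zero =>
    have hinj := (MvPolynomial.isEmptyRingEquiv R (Fin 0)).injective
    have h1 : (B.map (MvPolynomial.C : R →+* MvPolynomial (Fin 0) R)).map
        (MvPolynomial.isEmptyRingEquiv R (Fin 0)).toRingHom = B := by
      ext i j
      show MvPolynomial.isEmptyRingEquiv R (Fin 0) (MvPolynomial.C (B i j)) = B i j
      rw [← MvPolynomial.isEmptyRingEquiv_symm_apply, RingEquiv.apply_symm_apply]
    constructor
    · refine WR_of_inj (MvPolynomial.isEmptyRingEquiv R (Fin 0)).toRingHom hinj ?_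
      rw [h1]
      exact hW
    · exact oo_inj hC _ hinj h1 hR
  | succ n ih =>
    obtain ⟨ih1, ih2⟩ := ih
    have hinjC : Function.Injective (MvPolynomial.C : R →+* MvPolynomial (Fin n) R) :=
      MvPolynomial.C_injective _ _
    let φ : MvPolynomial (Fin (n + 1)) R →+* Polynomial (MvPolynomial (Fin n) R) :=
      (MvPolynomial.finSuccEquiv R n).toRingEquiv.toRingHom
    have hinj : Function.Injective φ := (MvPolynomial.finSuccEquiv R n).injective
    have h1 : (B.map (MvPolynomial.C : R →+* MvPolynomial (Fin (n + 1)) R)).map φ =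
        (B.map (MvPolynomial.C : R →+* MvPolynomial (Fin n) R)).map
          (Polynomial.C : _ →+* Polynomial (MvPolynomial (Fin n) R)) := by
      ext1 i j
      show MvPolynomial.finSuccEquiv R n (MvPolynomial.C (B i j)) =
        Polynomial.C (MvPolynomial.C (B i j))
      simp [MvPolynomial.finSuccEquiv_apply]
    have hBn : (B.map (MvPolynomial.C : R →+* MvPolynomial (Fin n) R))ᵀ =
        B.map (MvPolynomial.C : R →+* MvPolynomial (Fin n) R) := by
      rw [← transpose_map, hB]
    constructor
    · refine WR_of_inj φ hinj ?_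
      rw [h1]
      exact WR_poly hBn ih1
    · refine oo_inj hC _ hinj h1 ((dom_iff hC hF hS (two_map _ hinjC h2) _ hBn ?_ ih1).2 ih2)
      rw [det_map]
      intro h
      apply hd
      apply hinjC
      rw [h, map_zero]

/-- directed unions of rings -/
theorem oo_directed (hC : ClosedE C') {A : Type} [CommRing A] (B : Matrix ι ι A) (I : Type)
    [Preorder I] [Nonempty I] (hI : ∀ i j : I, ∃ k, i ≤ k ∧ j ≤ k) (S : I → Subring A)
    (hS : Monotone S) (hg : ∀ s : Finset A, ∃ i, ∀ r ∈ s, r ∈ S i) (Bi : ∀ i, Matrix ι ι (S i))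
    (hBi : ∀ i, (Bi i).map (S i).subtype = B) (hc : ∀ i, C' (OO (Bi i))) : C' (OO B) := by
  refine of_directed hC.base (OO B) I hI
    (fun i => ((um (ι := ι) (S i).subtype).range).subgroupOf (OO B)) ?_ ?_ ?_
  · intro i j hij g hg
    obtain ⟨h, hh⟩ := Subgroup.mem_subgroupOf.1 hg
    refine Subgroup.mem_subgroupOf.2 ⟨um (Subring.inclusion (hS hij)) h, ?_⟩
    rw [um_um, ← hh]
    rfl
  · intro g
    classical
    obtain ⟨i, hi⟩ := hg (Finset.univ.image (fun p : ι × ι => g.1.1 p.1 p.2) ∪
      Finset.univ.image (fun p : ι × ι => g.1⁻¹.1 p.1 p.2))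
    have h1 : ∀ a b, g.1.1 a b ∈ S i := fun a b => hi _ (Finset.mem_union_left _
      (Finset.mem_image.2 ⟨(a, b), Finset.mem_univ _, rfl⟩))
    have h2 : ∀ a b, g.1⁻¹.1 a b ∈ S i := fun a b => hi _ (Finset.mem_union_right _
      (Finset.mem_image.2 ⟨(a, b), Finset.mem_univ _, rfl⟩))
    have hinj : Function.Injective ((S i).subtype.mapMatrix (m := ι)) := by
      intro P Q h
      ext a b
      exact congrFun (congrFun h a) b
    let P : Matrix ι ι (S i) := fun a b => ⟨g.1.1 a b, h1 a b⟩
    let Q : Matrix ι ι (S i) := fun a b => ⟨g.1⁻¹.1 a b, h2 a b⟩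
    have hP : (S i).subtype.mapMatrix P = g.1.1 := rfl
    have hQ : (S i).subtype.mapMatrix Q = g.1⁻¹.1 := rfl
    refine ⟨i, Subgroup.mem_subgroupOf.2 ⟨⟨P, Q, hinj ?_, hinj ?_⟩, ?_⟩⟩
    · rw [map_mul, hP, hQ, map_one, Units.mul_inv]
    · rw [map_mul, hP, hQ, map_one, Units.inv_mul]
    · apply Units.ext
      exact hP
  · intro i
    have hinj : Function.Injective (S i).subtype := Subtype.val_injective
    -- the subgroup is the image of `OO (Bi i)`
    have hle : ∀ g : ↥(((um (ι := ι) (S i).subtype).range).subgroupOf (OO B)),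
        ∃ h : OO (Bi i), um (S i).subtype h.1 = (g : OO B).1 := by
      intro g
      obtain ⟨h, hh⟩ := Subgroup.mem_subgroupOf.1 g.2
      refine ⟨⟨h, ?_⟩, hh⟩
      rw [← um_OO_iff (S i).subtype hinj, hBi, hh]
      exact (g : OO B).2
    choose f hf using hle
    refine hC.base.of_injective _ _ (MonoidHom.mk' f ?_) ?_ (hc i)
    · intro a b
      apply Subtype.ext
      apply um_inj _ hinj
      rw [hf]
      show _ = um _ ((f a).1 * (f b).1)
      rw [map_mul, hf, hf]
      rfl
    · intro a b hab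
      have h1 : f a = f b := hab
      apply Subtype.ext
      apply Subtype.ext
      rw [← hf a, ← hf b, h1]

/-- **Polynomial rings in any number of variables.** -/
theorem mv_iff (hC : ClosedE C') (hF : FbC C') (hS : Sol C') {R : Type} [CommRing R] [IsDomain R]
    (h2 : (2 : R) ≠ 0) (B : Matrix ι ι R) (hB : Bᵀ = B) (hd : B.det ≠ 0) (hW : WR B) (σ : Type) :
    C' (OO (B.map (MvPolynomial.C : R →+* MvPolynomial σ R))) ↔ C' (OO B) := by
  constructor
  · intro h
    exact oo_inj hC _ (MvPolynomial.C_injective _ _) rfl h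
  intro hR
  classical
  refine oo_directed hC _ (Finset σ) (fun i j => ⟨i ∪ j, Finset.subset_union_left,
    Finset.subset_union_right⟩)
    (fun s => (MvPolynomial.supported R (s : Set σ)).toSubring) ?_ ?_
    (fun s => B.map (algebraMap R (MvPolynomial.supported R (s : Set σ)))) ?_ ?_
  · intro s t hst
    exact MvPolynomial.supported_mono (Finset.coe_subset.2 hst)
  · intro s
    refine ⟨s.biUnion fun p => p.vars, fun r hr => ?_⟩
    show r ∈ MvPolynomial.supported R _
    rw [MvPolynomial.mem_supported, Finset.coe_subset]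
    exact Finset.subset_biUnion_of_mem (fun p : MvPolynomial σ R => p.vars) hr
  · intro s
    ext1 i j
    rfl
  · intro s
    have h1 := (fin_vars hC hF hS h2 B hB hd hW hR s.card).2
    have e1 : (MvPolynomial.supported R (s : Set σ)) ≃ₐ[R] MvPolynomial s R :=
      MvPolynomial.supportedEquivMvPolynomial _
    have e2 : MvPolynomial s R ≃ₐ[R] MvPolynomial (Fin s.card) R :=
      MvPolynomial.renameEquiv R s.equivFin
    have e3 := e1.trans e2
    refine oo_inj hC (e3 : _ →+* _) e3.injective ?_ h1
    ext1 i j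
    show e3 (algebraMap R _ (B i j)) = MvPolynomial.C (B i j)
    rw [AlgEquiv.commutes]
    rfl

/-! ### Lorentz forms -/

/-- the form `- x₀² + x₁² + ... + xₙ²` -/
def lor (R : Type) [CommRing R] (n : ℕ) : Matrix (Fin (n + 1)) (Fin (n + 1)) R :=
  Matrix.diagonal fun i => if i = 0 then -1 else 1

theorem lor_symm (R : Type) [CommRing R] (n : ℕ) : (lor R n)ᵀ = lor R n :=
  Matrix.diagonal_transpose _

theorem lor_det (R : Type) [CommRing R] [Nontrivial R] (n : ℕ) : (lor R n).det ≠ 0 := by
  rw [lor, Matrix.det_diagonal, Fin.prod_univ_succ]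
  simp [Fin.succ_ne_zero]

theorem bl_lor {R : Type} [CommRing R] {n : ℕ} (x y : Fin (n + 1) → R) :
    bl (lor R n) x y = -(x 0 * y 0) + ∑ i : Fin n, x i.succ * y i.succ := by
  unfold bl lor
  rw [dotProduct, Fin.sum_univ_succ]
  simp [Matrix.mulVec_diagonal, Fin.succ_ne_zero]

theorem lor_WR (R : Type) [CommRing R] [LinearOrder R] [IsStrictOrderedRing R] (n : ℕ) :
    WR (lor R n) := by
  intro x y hx hxy hy
  rw [bl_lor] at hx hxy hy
  have h1 : ∑ i : Fin n, (x 0 * y i.succ - y 0 * x i.succ) ^ 2 = 0 := by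
    have h2 : ∑ i : Fin n, (x 0 * y i.succ - y 0 * x i.succ) ^ 2 =
        x 0 ^ 2 * ∑ i : Fin n, y i.succ * y i.succ -
        2 * x 0 * y 0 * ∑ i : Fin n, x i.succ * y i.succ +
        y 0 ^ 2 * ∑ i : Fin n, x i.succ * x i.succ := by
      rw [Finset.mul_sum, Finset.mul_sum, Finset.mul_sum, ← Finset.sum_sub_distrib,
        ← Finset.sum_add_distrib]
      refine Finset.sum_congr rfl fun i _ => ?_
      ring
    rw [h2]
    linear_combination x 0 ^ 2 * hy - 2 * x 0 * y 0 * hxy + y 0 ^ 2 * hx
  have h3 : ∀ i : Fin n, x 0 * y i.succ = y 0 * x i.succ := by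
    intro i
    have h4 := (Finset.sum_eq_zero_iff_of_nonneg fun i _ => sq_nonneg _).1 h1 i (Finset.mem_univ i)
    exact sub_eq_zero.mp (pow_eq_zero_iff (two_ne_zero)|>.1 h4)
  have h5 : ∀ i, x 0 * y i = y 0 * x i := by
    intro i
    induction i using Fin.cases with
    | zero => ring
    | succ i => exact h3 i
  intro i j
  by_cases h0 : x 0 = 0
  · have h6 : ∀ k : Fin n, x k.succ = 0 := by
      intro k
      rw [h0] at hx
      have h7 : ∑ i : Fin n, x i.succ * x i.succ = 0 := by
        linear_combination hx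
      have h8 := (Finset.sum_eq_zero_iff_of_nonneg fun i _ => mul_self_nonneg _).1 h7 k
        (Finset.mem_univ k)
      exact mul_self_eq_zero.mp h8
    have h7 : ∀ k, x k = 0 := by
      intro k
      induction k using Fin.cases with
      | zero => exact h0
      | succ k => exact h6 k
    rw [h7 i, h7 j]
    ring
  · apply mul_left_cancel₀ h0
    linear_combination x i * h5 j - x j * h5 i

end Pool.Agent.Helper686_FJ.Orth
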