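import Pool.Agent.Helper686_FJ.Or8

/-!
# Preimages of subgroups in orthogonal groups over polynomial rings
-/

set_option autoImplicit false

namespace Pool.Agent.Helper686_FJ.Orth

open Matrix Monoid
open Pool.Agent.Y110.FJ Pool.Agent.R684.FP Pool.Agent.H694.TR
open Pool.Agent.R941.FJ (C_equiv C_le)
open Pool.Agent.Y430.SS (of_directed)

variable {ι : Type} [Fintype ι] [DecidableEq ι] {C' : ∀ (G : Type) [Group G], Prop}

/-- the elements of `O(B)` over `A` which are mapped to `H` by `φ` -/
def Pre {A R : Type} [CommRing A] [CommRing R] (φ : A →+* R) (B : Matrix ι ι A)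
    (H : Subgroup (Matrix ι ι R)ˣ) : Subgroup (Matrix ι ι A)ˣ := OO B ⊓ H.comap (um φ)

/-- pulling back along an injective homomorphism of rings -/
theorem pre_inj (hC : ClosedE C') {A A' R R' : Type} [CommRing A] [CommRing A'] [CommRing R]
    [CommRing R'] (f : A →+* A') (hf : Function.Injective f) {B : Matrix ι ι A} {B' : Matrix ι ι A'}
    (hB : B.map f = B') (φ : A →+* R) (φ' : A' →+* R') (H : Subgroup (Matrix ι ι R)ˣ)
    (H' : Subgroup (Matrix ι ι R')ˣ) (hH : ∀ g ∈ OO B, um φ g ∈ H → um φ' (um f g) ∈ H')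
    (h : C' (Pre φ' B' H')) : C' (Pre φ B H) := by
  subst hB
  have hmem : ∀ g : Pre φ B H, um f g.1 ∈ Pre φ' (B.map f) H' := fun g =>
    ⟨um_OO f g.2.1, hH _ g.2.1 g.2.2⟩
  refine hC.base.of_injective _ _ (((um f).comp (Pre φ B H).subtype).codRestrict
    (Pre φ' (B.map f) H') hmem) ?_ h
  intro x y hxy
  have h1 : um f x.1 = um f y.1 :=
    congrArg (fun z : Pre φ' (B.map f) H' => (z : (Matrix ι ι A')ˣ)) hxy
  exact Subtype.ext (um_inj _ hf h1)

section one

open Polynomial

variable {K : Type} [Field K]

/-- **Preimages of subgroups, one variable.** -/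
theorem poly_rel (hC : ClosedE C') (hF : FbC C') (hS : Sol C') {R : Type} [CommRing R]
    (j : R →+* K) (hj : Function.Injective j) (h2 : (2 : K) ≠ 0) (B : Matrix ι ι R) (hB : Bᵀ = B)
    (hW : W1 (B.map j)) (hN : Nd (B.map j)) (H : Subgroup (Matrix ι ι R)ˣ) (hHO : H ≤ OO B)
    (h : C' H) : C' (Pre (constantCoeff (R := R)) (B.map (C : R →+* R[X])) H) := by
  obtain ⟨BK, hBK⟩ : ∃ BK, BK = B.map j := ⟨_, rfl⟩
  rw [← hBK] at hW hN
  have hBKs : BKᵀ = BK := by
    rw [hBK, ← transpose_map, hB]
  let Γ : Subgroup (Matrix ι ι K[X])ˣ := H.map (um ((C : K →+* K[X]).comp j))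
  have hinjC : Function.Injective ((C : K →+* K[X]).comp j) := C_injective.comp hj
  have hΓ : C' Γ := by
    refine C_equiv hC.base ?_ h
    exact (H.equivMapOfInjective _ (um_inj _ hinjC)).symm
  have hΓc : ∀ γ ∈ Γ, ∃ c ∈ OO BK, um (C : K →+* K[X]) c = γ := by
    rintro γ ⟨g, hg, rfl⟩
    refine ⟨um j g, ?_, um_um _ _ _⟩
    rw [hBK]
    exact um_OO j (hHO hg)
  have hNe : ∀ g ∈ NN hBKs, um constantCoeff g = 1 := by
    have h1 : NN hBKs ≤ (um (ι := ι) (constantCoeff (R := K))).ker := by
      refine iSup_le fun i => ?_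
      obtain ⟨S, e, he0, he, hS⟩ := i
      intro g hg
      have hg' : g ∈ UE hBKs he := by
        rw [← hS]
        exact hg
      rw [MonoidHom.mem_ker]
      apply Units.ext
      apply mat_ext
      intro z
      have h3 := ue_zero hBKs he hg' h2 (cv z)
      rw [cf_um, cf_cv] at h3
      rw [h3, Units.val_one, one_mulVec]
    exact h1
  have key : C' ↥(NN hBKs ⊔ Γ) := by
    refine lemL hC hF hS Γ (NN hBKs) (Fa hBKs) rfl (free_inj hBKs h2 hW hN) ?_ ?_ ?_ hΓ
    · rintro ⟨S, e, he0, he, hS⟩ x hx y hy
      have hx' : x ∈ UE hBKs he := by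
        rw [← hS]
        exact hx
      have hy' : y ∈ UE hBKs he := by
        rw [← hS]
        exact hy
      exact ue_comm hBKs he hx' hy'
    · rintro γ hγ ⟨S, e, he0, he, hS⟩
      obtain ⟨c, hc, rfl⟩ := hΓc γ hγ
      have he' : bl BK (c.1 *ᵥ e) (c.1 *ᵥ e) = 0 := by rw [hc, he]
      have he0' : c.1 *ᵥ e ≠ 0 := by
        intro h1
        apply he0
        have h3 : (c⁻¹).1 *ᵥ (c.1 *ᵥ e) = e := by rw [mulVec_mulVec, Units.inv_mul, one_mulVec]
        rw [← h3, h1, mulVec_zero]
      refine ⟨⟨UE hBKs he', c.1 *ᵥ e, he0', he', rfl⟩, fun x => ?_⟩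
      constructor
      · intro hx
        have hx' : x ∈ UE hBKs he := by
          rw [← hS]
          exact hx
        exact conj_UE hBKs hc he he' rfl hx'
      · intro hx
        have hx' : um C c * x * (um C c)⁻¹ ∈ UE hBKs he' := hx
        have h1 := conj_UE hBKs ((OO BK).inv_mem hc) he' he (by
          rw [mulVec_mulVec, Units.inv_mul, one_mulVec]) hx'
        have h3 : um C c⁻¹ * (um C c * x * (um C c)⁻¹) * (um C c⁻¹)⁻¹ = x := by
          rw [map_inv]
          group
        rw [h3] at h1
        show x ∈ S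
        rw [hS]
        exact h1
    · intro γ hγ hγN
      obtain ⟨c, hc, rfl⟩ := hΓc γ hγ
      have h1 := hNe _ hγN
      rw [um_C_eval] at h1
      rw [h1, map_one]
  have hmapC : (B.map (C : R →+* R[X])).map (mapRingHom j) = Bp BK := by
    rw [hBK]
    ext i k
    simp
  have hmem : ∀ g : Pre (constantCoeff (R := R)) (B.map (C : R →+* R[X])) H,
      um (mapRingHom j) g.1 ∈ NN hBKs ⊔ Γ := by
    intro g
    have hG : um (mapRingHom j) g.1 ∈ OO (Bp BK) := by
      rw [← hmapC]
      exact um_OO _ g.2.1
    have hg0 : um constantCoeff g.1 ∈ H := g.2.2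
    have hγ : um ((C : K →+* K[X]).comp j) (um constantCoeff g.1) ∈ Γ := ⟨_, hg0, rfl⟩
    have hγO : um ((C : K →+* K[X]).comp j) (um constantCoeff g.1) ∈ OO (Bp BK) := by
      have h1 := um_OO ((C : K →+* K[X]).comp j) (hHO hg0)
      have h3 : B.map ((C : K →+* K[X]).comp j) = Bp BK := by
        rw [hBK]
        ext i k
        simp
      rwa [h3] at h1
    have hN1 : um (mapRingHom j) g.1 *
        (um ((C : K →+* K[X]).comp j) (um constantCoeff g.1))⁻¹ ∈ NN hBKs := by
      refine gen_all hBKs h2 hW hN (NN hBKs) ?_ ((OO _).mul_mem hG ((OO _).inv_mem hγO)) ?_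
      · intro e he0 he
        exact le_iSup (Fa hBKs) ⟨UE hBKs he, e, he0, he, rfl⟩
      · intro a
        rw [cf_um, map_mul, map_inv, um_um, um_um, um_um]
        have h1 : (constantCoeff (R := K)).comp (mapRingHom j) = j.comp constantCoeff := by
          ext <;> simp
        have h3 : ((constantCoeff (R := K)).comp ((C : K →+* K[X]).comp j)).comp constantCoeff =
            j.comp constantCoeff := by
          ext <;> simp
        rw [h1, h3, mul_inv_cancel, Units.val_one, one_mulVec]
    have h3 : um (mapRingHom j) g.1 = (um (mapRingHom j) g.1 *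
        (um ((C : K →+* K[X]).comp j) (um constantCoeff g.1))⁻¹) *
        um ((C : K →+* K[X]).comp j) (um constantCoeff g.1) := by group
    rw [h3]
    exact mul_mem (Subgroup.mem_sup_left hN1) (Subgroup.mem_sup_right hγ)
  refine hC.base.of_injective _ _ (((um (mapRingHom j)).comp
    (Pre (constantCoeff (R := R)) (B.map (C : R →+* R[X])) H).subtype).codRestrict
      (NN hBKs ⊔ Γ) hmem) ?_ key
  intro x y hxy
  have h1 : um (mapRingHom j) x.1 = um (mapRingHom j) y.1 :=
    congrArg (fun z : ↥(NN hBKs ⊔ Γ) => (z : (Matrix ι ι K[X])ˣ)) hxy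
  exact Subtype.ext (um_inj _ (map_injective j hj) h1)

end one

/-- one variable, domains -/
theorem dom_rel (hC : ClosedE C') (hF : FbC C') (hS : Sol C') {R : Type} [CommRing R] [IsDomain R]
    (h2 : (2 : R) ≠ 0) (B : Matrix ι ι R) (hB : Bᵀ = B) (hd : B.det ≠ 0) (hW : WR B)
    (H : Subgroup (Matrix ι ι R)ˣ) (hHO : H ≤ OO B) (h : C' H) :
    C' (Pre (Polynomial.constantCoeff (R := R))
      (B.map (Polynomial.C : R →+* Polynomial R)) H) := by
  have hinj : Function.Injective (algebraMap R (FractionRing R)) := IsFractionRing.injective _ _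
  refine poly_rel hC hF hS (algebraMap R (FractionRing R)) hinj (two_map _ hinj h2) B hB
    (W1_of_WR hW) (Nd_of_det ?_) H hHO h
  rw [det_map]
  intro h
  apply hd
  apply hinj
  rw [h, map_zero]

theorem fin_rel (hC : ClosedE C') (hF : FbC C') (hS : Sol C') {R : Type} [CommRing R] [IsDomain R]
    (h2 : (2 : R) ≠ 0) (B : Matrix ι ι R) (hB : Bᵀ = B) (hd : B.det ≠ 0) (hW : WR B)
    (H : Subgroup (Matrix ι ι R)ˣ) (hHO : H ≤ OO B) (h : C' H) (n : ℕ) :
    WR (B.map (MvPolynomial.C : R →+* MvPolynomial (Fin n) R)) ∧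
      C' (Pre (MvPolynomial.constantCoeff (σ := Fin n))
        (B.map (MvPolynomial.C : R →+* MvPolynomial (Fin n) R)) H) := by
  induction n with
  | zero =>
    have hinj := (MvPolynomial.isEmptyRingEquiv R (Fin 0)).injective
    have h1 : (B.map (MvPolynomial.C : R →+* MvPolynomial (Fin 0) R)).map
        (MvPolynomial.isEmptyRingEquiv R (Fin 0)).toRingHom = B := by
      ext i j
      show MvPolynomial.isEmptyRingEquiv R (Fin 0) (MvPolynomial.C (B i j)) = B i j
      rw [← MvPolynomial.isEmptyRingEquiv_symm_apply, RingEquiv.apply_symm_apply]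
    constructor
    · refine WR_of_inj (MvPolynomial.isEmptyRingEquiv R (Fin 0)).toRingHom hinj ?_
      rw [h1]
      exact hW
    · have hP : Pre (RingHom.id R) B H = H := by
        ext g
        unfold Pre
        rw [Subgroup.mem_inf, Subgroup.mem_comap, um_id]
        exact ⟨fun h => h.2, fun h => ⟨hHO h, h⟩⟩
      refine pre_inj hC (MvPolynomial.isEmptyRingEquiv R (Fin 0)).toRingHom hinj h1 _
        (RingHom.id R) H H ?_ (by rw [hP]; exact h)
      intro g _ hg
      rw [um_id]
      have h3 : (MvPolynomial.isEmptyRingEquiv R (Fin 0)).toRingHom =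
          MvPolynomial.constantCoeff (σ := Fin 0) := by
        refine RingHom.ext fun p => ?_
        show MvPolynomial.isEmptyRingEquiv R (Fin 0) p = _
        rw [MvPolynomial.isEmptyRingEquiv_eq_coeff_zero]
        rfl
      rw [h3]
      exact hg
  | succ n ih =>
    obtain ⟨ih1, ih2⟩ := ih
    have hinjC : Function.Injective (MvPolynomial.C : R →+* MvPolynomial (Fin n) R) :=
      MvPolynomial.C_injective _ _
    let φ : MvPolynomial (Fin (n + 1)) R →+* Polynomial (MvPolynomial (Fin n) R) :=
      (MvPolynomial.finSuccEquiv R n).toRingEquiv.toRingHom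
    have hinj : Function.Injective φ := (MvPolynomial.finSuccEquiv R n).injective
    have h1 : (B.map (MvPolynomial.C : R →+* MvPolynomial (Fin (n + 1)) R)).map φ =
        (B.map (MvPolynomial.C : R →+* MvPolynomial (Fin n) R)).map
          (Polynomial.C : _ →+* Polynomial (MvPolynomial (Fin n) R)) := by
      ext1 i j
      show MvPolynomial.finSuccEquiv R n (MvPolynomial.C (B i j)) =
        Polynomial.C (MvPolynomial.C (B i j))
      simp [MvPolynomial.finSuccEquiv_apply]
    have hBn : (B.map (MvPolynomial.C : R →+* MvPolynomial (Fin n) R))ᵀ =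
        B.map (MvPolynomial.C : R →+* MvPolynomial (Fin n) R) := by
      rw [← transpose_map, hB]
    have hcc : ((MvPolynomial.constantCoeff (R := R) (σ := Fin n)).comp
        Polynomial.constantCoeff).comp φ = MvPolynomial.constantCoeff (σ := Fin (n + 1)) := by
      apply MvPolynomial.ringHom_ext
      · intro r
        show MvPolynomial.constantCoeff (Polynomial.constantCoeff
          (MvPolynomial.finSuccEquiv R n (MvPolynomial.C r))) = _
        simp [MvPolynomial.finSuccEquiv_apply]
      · intro i
        show MvPolynomial.constantCoeff (Polynomial.constantCoeff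
          (MvPolynomial.finSuccEquiv R n (MvPolynomial.X i))) = _
        induction i using Fin.cases with
        | zero => simp [MvPolynomial.finSuccEquiv_X_zero]
        | succ i => simp [MvPolynomial.finSuccEquiv_X_succ]
    constructor
    · refine WR_of_inj φ hinj ?_
      rw [h1]
      exact WR_poly hBn ih1
    · have h3 := dom_rel hC hF hS (two_map _ hinjC h2) _ hBn (by
        rw [det_map]
        intro h
        apply hd
        apply hinjC
        rw [h, map_zero]) ih1 _ inf_le_left ih2
      refine pre_inj hC φ hinj h1 _ _ H _ ?_ h3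
      intro g hgO hg
      refine ⟨?_, ?_⟩
      · have h4 := um_OO (Polynomial.constantCoeff (R := MvPolynomial (Fin n) R)) (um_OO φ hgO)
        rw [h1, map_C_eval] at h4
        exact h4
      · show um _ (um _ (um _ g)) ∈ H
        rw [um_um, um_um, hcc]
        exact hg

/-- directed unions of rings, for any subgroup -/
theorem sub_directed (hC : ClosedE C') {A : Type} [CommRing A] (P : Subgroup (Matrix ι ι A)ˣ)
    (I : Type) [Preorder I] [Nonempty I] (hI : ∀ i j : I, ∃ k, i ≤ k ∧ j ≤ k) (S : I → Subring A)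
    (hS : Monotone S) (hg : ∀ s : Finset A, ∃ i, ∀ r ∈ s, r ∈ S i)
    (hc : ∀ i, C' (P.comap (um (ι := ι) (S i).subtype))) : C' P := by
  refine of_directed hC.base P I hI
    (fun i => ((um (ι := ι) (S i).subtype).range).subgroupOf P) ?_ ?_ ?_
  · intro i j hij g hg
    obtain ⟨h, hh⟩ := Subgroup.mem_subgroupOf.1 hg
    refine Subgroup.mem_subgroupOf.2 ⟨um (Subring.inclusion (hS hij)) h, ?_⟩
    rw [um_um, ← hh]
    rfl
  · intro g
    classical
    obtain ⟨i, hi⟩ := hg (Finset.univ.image (fun p : ι × ι => g.1.1 p.1 p.2) ∪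
      Finset.univ.image (fun p : ι × ι => g.1⁻¹.1 p.1 p.2))
    have h1 : ∀ a b, g.1.1 a b ∈ S i := fun a b => hi _ (Finset.mem_union_left _
      (Finset.mem_image.2 ⟨(a, b), Finset.mem_univ _, rfl⟩))
    have h2 : ∀ a b, g.1⁻¹.1 a b ∈ S i := fun a b => hi _ (Finset.mem_union_right _
      (Finset.mem_image.2 ⟨(a, b), Finset.mem_univ _, rfl⟩))
    have hinj : Function.Injective ((S i).subtype.mapMatrix (m := ι)) := by
      intro P Q h
      ext a b
      exact congrFun (congrFun h a) b
    let P' : Matrix ι ι (S i) := fun a b => ⟨g.1.1 a b, h1 a b⟩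
    let Q' : Matrix ι ι (S i) := fun a b => ⟨g.1⁻¹.1 a b, h2 a b⟩
    have hP : (S i).subtype.mapMatrix P' = g.1.1 := rfl
    have hQ : (S i).subtype.mapMatrix Q' = g.1⁻¹.1 := rfl
    refine ⟨i, Subgroup.mem_subgroupOf.2 ⟨⟨P', Q', hinj ?_, hinj ?_⟩, ?_⟩⟩
    · rw [map_mul, hP, hQ, map_one, Units.mul_inv]
    · rw [map_mul, hP, hQ, map_one, Units.inv_mul]
    · apply Units.ext
      exact hP
  · intro i
    have hinj : Function.Injective (S i).subtype := Subtype.val_injective
    have hle : ∀ g : ↥(((um (ι := ι) (S i).subtype).range).subgroupOf P),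
        ∃ h : P.comap (um (ι := ι) (S i).subtype), um (S i).subtype h.1 = (g : P).1 := by
      intro g
      obtain ⟨h, hh⟩ := Subgroup.mem_subgroupOf.1 g.2
      refine ⟨⟨h, ?_⟩, hh⟩
      rw [Subgroup.mem_comap, hh]
      exact (g : P).2
    choose f hf using hle
    refine hC.base.of_injective _ _ (MonoidHom.mk' f ?_) ?_ (hc i)
    · intro a b
      apply Subtype.ext
      apply um_inj _ hinj
      rw [hf]
      show _ = um _ ((f a).1 * (f b).1)
      rw [map_mul, hf, hf]
      rfl
    · intro a b hab
      have h1 : f a = f b := hab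
      apply Subtype.ext
      apply Subtype.ext
      rw [← hf a, ← hf b, h1]

/-- comparison of preimages over a common subring -/
theorem comap_inj (hC : ClosedE C') {As A A' R : Type} [CommRing As] [CommRing A] [CommRing A']
    [CommRing R] (ic : As →+* A) (hic : Function.Injective ic) (f : As →+* A')
    (hf : Function.Injective f) (Bs : Matrix ι ι As) (B : Matrix ι ι A) (hB : Bs.map ic = B)
    (B' : Matrix ι ι A') (hB' : Bs.map f = B') (π : A →+* R) (π' : A' →+* R)
    (hcc : π'.comp f = π.comp ic) (H : Subgroup (Matrix ι ι R)ˣ) (h : C' (Pre π' B' H)) :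
    C' ((Pre π B H).comap (um (ι := ι) ic)) := by
  subst hB
  subst hB'
  have hmem : ∀ g : (Pre π (Bs.map ic) H).comap (um (ι := ι) ic),
      um f g.1 ∈ Pre π' (Bs.map f) H := by
    intro g
    have h3 : um ic g.1 ∈ Pre π (Bs.map ic) H := g.2
    refine ⟨?_, ?_⟩
    · have h4 : g.1 ∈ OO Bs := by
        rw [← um_OO_iff ic hic]
        exact h3.1
      exact um_OO f h4
    · show um _ (um f g.1) ∈ H
      rw [um_um, hcc, ← um_um]
      exact h3.2
  refine hC.base.of_injective _ _ (((um f).comp (Subgroup.subtype _)).codRestrict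
    (Pre π' (Bs.map f) H) hmem) ?_ h
  intro x y hxy
  have h6 : um f x.1 = um f y.1 := congrArg (fun z : Pre π' (Bs.map f) H =>
    (z : (Matrix ι ι A')ˣ)) hxy
  exact Subtype.ext (um_inj _ hf h6)

/-- **Preimages of subgroups, any number of variables.** -/
theorem mv_rel (hC : ClosedE C') (hF : FbC C') (hS : Sol C') {R : Type} [CommRing R] [IsDomain R]
    (h2 : (2 : R) ≠ 0) (B : Matrix ι ι R) (hB : Bᵀ = B) (hd : B.det ≠ 0) (hW : WR B) (σ : Type)
    (H : Subgroup (Matrix ι ι R)ˣ) (hHO : H ≤ OO B) (h : C' H) :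
    C' (Pre (MvPolynomial.constantCoeff (σ := σ))
      (B.map (MvPolynomial.C : R →+* MvPolynomial σ R)) H) := by
  classical
  refine sub_directed hC _ (Finset σ) (fun i j => ⟨i ∪ j, Finset.subset_union_left,
    Finset.subset_union_right⟩)
    (fun s => (MvPolynomial.supported R (s : Set σ)).toSubring) ?_ ?_ ?_
  · intro s t hst
    exact MvPolynomial.supported_mono (Finset.coe_subset.2 hst)
  · intro s
    refine ⟨s.biUnion fun p => p.vars, fun r hr => ?_⟩
    show r ∈ MvPolynomial.supported R _
    rw [MvPolynomial.mem_supported, Finset.coe_subset]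
    exact Finset.subset_biUnion_of_mem (fun p : MvPolynomial σ R => p.vars) hr
  · intro s
    have h1 := (fin_rel hC hF hS h2 B hB hd hW H hHO h s.card).2
    let e1 : (MvPolynomial.supported R (s : Set σ)) ≃ₐ[R] MvPolynomial s R :=
      MvPolynomial.supportedEquivMvPolynomial _
    let e2 : MvPolynomial s R ≃ₐ[R] MvPolynomial (Fin s.card) R :=
      MvPolynomial.renameEquiv R s.equivFin
    let e3 := e1.trans e2
    let f : (MvPolynomial.supported R (s : Set σ)).toSubring →+* MvPolynomial (Fin s.card) R :=
      (e3 : (MvPolynomial.supported R (s : Set σ)) →+* MvPolynomial (Fin s.card) R)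
    have hf : Function.Injective f := e3.injective
    let ic : (MvPolynomial.supported R (s : Set σ)).toSubring →+* MvPolynomial σ R :=
      (MvPolynomial.supported R (s : Set σ)).toSubring.subtype
    have hic : Function.Injective ic := Subtype.val_injective
    let Bs : Matrix ι ι (MvPolynomial.supported R (s : Set σ)).toSubring :=
      B.map (algebraMap R (MvPolynomial.supported R (s : Set σ)))
    have hBs : Bs.map ic = B.map (MvPolynomial.C : R →+* MvPolynomial σ R) := by
      ext1 i j
      rfl
    have hBf : Bs.map f = B.map (MvPolynomial.C : R →+* MvPolynomial (Fin s.card) R) := by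
      ext1 i j
      show e3 (algebraMap R _ (B i j)) = MvPolynomial.C (B i j)
      rw [AlgEquiv.commutes]
      rfl
    have hcc : (MvPolynomial.constantCoeff (R := R) (σ := Fin s.card)).comp f =
        (MvPolynomial.constantCoeff (R := R) (σ := σ)).comp ic := by
      have h3 : ∀ q : MvPolynomial (Fin s.card) R, MvPolynomial.constantCoeff q =
          MvPolynomial.constantCoeff ((e3.symm q : MvPolynomial.supported R (s : Set σ)) :
            MvPolynomial σ R) := by
        have h4 : (MvPolynomial.constantCoeff (R := R) (σ := Fin s.card)) =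
            ((MvPolynomial.constantCoeff (R := R) (σ := σ)).comp
              (MvPolynomial.supported R (s : Set σ)).val.toRingHom).comp
              (e3.symm.toRingEquiv.toRingHom) := by
          apply MvPolynomial.ringHom_ext
          · intro r
            show _ = MvPolynomial.constantCoeff ((e3.symm (MvPolynomial.C r) :
              MvPolynomial.supported R (s : Set σ)) : MvPolynomial σ R)
            have h5 : e3.symm (MvPolynomial.C r) = algebraMap R _ r := e3.symm.commutes r
            rw [h5]
            show _ = MvPolynomial.constantCoeff (MvPolynomial.C r)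
            simp
          · intro i
            show _ = MvPolynomial.constantCoeff ((e1.symm (e2.symm (MvPolynomial.X i)) :
              MvPolynomial.supported R (s : Set σ)) : MvPolynomial σ R)
            have h5 : e2.symm (MvPolynomial.X i) = MvPolynomial.X (s.equivFin.symm i) := by
              simp [e2]
            rw [h5, MvPolynomial.supportedEquivMvPolynomial_symm_X]
            simp
        intro q
        exact DFunLike.congr_fun h4 q
      refine RingHom.ext fun p => ?_
      show MvPolynomial.constantCoeff (e3 p) = MvPolynomial.constantCoeff (p : MvPolynomial σ R)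
      rw [h3 (e3 p), AlgEquiv.symm_apply_apply]
    exact comap_inj hC ic hic f hf Bs _ hBs _ hBf _ _ hcc H h1

end Pool.Agent.Helper686_FJ.Orth
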