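import Mathlib

/-!
# Ping-pong sets in the plane over `K[T]`
-/

set_option autoImplicit false

namespace Pool.Agent.Helper686_FJ

open Polynomial

variable {K : Type} [Field K]

/-- the determinant of two vectors -/
def dt {R : Type} [CommRing R] (v a : Fin 2 → R) : R := v 0 * a 1 - v 1 * a 0

/-- The points of the plane over `K[T]` whose leading coefficient vector is on the line through `v`. -/
def Pt (v : Fin 2 → K) : Set (Fin 2 → K[X]) :=
  {a | ∃ d : ℕ, 1 ≤ d ∧ (∀ i, (a i).natDegree ≤ d) ∧ (fun i => (a i).coeff d) ≠ 0 ∧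
    ∃ c : K, (fun i => (a i).coeff d) = c • v}

theorem Pt_nonempty {v : Fin 2 → K} (hv : v ≠ 0) : (Pt v).Nonempty := by
  refine ⟨fun i => C (v i) * X, 1, le_refl _, fun i => ?_, ?_, 1, ?_⟩
  · exact (natDegree_C_mul_le _ _).trans natDegree_X_le
  · have : (fun i => (C (v i) * X : K[X]).coeff 1) = v := by
      funext i
      simp
    rw [this]
    exact hv
  · funext i
    simp

theorem Pt_disjoint {v w : Fin 2 → K} (h : dt v w ≠ 0) : Disjoint (Pt v) (Pt w) := by
  rw [Set.disjoint_left]
  rintro a ⟨d, hd, ha, hne, c, hc⟩ ⟨d', hd', ha', hne', c', hc'⟩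
  have hdd : d = d' := by
    rcases lt_trichotomy d d' with h1 | h1 | h1
    · exfalso
      apply hne'
      funext i
      exact coeff_eq_zero_of_natDegree_lt (lt_of_le_of_lt (ha i) h1)
    · exact h1
    · exfalso
      apply hne
      funext i
      exact coeff_eq_zero_of_natDegree_lt (lt_of_le_of_lt (ha' i) h1)
  subst hdd
  rw [hc] at hc'
  have hc0 : c ≠ 0 := by
    rintro rfl
    apply hne
    rw [hc, zero_smul]
  apply h
  have h0 := congrFun hc' 0
  have h1 := congrFun hc' 1
  simp only [Pi.smul_apply, smul_eq_mul] at h0 h1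
  -- c v = c' w
  have : c * (dt v w) = 0 := by
    unfold dt
    have : c * (v 0 * w 1 - v 1 * w 0) = (c * v 0) * w 1 - (c * v 1) * w 0 := by ring
    rw [this, h0, h1]
    ring
  exact (mul_eq_zero.1 this).resolve_left hc0

/-- adding a multiple of `v` of large degree moves a point to `Pt v` -/
theorem Pt_add {v : Fin 2 → K} (hv : v ≠ 0) {a : Fin 2 → K[X]} {d D : ℕ} (ha : ∀ i, (a i).natDegree ≤ d)
    (hd : 1 ≤ d) (hD : d < D) {f : K[X]} (hf : f.natDegree = D) :
    (fun i => a i + C (v i) * f) ∈ Pt v := by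
  have hf0 : f ≠ 0 := by
    rintro rfl
    rw [natDegree_zero] at hf
    omega
  have hc : (fun i => (a i + C (v i) * f).coeff D) = f.leadingCoeff • v := by
    funext i
    rw [coeff_add, coeff_C_mul, coeff_eq_zero_of_natDegree_lt (lt_of_le_of_lt (ha i) hD), zero_add,
      Pi.smul_apply, smul_eq_mul, leadingCoeff, hf, mul_comm]
  refine ⟨D, by omega, fun i => ?_, ?_, f.leadingCoeff, hc⟩
  · refine (natDegree_add_le _ _).trans (max_le ((ha i).trans hD.le) ?_)
    refine (natDegree_C_mul_le _ _).trans hf.le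
  · rw [hc]
    exact smul_ne_zero (leadingCoeff_ne_zero.2 hf0) hv

/-- the determinant of `v` and of a point in `Pt w` -/
theorem Pt_dt {v w : Fin 2 → K} (h : dt v w ≠ 0) {a : Fin 2 → K[X]} (ha : a ∈ Pt w) :
    ∃ d : ℕ, 1 ≤ d ∧ (∀ i, (a i).natDegree ≤ d) ∧ (dt (fun i => C (v i)) a).natDegree = d := by
  obtain ⟨d, hd, had, hne, c, hc⟩ := ha
  refine ⟨d, hd, had, ?_⟩
  have hc0 : c ≠ 0 := by
    rintro rfl
    apply hne
    rw [hc, zero_smul]
  have h0 := congrFun hc 0
  have h1 := congrFun hc 1
  simp only [Pi.smul_apply, smul_eq_mul] at h0 h1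
  have hco : (dt (fun i => C (v i)) a).coeff d = c * dt v w := by
    unfold dt
    rw [coeff_sub, coeff_C_mul, coeff_C_mul, h0, h1]
    ring
  apply le_antisymm
  · unfold dt
    refine (natDegree_sub_le _ _).trans (max_le ?_ ?_)
    · exact (natDegree_C_mul_le _ _).trans (had 1)
    · exact (natDegree_C_mul_le _ _).trans (had 0)
  · apply le_natDegree_of_ne_zero
    rw [hco]
    exact mul_ne_zero hc0 h

/-! ### the projective line -/

open LinearAlgebra.Projectivization in
theorem dt_ne_zero_of_ne {x y : ℙ K (Fin 2 → K)} (h : x ≠ y) : dt x.rep y.rep ≠ 0 := by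
  intro h0
  apply h
  have hx := x.rep_nonzero
  have hy := y.rep_nonzero
  rw [← x.mk_rep, ← y.mk_rep, Projectivization.mk_eq_mk_iff']
  unfold dt at h0
  have h1 : x.rep 0 * y.rep 1 = x.rep 1 * y.rep 0 := sub_eq_zero.1 h0
  by_cases hy0 : y.rep 0 = 0
  · have hy1 : y.rep 1 ≠ 0 := by
      intro hy1
      apply hy
      funext i
      fin_cases i
      · exact hy0
      · exact hy1
    have hx0 : x.rep 0 = 0 := by
      rw [hy0, mul_zero] at h1
      exact (mul_eq_zero.1 h1).resolve_right hy1
    refine ⟨x.rep 1 / y.rep 1, ?_⟩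
    funext i
    fin_cases i
    · simp [hy0, hx0]
    · simp [hy1]
  · refine ⟨x.rep 0 / y.rep 0, ?_⟩
    funext i
    fin_cases i
    · simp [hy0]
    · simp only [Fin.mk_one, Pi.smul_apply, smul_eq_mul]
      field_simp
      linear_combination h1

open LinearAlgebra.Projectivization Cardinal in
theorem three_le_card : 3 ≤ Cardinal.mk (ℙ K (Fin 2 → K)) := by
  have h01 : (![1, 0] : Fin 2 → K) ≠ 0 := fun h => one_ne_zero (congrFun h 0)
  have h10 : (![0, 1] : Fin 2 → K) ≠ 0 := fun h => one_ne_zero (congrFun h 1)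
  have h11 : (![1, 1] : Fin 2 → K) ≠ 0 := fun h => one_ne_zero (congrFun h 1)
  let f : Fin 3 → ℙ K (Fin 2 → K) := ![Projectivization.mk K _ h01, Projectivization.mk K _ h10,
    Projectivization.mk K _ h11]
  have hf : Function.Injective f := by
    have e1 : Projectivization.mk K _ h01 ≠ Projectivization.mk K _ h10 := by
      rw [Ne, Projectivization.mk_eq_mk_iff']
      rintro ⟨a, ha⟩
      have := congrFun ha 0
      simp at this
    have e2 : Projectivization.mk K _ h01 ≠ Projectivization.mk K _ h11 := by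
      rw [Ne, Projectivization.mk_eq_mk_iff']
      rintro ⟨a, ha⟩
      have h0 := congrFun ha 0
      have h1 := congrFun ha 1
      simp at h0 h1
      rw [h1] at h0
      exact zero_ne_one h0
    have e3 : Projectivization.mk K _ h10 ≠ Projectivization.mk K _ h11 := by
      rw [Ne, Projectivization.mk_eq_mk_iff']
      rintro ⟨a, ha⟩
      have h0 := congrFun ha 0
      have h1 := congrFun ha 1
      simp at h0 h1
      rw [h0] at h1
      exact zero_ne_one h1
    intro i j hij
    fin_cases i <;> fin_cases j <;> simp_all [f, e1.symm, e2.symm, e3.symm]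
  have := Cardinal.mk_le_of_injective hf
  simpa using this

end Pool.Agent.Helper686_FJ
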