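import Pool.Agent.Helper686_FJ.Shear

/-!
# The shears generate a free product over the projective line
-/

set_option autoImplicit false

namespace Pool.Agent.Helper686_FJ

open MvPolynomial Pool.Agent.Y110.FJ Pool.Agent.R684.FP Pool.Agent.H694.TR
open Pool.Agent.R941.FJ (C_equiv C_le)
open LinearAlgebra.Projectivization

variable {K : Type} [Field K]

/-- the value of an automorphism at a point of the plane over `K[T]` -/
noncomputable def act (φ : Au K) (a : Fin 2 → Polynomial K) : Fin 2 → Polynomial K :=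
  fun i => aeval a (φ (X i))

theorem aeval_act (φ : Au K) (a : Fin 2 → Polynomial K) (f : P2 K) :
    aeval (act φ a) f = aeval a (φ f) := by
  have : (aeval (act φ a) : P2 K →ₐ[K] Polynomial K) = (aeval a).comp (φ : P2 K →ₐ[K] P2 K) := by
    apply algHom_ext
    intro i
    rw [aeval_X]
    rfl
  exact DFunLike.congr_fun this f

theorem act_mul (φ ψ : Au K) (a : Fin 2 → Polynomial K) : act (φ * ψ) a = act ψ (act φ a) := by
  funext i
  change aeval a (φ (ψ (X i))) = aeval (act φ a) (ψ (X i))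
  rw [aeval_act]

theorem act_one (a : Fin 2 → Polynomial K) : act (1 : Au K) a = a := by
  funext i
  change aeval a (X i) = a i
  rw [aeval_X]

/-- the action on the points of the plane over `K[T]` -/
noncomputable def rho : Au K →* Equiv.Perm (Fin 2 → Polynomial K) where
  toFun φ :=
    { toFun := act φ⁻¹
      invFun := act φ
      left_inv := fun a => by rw [← act_mul, inv_mul_cancel, act_one]
      right_inv := fun a => by rw [← act_mul, mul_inv_cancel, act_one] }
  map_one' := by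
    ext1 a
    change act (1 : Au K)⁻¹ a = a
    rw [inv_one, act_one]
  map_mul' φ ψ := by
    ext1 a
    change act (φ * ψ)⁻¹ a = act φ⁻¹ (act ψ⁻¹ a)
    rw [mul_inv_rev, act_mul]

theorem act_shear (v : Fin 2 → K) (p : Polynomial K) (a : Fin 2 → Polynomial K) :
    act (shear v p) a = fun i => a i + Polynomial.C (v i) *
      p.comp (dt (fun i => Polynomial.C (v i)) a) := by
  funext i
  change aeval a (shearHom v p (X i)) = _
  rw [shearHom_X, map_add, map_mul, aeval_X, aeval_C, Polynomial.comp_eq_aeval,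
    ← Polynomial.aeval_algHom_apply]
  congr 2
  congr 1
  unfold ell dt
  rw [map_sub, map_mul, map_mul, aeval_X, aeval_X, aeval_C, aeval_C]
  rfl

theorem act_lin (M : GL (Fin 2) K) (a : Fin 2 → Polynomial K) :
    act (lin M) a = fun i => ∑ j, Polynomial.C (M.1 j i) * a j := by
  funext i
  change aeval a (linHom M.1 (X i)) = _
  rw [linHom_X, map_sum]
  refine Finset.sum_congr rfl fun j _ => ?_
  rw [map_mul, aeval_X, aeval_C]
  rfl

/-- the shears in the direction of `v` which are tangent to the identity at the origin -/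
def U (v : Fin 2 → K) : Subgroup (Au K) where
  carrier := {φ | ∃ p : Polynomial K, Polynomial.X ^ 2 ∣ p ∧ φ = shear v p}
  one_mem' := ⟨0, dvd_zero _, (shear_zero v).symm⟩
  mul_mem' := by
    rintro _ _ ⟨p, hp, rfl⟩ ⟨q, hq, rfl⟩
    exact ⟨p + q, dvd_add hp hq, shear_mul v p q⟩
  inv_mem' := by
    rintro _ ⟨p, hp, rfl⟩
    exact ⟨-p, (dvd_neg).2 hp, shear_inv v p⟩

theorem dvd_comp {p : Polynomial K} (hp : Polynomial.X ^ 2 ∣ p) (c : K) :
    Polynomial.X ^ 2 ∣ p.comp (Polynomial.C c * Polynomial.X) := by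
  obtain ⟨q, rfl⟩ := hp
  rw [Polynomial.mul_comp, Polynomial.pow_comp, Polynomial.X_comp, mul_pow]
  exact Dvd.dvd.mul_right (Dvd.dvd.mul_left (dvd_refl _) _) _

theorem U_smul_le (c : K) (v : Fin 2 → K) : U (c • v) ≤ U v := by
  rintro _ ⟨p, hp, rfl⟩
  exact ⟨_, Dvd.dvd.mul_left (dvd_comp hp c) _, shear_smul c v p⟩

theorem U_smul {c : K} (hc : c ≠ 0) (v : Fin 2 → K) : U (c • v) = U v := by
  apply le_antisymm (U_smul_le c v)
  have := U_smul_le c⁻¹ (c • v)
  rwa [smul_smul, inv_mul_cancel₀ hc, one_smul] at this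

theorem U_comm (v : Fin 2 → K) {x y : Au K} (hx : x ∈ U v) (hy : y ∈ U v) : x * y = y * x := by
  obtain ⟨p, _, rfl⟩ := hx
  obtain ⟨q, _, rfl⟩ := hy
  rw [shear_mul, shear_mul, add_comm]

theorem U_conj_le (M : GL (Fin 2) K) (v : Fin 2 → K) {x : Au K} (hx : x ∈ U v) :
    lin M * x * (lin M)⁻¹ ∈ U (dir M v) := by
  obtain ⟨p, hp, rfl⟩ := hx
  exact ⟨_, dvd_comp hp _, conj_shear M v p⟩

theorem U_conj (M : GL (Fin 2) K) (v : Fin 2 → K) (x : Au K) :
    x ∈ U v ↔ lin M * x * (lin M)⁻¹ ∈ U (dir M v) := by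
  refine ⟨U_conj_le M v, fun h => ?_⟩
  have := U_conj_le M⁻¹ _ h
  rw [dir_inv, map_inv] at this
  have e : (lin M)⁻¹ * (lin M * x * (lin M)⁻¹) * (lin M)⁻¹⁻¹ = x := by group
  rwa [e] at this

/-- the shears with direction a point of the projective line -/
noncomputable def UP (x : ℙ K (Fin 2 → K)) : Subgroup (Au K) := U x.rep

theorem U_eq_UP {v : Fin 2 → K} (hv : v ≠ 0) : U v = UP (Projectivization.mk K v hv) := by
  obtain ⟨a, ha⟩ := Projectivization.exists_smul_eq_mk_rep K v hv
  unfold UP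
  rw [← ha]
  exact (U_smul (c := (a : K)) a.ne_zero v).symm

theorem UP_perm (M : GL (Fin 2) K) (x : ℙ K (Fin 2 → K)) : ∃ y : ℙ K (Fin 2 → K),
    ∀ u, u ∈ UP x ↔ lin M * u * (lin M)⁻¹ ∈ UP y := by
  refine ⟨Projectivization.mk K _ (dir_ne_zero M x.rep_nonzero), fun u => ?_⟩
  rw [← U_eq_UP]
  exact U_conj M _ u

theorem ping {x y : ℙ K (Fin 2 → K)} (h : x ≠ y) {u : Au K} (hu : u ∈ UP x) (hu1 : u ≠ 1)
    {a : Fin 2 → Polynomial K} (ha : a ∈ Pt y.rep) : act u a ∈ Pt x.rep := by
  obtain ⟨p, hp, rfl⟩ := hu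
  have hp0 : p ≠ 0 := by
    rintro rfl
    exact hu1 (shear_zero _)
  obtain ⟨d, hd, had, hdt⟩ := Pt_dt (dt_ne_zero_of_ne h) ha
  rw [act_shear]
  have hm : 2 ≤ p.natDegree := by
    have := Polynomial.natDegree_le_of_dvd hp hp0
    rwa [Polynomial.natDegree_X_pow] at this
  refine Pt_add x.rep_nonzero had hd (D := p.natDegree * d) (by nlinarith) ?_
  rw [Polynomial.natDegree_comp, hdt]

theorem free_inj : Function.Injective
    (Monoid.CoprodI.lift fun x : ℙ K (Fin 2 → K) => (UP x).subtype) := by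
  have h1 : (rho (K := K)).comp (Monoid.CoprodI.lift fun x : ℙ K (Fin 2 → K) => (UP x).subtype) =
      Monoid.CoprodI.lift fun x : ℙ K (Fin 2 → K) => (rho (K := K)).comp (UP x).subtype := by
    apply Monoid.CoprodI.ext_hom
    intro i
    ext1 u
    change rho (Monoid.CoprodI.lift (fun x => (UP x).subtype) (Monoid.CoprodI.of u)) =
      Monoid.CoprodI.lift (fun x => rho.comp (UP x).subtype) (Monoid.CoprodI.of u)
    rw [Monoid.CoprodI.lift_of, Monoid.CoprodI.lift_of]
    rfl
  have h2 : Function.Injective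
      (Monoid.CoprodI.lift fun x : ℙ K (Fin 2 → K) => (rho (K := K)).comp (UP x).subtype) := by
    have : Nontrivial (ℙ K (Fin 2 → K)) := by
      have := three_le_card (K := K)
      rw [← Cardinal.one_lt_iff_nontrivial]
      exact lt_of_lt_of_le (by norm_num) this
    refine Monoid.CoprodI.lift_injective_of_ping_pong _ (Or.inl three_le_card)
      (fun x => Pt x.rep) (fun x => Pt_nonempty x.rep_nonzero) ?_ ?_
    · intro x y hxy
      exact Pt_disjoint (dt_ne_zero_of_ne hxy)
    · intro x y hxy u hu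
      rintro _ ⟨a, ha, rfl⟩
      change act (u : Au K)⁻¹ a ∈ Pt x.rep
      refine ping hxy ((UP x).inv_mem u.2) ?_ ha
      intro h
      apply hu
      exact Subtype.ext (inv_eq_one.1 h)
  intro a b hab
  apply h2
  rw [← h1, MonoidHom.comp_apply, MonoidHom.comp_apply, hab]

/-- automorphisms which are tangent to the identity at the origin -/
def Tan : Subgroup (Au K) where
  carrier := {φ | (∀ a, (∀ i, Polynomial.X ∣ a i) → ∀ i, Polynomial.X ^ 2 ∣ act φ a i - a i) ∧
    (∀ a, (∀ i, Polynomial.X ∣ a i) → ∀ i, Polynomial.X ^ 2 ∣ act φ⁻¹ a i - a i)}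
  one_mem' := by
    constructor
    · intro a _ i
      rw [act_one, sub_self]
      exact dvd_zero _
    · intro a _ i
      rw [inv_one, act_one, sub_self]
      exact dvd_zero _
  mul_mem' := by
    have key : ∀ φ ψ : Au K,
        (∀ a, (∀ i, Polynomial.X ∣ a i) → ∀ i, Polynomial.X ^ 2 ∣ act φ a i - a i) →
        (∀ a, (∀ i, Polynomial.X ∣ a i) → ∀ i, Polynomial.X ^ 2 ∣ act ψ a i - a i) →
        (∀ a, (∀ i, Polynomial.X ∣ a i) → ∀ i, Polynomial.X ^ 2 ∣ act (φ * ψ) a i - a i) := by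
      intro φ ψ hφ hψ a ha i
      rw [act_mul]
      have h1 : ∀ i, Polynomial.X ∣ act φ a i := by
        intro i
        have h2 := (dvd_pow_self Polynomial.X (two_ne_zero)).trans (hφ a ha i)
        have h3 := dvd_add h2 (ha i)
        rwa [sub_add_cancel] at h3
      have h2 := dvd_add (hψ _ h1 i) (hφ a ha i)
      rwa [sub_add_sub_cancel] at h2
    rintro φ ψ ⟨h1, h2⟩ ⟨h3, h4⟩
    refine ⟨key φ ψ h1 h3, ?_⟩
    rw [mul_inv_rev]
    exact key _ _ h4 h2
  inv_mem' := by
    rintro φ ⟨h1, h2⟩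
    refine ⟨h2, ?_⟩
    rw [inv_inv]
    exact h1

theorem U_le_Tan (v : Fin 2 → K) : U v ≤ (Tan : Subgroup (Au K)) := by
  have key : ∀ p : Polynomial K, Polynomial.X ^ 2 ∣ p →
      ∀ a : Fin 2 → Polynomial K, (∀ i, Polynomial.X ∣ a i) →
        ∀ i, Polynomial.X ^ 2 ∣ act (shear v p) a i - a i := by
    rintro _ ⟨q, rfl⟩ a ha i
    rw [act_shear]
    change _ ∣ a i + _ - a i
    rw [add_sub_cancel_left, Polynomial.mul_comp, Polynomial.pow_comp, Polynomial.X_comp]
    have h1 : Polynomial.X ∣ dt (fun i => Polynomial.C (v i)) a := by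
      unfold dt
      exact dvd_sub (Dvd.dvd.mul_left (ha 1) _) (Dvd.dvd.mul_left (ha 0) _)
    exact Dvd.dvd.mul_left (Dvd.dvd.mul_right (pow_dvd_pow_of_dvd h1 2) _) _
  rintro _ ⟨p, hp, rfl⟩
  refine ⟨key p hp, ?_⟩
  rw [shear_inv]
  exact key (-p) (dvd_neg.2 hp)

theorem lin_Tan {M : GL (Fin 2) K} (h : lin M ∈ (Tan : Subgroup (Au K))) : M = 1 := by
  have key : ∀ k i, M.1 k i = (1 : Matrix (Fin 2) (Fin 2) K) k i := by
    intro k i
    have h1 := h.1 (fun j => if j = k then Polynomial.X else 0) (by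
      intro j
      by_cases hj : j = k
      · rw [if_pos hj]
      · rw [if_neg hj]
        exact dvd_zero _) i
    rw [act_lin] at h1
    have h2 : (∑ j, Polynomial.C (M.1 j i) * (if j = k then (Polynomial.X : Polynomial K) else 0)) =
        Polynomial.C (M.1 k i) * Polynomial.X := by
      rw [Finset.sum_eq_single k]
      · rw [if_pos rfl]
      · intro j _ hj
        rw [if_neg hj, mul_zero]
      · intro hk
        exact absurd (Finset.mem_univ k) hk
    change Polynomial.X ^ 2 ∣ (∑ j, Polynomial.C (M.1 j i) *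
      (if j = k then (Polynomial.X : Polynomial K) else 0)) -
        (if i = k then (Polynomial.X : Polynomial K) else 0) at h1
    rw [h2, Polynomial.X_pow_dvd_iff] at h1
    have h3 := h1 1 (by norm_num)
    rw [Polynomial.coeff_sub, Polynomial.coeff_C_mul, Polynomial.coeff_X_one, mul_one] at h3
    rw [Matrix.one_apply]
    by_cases hik : i = k
    · rw [if_pos hik.symm]
      rw [if_pos hik, Polynomial.coeff_X_one] at h3
      exact sub_eq_zero.1 h3
    · rw [if_neg (Ne.symm hik)]
      rw [if_neg hik, Polynomial.coeff_zero] at h3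
      exact sub_eq_zero.1 h3
  apply Units.ext
  ext k i
  exact key k i

/-- the group of automorphisms of the affine plane generated by the linear maps in `GL₂(R)` and by
the shears `z ↦ z + p(v₀ y - v₁ x) v`, `z = (x, y)`, where `T ^ 2` divides `p(T) ∈ K[T]` -/
noncomputable def TA (R : Subring K) : Subgroup (Au K) :=
  Subgroup.closure ({φ | ∃ M : GL (Fin 2) R, φ = lin (Matrix.GeneralLinearGroup.map R.subtype M)} ∪
    {φ | ∃ (v : Fin 2 → K) (p : Polynomial K), Polynomial.X ^ 2 ∣ p ∧ φ = shear v p})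

/-- the linear automorphisms over `R` -/
noncomputable def LR (R : Subring K) : GL (Fin 2) R →* Au K :=
  lin.comp (Matrix.GeneralLinearGroup.map R.subtype)

theorem LR_injective (R : Subring K) : Function.Injective (LR R) := by
  rw [injective_iff_map_eq_one]
  intro M hM
  have h1 : Matrix.GeneralLinearGroup.map R.subtype M = 1 := by
    apply lin_Tan (K := K)
    have : lin (Matrix.GeneralLinearGroup.map R.subtype M) = 1 := hM
    rw [this]
    exact Subgroup.one_mem _
  apply Units.ext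
  ext k i
  have h2 : (Matrix.GeneralLinearGroup.map R.subtype M : GL (Fin 2) K).1 k i =
      (1 : Matrix (Fin 2) (Fin 2) K) k i := by
    rw [h1]
    rfl
  have h3 : ((M.1 k i : R) : K) = (1 : Matrix (Fin 2) (Fin 2) K) k i := h2
  rw [h3]
  change (1 : Matrix (Fin 2) (Fin 2) K) k i = (((1 : Matrix (Fin 2) (Fin 2) R) k i : R) : K)
  rw [Matrix.one_apply, Matrix.one_apply]
  split_ifs <;> rfl

theorem TA_eq (R : Subring K) : TA R = (⨆ x, UP x) ⊔ (LR R).range := by
  apply le_antisymm
  · unfold TA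
    rw [Subgroup.closure_le]
    rintro φ (⟨M, rfl⟩ | ⟨v, p, hp, rfl⟩)
    · exact (le_sup_right : _ ≤ (⨆ x, UP x) ⊔ (LR R).range) ⟨M, rfl⟩
    · by_cases hv : v = 0
      · have : shear v p = 1 := by
          subst hv
          have h1 := shear_smul (0 : K) 0 p
          rw [zero_smul] at h1
          rw [h1, map_zero, zero_mul, shear_zero]
        rw [this]
        exact Subgroup.one_mem _
      · refine (le_sup_left : _ ≤ (⨆ x, UP x) ⊔ (LR R).range) ?_
        refine (le_iSup UP (Projectivization.mk K v hv)) ?_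
        rw [← U_eq_UP hv]
        exact ⟨p, hp, rfl⟩
  · refine sup_le (iSup_le fun x => ?_) ?_
    · rintro _ ⟨p, hp, rfl⟩
      exact Subgroup.subset_closure (Or.inr ⟨_, p, hp, rfl⟩)
    · rintro _ ⟨M, rfl⟩
      exact Subgroup.subset_closure (Or.inl ⟨M, rfl⟩)

variable {C : ∀ (G : Type) [Group G], Prop}

theorem TA_mem (hC : ClosedE C) (hF : FbC C) (hS : Sol C) (R : Subring K) (hR : C (GL (Fin 2) R)) :
    C (TA R) := by
  rw [TA_eq]
  refine lemL hC hF hS (LR R).range (⨆ x, UP x) UP rfl free_inj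
    (fun x u hu w hw => U_comm _ hu hw) ?_ ?_ ?_
  · rintro _ ⟨M, rfl⟩ x
    exact UP_perm _ x
  · rintro _ ⟨M, rfl⟩ hM
    have h1 : (⨆ x, UP x) ≤ (Tan : Subgroup (Au K)) := iSup_le fun x => U_le_Tan _
    have h2 := lin_Tan (h1 hM)
    change lin _ = 1
    rw [h2, map_one]
  · exact C_equiv hC.base (MonoidHom.ofInjective (LR_injective R)).symm hR

theorem TA_mem_iff (hC : ClosedE C) (hF : FbC C) (hS : Sol C) (R : Subring K) :
    C (TA R) ↔ C (GL (Fin 2) R) := by
  refine ⟨fun h => ?_, TA_mem hC hF hS R⟩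
  refine hC.base.of_injective _ _ ((LR R).codRestrict (TA R) fun M => ?_) ?_ h
  · exact Subgroup.subset_closure (Or.inl ⟨M, rfl⟩)
  · intro a b hab
    exact LR_injective R (congrArg Subtype.val hab)

end Pool.Agent.Helper686_FJ
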