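import Pool.Agent.Helper686_FJ.Plane

/-!
# Tame automorphisms of the plane: linear parts and the automorphisms which fix the origin
-/

set_option autoImplicit false

namespace Pool.Agent.Helper686_FJ

open MvPolynomial Pool.Agent.Y110.FJ Pool.Agent.R684.FP Pool.Agent.H694.TR
open Pool.Agent.R941.FJ (C_equiv C_le)
open LinearAlgebra.Projectivization

variable {K : Type} [Field K]

/-- the group of tame automorphisms of the affine plane: it is generated by the linear maps and by
the shears `z ↦ z + p(v₀ y - v₁ x) v` with `p(T) ∈ K[T]`, `v ∈ K²` (they include translations) -/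
noncomputable def Tame (K : Type) [Field K] : Subgroup (Au K) :=
  Subgroup.closure ({φ | ∃ M : GL (Fin 2) K, φ = lin M} ∪
    {φ | ∃ (v : Fin 2 → K) (p : Polynomial K), φ = shear v p})

/-- the ideal of the polynomials which vanish at the origin -/
noncomputable def org (K : Type) [Field K] : Ideal (P2 K) :=
  RingHom.ker (constantCoeff : P2 K →+* K)

/-- `φ` fixes the origin and its linear part is `M` -/
def LP (φ : Au K) (M : Matrix (Fin 2) (Fin 2) K) : Prop :=
  ∀ i, φ (X i) - ∑ j, C (M j i) * X j ∈ org K ^ 2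

theorem mem_org (f : P2 K) : f ∈ org K ↔ constantCoeff f = 0 := Iff.rfl

theorem X_mem_org (i : Fin 2) : (X i : P2 K) ∈ org K := by
  rw [mem_org, constantCoeff_X]

theorem linX_mem_org (M : Matrix (Fin 2) (Fin 2) K) (i : Fin 2) :
    (∑ j, C (M j i) * X j : P2 K) ∈ org K :=
  Ideal.sum_mem _ fun j _ => Ideal.mul_mem_left _ _ (X_mem_org j)

theorem constantCoeff_of_fix {φ : Au K} (h : ∀ i, φ (X i) ∈ org K) (f : P2 K) :
    constantCoeff (φ f) = constantCoeff f := by
  have : (constantCoeff : P2 K →+* K).comp (φ : P2 K →+* P2 K) = constantCoeff := by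
    apply ringHom_ext
    · intro r
      change constantCoeff (φ (C r)) = constantCoeff (C r)
      have e : (C r : P2 K) = algebraMap K (P2 K) r := rfl
      rw [e, AlgEquiv.commutes]
    · intro i
      change constantCoeff (φ (X i)) = _
      rw [constantCoeff_X]
      exact h i
  exact DFunLike.congr_fun this f

theorem LP_fix {φ : Au K} {M : Matrix (Fin 2) (Fin 2) K} (h : LP φ M) (i : Fin 2) :
    φ (X i) ∈ org K := by
  have h1 := Ideal.add_mem _ (Ideal.pow_le_self two_ne_zero (h i)) (linX_mem_org M i)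
  rwa [sub_add_cancel] at h1

theorem fix_sq {φ : Au K} (h : ∀ i, φ (X i) ∈ org K) {f : P2 K} (hf : f ∈ org K ^ 2) :
    φ f ∈ org K ^ 2 := by
  have h1 : Ideal.map (φ : P2 K →+* P2 K) (org K) ≤ org K := by
    rw [Ideal.map_le_iff_le_comap]
    intro g hg
    rw [Ideal.mem_comap, mem_org]
    change constantCoeff (φ g) = 0
    rw [constantCoeff_of_fix h]
    exact hg
  have h2 : Ideal.map (φ : P2 K →+* P2 K) (org K ^ 2) ≤ org K ^ 2 := by
    rw [Ideal.map_pow]
    exact Ideal.pow_right_mono h1 2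
  exact h2 (Ideal.mem_map_of_mem _ hf)

theorem fix_inv {φ : Au K} (h : ∀ i, φ (X i) ∈ org K) (i : Fin 2) : φ⁻¹ (X i) ∈ org K := by
  rw [mem_org, ← constantCoeff_of_fix h]
  have : φ (φ⁻¹ (X i)) = X i := by
    change (φ * φ⁻¹) (X i) = X i
    rw [mul_inv_cancel]
    rfl
  rw [this, constantCoeff_X]

theorem Au_C (φ : Au K) (c : K) : φ (C c) = C c := by
  have e : (C c : P2 K) = algebraMap K (P2 K) c := rfl
  rw [e, AlgEquiv.commutes]

theorem one_col (g : Fin 2 → P2 K) (i : Fin 2) :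
    ∑ j, C ((1 : Matrix (Fin 2) (Fin 2) K) j i) * g j = g i := by
  rw [Finset.sum_eq_single i]
  · rw [Matrix.one_apply_eq, C_1, one_mul]
  · intro j _ hj
    rw [Matrix.one_apply_ne hj, C_0, zero_mul]
  · intro hk
    exact absurd (Finset.mem_univ i) hk

theorem LP_one : LP (1 : Au K) 1 := by
  intro i
  rw [one_col]
  change X i - X i ∈ _
  rw [sub_self]
  exact Ideal.zero_mem _

theorem LP_mul {φ ψ : Au K} {M N : Matrix (Fin 2) (Fin 2) K} (h : LP φ M) (h' : LP ψ N) :
    LP (φ * ψ) (M * N) := by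
  intro i
  have h1 := fix_sq (LP_fix h) (h' i)
  have h2 : ∑ j, C (N j i) * (φ (X j) - ∑ k, C (M k j) * X k) ∈ org K ^ 2 :=
    Ideal.sum_mem _ fun j _ => Ideal.mul_mem_left _ _ (h j)
  have h3 := Ideal.add_mem _ h1 h2
  have h4 : φ (ψ (X i) - ∑ j, C (N j i) * X j) +
      ∑ j, C (N j i) * (φ (X j) - ∑ k, C (M k j) * X k) =
      (φ * ψ) (X i) - ∑ j, C ((M * N) j i) * X j := by
    change _ = φ (ψ (X i)) - _
    rw [map_sub, map_sum]
    simp only [map_mul, Au_C, Fin.sum_univ_two, Matrix.mul_apply, map_add]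
    ring
  rwa [h4] at h3

theorem LP_inv {φ : Au K} {M : GL (Fin 2) K} (h : LP φ M.1) : LP φ⁻¹ (M⁻¹).1 := by
  have hf := fix_inv (LP_fix h)
  have h0 : ∀ f, φ⁻¹ (φ f) = f := fun f => by
    change (φ⁻¹ * φ) f = f
    rw [inv_mul_cancel]
    rfl
  have hM : ∀ k i, ∑ j, M.1 k j * (M⁻¹).1 j i = (1 : Matrix (Fin 2) (Fin 2) K) k i := by
    intro k i
    have : (M.1 * (M⁻¹).1) k i = (1 : Matrix (Fin 2) (Fin 2) K) k i := by
      rw [Units.mul_inv]
    rwa [Matrix.mul_apply] at this
  intro i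
  have h1 : ∑ j, C ((M⁻¹).1 j i) * (φ⁻¹ (φ (X j) - ∑ k, C (M.1 k j) * X k)) ∈ org K ^ 2 :=
    Ideal.sum_mem _ fun j _ => Ideal.mul_mem_left _ _ (fix_sq hf (h j))
  have h2 : φ⁻¹ (X i) = ∑ j, C ((M⁻¹).1 j i) * ∑ k, C (M.1 k j) * φ⁻¹ (X k) := by
    have e : ∀ k : Fin 2, ∑ j, C ((M⁻¹).1 j i) * (C (M.1 k j) * φ⁻¹ (X k)) =
        C ((1 : Matrix (Fin 2) (Fin 2) K) k i) * φ⁻¹ (X k) := by
      intro k
      rw [← hM k i, map_sum, Finset.sum_mul]
      refine Finset.sum_congr rfl fun j _ => ?_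
      rw [map_mul]
      ring
    simp only [Finset.mul_sum]
    rw [Finset.sum_comm]
    simp only [e]
    rw [one_col]
  have h3 : ∑ j, C ((M⁻¹).1 j i) * (φ⁻¹ (φ (X j) - ∑ k, C (M.1 k j) * X k)) =
      -(φ⁻¹ (X i) - ∑ j, C ((M⁻¹).1 j i) * X j) := by
    conv_rhs => rw [h2]
    simp only [map_sub, h0, map_mul, Au_C, Fin.sum_univ_two, map_add]
    ring
  rw [h3] at h1
  exact (Ideal.neg_mem_iff _).1 h1

/-- the value along a line through the origin -/
theorem sq_line {f : P2 K} (hf : f ∈ org K ^ 2) (a : Fin 2 → K) :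
    Polynomial.X ^ 2 ∣ aeval (fun i => Polynomial.C (a i) * Polynomial.X) f := by
  let ε : P2 K →+* Polynomial K := (aeval (R := K) fun i => Polynomial.C (a i) * Polynomial.X).toRingHom
  have h1 : Ideal.map ε (org K) ≤ Ideal.span {Polynomial.X} := by
    rw [Ideal.map_le_iff_le_comap]
    intro g hg
    rw [Ideal.mem_comap, Ideal.mem_span_singleton, Polynomial.X_dvd_iff, Polynomial.coeff_zero_eq_eval_zero]
    have : (Polynomial.evalRingHom (0 : K)).comp ε = constantCoeff := by
      apply ringHom_ext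
      · intro r
        change Polynomial.eval 0 (aeval _ (C r)) = _
        rw [aeval_C]
        change Polynomial.eval 0 (Polynomial.C r) = _
        rw [Polynomial.eval_C, constantCoeff_C]
      · intro i
        change Polynomial.eval 0 (aeval _ (X i)) = _
        rw [aeval_X, constantCoeff_X]
        simp
    have h2 := DFunLike.congr_fun this g
    change Polynomial.eval 0 (ε g) = constantCoeff g at h2
    rw [h2]
    exact hg
  have h2 : Ideal.map ε (org K ^ 2) ≤ Ideal.span {Polynomial.X} ^ 2 := by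
    rw [Ideal.map_pow]
    exact Ideal.pow_right_mono h1 2
  have h3 := h2 (Ideal.mem_map_of_mem _ hf)
  rw [Ideal.span_singleton_pow, Ideal.mem_span_singleton] at h3
  exact h3

theorem LP_unique {φ : Au K} {M N : Matrix (Fin 2) (Fin 2) K} (h : LP φ M) (h' : LP φ N) :
    M = N := by
  ext k i
  have h1 := Ideal.sub_mem _ (h' i) (h i)
  rw [sub_sub_sub_cancel_left] at h1
  have h2 := sq_line h1 (Pi.single k 1)
  rw [map_sub, map_sum, map_sum] at h2
  simp only [map_mul, aeval_C, aeval_X] at h2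
  rw [Polynomial.X_pow_dvd_iff] at h2
  have h3 := h2 1 (by norm_num)
  have e : ∀ (L : Matrix (Fin 2) (Fin 2) K), (∑ j, algebraMap K (Polynomial K) (L j i) *
      (Polynomial.C ((Pi.single k 1 : Fin 2 → K) j) * Polynomial.X)).coeff 1 = L k i := by
    intro L
    rw [Finset.sum_eq_single k]
    · rw [Pi.single_eq_same, Polynomial.C_1, one_mul]
      change (Polynomial.C (L k i) * Polynomial.X).coeff 1 = _
      rw [Polynomial.coeff_C_mul, Polynomial.coeff_X_one, mul_one]
    · intro j _ hj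
      rw [Pi.single_eq_of_ne hj, Polynomial.C_0, zero_mul, mul_zero]
    · intro hk
      exact absurd (Finset.mem_univ k) hk
  rw [Polynomial.coeff_sub, e, e] at h3
  exact sub_eq_zero.1 h3

theorem LP_lin (M : GL (Fin 2) K) : LP (lin M) M.1 := by
  intro i
  rw [lin_apply, linHom_X, sub_self]
  exact Ideal.zero_mem _

theorem ell_mem (v : Fin 2 → K) : ell v ∈ org K := by
  unfold ell dt
  exact Ideal.sub_mem _ (Ideal.mul_mem_left _ _ (X_mem_org 1)) (Ideal.mul_mem_left _ _ (X_mem_org 0))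

theorem LP_shear (v : Fin 2 → K) {p : Polynomial K} (hp : Polynomial.X ^ 2 ∣ p) :
    LP (shear v p) 1 := by
  intro i
  rw [one_col, shear_apply, shearHom_X, add_sub_cancel_left]
  obtain ⟨q, rfl⟩ := hp
  rw [map_mul, map_pow, Polynomial.aeval_X]
  exact Ideal.mul_mem_left _ _ (Ideal.mul_mem_right _ _ (Ideal.pow_mem_pow (ell_mem v) 2))

/-- the group of the tame automorphisms which fix the origin with linear part in `H` -/
noncomputable def PA (H : Subgroup (GL (Fin 2) K)) : Subgroup (Au K) where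
  carrier := {φ | φ ∈ Tame K ∧ ∃ M ∈ H, LP φ M.1}
  one_mem' := ⟨(Tame K).one_mem, 1, H.one_mem, LP_one⟩
  mul_mem' := by
    rintro φ ψ ⟨h1, M, hM, h2⟩ ⟨h3, N, hN, h4⟩
    exact ⟨(Tame K).mul_mem h1 h3, M * N, H.mul_mem hM hN, LP_mul h2 h4⟩
  inv_mem' := by
    rintro φ ⟨h1, M, hM, h2⟩
    exact ⟨(Tame K).inv_mem h1, M⁻¹, H.inv_mem hM, LP_inv h2⟩

end Pool.Agent.Helper686_FJ
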