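import Pool.Agent.Helper686_FJ.Plane2

/-!
# Tame automorphisms which fix the origin: generators, and the theorem
-/

set_option autoImplicit false

namespace Pool.Agent.Helper686_FJ

open MvPolynomial Pool.Agent.Y110.FJ Pool.Agent.R684.FP Pool.Agent.H694.TR
open Pool.Agent.R941.FJ (C_equiv C_le)
open LinearAlgebra.Projectivization

variable {K : Type} [Field K]

/-- translations -/
noncomputable def tr (a : Fin 2 → K) : Au K := shear a 1

theorem tr_X (a : Fin 2 → K) (i : Fin 2) : tr a (X i) = X i + C (a i) := by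
  rw [tr, shear_apply, shearHom_X, map_one, mul_one]

theorem tr_add (a b : Fin 2 → K) : tr a * tr b = tr (a + b) := by
  apply Au_ext
  intro i
  change tr a (tr b (X i)) = _
  rw [tr_X, tr_X, map_add, tr_X, Au_C, Pi.add_apply, map_add, add_assoc]

theorem tr_zero : tr (0 : Fin 2 → K) = 1 := by
  apply Au_ext
  intro i
  rw [tr_X, Pi.zero_apply, C_0, add_zero]
  rfl

/-- the value of an automorphism at a point of the plane -/
noncomputable def pact (φ : Au K) (a : Fin 2 → K) : Fin 2 → K := fun i => aeval a (φ (X i))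

theorem aeval_pact (φ : Au K) (a : Fin 2 → K) (f : P2 K) :
    aeval (pact φ a) f = aeval a (φ f) := by
  have : (aeval (pact φ a) : P2 K →ₐ[K] K) = (aeval a).comp (φ : P2 K →ₐ[K] P2 K) := by
    apply algHom_ext
    intro i
    rw [aeval_X]
    rfl
  exact DFunLike.congr_fun this f

theorem pact_mul (φ ψ : Au K) (a : Fin 2 → K) : pact (φ * ψ) a = pact ψ (pact φ a) := by
  funext i
  change aeval a (φ (ψ (X i))) = aeval (pact φ a) (ψ (X i))
  rw [aeval_pact]

theorem pact_one (a : Fin 2 → K) : pact (1 : Au K) a = a := by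
  funext i
  change aeval a (X i) = a i
  rw [aeval_X]

/-- the shears tangent to the identity and the linear maps -/
noncomputable def G0 (K : Type) [Field K] : Subgroup (Au K) := (⨆ x, UP x) ⊔ (lin (K := K)).range

theorem shear_zero_left (p : Polynomial K) : shear 0 p = 1 := by
  have h1 := shear_smul (0 : K) 0 p
  rw [zero_smul] at h1
  rw [h1, map_zero, zero_mul, shear_zero]

theorem shear_mem_iSup (v : Fin 2 → K) {p : Polynomial K} (hp : Polynomial.X ^ 2 ∣ p) :
    shear v p ∈ ⨆ x : ℙ K (Fin 2 → K), UP x := by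
  by_cases hv : v = 0
  · rw [hv, shear_zero_left]
    exact Subgroup.one_mem _
  · refine (le_iSup UP (Projectivization.mk K v hv)) ?_
    rw [← U_eq_UP hv]
    exact ⟨p, hp, rfl⟩

/-- transvections -/
def tv (e : K) (v : Fin 2 → K) : GL (Fin 2) K where
  val := !![1 - e * v 0 * v 1, - (e * v 1 * v 1); e * v 0 * v 0, 1 + e * v 0 * v 1]
  inv := !![1 + e * v 0 * v 1, e * v 1 * v 1; - (e * v 0 * v 0), 1 - e * v 0 * v 1]
  val_inv := by
    rw [Matrix.mul_fin_two, Matrix.one_fin_two]
    congr 1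
    ring_nf
  inv_val := by
    rw [Matrix.mul_fin_two, Matrix.one_fin_two]
    congr 1
    ring_nf

theorem shear_lin (e : K) (v : Fin 2 → K) :
    shear v (Polynomial.C e * Polynomial.X) = lin (tv e v) := by
  apply Au_ext
  intro i
  rw [shear_apply, shearHom_X, lin_apply, linHom_X, Fin.sum_univ_two, map_mul, Polynomial.aeval_C,
    Polynomial.aeval_X]
  have h : (algebraMap K (P2 K) e) = C e := rfl
  rw [h]
  unfold ell dt
  fin_cases i
  · change X 0 + C (v 0) * (C e * (C (v 0) * X 1 - C (v 1) * X 0)) =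
      C (1 - e * v 0 * v 1) * X 0 + C (e * v 0 * v 0) * X 1
    simp only [map_sub, map_mul, map_one]
    ring
  · change X 1 + C (v 1) * (C e * (C (v 0) * X 1 - C (v 1) * X 0)) =
      C (- (e * v 1 * v 1)) * X 0 + C (1 + e * v 0 * v 1) * X 1
    simp only [map_neg, map_add, map_mul, map_one]
    ring

theorem shear_mem_G0 (v : Fin 2 → K) {p : Polynomial K} (hp : p.coeff 0 = 0) :
    shear v p ∈ G0 K := by
  have h : shear v p = shear v (p - Polynomial.C (p.coeff 1) * Polynomial.X) *
      shear v (Polynomial.C (p.coeff 1) * Polynomial.X) := by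
    rw [shear_mul, sub_add_cancel]
  rw [h]
  refine (G0 K).mul_mem ?_ ?_
  · refine (le_sup_left : _ ≤ G0 K) (shear_mem_iSup v ?_)
    rw [Polynomial.X_pow_dvd_iff]
    intro d hd
    rw [Polynomial.coeff_sub, Polynomial.coeff_C_mul]
    interval_cases d
    · rw [hp, Polynomial.coeff_X_zero, mul_zero, sub_zero]
    · rw [Polynomial.coeff_X_one, mul_one, sub_self]
  · rw [shear_lin]
    exact (le_sup_right : _ ≤ G0 K) ⟨_, rfl⟩

theorem Q_lin (M : GL (Fin 2) K) (a : Fin 2 → K) :
    tr a * lin M = lin M * tr (pact (lin M) a) := by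
  apply Au_ext
  intro i
  change tr a (linHom M.1 (X i)) = lin M (tr _ (X i))
  rw [tr_X, map_add, Au_C, lin_apply, linHom_X, map_sum]
  simp only [map_mul, Au_C, tr_X]
  have h : pact (lin M) a i = ∑ j, M.1 j i * a j := by
    change aeval a (linHom M.1 (X i)) = _
    rw [linHom_X, map_sum]
    refine Finset.sum_congr rfl fun j _ => ?_
    rw [map_mul, aeval_C, aeval_X]
    rfl
  rw [h, map_sum, ← Finset.sum_add_distrib]
  refine Finset.sum_congr rfl fun j _ => ?_
  rw [map_mul]
  ring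

theorem Q_shear (v : Fin 2 → K) (p : Polynomial K) (a : Fin 2 → K) :
    ∃ q : Polynomial K, q.coeff 0 = 0 ∧
      tr a * shear v p = shear v q * tr (pact (shear v p) a) := by
  set c : K := v 0 * a 1 - v 1 * a 0 with hc
  refine ⟨p.comp (Polynomial.X + Polynomial.C c) - Polynomial.C (p.eval c), ?_, ?_⟩
  · rw [Polynomial.coeff_zero_eq_eval_zero, Polynomial.eval_sub, Polynomial.eval_comp,
      Polynomial.eval_add, Polynomial.eval_X, Polynomial.eval_C, zero_add, Polynomial.eval_C,
      sub_self]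
  · apply Au_ext
    intro i
    rw [AlgEquiv.mul_apply, AlgEquiv.mul_apply]
    have h1 : tr a (ell v) = ell v + C c := by
      unfold ell dt
      rw [map_sub, map_mul, map_mul, Au_C, Au_C, tr_X, tr_X, hc, map_sub, map_mul, map_mul]
      ring
    have h2 : tr a (Polynomial.aeval (ell v) p) =
        Polynomial.aeval (ell v) (p.comp (Polynomial.X + Polynomial.C c)) := by
      have h3 := Polynomial.aeval_algHom_apply (tr a : P2 K →ₐ[K] P2 K) (ell v) p
      change Polynomial.aeval (tr a (ell v)) p = tr a (Polynomial.aeval (ell v) p) at h3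
      rw [← h3, h1, Polynomial.aeval_comp, map_add, Polynomial.aeval_X, Polynomial.aeval_C]
      rfl
    have h4 : pact (shear v p) a i = a i + v i * p.eval c := by
      change aeval a (shearHom v p (X i)) = _
      rw [shearHom_X, map_add, map_mul, aeval_X, aeval_C, ← Polynomial.aeval_algHom_apply]
      have h5 : aeval a (ell v) = c := by
        unfold ell dt
        rw [map_sub, map_mul, map_mul, aeval_C, aeval_C, aeval_X, aeval_X]
        rfl
      rw [h5]
      congr 1
    have h7 : Polynomial.aeval (ell v) (p.comp (Polynomial.X + Polynomial.C c) -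
        Polynomial.C (p.eval c)) = Polynomial.aeval (ell v) (p.comp (Polynomial.X +
        Polynomial.C c)) - C (p.eval c) := by
      rw [map_sub (Polynomial.aeval (R := K) (ell v)), Polynomial.aeval_C]
      rfl
    rw [tr_X, map_add, Au_C, shear_apply, shear_apply, shearHom_X, shearHom_X, map_add, map_mul,
      Au_C, tr_X, h2, h4, h7, map_add, map_mul]
    ring

theorem tame_G0 {φ : Au K} (h : φ ∈ Tame K) (a : Fin 2 → K) :
    tr a * φ * tr (-(pact φ a)) ∈ G0 K := by
  have htt : ∀ b : Fin 2 → K, tr b * tr (-b) = 1 := fun b => by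
    rw [tr_add, add_neg_cancel, tr_zero]
  have htt' : ∀ b : Fin 2 → K, tr (-b) * tr b = 1 := fun b => by
    rw [tr_add, neg_add_cancel, tr_zero]
  induction h using Subgroup.closure_induction generalizing a with
  | mem φ hφ =>
    rcases hφ with ⟨M, rfl⟩ | ⟨v, p, rfl⟩
    · rw [Q_lin, mul_assoc, htt, mul_one]
      exact (le_sup_right : _ ≤ G0 K) ⟨_, rfl⟩
    · obtain ⟨q, hq, h⟩ := Q_shear v p a
      rw [h, mul_assoc, htt, mul_one]
      exact shear_mem_G0 v hq
  | one =>
    rw [pact_one, mul_one, htt]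
    exact (G0 K).one_mem
  | mul φ ψ _ _ h1 h2 =>
    have e : tr a * (φ * ψ) * tr (-(pact (φ * ψ) a)) =
        (tr a * φ * tr (-(pact φ a))) * (tr (pact φ a) * ψ * tr (-(pact ψ (pact φ a)))) := by
      rw [pact_mul]
      calc tr a * (φ * ψ) * tr (-(pact ψ (pact φ a)))
          = tr a * φ * 1 * ψ * tr (-(pact ψ (pact φ a))) := by group
        _ = tr a * φ * (tr (-(pact φ a)) * tr (pact φ a)) * ψ * tr (-(pact ψ (pact φ a))) := by
            rw [htt']
        _ = _ := by simp only [mul_assoc]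
    rw [e]
    exact (G0 K).mul_mem (h1 a) (h2 _)
  | inv φ _ h1 =>
    have e1 : pact φ (pact φ⁻¹ a) = a := by
      rw [← pact_mul, inv_mul_cancel, pact_one]
    have h2 := (G0 K).inv_mem (h1 (pact φ⁻¹ a))
    rw [e1] at h2
    have e2 : ∀ b : Fin 2 → K, (tr b)⁻¹ = tr (-b) := fun b => inv_eq_of_mul_eq_one_right (htt b)
    rw [mul_inv_rev, mul_inv_rev, e2, e2, neg_neg, ← mul_assoc] at h2
    exact h2

theorem UP_le_LP {φ : Au K} (h : φ ∈ ⨆ x : ℙ K (Fin 2 → K), UP x) : LP φ (1 : GL (Fin 2) K).1 := by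
  have h1 : (⨆ x : ℙ K (Fin 2 → K), UP x) ≤ PA (⊥ : Subgroup (GL (Fin 2) K)) := by
    refine iSup_le fun x => ?_
    rintro _ ⟨p, hp, rfl⟩
    exact ⟨Subgroup.subset_closure (Or.inr ⟨_, p, rfl⟩), 1, Subgroup.one_mem _, LP_shear _ hp⟩
  obtain ⟨_, M, hM, h2⟩ := h1 h
  rw [Subgroup.mem_bot] at hM
  rwa [hM] at h2

theorem NP_normal (M : GL (Fin 2) K) {n : Au K} (h : n ∈ ⨆ x : ℙ K (Fin 2 → K), UP x) :
    lin M * n * (lin M)⁻¹ ∈ ⨆ x : ℙ K (Fin 2 → K), UP x := by
  have h1 : (⨆ x : ℙ K (Fin 2 → K), UP x) ≤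
      (⨆ x : ℙ K (Fin 2 → K), UP x).comap (MulAut.conj (lin M)).toMonoidHom := by
    refine iSup_le fun x u hu => ?_
    obtain ⟨y, hy⟩ := UP_perm M x
    exact (le_iSup UP y) ((hy u).1 hu)
  exact h1 h

theorem G0_decomp {φ : Au K} (h : φ ∈ G0 K) :
    ∃ n ∈ ⨆ x : ℙ K (Fin 2 → K), UP x, ∃ M, φ = n * lin M := by
  let L : Subgroup (Au K) :=
    { carrier := {φ | ∃ n ∈ ⨆ x : ℙ K (Fin 2 → K), UP x, ∃ M, φ = n * lin M}
      one_mem' := ⟨1, Subgroup.one_mem _, 1, by rw [map_one, one_mul]⟩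
      mul_mem' := by
        rintro _ _ ⟨n, hn, M, rfl⟩ ⟨n', hn', M', rfl⟩
        refine ⟨n * (lin M * n' * (lin M)⁻¹), Subgroup.mul_mem _ hn (NP_normal M hn'), M * M', ?_⟩
        rw [map_mul]
        group
      inv_mem' := by
        rintro _ ⟨n, hn, M, rfl⟩
        refine ⟨lin M⁻¹ * n⁻¹ * (lin M⁻¹)⁻¹, NP_normal _ (Subgroup.inv_mem _ hn), M⁻¹, ?_⟩
        rw [map_inv]
        group }
  have h1 : G0 K ≤ L := by
    refine sup_le ?_ ?_
    · intro n hn
      exact ⟨n, hn, 1, by rw [map_one, mul_one]⟩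
    · rintro _ ⟨M, rfl⟩
      exact ⟨1, Subgroup.one_mem _, M, (one_mul _).symm⟩
  exact h1 h

/-- an automorphism which fixes the origin -/
theorem mem_G0_of_fix {φ : Au K} (h : φ ∈ Tame K) (h0 : ∀ i, φ (X i) ∈ org K) : φ ∈ G0 K := by
  have h1 := tame_G0 h 0
  have h2 : pact φ 0 = 0 := by
    funext i
    have h3 := h0 i
    rw [mem_org] at h3
    change aeval (0 : Fin 2 → K) (φ (X i)) = 0
    rw [aeval_zero, h3, map_zero]
  rw [h2, neg_zero, tr_zero, one_mul, mul_one] at h1
  exact h1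

theorem PA_eq (H : Subgroup (GL (Fin 2) K)) :
    PA H = (⨆ x : ℙ K (Fin 2 → K), UP x) ⊔ H.map lin := by
  apply le_antisymm
  · rintro φ ⟨h1, N, hN, h2⟩
    obtain ⟨n, hn, M, rfl⟩ := G0_decomp (mem_G0_of_fix h1 (LP_fix h2))
    have h3 := LP_mul (UP_le_LP hn) (LP_lin M)
    have h4 := LP_unique h2 h3
    rw [← Units.val_mul, one_mul] at h4
    have h5 : N = M := Units.ext h4
    rw [← h5]
    exact Subgroup.mul_mem_sup hn ⟨N, hN, rfl⟩
  · refine sup_le (iSup_le fun x => ?_) ?_
    · rintro _ ⟨p, hp, rfl⟩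
      exact ⟨Subgroup.subset_closure (Or.inr ⟨_, p, rfl⟩), 1, H.one_mem, LP_shear _ hp⟩
    · rintro _ ⟨M, hM, rfl⟩
      exact ⟨Subgroup.subset_closure (Or.inl ⟨M, rfl⟩), M, hM, LP_lin M⟩

theorem lin_injective : Function.Injective (lin (K := K)) := by
  rw [injective_iff_map_eq_one]
  intro M hM
  apply lin_Tan (K := K)
  rw [hM]
  exact Subgroup.one_mem _

variable {C : ∀ (G : Type) [Group G], Prop}

/-- **Tame automorphisms of the plane which fix the origin, with linear part in `H`.** -/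
theorem PA_iff (hC : ClosedE C) (hF : FbC C) (hS : Sol C) (H : Subgroup (GL (Fin 2) K)) :
    C (PA H) ↔ C H := by
  constructor
  · intro h
    have hle : H.map lin ≤ PA H := by
      rw [PA_eq]
      exact le_sup_right
    exact C_equiv hC.base (H.equivMapOfInjective lin lin_injective) (C_le hC.base hle h)
  · intro h
    rw [PA_eq]
    refine lemL hC hF hS (H.map lin) (⨆ x, UP x) UP rfl free_inj
      (fun x u hu w hw => U_comm _ hu hw) ?_ ?_ ?_
    · rintro _ ⟨M, _, rfl⟩ x
      exact UP_perm _ x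
    · rintro _ ⟨M, _, rfl⟩ hM
      have h1 : (⨆ x, UP x) ≤ (Tan : Subgroup (Au K)) := iSup_le fun x => U_le_Tan _
      rw [lin_Tan (h1 hM), map_one]
    · exact C_equiv hC.base (H.equivMapOfInjective lin lin_injective).symm h

end Pool.Agent.Helper686_FJ
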