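import Pool.Agent.Helper686_FJ.Plane3
import Pool.Agent.Helper686_FJ.Mv
import Pool.Agent.Helper686_FJ.GLZ

/-!
# Tame automorphisms over locally finite fields, and over fraction fields of polynomial rings
-/

set_option autoImplicit false

namespace Pool.Agent.Helper686_FJ

open MvPolynomial Pool.Agent.Y110.FJ Pool.Agent.R684.FP Pool.Agent.H694.TR
open Pool.Agent.R941.FJ (C_equiv C_le)
open Pool.Agent.Y430.SS (of_directed of_finite)
open LinearAlgebra.Projectivization

/-- the stabilizer of a point with finite orbit -/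
theorem fin_stab {G : Type} [Group G] {α : Type} (ρ : G →* Equiv.Perm α) (x : α) (S : Set α)
    (hS : S.Finite) (h : ∀ g, ρ g x ∈ S) : ∃ P : Subgroup G, P.FiniteIndex ∧ ∀ g ∈ P, ρ g x = x := by
  let _ : MulAction G α := MulAction.compHom α ρ
  refine ⟨MulAction.stabilizer G x, ?_, fun g hg => hg⟩
  have h1 : (MulAction.orbit G x).Finite := by
    refine hS.subset ?_
    rintro _ ⟨g, rfl⟩
    exact h g
  have h2 : Finite (G ⧸ MulAction.stabilizer G x) := by
    have := h1.to_subtype
    exact Finite.of_equiv _ (MulAction.orbitEquivQuotientStabilizer G x)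
  exact Subgroup.finiteIndex_of_finite_quotient

variable {K : Type} [Field K]

/-- the action on the points of the plane over `K` -/
noncomputable def rho0 : Au K →* Equiv.Perm (Fin 2 → K) where
  toFun φ :=
    { toFun := pact φ⁻¹
      invFun := pact φ
      left_inv := fun a => by rw [← pact_mul, inv_mul_cancel, pact_one]
      right_inv := fun a => by rw [← pact_mul, mul_inv_cancel, pact_one] }
  map_one' := by
    ext1 a
    change pact (1 : Au K)⁻¹ a = a
    rw [inv_one, pact_one]
  map_mul' φ ψ := by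
    ext1 a
    change pact (φ * ψ)⁻¹ a = pact φ⁻¹ (pact ψ⁻¹ a)
    rw [mul_inv_rev, pact_mul]

theorem pact_mem (L : Subring K) (φ : Au K) (h : ∀ i m, (φ (X i)).coeff m ∈ L) (a : Fin 2 → K)
    (ha : ∀ i, a i ∈ L) (i : Fin 2) : pact φ a i ∈ L := by
  change aeval a (φ (X i)) ∈ L
  rw [aeval_def, eval₂_eq']
  refine Subring.sum_mem _ fun m _ => L.mul_mem (h i m) ?_
  exact Subring.prod_mem _ fun j _ => L.pow_mem (ha j) _

/-- the automorphisms which preserve the points with coordinates in `L`, in both directions -/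
def PL2 (L : Subring K) : Subgroup (Au K) where
  carrier := {φ | (∀ a : Fin 2 → K, (∀ i, a i ∈ L) → ∀ i, pact φ a i ∈ L) ∧
    (∀ a : Fin 2 → K, (∀ i, a i ∈ L) → ∀ i, pact φ⁻¹ a i ∈ L)}
  one_mem' := by
    constructor
    · intro a ha
      rw [pact_one]
      exact ha
    · intro a ha
      rw [inv_one, pact_one]
      exact ha
  mul_mem' := by
    rintro φ ψ ⟨h1, h2⟩ ⟨h3, h4⟩
    constructor
    · intro a ha
      rw [pact_mul]
      exact h3 _ (h1 _ ha)
    · intro a ha
      rw [mul_inv_rev, pact_mul]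
      exact h2 _ (h4 _ ha)
  inv_mem' := by
    rintro φ ⟨h1, h2⟩
    refine ⟨h2, ?_⟩
    rw [inv_inv]
    exact h1

variable {C : ∀ (G : Type) [Group G], Prop}

theorem fix_mem_PA {φ : Au K} (h : φ ∈ Tame K) (h0 : pact φ 0 = 0) :
    φ ∈ PA (⊤ : Subgroup (GL (Fin 2) K)) := by
  have h3 : φ ∈ G0 K := by
    apply mem_G0_of_fix h
    intro i
    have h4 : aeval (0 : Fin 2 → K) (φ (X i)) = 0 := congrFun h0 i
    rw [mem_org]
    rwa [aeval_zero] at h4
  rw [PA_eq, ← MonoidHom.range_eq_map]
  exact h3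

/-- finitely generated groups of automorphisms over a locally finite field preserve a finite set -/
theorem orbit_fin (h : ∀ s : Finset K, (Subring.closure (s : Set K) : Set K).Finite)
    (s : Finset (Au K)) : ∃ S : Set (Fin 2 → K), S.Finite ∧
      ∀ φ ∈ Subgroup.closure (s : Set (Au K)), pact φ⁻¹ 0 ∈ S := by
  classical
  let cf : Au K → Finset K := fun φ =>
    Finset.univ.biUnion fun i : Fin 2 => (φ (X i)).support.image fun m => (φ (X i)).coeff m
  let T : Finset K := s.biUnion fun φ => cf φ ∪ cf φ⁻¹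
  let L : Subring K := Subring.closure (T : Set K)
  have hL : (L : Set K).Finite := h T
  have hcf : ∀ φ : Au K, (∀ x ∈ cf φ, x ∈ L) → ∀ i m, (φ (X i)).coeff m ∈ L := by
    intro φ hφ i m
    by_cases hm : m ∈ (φ (X i)).support
    · apply hφ
      exact Finset.mem_biUnion.2 ⟨i, Finset.mem_univ _, Finset.mem_image.2 ⟨m, hm, rfl⟩⟩
    · rw [notMem_support_iff.1 hm]
      exact L.zero_mem
  have hs : ∀ φ ∈ s, φ ∈ PL2 L := by
    intro φ hφ
    have h1 : ∀ x ∈ cf φ, x ∈ L := by
      intro x hx
      apply Subring.subset_closure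
      exact Finset.mem_coe.2 (Finset.mem_biUnion.2 ⟨φ, hφ, Finset.mem_union_left _ hx⟩)
    have h2 : ∀ x ∈ cf φ⁻¹, x ∈ L := by
      intro x hx
      apply Subring.subset_closure
      exact Finset.mem_coe.2 (Finset.mem_biUnion.2 ⟨φ, hφ, Finset.mem_union_right _ hx⟩)
    exact ⟨fun a ha => pact_mem L _ (hcf _ h1) a ha, fun a ha => pact_mem L _ (hcf _ h2) a ha⟩
  have hP : Subgroup.closure (s : Set (Au K)) ≤ PL2 L := by
    rw [Subgroup.closure_le]
    intro φ hφ
    exact hs φ (Finset.mem_coe.1 hφ)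
  refine ⟨{a : Fin 2 → K | ∀ i, a i ∈ (L : Set K)}, Set.Finite.pi' fun _ => hL, ?_⟩
  intro φ hφ
  exact (hP hφ).2 0 fun i => L.zero_mem

theorem fg_lf (hC : ClosedE C)
    (h : ∀ s : Finset K, (Subring.closure (s : Set K) : Set K).Finite)
    (hPA : C (PA (⊤ : Subgroup (GL (Fin 2) K)))) (s : Finset (Au K))
    (hs : ∀ φ ∈ s, φ ∈ Tame K) : C ↥(Subgroup.closure (s : Set (Au K))) := by
  obtain ⟨S, hS, hS2⟩ := orbit_fin h s
  have hle : Subgroup.closure (s : Set (Au K)) ≤ Tame K := by
    rw [Subgroup.closure_le]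
    intro φ hφ
    exact hs φ (Finset.mem_coe.1 hφ)
  obtain ⟨Q, hQ, hQ2⟩ := fin_stab ((rho0 (K := K)).comp (Subgroup.closure (s : Set (Au K))).subtype)
    0 S hS (fun g => hS2 g.1 g.2)
  refine hC.base.finiteIndex _ Q hQ ?_
  have h1 : ∀ x : Q, ((Subgroup.closure (s : Set (Au K))).subtype.comp Q.subtype) x ∈
      PA (⊤ : Subgroup (GL (Fin 2) K)) := by
    intro x
    apply fix_mem_PA (hle x.1.2)
    have h2 : pact (x.1.1)⁻¹ 0 = 0 := hQ2 x.1 x.2
    change pact x.1.1 0 = 0
    conv_lhs => rw [← h2]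
    rw [← pact_mul, inv_mul_cancel, pact_one]
  refine hC.base.of_injective _ _ (MonoidHom.codRestrict _ _ h1) ?_ hPA
  intro a b hab
  apply Subtype.ext
  apply Subtype.ext
  have h3 := congrArg (fun x : PA (⊤ : Subgroup (GL (Fin 2) K)) => x.1) hab
  exact h3

/-- **The group of all tame automorphisms of the plane over a locally finite field.** -/
theorem tame_lf (hC : ClosedE C) (hF : FbC C) (hS : Sol C)
    (h : ∀ s : Finset K, (Subring.closure (s : Set K) : Set K).Finite) : C (Tame K) := by
  classical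
  have hGL : C (GL (Fin 2) K) := GLP.g2_lf hC K h
  have hPA : C (PA (⊤ : Subgroup (GL (Fin 2) K))) :=
    (PA_iff hC hF hS ⊤).2 (C_equiv hC.base Subgroup.topEquiv hGL)
  refine of_directed hC.base (Tame K) (Finset (Tame K)) (fun i j => ⟨i ∪ j,
    Finset.subset_union_left, Finset.subset_union_right⟩)
    (fun s => Subgroup.closure (s : Set (Tame K))) ?_ ?_ ?_
  · intro s t hst
    exact Subgroup.closure_mono (by exact_mod_cast hst)
  · intro r
    exact ⟨{r}, Subgroup.subset_closure (by simp)⟩
  · intro s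
    have h1 := fg_lf hC h hPA (s.image Subtype.val) (by
      intro φ hφ
      obtain ⟨x, _, rfl⟩ := Finset.mem_image.1 hφ
      exact x.2)
    have h2 : (Subgroup.closure (s : Set (Tame K))).map (Tame K).subtype =
        Subgroup.closure ((s.image Subtype.val : Finset (Au K)) : Set (Au K)) := by
      rw [MonoidHom.map_closure, Finset.coe_image]
      rfl
    rw [← h2] at h1
    exact C_equiv hC.base (Subgroup.equivMapOfInjective _ _ (Tame K).subtype_injective) h1

/-- automorphisms of the plane over a field `K` with linear part over a polynomial ring -/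
theorem PA_mv (hC : ClosedE C) (hF : FbC C) (hS : Sol C) (σ R : Type) [CommRing R] [IsDomain R]
    (j : MvPolynomial σ R →+* K) (hj : Function.Injective j) :
    C (PA (Matrix.GeneralLinearGroup.map (n := Fin 2) j).range) ↔ C (GL (Fin 2) R) := by
  rw [PA_iff hC hF hS, ← GLP.g2_mv_iff hC hF hS σ R]
  have hinj : Function.Injective (Matrix.GeneralLinearGroup.map (n := Fin 2) j) := by
    intro A B h
    exact GLP.G2map_inj j hj h
  exact ⟨C_equiv hC.base (MonoidHom.ofInjective hinj),
    C_equiv hC.base (MonoidHom.ofInjective hinj).symm⟩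

end Pool.Agent.Helper686_FJ
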