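import Pool.Agent.Helper686_FJ.Base
import Pool.Agent.Helper686_FJ.PP

/-!
# Automorphisms of the polynomial ring in two variables: linear maps and shears
-/

set_option autoImplicit false

namespace Pool.Agent.Helper686_FJ

open MvPolynomial

/-- the polynomial ring in two variables -/
abbrev P2 (K : Type) [Field K] := MvPolynomial (Fin 2) K

/-- the group of automorphisms of the affine plane, as the automorphisms of its coordinate ring -/
abbrev Au (K : Type) [Field K] := P2 K ≃ₐ[K] P2 K

variable {K : Type} [Field K]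

/-- the linear form `v₀ y - v₁ x` with kernel the line through `v` -/
noncomputable def ell (v : Fin 2 → K) : P2 K := dt (fun i => C (v i)) X

/-- the endomorphism `(x, y) ↦ (x, y) + p(v₀ y - v₁ x) v` -/
noncomputable def shearHom (v : Fin 2 → K) (p : Polynomial K) : P2 K →ₐ[K] P2 K :=
  aeval fun i => X i + C (v i) * Polynomial.aeval (ell v) p

theorem shearHom_X (v : Fin 2 → K) (p : Polynomial K) (i : Fin 2) :
    shearHom v p (X i) = X i + C (v i) * Polynomial.aeval (ell v) p := by
  rw [shearHom, aeval_X]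

theorem algHom_C (f : P2 K →ₐ[K] P2 K) (c : K) : f (C c) = C c := by
  have : (C c : P2 K) = algebraMap K (P2 K) c := rfl
  rw [this, AlgHom.commutes]

theorem shearHom_ell (v : Fin 2 → K) (p : Polynomial K) : shearHom v p (ell v) = ell v := by
  unfold ell dt
  rw [map_sub, map_mul, map_mul, shearHom_X, shearHom_X, algHom_C, algHom_C]
  ring

theorem shearHom_aeval (v : Fin 2 → K) (p q : Polynomial K) :
    shearHom v p (Polynomial.aeval (ell v) q) = Polynomial.aeval (ell v) q := by
  rw [← Polynomial.aeval_algHom_apply, shearHom_ell]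

theorem shearHom_comp (v : Fin 2 → K) (p q : Polynomial K) :
    (shearHom v p).comp (shearHom v q) = shearHom v (p + q) := by
  apply algHom_ext
  intro i
  rw [AlgHom.comp_apply, shearHom_X, map_add, map_mul, shearHom_X, algHom_C, shearHom_aeval,
    shearHom_X, map_add]
  ring

theorem shearHom_zero (v : Fin 2 → K) : shearHom v 0 = AlgHom.id K (P2 K) := by
  apply algHom_ext
  intro i
  rw [shearHom_X, map_zero, mul_zero, add_zero]
  rfl

/-- the automorphism `(x, y) ↦ (x, y) + p(v₀ y - v₁ x) v` -/
noncomputable def shear (v : Fin 2 → K) (p : Polynomial K) : Au K :=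
  AlgEquiv.ofAlgHom (shearHom v p) (shearHom v (-p))
    (by rw [shearHom_comp, add_neg_cancel, shearHom_zero])
    (by rw [shearHom_comp, neg_add_cancel, shearHom_zero])

theorem shear_apply (v : Fin 2 → K) (p : Polynomial K) (f : P2 K) : shear v p f = shearHom v p f :=
  rfl

theorem Au_ext {φ ψ : Au K} (h : ∀ i, φ (X i) = ψ (X i)) : φ = ψ := by
  have : (φ : P2 K →ₐ[K] P2 K) = (ψ : P2 K →ₐ[K] P2 K) := algHom_ext h
  ext1 x
  exact DFunLike.congr_fun this x

theorem shear_mul (v : Fin 2 → K) (p q : Polynomial K) : shear v p * shear v q = shear v (p + q) := by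
  apply Au_ext
  intro i
  have := DFunLike.congr_fun (shearHom_comp v p q) (X i)
  exact this

theorem shear_zero (v : Fin 2 → K) : shear v 0 = 1 := by
  apply Au_ext
  intro i
  rw [shear_apply, shearHom_zero]
  rfl

theorem shear_inv (v : Fin 2 → K) (p : Polynomial K) : (shear v p)⁻¹ = shear v (-p) := by
  rw [inv_eq_iff_mul_eq_one, shear_mul, add_neg_cancel, shear_zero]

theorem ell_smul (c : K) (v : Fin 2 → K) :
    ell (c • v) = Polynomial.aeval (ell v) (Polynomial.C c * Polynomial.X) := by
  rw [map_mul, Polynomial.aeval_C, Polynomial.aeval_X]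
  have : (algebraMap K (P2 K) c) = C c := rfl
  rw [this]
  unfold ell dt
  simp only [Pi.smul_apply, smul_eq_mul, map_mul]
  ring

theorem aeval_ell_smul (c : K) (v : Fin 2 → K) (p : Polynomial K) :
    Polynomial.aeval (ell (c • v)) p =
      Polynomial.aeval (ell v) (p.comp (Polynomial.C c * Polynomial.X)) := by
  rw [ell_smul, Polynomial.aeval_comp]

theorem shear_smul (c : K) (v : Fin 2 → K) (p : Polynomial K) :
    shear (c • v) p = shear v (Polynomial.C c * p.comp (Polynomial.C c * Polynomial.X)) := by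
  apply Au_ext
  intro i
  rw [shear_apply, shear_apply, shearHom_X, shearHom_X, aeval_ell_smul, map_mul, Polynomial.aeval_C]
  have : (algebraMap K (P2 K) c) = C c := rfl
  rw [this]
  simp only [Pi.smul_apply, smul_eq_mul, map_mul]
  ring

/-! ### linear maps -/

/-- the substitution `x_i ↦ ∑ M_ji x_j` -/
noncomputable def linHom (M : Matrix (Fin 2) (Fin 2) K) : P2 K →ₐ[K] P2 K :=
  aeval fun i => ∑ j, C (M j i) * X j

theorem linHom_X (M : Matrix (Fin 2) (Fin 2) K) (i : Fin 2) :
    linHom M (X i) = ∑ j, C (M j i) * X j := by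
  rw [linHom, aeval_X]

theorem linHom_mul (M N : Matrix (Fin 2) (Fin 2) K) :
    (linHom M).comp (linHom N) = linHom (M * N) := by
  apply algHom_ext
  intro i
  rw [AlgHom.comp_apply, linHom_X, linHom_X, map_sum]
  simp only [map_mul, algHom_C, linHom_X, Matrix.mul_apply, Fin.sum_univ_two, map_add]
  ring

theorem linHom_one : linHom (1 : Matrix (Fin 2) (Fin 2) K) = AlgHom.id K (P2 K) := by
  apply algHom_ext
  refine Fin.forall_fin_two.2 ⟨?_, ?_⟩
  · rw [linHom_X, Fin.sum_univ_two]
    simp
  · rw [linHom_X, Fin.sum_univ_two]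
    simp

/-- the linear automorphisms -/
noncomputable def lin : GL (Fin 2) K →* Au K where
  toFun M := AlgEquiv.ofAlgHom (linHom M.1) (linHom (M⁻¹).1)
    (by rw [linHom_mul, ← Units.val_mul, mul_inv_cancel, Units.val_one, linHom_one])
    (by rw [linHom_mul, ← Units.val_mul, inv_mul_cancel, Units.val_one, linHom_one])
  map_one' := by
    apply Au_ext
    intro i
    change linHom (1 : Matrix (Fin 2) (Fin 2) K) (X i) = X i
    rw [linHom_one]
    rfl
  map_mul' M N := by
    apply Au_ext
    intro i
    change linHom (M.1 * N.1) (X i) = (linHom M.1) ((linHom N.1) (X i))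
    rw [← linHom_mul]
    rfl

theorem lin_apply (M : GL (Fin 2) K) (f : P2 K) : lin M f = linHom M.1 f := rfl

/-- the action of a linear automorphism on the directions -/
def dir (M : GL (Fin 2) K) (v : Fin 2 → K) : Fin 2 → K := ((M⁻¹).1.transpose).mulVec v

theorem dir_inv (M : GL (Fin 2) K) (v : Fin 2 → K) : dir M⁻¹ (dir M v) = v := by
  unfold dir
  rw [Matrix.mulVec_mulVec, ← Matrix.transpose_mul, ← Units.val_mul]
  simp

theorem dir_ne_zero (M : GL (Fin 2) K) {v : Fin 2 → K} (hv : v ≠ 0) : dir M v ≠ 0 := by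
  intro h
  apply hv
  rw [← dir_inv M v, h]
  unfold dir
  simp

theorem conj_shear (M : GL (Fin 2) K) (v : Fin 2 → K) (p : Polynomial K) :
    lin M * shear v p * (lin M)⁻¹ =
      shear (dir M v) (p.comp (Polynomial.C M.1.det * Polynomial.X)) := by
  rw [← map_inv]
  apply Au_ext
  intro i
  have hl : linHom M.1 (ell v) = C M.1.det * ell (dir M v) := by
    have hN : M.1.det • (M⁻¹).1 = M.1.adjugate := by
      have h1 : (M⁻¹).1 = (M.1)⁻¹ := by
        rw [Matrix.coe_units_inv]
      rw [h1, Matrix.inv_def, smul_smul, Ring.mul_inverse_cancel, one_smul]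
      exact (Matrix.isUnit_iff_isUnit_det _).1 M.isUnit
    have h00 : M.1.det * (M⁻¹).1 0 0 = M.1 1 1 := by
      have := congrFun (congrFun hN 0) 0
      rw [Matrix.adjugate_fin_two] at this
      simpa using this
    have h01 : M.1.det * (M⁻¹).1 0 1 = - M.1 0 1 := by
      have := congrFun (congrFun hN 0) 1
      rw [Matrix.adjugate_fin_two] at this
      simpa using this
    have h10 : M.1.det * (M⁻¹).1 1 0 = - M.1 1 0 := by
      have := congrFun (congrFun hN 1) 0
      rw [Matrix.adjugate_fin_two] at this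
      simpa using this
    have h11 : M.1.det * (M⁻¹).1 1 1 = M.1 0 0 := by
      have := congrFun (congrFun hN 1) 1
      rw [Matrix.adjugate_fin_two] at this
      simpa using this
    have e0 : (C M.1.det : P2 K) * C ((M⁻¹).1 0 0) = C (M.1 1 1) := by rw [← map_mul, h00]
    have e1 : (C M.1.det : P2 K) * C ((M⁻¹).1 0 1) = - C (M.1 0 1) := by
      rw [← map_mul, h01, map_neg]
    have e2 : (C M.1.det : P2 K) * C ((M⁻¹).1 1 0) = - C (M.1 1 0) := by
      rw [← map_mul, h10, map_neg]
    have e3 : (C M.1.det : P2 K) * C ((M⁻¹).1 1 1) = C (M.1 0 0) := by rw [← map_mul, h11]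
    have d0 : dir M v 0 = (M⁻¹).1 0 0 * v 0 + (M⁻¹).1 1 0 * v 1 := by
      unfold dir
      simp [Matrix.mulVec, dotProduct, Fin.sum_univ_two]
    have d1 : dir M v 1 = (M⁻¹).1 0 1 * v 0 + (M⁻¹).1 1 1 * v 1 := by
      unfold dir
      simp [Matrix.mulVec, dotProduct, Fin.sum_univ_two]
    unfold ell dt
    rw [map_sub, map_mul, map_mul, linHom_X, linHom_X, algHom_C, algHom_C, Fin.sum_univ_two,
      Fin.sum_univ_two]
    change _ = C M.1.det * (C (dir M v 0) * X 1 - C (dir M v 1) * X 0)
    rw [d0, d1, map_add, map_add, map_mul, map_mul, map_mul, map_mul]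
    linear_combination (-(C (v 0) : P2 K) * X 1) * e0 + (C (v 0) : P2 K) * X 0 * e1
      - (C (v 1) : P2 K) * X 1 * e2 + (C (v 1) : P2 K) * X 0 * e3
  have hl2 : linHom M.1 (Polynomial.aeval (ell v) p) =
      Polynomial.aeval (ell (dir M v)) (p.comp (Polynomial.C M.1.det * Polynomial.X)) := by
    rw [← Polynomial.aeval_algHom_apply, hl, Polynomial.aeval_comp, map_mul, Polynomial.aeval_C,
      Polynomial.aeval_X]
    rfl
  change linHom M.1 (shearHom v p (linHom (M⁻¹).1 (X i))) = shearHom _ _ (X i)
  rw [linHom_X, shearHom_X, ← hl2, map_sum]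
  simp only [map_mul, algHom_C, shearHom_X]
  rw [map_sum]
  simp only [map_mul, algHom_C, map_add, Fin.sum_univ_two]
  have hinv : ∀ f : P2 K, linHom M.1 (linHom (M⁻¹).1 f) = f := by
    intro f
    have := DFunLike.congr_fun (linHom_mul M.1 (M⁻¹).1) f
    rw [AlgHom.comp_apply] at this
    rw [this, ← Units.val_mul, mul_inv_cancel, Units.val_one, linHom_one]
    rfl
  have h3 := hinv (X i)
  rw [linHom_X (M⁻¹).1 i, map_sum, Fin.sum_univ_two, map_mul, map_mul, algHom_C, algHom_C] at h3
  have d2 : dir M v i = (M⁻¹).1 0 i * v 0 + (M⁻¹).1 1 i * v 1 := by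
    unfold dir
    simp [Matrix.mulVec, dotProduct, Fin.sum_univ_two]
  rw [d2, map_add, map_mul, map_mul]
  linear_combination h3

end Pool.Agent.Helper686_FJ
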