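import Pool.Agent.H694.TR.Main

/-!
Homomorphisms from a group acting on a tree to a group with prescribed restrictions to the
stabilizers, and retractions onto the stabilizers when the stabilizers of the edges are trivial.
-/

set_option autoImplicit false

namespace Pool.Agent.Helper686_FJ

open Pool.Agent.H694.TR

section Walk

variable {V : Type} {T : SimpleGraph V} {J : Type} [Group J]

/-- The product of a function of the edges along a walk. -/
def wp (h : V → V → J) : ∀ {u v : V}, T.Walk u v → J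
  | _, _, .nil => 1
  | u, _, .cons (v := v) _ p => h u v * wp h p

theorem wp_append (h : V → V → J) {u v w : V} (p : T.Walk u v) (q : T.Walk v w) :
    wp h (p.append q) = wp h p * wp h q := by
  induction p with
  | nil => simp [wp]
  | cons h' p ih => rw [SimpleGraph.Walk.cons_append, wp, wp, ih, mul_assoc]

theorem path_uniq (hT : T.IsTree) {a b : V} (p q : T.Walk a b) (hp : p.IsPath) (hq : q.IsPath) :
    p = q := congrArg Subtype.val (hT.isAcyclic.path_unique ⟨p, hp⟩ ⟨q, hq⟩)

theorem wp_eq_path (hT : T.IsTree) (h : V → V → J) (hh : ∀ u v, T.Adj u v → h u v * h v u = 1)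
    {u v : V} (p : T.Walk u v) : ∀ q : T.Walk u v, q.IsPath → wp h p = wp h q := by
  classical
  induction p with
  | nil =>
    intro q hq
    rw [path_uniq hT q SimpleGraph.Walk.nil hq SimpleGraph.Walk.IsPath.nil]
  | @cons u v w h' p ih =>
    intro q hq
    set q' : T.Walk v w := p.bypass with hq'
    have hq'p : q'.IsPath := p.bypass_isPath
    rw [wp, ih q' hq'p]
    by_cases hu : u ∈ q'.support
    · have h1 := q'.take_spec hu
      have h2 : q'.takeUntil u hu = SimpleGraph.Walk.cons h'.symm SimpleGraph.Walk.nil := by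
        apply path_uniq hT _ _ (hq'p.takeUntil hu)
        simp [h'.ne']
      have h3 : q'.dropUntil u hu = q := path_uniq hT _ _ (hq'p.dropUntil hu) hq
      rw [← h1, wp_append, h2, h3, wp, wp, mul_one, ← mul_assoc, hh u v h', one_mul]
    · have h1 : SimpleGraph.Walk.cons h' q' = q := by
        apply path_uniq hT _ _ _ hq
        rw [SimpleGraph.Walk.cons_isPath_iff]
        exact ⟨hq'p, hu⟩
      rw [← h1, wp]

theorem wp_eq (hT : T.IsTree) (h : V → V → J) (hh : ∀ u v, T.Adj u v → h u v * h v u = 1)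
    {u v : V} (p q : T.Walk u v) : wp h p = wp h q := by
  classical
  rw [wp_eq_path hT h hh p q.bypass q.bypass_isPath, wp_eq_path hT h hh q q.bypass q.bypass_isPath]

/-- Potentials on a tree. -/
theorem ex_pot' (hT : T.IsTree) (h : V → V → J) (hh : ∀ u v, T.Adj u v → h u v * h v u = 1) :
    ∃ H : V → J, ∀ a b, T.Adj a b → H a = h a b * H b := by
  obtain ⟨v₀⟩ := hT.connected.nonempty
  have hw : ∀ u : V, Nonempty (T.Walk u v₀) := fun u => hT.connected.preconnected u v₀
  refine ⟨fun u => wp h (Classical.choice (hw u)), fun a b hab => ?_⟩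
  change wp h (Classical.choice (hw a)) = h a b * wp h (Classical.choice (hw b))
  rw [wp_eq hT h hh (Classical.choice (hw a))
    (SimpleGraph.Walk.cons hab (Classical.choice (hw b))), wp]

end Walk

section Coc

variable {K V : Type} [Group K] [MulAction K V] {T : SimpleGraph V} {J : Type} [Group J]

/-- A cocycle on the vertices with a compatible function of the edges comes from a
homomorphism. -/
theorem na_hom (hA : TreeAct K V T) (c : K → V → J)
    (hc : ∀ n m w, c (n * m) w = c n (m • w) * c m w)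
    (h : V → V → J) (hh : ∀ a b, T.Adj a b → h a b * h b a = 1)
    (hi : ∀ (n : K) a b, T.Adj a b → h (n • a) (n • b) * c n b = c n a * h a b) :
    ∃ (f : K →* J) (k : V → J), ∀ (w : V) (x : K), x • w = w → f x = (k w)⁻¹ * c x w * k w := by
  obtain ⟨v₀⟩ := hA.tree.connected.nonempty
  obtain ⟨H, hH⟩ := ex_pot' hA.tree h hh
  let F : K → V → J := fun n w => (H (n • w))⁻¹ * c n w * H w
  have hF : ∀ (n : K) a b, T.Adj a b → F n a = F n b := by
    intro n a b hab
    change (H (n • a))⁻¹ * c n a * H a = (H (n • b))⁻¹ * c n b * H b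
    have h1 : c n b = (h (n • a) (n • b))⁻¹ * (c n a * h a b) := by
      rw [← hi n a b hab, inv_mul_cancel_left]
    rw [hH a b hab, hH (n • a) (n • b) (hA.adj n a b hab), h1]
    group
  have hF2 : ∀ (n : K) (a b : V), F n a = F n b := by
    intro n a b
    obtain ⟨p⟩ : Nonempty (T.Walk a b) := hA.tree.connected.preconnected a b
    induction p with
    | nil => rfl
    | cons h' p ih => exact (hF n _ _ h').trans ih
  refine ⟨MonoidHom.mk' (fun n => F n v₀) ?_, H, ?_⟩
  · intro n m
    rw [hF2 n v₀ (m • v₀)]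
    change (H ((n * m) • v₀))⁻¹ * c (n * m) v₀ * H v₀ =
      ((H (n • m • v₀))⁻¹ * c n (m • v₀) * H (m • v₀)) * ((H (m • v₀))⁻¹ * c m v₀ * H v₀)
    rw [hc, mul_smul]
    group
  · intro w x hx
    change F x v₀ = _
    rw [hF2 x v₀ w]
    change (H (x • w))⁻¹ * c x w * H w = _
    rw [hx]

/-- The stabilizer of a vertex is a retract, with the stabilizers outside its orbit in the kernel. -/
theorem retr (hA : TreeAct K V T)
    (ht : ∀ a b, T.Adj a b → ∀ x : K, x • a = a → x • b = b → x = 1) (v : V) :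
    ∃ f : K →* K, (∀ x : K, x • v = v → f x = 1 → x = 1) ∧
      ∀ w, (¬ ∃ γ : K, γ • v = w) → ∀ x : K, x • w = w → f x = 1 := by
  classical
  let O : V → Prop := fun w => ∃ γ : K, γ • v = w
  have hO : ∀ (n : K) w, O (n • w) ↔ O w := by
    intro n w
    constructor
    · rintro ⟨γ, hγ⟩
      exact ⟨n⁻¹ * γ, by rw [mul_smul, hγ, inv_smul_smul]⟩
    · rintro ⟨γ, hγ⟩
      exact ⟨n * γ, by rw [mul_smul, hγ]⟩
  let g : V → K := fun w => if h : O w then h.choose else 1
  have hg : ∀ w, O w → g w • v = w := by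
    intro w h
    change (if h : O w then h.choose else 1) • v = w
    rw [dif_pos h]
    exact h.choose_spec
  obtain ⟨r, t, htr, hr⟩ := ex_rep (V := V) (MulAction.stabilizer K v)
  let c : K → V → K := fun n w => if O w then (g (n • w))⁻¹ * n * g w else 1
  have hc1 : ∀ n w, O w → c n w = (g (n • w))⁻¹ * n * g w := fun n w h => if_pos h
  have hc0 : ∀ n w, ¬ O w → c n w = 1 := fun n w h => if_neg h
  have hcv : ∀ n w, O w → c n w • v = v := by
    intro n w h
    rw [hc1 n w h, mul_smul, mul_smul, hg w h, inv_smul_eq_iff, hg (n • w) ((hO n w).2 h)]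
  let θ : V → V → K := fun a b => if O a then t ((g a)⁻¹ • b) else 1
  have hθ1 : ∀ a b, O a → θ a b = t ((g a)⁻¹ • b) := fun a b h => if_pos h
  have hθ0 : ∀ a b, ¬ O a → θ a b = 1 := fun a b h => if_neg h
  -- the action of the stabilizer on the neighbours is free
  have ht1 : ∀ (s : K) (u : V), s • v = v → T.Adj v u → t (s • u) = s * t u := by
    intro s u hs hu
    have e1 : r (s • u) = r u := hr s hs u
    have e2 : t (s • u) • r u = s • u := by rw [← e1]; exact (htr (s • u)).2
    have e3 : (s * t u) • r u = s • u := by rw [mul_smul, (htr u).2]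
    have s1 : t (s • u) • v = v := (htr (s • u)).1
    have s2 : t u • v = v := (htr u).1
    have hru : T.Adj v (r u) := by
      have h1 := hA.adj (t u)⁻¹ v u hu
      have h2 : (t u)⁻¹ • u = r u := by rw [inv_smul_eq_iff]; exact (htr u).2.symm
      have h3 : (t u)⁻¹ • v = v := by rw [inv_smul_eq_iff]; exact s2.symm
      rwa [h2, h3] at h1
    have h1 : (s * t u)⁻¹ * t (s • u) = 1 := by
      refine ht v (r u) hru _ ?_ ?_
      · rw [mul_smul, s1, inv_smul_eq_iff, mul_smul, s2, hs]
      · rw [mul_smul, e2, inv_smul_eq_iff, e3]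
    rw [inv_mul_eq_one] at h1
    exact h1.symm
  have hθ : ∀ (n : K) a b, T.Adj a b → θ (n • a) (n • b) = c n a * θ a b := by
    intro n a b hab
    by_cases h : O a
    · rw [hθ1 _ _ ((hO n a).2 h), hθ1 _ _ h]
      have h1 : (g (n • a))⁻¹ • n • b = c n a • (g a)⁻¹ • b := by
        rw [hc1 n a h, mul_smul, mul_smul, smul_inv_smul]
      rw [h1]
      refine ht1 _ _ (hcv n a h) ?_
      have h2 := hA.adj (g a)⁻¹ a b hab
      have h3 : (g a)⁻¹ • a = v := by rw [inv_smul_eq_iff]; exact (hg a h).symm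
      rwa [h3] at h2
    · rw [hθ0 _ _ (fun h' => h ((hO n a).1 h')), hθ0 _ _ h, hc0 n a h, one_mul]
  obtain ⟨f, k, hf⟩ := na_hom hA c (by
      intro n m w
      by_cases h : O w
      · rw [hc1 _ _ h, hc1 _ _ h, hc1 _ _ ((hO m w).2 h), mul_smul]
        group
      · rw [hc0 _ _ h, hc0 _ _ h, hc0 _ _ (fun h' => h ((hO m w).1 h')), one_mul])
    (fun a b => θ a b * (θ b a)⁻¹) (fun a b _ => by group)
    (fun n a b hab => by
      show θ (n • a) (n • b) * (θ (n • b) (n • a))⁻¹ * c n b = c n a * (θ a b * (θ b a)⁻¹)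
      rw [hθ n a b hab, hθ n b a hab.symm]
      group)
  refine ⟨f, fun x hx hfx => ?_, fun w hw x hx => ?_⟩
  · rw [hf v x hx, hc1 x v ⟨1, one_smul _ _⟩, hx] at hfx
    have h1 : x = (g v * k v) * ((k v)⁻¹ * ((g v)⁻¹ * x * g v) * k v) * (g v * k v)⁻¹ := by group
    rw [h1, hfx]
    group
  · rw [hf w x hx, hc0 x w hw]
    group

/-- An element fixing `u` and `v ≠ u` fixes a neighbour of `u`. -/
theorem fix_nbr (hA : TreeAct K V T) {u v : V} (huv : u ≠ v) (x : K) (hu : x • u = u)
    (hv : x • v = v) : ∃ w, T.Adj u w ∧ x • w = w := by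
  classical
  obtain ⟨q⟩ : Nonempty (T.Walk u v) := hA.tree.connected.preconnected u v
  obtain ⟨p, hp⟩ : ∃ p : T.Walk u v, p.IsPath := ⟨q.bypass, q.bypass_isPath⟩
  let f : T →g T := ⟨fun w => x • w, fun {a b} h => hA.adj x a b h⟩
  have hfi : Function.Injective f := MulAction.injective x
  have h1 : (p.map f).IsPath := SimpleGraph.Walk.map_isPath_of_injective hfi hp
  have h2 : ((p.map f).copy hu hv).IsPath := by
    rw [SimpleGraph.Walk.isPath_copy]
    exact h1
  have h3 : (p.map f).copy hu hv = p := path_uniq hA.tree _ _ h2 hp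
  refine ⟨p.getVert 1, ?_, ?_⟩
  · exact p.adj_snd (SimpleGraph.Walk.not_nil_of_ne huv)
  · have h4 := congrArg (fun w : T.Walk u v => w.getVert 1) h3
    simpa [SimpleGraph.Walk.getVert_copy, SimpleGraph.Walk.getVert_map, f] using h4

end Coc

end Pool.Agent.Helper686_FJ
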