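import Pool.Agent.Helper686_FJ.Tree1

/-!
Connected families of representatives of the orbits of a group which acts on a tree and is generated
by the stabilizers.
-/

set_option autoImplicit false

namespace Pool.Agent.Helper686_FJ

open Pool.Agent.H694.TR

variable {K V : Type} [Group K] [MulAction K V] {T : SimpleGraph V}

/-- Representatives of the orbits whose stabilizers generate the group. -/
theorem nice_rep (hA : TreeAct K V T) (hE : Ell K V = ⊤) :
    ∃ r : V → V, (∀ w, ∃ γ : K, γ • w = r w) ∧ (∀ (γ : K) w, r (γ • w) = r w) ∧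
      (⨆ w : V, MulAction.stabilizer K (r w)) = ⊤ := by
  classical
  obtain ⟨v₀⟩ := hA.tree.connected.nonempty
  have hmem : ∀ γ : K, γ ∈ Ell K V := fun γ => hE ▸ Subgroup.mem_top γ
  have hls : ∀ (γ : K) w, lev T K v₀ (γ • w) = lev T K v₀ w :=
    fun γ w => lev_smul hA v₀ w γ (hmem γ)
  obtain ⟨b, g, hg, hb⟩ := ex_rep (V := V) (⊤ : Subgroup K)
  have hb1 : ∀ (γ : K) w, b (γ • w) = b w := fun γ w => hb γ (Subgroup.mem_top γ) w
  have hbw : ∀ w, g w • b w = w := fun w => (hg w).2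
  have hlb : ∀ w, lev T K v₀ (b w) = lev T K v₀ w := by
    intro w
    have h1 := hls (g w) (b w)
    rw [hbw w] at h1
    exact h1.symm
  have hpar : ∀ w, ∃ a, lev T K v₀ w ≠ 0 → T.Adj w a ∧ lev T K v₀ w = lev T K v₀ a + 1 := by
    intro w
    rcases Nat.eq_zero_or_pos (lev T K v₀ w) with h | h
    · exact ⟨w, fun h' => absurd h h'⟩
    · obtain ⟨n, hn⟩ := Nat.exists_eq_succ_of_ne_zero h.ne'
      obtain ⟨a, h1, h2⟩ := ex_parent hA v₀ w n hn
      exact ⟨a, fun _ => ⟨h1, by rw [hn, h2]⟩⟩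
  choose par hpar using hpar
  -- the element which moves `a` to `y`
  let κ : V → V → K := fun a y => if h : ∃ k : K, k • a = y then h.choose else 1
  have hκ : ∀ a y, (∃ k : K, k • a = y) → κ a y • a = y := by
    intro a y h
    change (if h : ∃ k : K, k • a = y then h.choose else 1) • a = y
    rw [dif_pos h]
    exact h.choose_spec
  let ρ : ℕ → V → V := fun n => Nat.rec (motive := fun _ => V → V) (fun _ => v₀)
    (fun _ f w => κ (par (b w)) (f (par (b w))) • b w) n
  have hρ0 : ∀ w, ρ 0 w = v₀ := fun w => rfl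
  have hρs : ∀ n w, ρ (n + 1) w = κ (par (b w)) (ρ n (par (b w))) • b w := fun n w => rfl
  have hlp : ∀ n w, lev T K v₀ w = n + 1 → T.Adj (b w) (par (b w)) ∧ lev T K v₀ (par (b w)) = n := by
    intro n w hw
    have h1 := hpar (b w) (by rw [hlb w, hw]; omega)
    refine ⟨h1.1, ?_⟩
    have h2 := h1.2
    rw [hlb w, hw] at h2
    omega
  have hρo : ∀ n w, lev T K v₀ w = n → ∃ γ : K, γ • w = ρ n w := by
    intro n
    cases n with
    | zero =>
      intro w hw
      obtain ⟨γ, _, h⟩ := lev_zero hA v₀ w hw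
      exact ⟨γ, h⟩
    | succ n =>
      intro w _
      refine ⟨κ (par (b w)) (ρ n (par (b w))) * (g w)⁻¹, ?_⟩
      rw [mul_smul, hρs]
      congr 1
      rw [inv_smul_eq_iff]
      exact (hbw w).symm
  have hρi : ∀ n (γ : K) w, ρ n (γ • w) = ρ n w := by
    intro n
    cases n with
    | zero => intro γ w; rfl
    | succ n =>
      intro γ w
      rw [hρs, hρs, hb1]
  let r : V → V := fun w => ρ (lev T K v₀ w) w
  have hr1 : ∀ w, ∃ γ : K, γ • w = r w := fun w => hρo _ w rfl
  have hr2 : ∀ (γ : K) w, r (γ • w) = r w := by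
    intro γ w
    change ρ (lev T K v₀ (γ • w)) (γ • w) = ρ (lev T K v₀ w) w
    rw [hls, hρi]
  have hr3 : ∀ w, r (r w) = r w := by
    intro w
    obtain ⟨γ, hγ⟩ := hr1 w
    have h1 := hr2 γ w
    rwa [hγ] at h1
  have hlr : ∀ w, lev T K v₀ (r w) = lev T K v₀ w := by
    intro w
    obtain ⟨γ, hγ⟩ := hr1 w
    rw [← hγ, hls]
  -- adjacent representatives
  have hr4 : ∀ w, lev T K v₀ w ≠ 0 → ∃ p, T.Adj (r w) (r p) ∧ lev T K v₀ w = lev T K v₀ p + 1 := by
    intro w hw
    obtain ⟨n, hn⟩ := Nat.exists_eq_succ_of_ne_zero hw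
    obtain ⟨h1, h2⟩ := hlp n w hn
    refine ⟨par (b w), ?_, by rw [hn, h2]⟩
    have h3 : r (par (b w)) = ρ n (par (b w)) := by
      change ρ (lev T K v₀ (par (b w))) (par (b w)) = _
      rw [h2]
    have h4 : κ (par (b w)) (ρ n (par (b w))) • par (b w) = ρ n (par (b w)) :=
      hκ _ _ (hρo n _ h2)
    have h5 : r w = κ (par (b w)) (ρ n (par (b w))) • b w := by
      change ρ (lev T K v₀ w) w = _
      rw [hn, hρs]
    rw [h5, h3]
    have h6 := hA.adj (κ (par (b w)) (ρ n (par (b w)))) _ _ h1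
    rwa [h4] at h6
  have hr0 : r v₀ = v₀ := by
    change ρ (lev T K v₀ v₀) v₀ = v₀
    rw [lev_self hA v₀]
    exact hρ0 v₀
  refine ⟨r, hr1, hr2, ?_⟩
  obtain ⟨S, hS⟩ : ∃ S : Subgroup K, S = ⨆ w : V, MulAction.stabilizer K (r w) := ⟨_, rfl⟩
  have hSle : ∀ w, MulAction.stabilizer K (r w) ≤ S := fun w => by
    rw [hS]; exact le_iSup (fun w : V => MulAction.stabilizer K (r w)) w
  have step : ∀ a c, T.Adj a c → r a = a → ∃ s ∈ S, s • r c = c := by
    intro a c hac hra
    rcases dich hA v₀ hac.symm with h | h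
    · -- `c` is above `a`
      have h1 := h.1
      obtain ⟨p, h2, h3⟩ := hr4 c (by omega)
      obtain ⟨γ, hγ⟩ := hr1 c
      obtain ⟨δ, _, h4, h5⟩ := edge_unique hA v₀ hac.symm h2 h1 (by rw [hlr, hlr]; exact h3) γ
        (hmem γ) hγ
      have h6 : r p = a := by
        have h7 := hr2 δ a
        rw [h5, hr3, hra] at h7
        exact h7
      rw [h6] at h5
      refine ⟨δ⁻¹, S.inv_mem (hSle a ?_), ?_⟩
      · rw [MulAction.mem_stabilizer_iff, hra]
        exact h5
      · rw [inv_smul_eq_iff]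
        exact h4.symm
    · obtain ⟨p, h2, h3⟩ := hr4 a (by omega)
      rw [hra] at h2
      obtain ⟨δ, _, h4, h5⟩ := edge_unique hA v₀ hac h2 h (by rw [hlr]; exact h3) 1
        (hmem 1) (one_smul _ _)
      have h6 : r p = r c := by
        have h7 := hr2 δ c
        rw [h5, hr3] at h7
        exact h7
      rw [h6] at h5
      refine ⟨δ⁻¹, S.inv_mem (hSle a ?_), ?_⟩
      · rw [MulAction.mem_stabilizer_iff, hra]
        exact h4
      · rw [inv_smul_eq_iff]
        exact h5.symm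
  have all : ∀ u, ∃ s ∈ S, s • r u = u := by
    have h1 : ∀ (u v : V), T.Walk u v → (∃ s ∈ S, s • r u = u) → ∃ s ∈ S, s • r v = v := by
      intro u v p
      induction p with
      | nil => exact fun h => h
      | @cons a c w h' p ih =>
        rintro ⟨s, hs, hsa⟩
        apply ih
        obtain ⟨t, ht, htc⟩ := step (s⁻¹ • a) (s⁻¹ • c) (hA.adj s⁻¹ a c h') (by
          rw [hr2, eq_inv_smul_iff]
          exact hsa)
        rw [hr2] at htc
        refine ⟨s * t, S.mul_mem hs ht, ?_⟩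
        rw [mul_smul, htc, smul_inv_smul]
    intro u
    obtain ⟨p⟩ : Nonempty (T.Walk v₀ u) := hA.tree.connected.preconnected v₀ u
    exact h1 v₀ u p ⟨1, S.one_mem, by rw [one_smul, hr0]⟩
  rw [← hS, ← top_le_iff, ← hE]
  refine iSup_le fun u x hx => ?_
  obtain ⟨s, hs, hsu⟩ := all u
  have h1 : s⁻¹ * x * s ∈ S := by
    apply hSle u
    rw [MulAction.mem_stabilizer_iff, mul_smul, mul_smul, hsu, inv_smul_eq_iff, hsu]
    exact hx
  have h2 : x = s * (s⁻¹ * x * s) * s⁻¹ := by group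
  rw [h2]
  exact S.mul_mem (S.mul_mem hs h1) (S.inv_mem hs)

end Pool.Agent.Helper686_FJ
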