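import Pool.Agent.Helper686_FJ.Tree2
import Pool.Agent.R684.FP.Reg

/-!
Groups acting on trees with a homomorphism which is injective on the stabilizers of the edges.
-/

set_option autoImplicit false

namespace Pool.Agent.Helper686_FJ

open Pool.Agent.H694.TR Pool.Agent.H40R2.Zd Pool.Agent.Y110.FJ Pool.Agent.R684.FP
open Pool.Agent.R941.FJ (C_equiv C_le)

variable {C : ∀ (G : Type) [Group G], Prop}

section Dat

variable {G V : Type} [Group G] [MulAction G V] {T : SimpleGraph V}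

/-- A normal subgroup generated by its stabilizers of vertices, with trivial stabilizers of edges, is a
regular product of stabilizers. -/
theorem tree_dat (hA : TreeAct G V T) (M : Subgroup G) [hM : M.Normal]
    (ht : ∀ a b, T.Adj a b → ∀ x ∈ M, x • a = a → x • b = b → x = 1) (hE : Ell M V = ⊤) :
    ∃ (I : Type) (y : I → V), Dat M (fun i => M ⊓ MulAction.stabilizer G (y i)) ∧
      ∀ x ∈ M, x ≠ 1 → ∀ w, x • w = w → ∃ (i : I), ∃ m ∈ M, m • w = y i := by
  classical
  have hAM : TreeAct M V T := hA.sub M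
  obtain ⟨r, hr1, hr2, hr3⟩ := nice_rep hAM hE
  have hrr : ∀ w, r (r w) = r w := by
    intro w
    obtain ⟨γ, hγ⟩ := hr1 w
    have h1 := hr2 γ w
    rwa [hγ] at h1
  let I : Type := {y : V // r y = y ∧ ∃ x ∈ M, x ≠ 1 ∧ x • y = y}
  have hI : ∀ x ∈ M, x ≠ 1 → ∀ w, x • w = w → ∃ (i : I), ∃ m ∈ M, m • w = i.1 := by
    intro x hx hx1 w hxw
    obtain ⟨γ, hγ⟩ := hr1 w
    refine ⟨⟨r w, hrr w, (γ : G) * x * (γ : G)⁻¹, ?_, ?_, ?_⟩, γ, γ.2, hγ⟩
    · exact M.mul_mem (M.mul_mem γ.2 hx) (M.inv_mem γ.2)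
    · intro h
      apply hx1
      have h1 : x = (γ : G)⁻¹ * ((γ : G) * x * (γ : G)⁻¹) * (γ : G) := by group
      rw [h1, h]
      group
    · have h1 : (γ : G) • w = r w := hγ
      rw [← h1, mul_smul, mul_smul, inv_smul_smul, hxw]
  refine ⟨I, fun i => i.1, ⟨hM, ?_, ?_, ?_, ?_⟩, hI⟩
  · -- nontrivial
    rintro ⟨y, _, x, hx, hx1, hxy⟩ h
    have h1 : x ∈ M ⊓ MulAction.stabilizer G y := ⟨hx, hxy⟩
    rw [h, Subgroup.mem_bot] at h1
    exact hx1 h1
  · -- generation
    apply le_antisymm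
    · exact iSup_le fun i => inf_le_left
    · have h1 : (⊤ : Subgroup M) ≤
          (⨆ i : I, M ⊓ MulAction.stabilizer G i.1).comap M.subtype := by
        rw [← hr3]
        refine iSup_le fun w x hx => ?_
        rw [Subgroup.mem_comap]
        by_cases hx1 : (x : G) = 1
        · change (x : G) ∈ _
          rw [hx1]
          exact one_mem _
        · have h2 : (x : G) • r w = r w := hx
          have h3 : (x : G) ∈ M ⊓ MulAction.stabilizer G (r w) := ⟨x.2, h2⟩
          exact (le_iSup (fun i : I => M ⊓ MulAction.stabilizer G i.1)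
            ⟨r w, hrr w, x, x.2, hx1, h2⟩) h3
      intro x hx
      exact h1 (Subgroup.mem_top (⟨x, hx⟩ : M))
  · -- regularity
    rintro ⟨y, hy, hy2⟩
    obtain ⟨f, hf1, hf2⟩ := retr hAM (fun a b hab x hxa hxb =>
      Subtype.ext (ht a b hab x x.2 hxa hxb)) y
    rw [eq_bot_iff]
    rintro z ⟨⟨hz1, hz2⟩, hz3⟩
    have h1 : NC M (fun i : I => M ⊓ MulAction.stabilizer G i.1) ⟨y, hy, hy2⟩ ≤
        f.ker.map M.subtype := by
      rw [NC, Subgroup.closure_le]
      rintro _ ⟨⟨y', hy', hy2'⟩, hj, m, hm, b, ⟨hb1, hb2⟩, rfl⟩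
      refine ⟨⟨m, hm⟩ * ⟨b, hb1⟩ * ⟨m, hm⟩⁻¹, ?_, rfl⟩
      have h2 : f ⟨b, hb1⟩ = 1 := by
        refine hf2 y' ?_ _ hb2
        rintro ⟨γ, hγ⟩
        apply hj
        apply Subtype.ext
        change y' = y
        rw [← hy', ← hγ, hr2, hy]
      change f (⟨m, hm⟩ * ⟨b, hb1⟩ * ⟨m, hm⟩⁻¹) = 1
      rw [map_mul, map_mul, h2, mul_one, ← map_mul, mul_inv_cancel, map_one]
    obtain ⟨⟨x, hx⟩, hx1, hx2⟩ := h1 hz3
    have hx3 : x = z := hx2
    subst hx3
    have h3 : (⟨x, hx⟩ : M) = 1 := hf1 _ hz2 hx1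
    exact congrArg Subtype.val h3
  · -- permutation
    rintro g ⟨y, hy, x, hx, hx1, hxy⟩
    obtain ⟨i, m, hm, hmi⟩ := hI (g * x * g⁻¹) (hM.conj_mem x hx g) (by
      intro h
      apply hx1
      have h1 : x = g⁻¹ * (g * x * g⁻¹) * g := by group
      rw [h1, h]
      group) (g • y) (by rw [mul_smul, mul_smul, inv_smul_smul, hxy])
    refine ⟨i, m, hm, fun z => ?_⟩
    change (z ∈ M ∧ z • y = y) ↔ (m * (g * z * g⁻¹) * m⁻¹ ∈ M ∧
      (m * (g * z * g⁻¹) * m⁻¹) • i.1 = i.1)
    have e1 : m * (g * z * g⁻¹) * m⁻¹ ∈ M ↔ z ∈ M := by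
      constructor
      · intro h
        have h1 := hM.conj_mem _ h (m * g)⁻¹
        have h2 : (m * g)⁻¹ * (m * (g * z * g⁻¹) * m⁻¹) * (m * g)⁻¹⁻¹ = z := by group
        rwa [h2] at h1
      · intro h
        have h1 := hM.conj_mem _ h (m * g)
        have h2 : m * (g * z * g⁻¹) * m⁻¹ = (m * g) * z * (m * g)⁻¹ := by group
        rwa [h2]
    have e2 : (m * (g * z * g⁻¹) * m⁻¹) • i.1 = i.1 ↔ z • y = y := by
      rw [← hmi]
      have h1 : (m * (g * z * g⁻¹) * m⁻¹) • m • g • y = (m * g) • z • y := by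
        rw [← mul_smul, ← mul_smul, ← mul_smul]
        congr 1
        group
      rw [h1, ← mul_smul m g y]
      exact smul_left_cancel_iff _
    rw [e1, e2]

end Dat

/-- **Actions on trees with a homomorphism injective on the stabilizers of the edges.** -/
theorem edge_tree (hC : ClosedE C) (hF : FbC C) {G Q V : Type} [Group G] [Group Q]
    [MulAction G V] {T : SimpleGraph V} (hA : TreeAct G V T)
    (hst : ∀ v : V, C (MulAction.stabilizer G v)) (π : G →* Q) (hQ : C Q)
    (hinj : ∀ a b, T.Adj a b → ∀ x : G, x • a = a → x • b = b → π x = 1 → x = 1) : C G := by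
  let N : Subgroup G := π.ker
  let S : Subgroup N := Ell N V
  let M₀ : Subgroup G := S.map N.subtype
  have hMN : M₀ ≤ N := Subgroup.map_subtype_le _
  have hMn : M₀.Normal := by
    constructor
    rintro _ ⟨n, hn, rfl⟩ g
    have h1 : ∀ n ∈ Ell N V, (MulAut.conjNormal g n) ∈ Ell N V := by
      have h2 : Ell N V ≤ (Ell N V).comap (MulAut.conjNormal (H := N) g).toMonoidHom := by
        refine iSup_le ?_
        intro v x hx
        rw [Subgroup.mem_comap]
        apply stab_le_Ell (g • v)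
        rw [MulAction.mem_stabilizer_iff]
        have h3 : (x : G) • v = v := hx
        change (g * (x : G) * g⁻¹) • g • v = g • v
        rw [mul_smul, mul_smul, inv_smul_smul, h3]
      exact fun n hn => h2 hn
    exact ⟨MulAut.conjNormal g n, h1 n hn, rfl⟩
  -- the quotient by `M₀`
  have hQN : C (G ⧸ N) :=
    hC.base.of_injective _ _ (QuotientGroup.kerLift π) (QuotientGroup.kerLift_injective π) hQ
  have hQ₀ : C (G ⧸ M₀) := by
    let K : Subgroup (G ⧸ M₀) := N.map (QuotientGroup.mk' M₀)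
    have : K.Normal := Subgroup.Normal.map inferInstance _ (QuotientGroup.mk'_surjective M₀)
    let p : N →* K := ((QuotientGroup.mk' M₀).comp N.subtype).codRestrict K
      fun x => ⟨x, x.2, rfl⟩
    have hp : Function.Surjective p := by
      rintro ⟨_, x, hx, rfl⟩
      exact ⟨⟨x, hx⟩, rfl⟩
    have hk : p.ker = S := by
      ext x
      rw [MonoidHom.mem_ker]
      constructor
      · intro h
        have h1 : QuotientGroup.mk' M₀ (x : G) = 1 := congrArg Subtype.val h
        obtain ⟨y, hy, hyx⟩ := (QuotientGroup.eq_one_iff (x : G)).mp h1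
        have h2 : y = x := Subtype.ext hyx
        rw [← h2]
        exact hy
      · intro h
        apply Subtype.ext
        exact (QuotientGroup.eq_one_iff (x : G)).mpr ⟨x, h, rfl⟩
    have : IsFreeGroup (N ⧸ S) := quot_free (hA.sub N)
    have e1 : N ⧸ p.ker ≃* K := QuotientGroup.quotientKerEquivOfSurjective p hp
    have e2 : N ⧸ S ≃* N ⧸ p.ker := QuotientGroup.quotientMulEquivOfEq hk.symm
    have : IsFreeGroup K := IsFreeGroup.ofMulEquiv (e2.trans e1)
    refine free_ext hC hF K ?_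
    exact C_equiv hC.base (QuotientGroup.quotientQuotientEquivQuotient M₀ N hMN) hQN
  -- `M₀` is generated by stabilizers
  have hE : Ell M₀ V = ⊤ := by
    rw [← top_le_iff]
    have h1 : M₀ ≤ (Ell M₀ V).map M₀.subtype := by
      change (⨆ v : V, MulAction.stabilizer N v).map N.subtype ≤ _
      rw [Subgroup.map_iSup]
      refine iSup_le fun v => ?_
      rintro _ ⟨x, hx, rfl⟩
      have hxM : (x : G) ∈ M₀ := ⟨x, stab_le_Ell v hx, rfl⟩
      exact ⟨⟨(x : G), hxM⟩, stab_le_Ell (N := M₀) v hx, rfl⟩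
    intro x _
    obtain ⟨z, hz, hzx⟩ := h1 x.2
    have h2 : z = x := Subtype.ext hzx
    rw [← h2]
    exact hz
  have ht : ∀ a b, T.Adj a b → ∀ x ∈ M₀, x • a = a → x • b = b → x = 1 :=
    fun a b hab x hx hxa hxb => hinj a b hab x hxa hxb (hMN hx)
  obtain ⟨I, y, d, hI⟩ := tree_dat hA M₀ ht hE
  have hCn := Ct_normal d
  have hCfree : IsFreeGroup (Ct M₀ (fun i => M₀ ⊓ MulAction.stabilizer G (y i))) := by
    refine free_of_tree (N := (Ct M₀ (fun i => M₀ ⊓ MulAction.stabilizer G (y i)))) T hA.tree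
      (fun γ u v h => hA.adj (γ : G) u v h) (fun γ v h => ?_)
      (fun γ u v h h' => hA.inv (γ : G) u v h h')
    by_contra hγ
    have hγ1 : (γ : G) ≠ 1 := fun h' => hγ (Subtype.ext h')
    obtain ⟨i, m, hm, hmi⟩ := hI γ (Ct_le γ.2) hγ1 v h
    have h1 : m * (γ : G) * m⁻¹ ∈ Ct M₀ (fun i => M₀ ⊓ MulAction.stabilizer G (y i)) :=
      hCn.conj_mem _ γ.2 m
    have h2 : m * (γ : G) * m⁻¹ ∈ (M₀ ⊓ MulAction.stabilizer G (y i)) ⊓
        NC M₀ (fun i => M₀ ⊓ MulAction.stabilizer G (y i)) i := by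
      refine ⟨⟨Ct_le h1, ?_⟩, Ct_le' i h1⟩
      change (m * (γ : G) * m⁻¹) • y i = y i
      have h3 : (γ : G) • v = v := h
      rw [← hmi, mul_smul, mul_smul, inv_smul_smul, h3]
    rw [d.reg i, Subgroup.mem_bot] at h2
    apply hγ1
    have h3 : (γ : G) = m⁻¹ * (m * (γ : G) * m⁻¹) * m := by group
    rw [h3, h2]
    group
  refine regular hC d (fun g => free_cyc hC hF _ g) ?_ hQ₀
  intro i g hg
  have hfix : g • y i = y i := by
    by_contra hne
    obtain ⟨⟨x, hx⟩, hx0⟩ := Subgroup.ne_bot_iff_exists_ne_one.1 (d.ne i)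
    have hx1 : x ≠ 1 := fun h => hx0 (Subtype.ext h)
    have h1 := (hg x).1 hx
    have h2 : (g * x * g⁻¹) • g • y i = g • y i := by
      have h3 : x • y i = y i := hx.2
      rw [mul_smul, mul_smul, inv_smul_smul, h3]
    obtain ⟨w, hw1, hw2⟩ := fix_nbr hA (u := y i) (v := g • y i) (fun h => hne h.symm)
      (g * x * g⁻¹) h1.2 h2
    have h4 := ht _ _ hw1 (g * x * g⁻¹) h1.1 h1.2 hw2
    apply hx1
    have h3 : x = g⁻¹ * (g * x * g⁻¹) * g := by group
    rw [h3, h4]
    group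
  refine C_le hC.base (K := MulAction.stabilizer G (y i)) ?_ (hst (y i))
  refine sup_le inf_le_right ?_
  rw [Subgroup.zpowers_le]
  exact hfix

end Pool.Agent.Helper686_FJ
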