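import Mathlib

/-!
# Torsion-free groups with trivial Whitehead group, and `GL₂` in a class of groups
-/

set_option autoImplicit false

namespace Pool.Agent.Helper686_FJ

/-- `Γ` is torsion-free -/
def TorFree (Γ : Type) [Group Γ] : Prop := ∀ g : Γ, ∀ k : ℕ, 0 < k → g ^ k = 1 → g = 1

/-- the block sum of `A` and an identity matrix -/
def blk {S : Type} [Ring S] {n : ℕ} (m : ℕ) (A : Matrix (Fin n) (Fin n) S) :
    Matrix (Fin n ⊕ Fin (m + 1)) (Fin n ⊕ Fin (m + 1)) S := Matrix.fromBlocks A 0 0 1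

/-- the diagonal matrix with one entry `u` and all other diagonal entries `1` -/
def dgm {S : Type} [Ring S] (n m : ℕ) (u : S) :
    Matrix (Fin n ⊕ Fin (m + 1)) (Fin n ⊕ Fin (m + 1)) S :=
  Matrix.diagonal fun i => if i = Sum.inr 0 then u else 1

/-- The Whitehead group of `Γ` is trivial: every invertible matrix over `ℤΓ`, stabilised by an
identity block, is `± g` on one diagonal entry times a product of commutators of invertible
matrices. -/
def WhZero (Γ : Type) [Group Γ] : Prop :=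
  ∀ (n : ℕ) (A : (Matrix (Fin n) (Fin n) (MonoidAlgebra ℤ Γ))ˣ),
    ∃ (m : ℕ) (g : Γ) (ε : ℤˣ),
      ∃ B ∈ commutator (Matrix (Fin n ⊕ Fin (m + 1)) (Fin n ⊕ Fin (m + 1)) (MonoidAlgebra ℤ Γ))ˣ,
        blk m A.1 = dgm n m (MonoidAlgebra.single g (ε : ℤ)) * B.1

/-- `R` embeds into a division ring. -/
def EmbDiv (R : Type) [Ring R] : Prop :=
  ∃ (D : Type) (_ : DivisionRing D) (j : R →+* D), Function.Injective j

/-- `GL₂(R)` is in `C`. -/
def InC (C : ∀ (G : Type) [Group G], Prop) (R : Type) [Ring R] : Prop :=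
  C (Matrix (Fin 2) (Fin 2) R)ˣ

/-- The Whitehead groups of all torsion-free subgroups of `GL₂(R)` are trivial. -/
def WhG (R : Type) [Ring R] : Prop :=
  ∀ Γ : Subgroup (Matrix (Fin 2) (Fin 2) R)ˣ, TorFree Γ → WhZero Γ

/-- the map `GL₂(D[X]) → GL₂(D)`, the value at `X = 0` -/
noncomputable def val0 (D : Type) [Ring D] :
    (Matrix (Fin 2) (Fin 2) (Polynomial D))ˣ →* (Matrix (Fin 2) (Fin 2) D)ˣ :=
  Units.map ((Polynomial.constantCoeff (R := D)).mapMatrix (m := Fin 2)).toMonoidHom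

end Pool.Agent.Helper686_FJ
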